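import Pool.Agent.Lib.MP_b6294e_wc.Arith

/-!
# Dense orbits for plane triangular rational maps with a wandering critical point over a periodic
point of the base
-/

set_option linter.style.haveILetI false

namespace Pool.Agent.MP_b6294e_wc

open Polynomial Pool.Agent.MP_b6294e

universe u

section Prep

variable {K : Type u} [Field K]

/-- Split off a factor that depends only on the base coordinate. -/
theorem factor (Ξ : Finset K) (G : K[X][X]) (hG : G ≠ 0) :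
    ∃ (h : K[X]) (G' : K[X][X]), h ≠ 0 ∧ G = C h * G' ∧
      ∀ x ∈ Ξ, G'.map (evalRingHom x) ≠ 0 := by
  classical
  induction Ξ using Finset.induction_on with
  | empty => exact ⟨1, G, one_ne_zero, by rw [map_one, one_mul], by simp⟩
  | insert x Ξ _ ih =>
    obtain ⟨h, G', hh, hGG, hΞ⟩ := ih
    have hG' : G' ≠ 0 := by
      rintro rfl
      exact hG (by rw [hGG, mul_zero])
    have hnu : ¬ IsUnit (C (X - C x) : K[X][X]) := by
      rw [isUnit_C]
      exact not_isUnit_X_sub_C x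
    obtain ⟨j, G'', hnd, heq⟩ := WfDvdMonoid.max_power_factor' hG' hnu
    refine ⟨h * (X - C x) ^ j, G'', mul_ne_zero hh (pow_ne_zero _ (X_sub_C_ne_zero x)), ?_, ?_⟩
    · rw [hGG, heq, map_mul, map_pow]
      ring
    · intro y hy h0
      rcases Finset.mem_insert.mp hy with rfl | hy
      · apply hnd
        rw [C_dvd_iff_dvd_coeff]
        intro i
        rw [dvd_iff_isRoot]
        have h1 := congrArg (fun p => p.coeff i) h0
        simp only [coeff_map, coeff_zero] at h1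
        exact h1
      · apply hΞ y hy
        rw [heq, Polynomial.map_mul, h0, mul_zero]

theorem wr_ne_zero [CharZero K] (a b : K[X]) (hco : IsCoprime a b)
    (hd : b.natDegree < a.natDegree) : wr a b ≠ 0 := by
  intro h0
  unfold wr at h0
  rw [sub_eq_zero] at h0
  have h1 : a ∣ derivative a := hco.dvd_of_dvd_mul_right ⟨_, h0⟩
  have h2 : derivative a ≠ 0 := by
    intro h3
    have := derivative_eq_zero.mp h3
    omega
  have h3 := natDegree_le_of_dvd h1 h2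
  have h4 := natDegree_derivative_lt (p := a) (by omega)
  omega

theorem finite_coeff (S : Set K[X]) (hS : S.Finite) :
    {x : K | ∃ q ∈ S, ∃ n, q.coeff n = x}.Finite := by
  classical
  have h1 : {x : K | ∃ q ∈ S, ∃ n, q.coeff n = x} ⊆ ⋃ q ∈ S, (insert 0 q.coeffs : Finset K) := by
    rintro _ ⟨q, hq, n, rfl⟩
    refine Set.mem_iUnion₂.mpr ⟨q, hq, ?_⟩
    rw [Finset.mem_coe, Finset.mem_insert]
    by_cases h0 : q.coeff n = 0
    · exact Or.inl h0
    · exact Or.inr (coeff_mem_coeffs h0)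
  exact (hS.biUnion fun q _ => Finset.finite_toSet _).subset h1

theorem finite_range_coeff {R : Type*} [Semiring R] (q : R[X]) : (Set.range q.coeff).Finite := by
  classical
  refine ((insert 0 q.coeffs : Finset R).finite_toSet).subset ?_
  rintro _ ⟨n, rfl⟩
  rw [Finset.mem_coe, Finset.mem_insert]
  by_cases h0 : q.coeff n = 0
  · exact Or.inl h0
  · exact Or.inr (coeff_mem_coeffs h0)

theorem finite_range_periodic {α : Type*} (f : ℕ → α) (p : ℕ) (hp : 0 < p)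
    (h : ∀ t, f (t + p) = f t) : (Set.range f).Finite := by
  have e3 : ∀ s, f s = f (s % p) := by
    intro s
    have e4 : ∀ j, f (s % p + j * p) = f (s % p) := by
      intro j
      induction j with
      | zero => simp
      | succ j ih => rw [show s % p + (j + 1) * p = s % p + j * p + p by ring, h, ih]
    rw [← e4 (s / p), mul_comm, Nat.mod_add_div]
  refine ((Finset.range p).finite_toSet.image f).subset ?_
  rintro _ ⟨s, rfl⟩
  exact ⟨s % p, Finset.mem_coe.mpr (Finset.mem_range.mpr (Nat.mod_lt _ hp)), (e3 s).symm⟩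

end Prep

theorem main (K : Type u) [Field K] [CharZero K] [IsAlgClosed K]
    (halg : Algebra.IsAlgebraic ℚ K) (a₀ b₀ : K[X]) (a₁ b₁ : K[X][X])
    (hco : IsCoprime a₀ b₀) (hd : 2 ≤ max a₀.natDegree b₀.natDegree)
    (p : ℕ) (hp : 0 < p) (ξ c : ℕ → K) (hξ : ∀ t, ξ (t + p) = ξ t)
    (hb0 : ∀ t, b₀.eval (ξ t) ≠ 0) (h0 : ∀ t, b₀.eval (ξ t) * ξ (t + 1) = a₀.eval (ξ t))
    (hw0 : ∀ t, (wr a₀ b₀).eval (ξ t) ≠ 0)
    (hfc : ∀ t, IsCoprime (a₁.map (evalRingHom (ξ t))) (b₁.map (evalRingHom (ξ t))))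
    (hfd : ∀ t, (b₁.map (evalRingHom (ξ t))).natDegree < (a₁.map (evalRingHom (ξ t))).natDegree)
    (hb1 : ∀ t, b₁.evalEval (ξ t) (c t) ≠ 0)
    (h1 : ∀ t, b₁.evalEval (ξ t) (c t) * c (t + 1) = a₁.evalEval (ξ t) (c t))
    (hcrit : (wr a₁ b₁).evalEval (ξ 0) (c 0) = 0)
    (hinf : Function.Injective fun t => (ξ t, c t))
    (G : K[X][X]) (hG : G ≠ 0) :
    ∃ x y : ℕ → K, (∀ t, b₀.eval (x t) ≠ 0) ∧ (∀ t, b₀.eval (x t) * x (t + 1) = a₀.eval (x t)) ∧
      (∀ t, b₁.evalEval (x t) (y t) ≠ 0) ∧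
      (∀ t, b₁.evalEval (x t) (y t) * y (t + 1) = a₁.evalEval (x t) (y t)) ∧
      (∀ t, G.evalEval (x t) (y t) ≠ 0) ∧
      ∀ P : K[X][X], (∀ t, P.evalEval (x t) (y t) = 0) → P = 0 := by
  classical
  have hξf : (Set.range ξ).Finite := finite_range_periodic ξ p hp hξ
  obtain ⟨h, G', hh, hGG, hG'⟩ := factor hξf.toFinset G hG
  have hG'' : ∀ t, G'.map (evalRingHom (ξ t)) ≠ 0 := fun t =>
    hG' _ (hξf.mem_toFinset.mpr ⟨t, rfl⟩)
  have hξm : ∀ t s, ξ (t + s) = ξ (t % p + s) := by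
    intro t s
    have e4 : ∀ j, ξ (t % p + s + j * p) = ξ (t % p + s) := by
      intro j
      induction j with
      | zero => simp
      | succ j ih => rw [show t % p + s + (j + 1) * p = t % p + s + j * p + p by ring, hξ, ih]
    rw [← e4 (t / p)]
    congr 1
    have h2 := Nat.mod_add_div t p
    rw [mul_comm] at h2
    omega
  have hξpj : ∀ t j, ξ (t + p * j) = ξ t := by
    intro t j
    induction j with
    | zero => simp
    | succ j ih => rw [show t + p * (j + 1) = t + p * j + p by ring, hξ, ih]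
  -- Bezout coefficients
  have hbez : ∀ x : K, ∃ u v : K[X], IsCoprime (a₁.map (evalRingHom x)) (b₁.map (evalRingHom x)) →
      u * a₁.map (evalRingHom x) + v * b₁.map (evalRingHom x) = 1 := by
    intro x
    by_cases hx : IsCoprime (a₁.map (evalRingHom x)) (b₁.map (evalRingHom x))
    · obtain ⟨u, v, huv⟩ := hx
      exact ⟨u, v, fun _ => huv⟩
    · exact ⟨0, 0, fun h => absurd h hx⟩
  choose U V hUV using hbez
  -- roots
  set Q : K[X][X] := wr a₁ b₁ * G' with hQ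
  have hQ0 : ∀ t, Q.map (evalRingHom (ξ t)) ≠ 0 := by
    intro t
    rw [hQ, Polynomial.map_mul, map_wr]
    exact mul_ne_zero (wr_ne_zero _ _ (hfc t) (hfd t)) (hG'' t)
  let R : K → Multiset K := fun x => (Q.map (evalRingHom x)).roots
  let l : K → K := fun x => (Q.map (evalRingHom x)).leadingCoeff
  let OR : ℕ → K → ℕ → K := fun t ρ => orb a₁ b₁ (fun s => ξ (t + s)) ρ
  have hOR : ∀ t ρ, OR t ρ = OR (t % p) ρ := by
    intro t ρ
    have h2 : (fun s => ξ (t + s)) = fun s => ξ (t % p + s) := funext fun s => hξm t s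
    change orb a₁ b₁ (fun s => ξ (t + s)) ρ = orb a₁ b₁ (fun s => ξ (t % p + s)) ρ
    rw [h2]
  -- the finite set
  let S : Set K[X] := {a₀, b₀, h} ∪ Set.range a₁.coeff ∪ Set.range b₁.coeff ∪
    Set.range G'.coeff ∪ (fun x => a₁.map (evalRingHom x)) '' Set.range ξ ∪
    (fun x => b₁.map (evalRingHom x)) '' Set.range ξ ∪ U '' Set.range ξ ∪ V '' Set.range ξ
  have hS : S.Finite := by
    refine ((((((Set.Finite.union ?_ ?_).union ?_).union ?_).union ?_).union ?_).union ?_).union ?_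
    · exact (Set.toFinite _)
    · exact finite_range_coeff _
    · exact finite_range_coeff _
    · exact finite_range_coeff _
    · exact hξf.image _
    · exact hξf.image _
    · exact hξf.image _
    · exact hξf.image _
  let TZ : Set K := {z | ∃ t ∈ Finset.range p, ∃ ρ ∈ (R (ξ t)).toFinset,
    (Set.range (OR t ρ)).Finite ∧ ∃ s, OR t ρ s - c 0 = z}
  have hTZ : TZ.Finite := by
    have h2 : TZ ⊆ ⋃ t ∈ Finset.range p, ⋃ ρ ∈ (R (ξ t)).toFinset,
        {z | (Set.range (OR t ρ)).Finite ∧ ∃ s, OR t ρ s - c 0 = z} := by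
      rintro z ⟨t, ht, ρ, hρ, hz⟩
      exact Set.mem_iUnion₂.mpr ⟨t, ht, Set.mem_iUnion₂.mpr ⟨ρ, hρ, hz⟩⟩
    refine (Set.Finite.biUnion (Finset.finite_toSet _) fun t _ =>
      Set.Finite.biUnion (Finset.finite_toSet _) fun ρ _ => ?_).subset h2
    by_cases hf : (Set.range (OR t ρ)).Finite
    · refine (hf.image fun z => z - c 0).subset ?_
      rintro _ ⟨_, s, rfl⟩
      exact ⟨_, ⟨s, rfl⟩, rfl⟩
    · have : {z | (Set.range (OR t ρ)).Finite ∧ ∃ s, OR t ρ s - c 0 = z} = ∅ := by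
        ext z
        simp [hf]
      rw [this]
      exact Set.finite_empty
  let T : Set K := {x : K | ∃ q ∈ S, ∃ n, q.coeff n = x} ∪ Set.range ξ ∪ {c 0} ∪
    (fun x => b₀.eval x) '' Set.range ξ ∪ (fun x => (wr a₀ b₀).eval x) '' Set.range ξ ∪
    l '' Set.range ξ ∪ (⋃ x ∈ Set.range ξ, {ρ | ρ ∈ R x}) ∪ TZ
  have hT : T.Finite := by
    refine ((((((Set.Finite.union ?_ ?_).union ?_).union ?_).union ?_).union ?_).union ?_).union ?_
    · exact finite_coeff S hS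
    · exact hξf
    · exact Set.finite_singleton _
    · exact hξf.image _
    · exact hξf.image _
    · exact hξf.image _
    · exact hξf.biUnion fun x _ => by
        have : {ρ | ρ ∈ R x} = ((R x).toFinset : Set K) := by
          ext ρ
          simp
        rw [this]
        exact Finset.finite_toSet _
    · exact hTZ
  have hST : ∀ q ∈ S, ∀ n, q.coeff n ∈ T := fun q hq n => by
    refine Or.inl (Or.inl (Or.inl (Or.inl (Or.inl (Or.inl (Or.inl ?_))))))
    exact ⟨q, hq, n, rfl⟩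
  have hSa0 : a₀ ∈ S := by
    refine Or.inl (Or.inl (Or.inl (Or.inl (Or.inl (Or.inl (Or.inl ?_))))))
    simp
  have hSb0 : b₀ ∈ S := by
    refine Or.inl (Or.inl (Or.inl (Or.inl (Or.inl (Or.inl (Or.inl ?_))))))
    simp
  have hSh : h ∈ S := by
    refine Or.inl (Or.inl (Or.inl (Or.inl (Or.inl (Or.inl (Or.inl ?_))))))
    simp
  have hSa1 : ∀ j, a₁.coeff j ∈ S := fun j =>
    Or.inl (Or.inl (Or.inl (Or.inl (Or.inl (Or.inl (Or.inr ⟨j, rfl⟩))))))
  have hSb1 : ∀ j, b₁.coeff j ∈ S := fun j =>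
    Or.inl (Or.inl (Or.inl (Or.inl (Or.inl (Or.inr ⟨j, rfl⟩)))))
  have hSG : ∀ j, G'.coeff j ∈ S := fun j =>
    Or.inl (Or.inl (Or.inl (Or.inl (Or.inr ⟨j, rfl⟩))))
  have hSA : ∀ t, a₁.map (evalRingHom (ξ t)) ∈ S := fun t =>
    Or.inl (Or.inl (Or.inl (Or.inr ⟨ξ t, ⟨t, rfl⟩, rfl⟩)))
  have hSB : ∀ t, b₁.map (evalRingHom (ξ t)) ∈ S := fun t =>
    Or.inl (Or.inl (Or.inr ⟨ξ t, ⟨t, rfl⟩, rfl⟩))
  have hSU : ∀ t, U (ξ t) ∈ S := fun t => Or.inl (Or.inr ⟨ξ t, ⟨t, rfl⟩, rfl⟩)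
  have hSV : ∀ t, V (ξ t) ∈ S := fun t => Or.inr ⟨ξ t, ⟨t, rfl⟩, rfl⟩
  have hTξ : ∀ t, ξ t ∈ T := fun t =>
    Or.inl (Or.inl (Or.inl (Or.inl (Or.inl (Or.inl (Or.inr ⟨t, rfl⟩))))))
  have hTc : c 0 ∈ T := Or.inl (Or.inl (Or.inl (Or.inl (Or.inl (Or.inr rfl)))))
  have hTb : ∀ t, b₀.eval (ξ t) ∈ T := fun t =>
    Or.inl (Or.inl (Or.inl (Or.inl (Or.inr ⟨ξ t, ⟨t, rfl⟩, rfl⟩))))
  have hTw : ∀ t, (wr a₀ b₀).eval (ξ t) ∈ T := fun t =>
    Or.inl (Or.inl (Or.inl (Or.inr ⟨ξ t, ⟨t, rfl⟩, rfl⟩)))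
  have hTl : ∀ t, l (ξ t) ∈ T := fun t => Or.inl (Or.inl (Or.inr ⟨ξ t, ⟨t, rfl⟩, rfl⟩))
  have hTR : ∀ t, ∀ ρ ∈ R (ξ t), ρ ∈ T := fun t ρ hρ =>
    Or.inl (Or.inr (Set.mem_iUnion₂.mpr ⟨ξ t, ⟨t, rfl⟩, hρ⟩))
  have hTTZ : ∀ t, ∀ ρ ∈ R (ξ t), (Set.range (OR t ρ)).Finite → ∀ s, OR t ρ s - c 0 ∈ T := by
    intro t ρ hρ hf s
    refine Or.inr ⟨t % p, Finset.mem_range.mpr (Nat.mod_lt _ hp), ρ, ?_, ?_, s, ?_⟩
    · have h2 := hξm t 0
      rw [add_zero, add_zero] at h2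
      rw [Multiset.mem_toFinset, ← h2]
      exact hρ
    · rw [← hOR]
      exact hf
    · rw [← hOR]
  have hev : ∀ (q : K[X][X]) (x y : K), (q.map (evalRingHom x)).eval y = q.evalEval x y :=
    fun q x y => map_evalRingHom_eval _ _ _
  obtain ⟨A, _, _, _, _, ι, m, hι, hfin, hLf, hm, hc, hbc, hcn, hesc⟩ := arith K halg T hT a₀ b₀
    hco hd (fun t => a₁.map (evalRingHom (ξ t))) (fun t => b₁.map (evalRingHom (ξ t)))
    (fun t => U (ξ t)) (fun t => V (ξ t)) ξ c p hp (fun t => by rw [hξ]) (fun t => by rw [hξ])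
    (fun t => hUV _ (hfc t)) hfd (fun t => by rw [hev]; exact hb1 t)
    (fun t => by rw [hev, hev]; exact h1 t)
    (by
      intro i j hij
      have h2 : (ξ (p * i), c (p * i)) = (ξ (p * j), c (p * j)) := by
        have e1 := hξpj 0 i
        have e2 := hξpj 0 j
        rw [zero_add] at e1 e2
        rw [e1, e2]
        exact congrArg _ hij
      exact Nat.eq_of_mul_eq_mul_left hp (hinf h2))
    (hST _ hSa0) (hST _ hSb0) (hTξ 0) hTc (fun t => hST _ (hSA t)) (fun t => hST _ (hSB t))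
    (fun t => hST _ (hSU t)) (fun t => hST _ (hSV t))
  have hcn0 : c (p * m) ≠ c 0 := by
    intro h2
    have e1 := hξpj 0 m
    rw [zero_add] at e1
    have h3 : (ξ (p * m), c (p * m)) = (ξ 0, c 0) := by rw [e1, h2]
    have h4 := hinf h3
    have h5 := Nat.mul_pos hp hm
    omega
  rw [hGG]
  exact assemble hfin ι hι a₀ b₀ h a₁ b₁ G' hh ξ c (p * m) (Nat.mul_pos hp hm)
    (fun t => hξpj t m) hb0 h0 hw0 h1 hcrit hcn0 (fun t => R (ξ t)) (fun t => l (ξ t))
    (fun t => leadingCoeff_ne_zero.mpr (hQ0 t))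
    (by
      intro t y
      rw [← hQ, ← hev, (IsAlgClosed.splits (Q.map (evalRingHom (ξ t)))).eval_eq_prod_roots])
    (fun n => hLf _ (hST _ hSa0 n)) (fun n => hLf _ (hST _ hSb0 n)) (fun n => hLf _ (hST _ hSh n))
    (fun j n => hLf _ (hST _ (hSa1 j) n)) (fun j n => hLf _ (hST _ (hSb1 j) n))
    (fun j n => hLf _ (hST _ (hSG j) n)) (fun t => hLf _ (hTξ t)) (fun t => hLf _ (hTb t))
    (fun t => hLf _ (hTw t)) (fun t => hLf _ (hTl t)) (fun t ρ hρ => hLf _ (hTR t ρ hρ))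
    (fun t ρ hρ hf s => hLf _ (hTTZ t ρ hρ hf s)) hc
    (fun t => by
      obtain ⟨z, hz, hzu⟩ := hbc t
      exact ⟨z, by rw [hz, hev], hzu⟩)
    hcn hesc

end Pool.Agent.MP_b6294e_wc
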