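import Pool.Agent.Lib.MP_b6294e_wc.Place

/-!
# An orbit that returns near its starting point at a finite place is integral at that place
-/

set_option linter.style.haveILetI false

namespace Pool.Agent.MP_b6294e_wc

open NumberField NumberField.FinitePlace Polynomial

variable {k : Type*} [Field k] [NumberField k] (w : FinitePlace k)

/-- All coefficients are integral at `w`. -/
def Int (p : k[X]) : Prop := ∀ i, w (p.coeff i) ≤ 1

variable {w}

theorem Int.lift {p : k[X]} (hp : Int w p) : ∃ q : (Ow w)[X], q.map (Ow w).subtype = p := by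
  rw [← mem_lifts, lifts_iff_coeff_lifts]
  intro n
  exact ⟨⟨p.coeff n, (mem_Ow w _).mpr (hp n)⟩, rfl⟩

theorem eval_sub (q : (Ow w)[X]) (z : Ow w) :
    (q.map (Ow w).subtype).eval (z : k) = ((q.eval z : Ow w) : k) := by
  rw [eval_map]
  exact eval₂_at_apply (Ow w).subtype z

theorem Int.eval_le {p : k[X]} (hp : Int w p) {z : k} (hz : w z ≤ 1) : w (p.eval z) ≤ 1 := by
  obtain ⟨q, rfl⟩ := hp.lift
  have h1 := eval_sub q ⟨z, (mem_Ow w z).mpr hz⟩
  rw [h1]
  exact (mem_Ow w _).mp (q.eval _).2

theorem Int.lip {p : k[X]} (hp : Int w p) {z z' : k} (hz : w z ≤ 1) (hz' : w z' ≤ 1) :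
    w (p.eval z - p.eval z') ≤ w (z - z') := by
  obtain ⟨q, rfl⟩ := hp.lift
  have h1 := eval_sub q ⟨z, (mem_Ow w z).mpr hz⟩
  have h2 := eval_sub q ⟨z', (mem_Ow w z').mpr hz'⟩
  obtain ⟨c, hc⟩ := sub_dvd_eval_sub (⟨z, (mem_Ow w z).mpr hz⟩ : Ow w)
    ⟨z', (mem_Ow w z').mpr hz'⟩ q
  have h3 := congrArg (Ow w).subtype hc
  rw [map_sub, map_mul, map_sub] at h3
  rw [h1, h2]
  have h4 : (((q.eval (⟨z, (mem_Ow w z).mpr hz⟩ : Ow w) : Ow w) : k) -
      ((q.eval (⟨z', (mem_Ow w z').mpr hz'⟩ : Ow w) : Ow w) : k)) = (z - z') * (c : k) := h3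
  rw [h4, map_mul]
  exact mul_le_of_le_one_right (apply_nonneg w _) ((mem_Ow w _).mp c.2)

theorem add_le_max (x y : k) : w (x + y) ≤ max (w x) (w y) := FinitePlace.add_le w x y

theorem sub_le_max (x y : k) : w (x - y) ≤ max (w x) (w y) := by
  have h := add_le_max (w := w) x (-y)
  rwa [← sub_eq_add_neg, map_neg_eq_map] at h

/-- The value of a polynomial at a large argument. -/
theorem big {p : k[X]} (hp : Int w p) {z : k} (hz : 1 < w z) :
    w (p.eval z) ≤ w z ^ p.natDegree ∧
      (w p.leadingCoeff = 1 → w (p.eval z) = w z ^ p.natDegree) := by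
  obtain ⟨q, hq⟩ := hp.lift
  have hz0 : z ≠ 0 := by
    rintro rfl
    rw [map_zero] at hz
    exact absurd hz (by norm_num)
  have hinj : Function.Injective (Ow w).subtype := Subtype.val_injective
  letI : Invertible z := invertibleOfNonzero hz0
  have h1 := eval₂_reverse_mul_pow (Ow w).subtype z q
  rw [eval₂_eq_eval_map, eval₂_eq_eval_map, hq, invOf_eq_inv] at h1
  have hu : w z⁻¹ < 1 := by
    rw [map_inv₀]
    exact inv_lt_one_of_one_lt₀ hz
  have hnd : q.natDegree = p.natDegree := by
    rw [← hq, natDegree_map_eq_of_injective hinj]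
  have h2 := eval_sub q.reverse ⟨z⁻¹, (mem_Ow w _).mpr hu.le⟩
  have h3 : w ((q.reverse.map (Ow w).subtype).eval z⁻¹) ≤ 1 := by
    change w ((q.reverse.map (Ow w).subtype).eval ((⟨z⁻¹, (mem_Ow w _).mpr hu.le⟩ : Ow w) : k)) ≤ 1
    rw [h2]
    exact (mem_Ow w _).mp (q.reverse.eval _).2
  refine ⟨?_, fun hlc => ?_⟩
  · rw [← h1, map_mul, map_pow, hnd]
    exact mul_le_of_le_one_left (pow_nonneg (apply_nonneg w _) _) h3
  · have h4 : Int w (q.reverse.map (Ow w).subtype) := by
      intro i
      rw [coeff_map]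
      exact (mem_Ow w _).mp (q.reverse.coeff i).2
    have h5 := h4.lip hu.le (z' := 0) (by rw [map_zero]; exact zero_le_one)
    rw [sub_zero] at h5
    have h6 : w ((q.reverse.map (Ow w).subtype).eval 0) = 1 := by
      rw [← coeff_zero_eq_eval_zero, coeff_map, coeff_zero_reverse]
      have h7 : (Ow w).subtype q.leadingCoeff = p.leadingCoeff := by
        rw [← hq, leadingCoeff_map_of_injective hinj]
      rw [h7, hlc]
    have h7 : w ((q.reverse.map (Ow w).subtype).eval z⁻¹) = 1 := by
      refine le_antisymm h3 ?_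
      by_contra hcon
      push Not at hcon
      have h8 := sub_le_max (w := w) ((q.reverse.map (Ow w).subtype).eval z⁻¹)
        ((q.reverse.map (Ow w).subtype).eval z⁻¹ - (q.reverse.map (Ow w).subtype).eval 0)
      rw [sub_sub_cancel, h6] at h8
      exact absurd h8 (not_le.mpr (max_lt hcon (h5.trans_lt hu)))
    rw [← h1, map_mul, map_pow, hnd, h7, one_mul]

section Step

variable {a b u v : k[X]} {z z' : k}

/-- Outside the unit disc, the orbit stays outside. -/
theorem step_bad (ha : Int w a) (hb : Int w b) (hlc : w a.leadingCoeff = 1)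
    (hdeg : b.natDegree < a.natDegree) (hz : 1 < w z)
    (h : b.eval z * z' = a.eval z) : 1 < w z' := by
  have h1 := (big hb hz).1
  have h2 := (big ha hz).2 hlc
  have h3 := congrArg w h
  rw [map_mul, h2] at h3
  by_contra hcon
  push Not at hcon
  have h4 : w z ^ a.natDegree ≤ w z ^ b.natDegree := by
    rw [← h3]
    exact (mul_le_of_le_one_right (apply_nonneg w _) hcon).trans h1
  have h5 := pow_lt_pow_right₀ hz hdeg
  linarith

/-- A zero of the denominator sends the orbit outside the unit disc. -/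
theorem step_exit (hu : Int w u) (hv : Int w v) (huv : u * a + v * b = 1)
    (hz : w z ≤ 1) (hb1 : w (b.eval z) < 1)
    (h : b.eval z * z' = a.eval z) : 1 < w z' := by
  have h1 := congrArg (fun p => w (p.eval z)) huv
  simp only [eval_add, eval_mul, eval_one, map_one] at h1
  have h2 := hu.eval_le hz
  have h3 := hv.eval_le hz
  have h4 : 1 ≤ w (a.eval z) := by
    by_contra hcon
    push Not at hcon
    have h5 := add_le_max (w := w) (u.eval z * a.eval z) (v.eval z * b.eval z)
    rw [h1, map_mul, map_mul] at h5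
    have h6 : w (u.eval z) * w (a.eval z) < 1 :=
      (mul_le_of_le_one_left (apply_nonneg w _) h2).trans_lt hcon
    have h7 : w (v.eval z) * w (b.eval z) < 1 :=
      (mul_le_of_le_one_left (apply_nonneg w _) h3).trans_lt hb1
    exact absurd h5 (not_le.mpr (max_lt h6 h7))
  have h5 := congrArg w h
  rw [map_mul] at h5
  by_contra hcon
  push Not at hcon
  have h6 : w (b.eval z) * w z' ≤ w (b.eval z) := mul_le_of_le_one_right (apply_nonneg w _) hcon
  linarith

theorem step_good (ha : Int w a) (hz : w z ≤ 1) (hb1 : w (b.eval z) = 1)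
    (h : b.eval z * z' = a.eval z) : w z' ≤ 1 := by
  have h5 := congrArg w h
  rw [map_mul, hb1, one_mul] at h5
  rw [h5]
  exact ha.eval_le hz

/-- Rational functions with good reduction are 1-Lipschitz. -/
theorem step_lip (ha : Int w a) (hb : Int w b) {y y' : k} (hz : w z ≤ 1) (hz' : w z' ≤ 1)
    (hb1 : w (b.eval z) = 1) (hy' : w y' ≤ 1)
    (h : b.eval z * y = a.eval z) (h' : b.eval z' * y' = a.eval z') :
    w (y - y') ≤ w (z - z') := by
  have h1 : b.eval z * (y - y') = (a.eval z - a.eval z') - (b.eval z - b.eval z') * y' := by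
    linear_combination h - h'
  have h2 := congrArg w h1
  rw [map_mul, hb1, one_mul] at h2
  rw [h2]
  refine (sub_le_max _ _).trans (max_le (ha.lip hz hz') ?_)
  rw [map_mul]
  exact (mul_le_of_le_one_right (apply_nonneg w _) hy').trans (hb.lip hz hz')

end Step

/-- An orbit of a periodic sequence of rational functions that fix infinity is integral if it
returns to its starting point modulo the place. -/
theorem integral_orbit (a b u v : ℕ → k[X]) (c : ℕ → k) (n : ℕ) (hn0 : 0 < n)
    (hna : ∀ t, a (t + n) = a t) (hnb : ∀ t, b (t + n) = b t)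
    (ha : ∀ t, Int w (a t)) (hb : ∀ t, Int w (b t)) (hu : ∀ t, Int w (u t))
    (hv : ∀ t, Int w (v t)) (huv : ∀ t, u t * a t + v t * b t = 1)
    (hlc : ∀ t, w (a t).leadingCoeff = 1) (hdeg : ∀ t, (b t).natDegree < (a t).natDegree)
    (h : ∀ t, (b t).eval (c t) * c (t + 1) = (a t).eval (c t))
    (h0 : w (c 0) ≤ 1) (hn : w (c n - c 0) < 1) :
    ∀ t, w (c t) ≤ 1 ∧ w ((b t).eval (c t)) = 1 ∧ w (c (t + n) - c t) < 1 := by
  have hbad : ∀ t s, 1 < w (c t) → 1 < w (c (t + s)) := by
    intro t s ht
    induction s with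
    | zero => exact ht
    | succ s ih => exact step_bad (ha _) (hb _) (hlc _) (hdeg _) ih (h (t + s))
  have h1 : w (c n) ≤ 1 := by
    have h2 := add_le_max (w := w) (c n - c 0) (c 0)
    rw [sub_add_cancel] at h2
    exact h2.trans (max_le hn.le h0)
  have h2 : ∀ j ≤ n, w (c j) ≤ 1 := by
    intro j hj
    by_contra hcon
    push Not at hcon
    have h3 := hbad j (n - j) hcon
    rw [Nat.add_sub_cancel' hj] at h3
    linarith
  have h3 : ∀ j < n, w ((b j).eval (c j)) = 1 := by
    intro j hj
    refine le_antisymm ((hb j).eval_le (h2 j hj.le)) ?_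
    by_contra hcon
    push Not at hcon
    have h4 := step_exit (hu j) (hv j) (huv j) (h2 j hj.le) hcon (h j)
    have h5 := h2 (j + 1) hj
    linarith
  have key : ∀ t, (∀ j ≤ t + n, w (c j) ≤ 1) ∧ (∀ j < t + n, w ((b j).eval (c j)) = 1) ∧
      w (c (t + n) - c t) < 1 := by
    intro t
    induction t with
    | zero => exact ⟨by simpa using h2, by simpa using h3, by simpa using hn⟩
    | succ t ih =>
      obtain ⟨i1, i2, i3⟩ := ih
      have e0 : w ((b (t + n)).eval (c (t + n))) = 1 := by
        refine le_antisymm ((hb _).eval_le (i1 _ le_rfl)) ?_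
        by_contra hcon
        push Not at hcon
        have e1 := (hb (t + n)).lip (i1 (t + n) le_rfl) (i1 t (Nat.le_add_right _ _))
        have e2 := sub_le_max (w := w) ((b (t + n)).eval (c (t + n)))
          ((b (t + n)).eval (c (t + n)) - (b (t + n)).eval (c t))
        rw [sub_sub_cancel] at e2
        have e3 : w ((b (t + n)).eval (c t)) = 1 := by
          rw [hnb]
          exact i2 t (by omega)
        rw [e3] at e2
        exact absurd e2 (not_le.mpr (max_lt hcon (e1.trans_lt i3)))
      have e1 : w (c (t + 1 + n)) ≤ 1 := by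
        rw [show t + 1 + n = (t + n) + 1 by ring]
        exact step_good (ha _) (i1 _ le_rfl) e0 (h (t + n))
      refine ⟨?_, ?_, ?_⟩
      · intro j hj
        rcases Nat.lt_or_ge j (t + 1 + n) with h4 | h4
        · exact i1 j (by omega)
        · rw [show j = t + 1 + n by omega]
          exact e1
      · intro j hj
        rcases Nat.lt_or_ge j (t + n) with h4 | h4
        · exact i2 j h4
        · rw [show j = t + n by omega]
          exact e0
      · refine lt_of_le_of_lt ?_ i3
        rw [show t + 1 + n = (t + n) + 1 by ring]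
        have h5 := h (t + n)
        rw [hna, hnb] at h5
        refine step_lip (ha t) (hb t) (i1 _ le_rfl) (i1 t (Nat.le_add_right _ _)) ?_ ?_ h5 (h t)
        · rw [← hnb]
          exact e0
        · exact i1 _ (by omega)
  intro t
  obtain ⟨i1, i2, i3⟩ := key t
  exact ⟨i1 t (Nat.le_add_right _ _), i2 t (by omega), i3⟩

end Pool.Agent.MP_b6294e_wc
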