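import Mathlib

/-!
# First return of an infinite orbit near its starting point at some finite place

For an infinite orbit `c_0, c_1, ...` of a rational function over a number field, and a finite set
`S` of finite places, there are `n > 0` and a finite place `v` outside `S` with
`|c_n - c_0|_v < 1`.
-/

namespace Pool.Agent.MP_b6294e_wc

open NumberField Filter Topology Height Real

variable {k : Type*} [Field k] [NumberField k]

/-- The height of a number whose absolute values outside a finite set of places are at most 1. -/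
theorem logHeight_le_of_outside (S₀ : Finset (FinitePlace k)) (z : k) (B : ℝ)
    (hout : ∀ v : FinitePlace k, v ∉ S₀ → v z ≤ 1)
    (hin : ∀ v ∈ S₀, log⁺ (v z) ≤ B) (hinf : ∀ v : InfinitePlace k, log⁺ (v z) ≤ B) :
    logHeight₁ z ≤ (∑ v : InfinitePlace k, v.mult * B) + S₀.card • B := by
  classical
  rw [NumberField.logHeight₁_eq]
  refine add_le_add ?_ ?_
  · exact Finset.sum_le_sum fun v _ => mul_le_mul_of_nonneg_left (hinf v) (Nat.cast_nonneg _)
  · rw [finsum_eq_sum_of_support_subset (s := S₀)]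
    · exact Finset.sum_le_card_nsmul _ _ _ hin
    · intro v hv
      by_contra hcon
      refine hv ?_
      rw [Real.posLog_eq_zero_iff, abs_of_nonneg (apply_nonneg v z)]
      exact hout v hcon

theorem exists_return (S₀ : Finset (FinitePlace k)) (c : ℕ → k) (hc : Function.Injective c)
    (hcont : ∀ (w : AbsoluteValue k ℝ) (l : Filter ℕ) (s j : ℕ),
      Tendsto (fun n => w (c (n + s) - c 0)) l (𝓝 0) →
      Tendsto (fun n => w (c (n + s + j) - c j)) l (𝓝 0)) :
    ∃ n, 0 < n ∧ ∃ v : FinitePlace k, v ∉ S₀ ∧ v (c n - c 0) < 1 := by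
  classical
  by_contra hcon
  push Not at hcon
  let ι := InfinitePlace k ⊕ S₀
  let w : ι → AbsoluteValue k ℝ := Sum.elim (fun v => v.1) (fun v => v.1.1)
  set U : Ultrafilter ℕ := Filter.hyperfilter ℕ with hU
  have claim : ∀ s : ℕ, ∃ i : ι, Tendsto (fun n => w i (c (n + (s + 1)) - c 0)) U (𝓝 0) := by
    intro s
    by_contra hno
    push Not at hno
    have h1 : ∀ i : ι, ∃ ε : ℝ, 0 < ε ∧ ∀ᶠ n in (U : Filter ℕ), ε ≤ w i (c (n + (s + 1)) - c 0) := by
      intro i
      have h2 := hno i
      rw [Metric.tendsto_nhds] at h2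
      push Not at h2
      obtain ⟨ε, hε, h3⟩ := h2
      refine ⟨ε, hε, ?_⟩
      filter_upwards [h3] with n hn
      rw [Real.dist_eq, sub_zero, abs_of_nonneg ((w i).nonneg _)] at hn
      exact hn
    choose ε hε h1 using h1
    have h5 : ∀ᶠ n in (U : Filter ℕ), ∀ i, ε i ≤ w i (c (n + (s + 1)) - c 0) :=
      Filter.eventually_all.mpr h1
    have hinf : {n : ℕ | ∀ i, ε i ≤ w i (c (n + (s + 1)) - c 0)}.Infinite := by
      intro hfin
      exact (Filter.notMem_hyperfilter_of_finite hfin) h5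
    obtain ⟨B, hB⟩ : ∃ B : ℝ, ∀ i, log⁺ ((ε i)⁻¹) ≤ B := by
      obtain ⟨B, hB⟩ := (Set.finite_range fun i => log⁺ ((ε i)⁻¹)).bddAbove
      exact ⟨B, fun i => hB ⟨i, rfl⟩⟩
    have hb : ∀ n ∈ {n : ℕ | ∀ i, ε i ≤ w i (c (n + (s + 1)) - c 0)}, ∀ i,
        log⁺ (w i ((c (n + (s + 1)) - c 0)⁻¹)) ≤ B := by
      intro n hn i
      refine le_trans (Real.posLog_le_posLog ((w i).nonneg _) ?_) (hB i)
      rw [map_inv₀]
      exact inv_anti₀ (hε i) (hn i)
    have hmaps : Set.MapsTo (fun n => (c (n + (s + 1)) - c 0)⁻¹)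
        {n : ℕ | ∀ i, ε i ≤ w i (c (n + (s + 1)) - c 0)}
        {z : k | logHeight₁ z ≤ (∑ v : InfinitePlace k, v.mult * B) + S₀.card • B} := by
      intro n hn
      refine logHeight_le_of_outside S₀ _ B ?_ ?_ ?_
      · intro v hv
        rw [map_inv₀]
        exact inv_le_one_of_one_le₀ (hcon _ (Nat.succ_pos _) v hv)
      · intro v hv
        exact hb n hn (Sum.inr ⟨v, hv⟩)
      · intro v
        exact hb n hn (Sum.inl v)
    have hinj : Set.InjOn (fun n => (c (n + (s + 1)) - c 0)⁻¹)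
        {n : ℕ | ∀ i, ε i ≤ w i (c (n + (s + 1)) - c 0)} := by
      intro n _ n' _ h
      have h6 := hc (sub_left_injective (inv_injective h))
      omega
    exact (Set.infinite_of_injOn_mapsTo hinj hmaps hinf)
      (NumberField.finite_setOfPred_logHeight₁_le k _)
  choose i hi using claim
  obtain ⟨s, s', hss, heq⟩ := Finite.exists_ne_map_eq_of_infinite i
  wlog hlt : s < s' generalizing s s'
  · exact this s' s hss.symm heq.symm (lt_of_le_of_ne (not_lt.mp hlt) hss.symm)
  obtain ⟨j, rfl⟩ := Nat.exists_eq_add_of_lt hlt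
  have h1 := hcont (w (i s)) U (s + 1) (j + 1) (hi s)
  have h2 := hi (s + j + 1)
  rw [← heq] at h2
  have h3 : ∀ n, w (i s) (c (j + 1) - c 0) ≤ w (i s) (c (n + (s + 1) + (j + 1)) - c (j + 1)) +
      w (i s) (c (n + (s + j + 1 + 1)) - c 0) := by
    intro n
    have h4 : c (j + 1) - c 0 = - (c (n + (s + 1) + (j + 1)) - c (j + 1)) +
        (c (n + (s + j + 1 + 1)) - c 0) := by
      rw [show n + (s + j + 1 + 1) = n + (s + 1) + (j + 1) by ring]
      ring
    refine le_trans (le_of_eq (congrArg _ h4)) (le_trans ((w (i s)).add_le _ _) ?_)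
    rw [AbsoluteValue.map_neg]
  have h5 : w (i s) (c (j + 1) - c 0) ≤ 0 := by
    have h8 := h1.add h2
    rw [add_zero] at h8
    exact ge_of_tendsto h8 (Filter.Eventually.of_forall h3)
  have h6 : c (j + 1) - c 0 = 0 := (w (i s)).eq_zero.mp (le_antisymm h5 ((w (i s)).nonneg _))
  have h7 := hc (sub_eq_zero.mp h6)
  omega

omit [NumberField k] in
/-- Rational functions are continuous for every absolute value. -/
theorem tendsto_step (w : AbsoluteValue k ℝ) (l : Filter ℕ) (a b : Polynomial k) (z z' : ℕ → k)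
    (u u' : k) (hb : ∀ n, b.eval (z n) * z' n = a.eval (z n)) (hb0 : ∀ n, b.eval (z n) ≠ 0)
    (hu : b.eval u * u' = a.eval u) (hu0 : b.eval u ≠ 0)
    (h : Tendsto (fun n => w (z n - u)) l (𝓝 0)) : Tendsto (fun n => w (z' n - u')) l (𝓝 0) := by
  let φ : k →+* WithAbs w := (WithAbs.equiv w).symm
  have hφ : ∀ x : k, ‖φ x‖ = w x := fun x => rfl
  have hz : Tendsto (fun n => φ (z n)) l (𝓝 (φ u)) := by
    rw [tendsto_iff_norm_sub_tendsto_zero]
    simpa only [← map_sub, hφ] using h
  have e : ∀ (p : Polynomial k) (x : k), φ (p.eval x) = (p.map φ).eval (φ x) := fun p x => by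
    rw [Polynomial.eval_map, Polynomial.eval₂_at_apply]
  have h1 : ∀ p : Polynomial k, Tendsto (fun n => φ (p.eval (z n))) l (𝓝 (φ (p.eval u))) := by
    intro p
    simp only [e]
    exact ((p.map φ).continuous.tendsto _).comp hz
  have h2 : ∀ (x y t : k), y ≠ 0 → y * t = x → φ t = φ x / φ y := by
    intro x y t hy hxy
    rw [← map_div₀, ← hxy, mul_div_cancel_left₀ _ hy]
  have h3 : Tendsto (fun n => φ (z' n)) l (𝓝 (φ u')) := by
    rw [h2 _ _ _ hu0 hu]
    simp only [fun n => h2 _ _ _ (hb0 n) (hb n)]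
    refine (h1 a).div (h1 b) ?_
    rwa [Ne, map_eq_zero]
  rw [tendsto_iff_norm_sub_tendsto_zero] at h3
  simpa only [← map_sub, hφ] using h3

/-- First return for an infinite orbit of a rational function. -/
theorem exists_return_rat (S₀ : Finset (FinitePlace k)) (a b : Polynomial k) (c : ℕ → k)
    (hb0 : ∀ t, b.eval (c t) ≠ 0) (hb : ∀ t, b.eval (c t) * c (t + 1) = a.eval (c t))
    (hc : Function.Injective c) :
    ∃ n, 0 < n ∧ ∃ v : FinitePlace k, v ∉ S₀ ∧ v (c n - c 0) < 1 := by
  refine exists_return S₀ c hc fun w l s j h => ?_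
  induction j with
  | zero => exact h
  | succ j ih =>
    exact tendsto_step w l a b (fun n => c (n + s + j)) (fun n => c (n + s + (j + 1))) (c j)
      (c (j + 1)) (fun n => hb _) (fun n => hb0 _) (hb j) (hb0 j) ih

end Pool.Agent.MP_b6294e_wc
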