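import Pool.Agent.Lib.MP_b6294e_wc.Assemble
import Pool.Agent.Lib.MP_b6294e_wc.Return
import Pool.Agent.Lib.MP_b6294e_wc.Integral

/-!
# Choice of the number field and of the place
-/

set_option linter.style.haveILetI false

namespace Pool.Agent.MP_b6294e_wc

open Polynomial Pool.Agent.MP_b6294e NumberField Height Filter Topology

universe u

theorem isUnit_Ow {k : Type*} [Field k] [NumberField k] (w : FinitePlace k) (z : Ow w)
    (hz : w (z : k) = 1) : IsUnit z := by
  by_contra hcon
  have h1 := (mem_max w z).mp ((IsLocalRing.mem_maximalIdeal z).mpr hcon)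
  rw [hz] at h1
  exact lt_irrefl _ h1

/-- Escaping starting points close to a given point. -/
theorem escape_near {k : Type*} [Field k] [NumberField k] (w : FinitePlace k) (ξ₀ : k) (B : ℝ)
    (E : ℕ) : ∃ δ ∈ IsLocalRing.maximalIdeal (Ow w) ^ E, δ ≠ 0 ∧
      B < logHeight₁ (ξ₀ + (δ : k)) := by
  have hnf : IsLocalRing.maximalIdeal (Ow w) ^ E ≠ ⊥ := by
    intro hs
    obtain ⟨ϖ, hϖ⟩ := IsDiscreteValuationRing.exists_irreducible (Ow w)
    have h2 : ϖ ^ E ∈ IsLocalRing.maximalIdeal (Ow w) ^ E := by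
      refine Ideal.pow_mem_pow ?_ E
      rw [IsLocalRing.mem_maximalIdeal]
      exact hϖ.not_isUnit
    rw [hs, Ideal.mem_bot] at h2
    exact hϖ.ne_zero (eq_zero_of_pow_eq_zero h2)
  obtain ⟨r, hr, hr0⟩ := Submodule.exists_mem_ne_zero_of_ne_bot hnf
  haveI : Infinite (Ow w) := by
    haveI : CharZero (Ow w) := inferInstance
    exact Infinite.of_injective (fun n : ℕ => (n : Ow w)) Nat.cast_injective
  have hinf : (Set.univ \ {(0 : Ow w)}).Infinite := Set.infinite_univ.sdiff (Set.finite_singleton _)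
  by_contra hcon
  push Not at hcon
  have hmaps : Set.MapsTo (fun s : Ow w => ξ₀ + ((s * r : Ow w) : k)) (Set.univ \ {(0 : Ow w)})
      {x : k | logHeight₁ x ≤ B} := by
    intro s hs
    exact hcon (s * r) (Ideal.mul_mem_left _ _ hr) (mul_ne_zero hs.2 hr0)
  have hinj : Set.InjOn (fun s : Ow w => ξ₀ + ((s * r : Ow w) : k)) (Set.univ \ {(0 : Ow w)}) := by
    intro s _ s' _ h
    have h1 := Subtype.val_injective (add_left_cancel h)
    exact mul_right_cancel₀ hr0 h1
  exact (Set.infinite_of_injOn_mapsTo hinj hmaps hinf)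
    (NumberField.finite_setOfPred_logHeight₁_le k _)

theorem arith (K : Type u) [Field K] [CharZero K] (halg : Algebra.IsAlgebraic ℚ K)
    (T : Set K) (hT : T.Finite) (a₀ b₀ : K[X]) (hco : IsCoprime a₀ b₀)
    (hd : 2 ≤ max a₀.natDegree b₀.natDegree) (a b u v : ℕ → K[X]) (ξ c : ℕ → K)
    (p : ℕ) (hp : 0 < p)
    (hpa : ∀ t, a (t + p) = a t) (hpb : ∀ t, b (t + p) = b t)
    (huv : ∀ t, u t * a t + v t * b t = 1) (hdeg : ∀ t, (b t).natDegree < (a t).natDegree)
    (hb0 : ∀ t, (b t).eval (c t) ≠ 0) (h : ∀ t, (b t).eval (c t) * c (t + 1) = (a t).eval (c t))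
    (hinj : Function.Injective fun m => c (p * m))
    (Ta0 : ∀ n, a₀.coeff n ∈ T) (Tb0 : ∀ n, b₀.coeff n ∈ T) (Tξ : ξ 0 ∈ T) (Tc : c 0 ∈ T)
    (Ta : ∀ t n, (a t).coeff n ∈ T) (Tb : ∀ t n, (b t).coeff n ∈ T)
    (Tu : ∀ t n, (u t).coeff n ∈ T) (Tv : ∀ t n, (v t).coeff n ∈ T) :
    ∃ (A : Type u) (_ : CommRing A) (_ : IsDomain A) (_ : IsDiscreteValuationRing A)
      (_ : CharZero A) (ι : A →+* K) (m : ℕ), Function.Injective ι ∧
      (∀ s, Finite (A ⧸ IsLocalRing.maximalIdeal A ^ s)) ∧ (∀ z ∈ T, Lf ι z) ∧ 0 < m ∧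
      (∀ t, ∃ z : A, ι z = c t) ∧
      (∀ t, ∃ z : A, ι z = (b t).eval (c t) ∧ IsUnit z) ∧
      (∀ t, ∃ z : A, ι z = c (t + p * m) - c t ∧ z ∈ IsLocalRing.maximalIdeal A) ∧
      (∀ E : ℕ, ∃ δ ∈ IsLocalRing.maximalIdeal A ^ E, δ ≠ 0 ∧ ∀ x : ℕ → A,
        ι (x 0) = ξ 0 + ι δ → (∀ t, b₀.eval (ι (x t)) ≠ 0) →
        (∀ t, b₀.eval (ι (x t)) * ι (x (t + 1)) = a₀.eval (ι (x t))) →
        (Set.range x).Infinite) := by
  classical
  let k : IntermediateField ℚ K := IntermediateField.adjoin ℚ T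
  haveI hfd : FiniteDimensional ℚ k := by
    haveI := hT.to_subtype
    exact IntermediateField.finiteDimensional_adjoin fun x _ => (halg.isAlgebraic x).isIntegral
  haveI : NumberField k := { to_charZero := inferInstance, to_finiteDimensional := hfd }
  let φ : k →+* K := algebraMap k K
  have hφ : Function.Injective φ := (algebraMap k K).injective
  have hTk : ∀ z ∈ T, ∃ z' : k, φ z' = z := fun z hz =>
    ⟨⟨z, IntermediateField.subset_adjoin ℚ T hz⟩, rfl⟩
  obtain ⟨S₀, hS₀⟩ := exists_places (φ ⁻¹' T) (hT.preimage hφ.injOn)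
  obtain ⟨a₀', ha₀⟩ := lift_poly φ a₀ fun n => hTk _ (Ta0 n)
  obtain ⟨b₀', hb₀⟩ := lift_poly φ b₀ fun n => hTk _ (Tb0 n)
  choose a' ha' using fun t => lift_poly φ (a t) fun n => hTk _ (Ta t n)
  choose b' hb' using fun t => lift_poly φ (b t) fun n => hTk _ (Tb t n)
  choose u' hu' using fun t => lift_poly φ (u t) fun n => hTk _ (Tu t n)
  choose v' hv' using fun t => lift_poly φ (v t) fun n => hTk _ (Tv t n)
  have hck : ∀ t, ∃ z : k, φ z = c t := by
    intro t
    induction t with
    | zero => exact hTk _ Tc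
    | succ t ih =>
      obtain ⟨z, hz⟩ := ih
      refine ⟨(a' t).eval z / (b' t).eval z, ?_⟩
      rw [map_div₀, ← eval_map', ← eval_map', ha', hb', hz, ← h t, mul_div_cancel_left₀ _ (hb0 t)]
  choose ck hck using hck
  have hpoly : Function.Injective (Polynomial.map φ) := Polynomial.map_injective φ hφ
  have hkb0 : ∀ t, (b' t).eval (ck t) ≠ 0 := by
    intro t h0
    apply hb0 t
    rw [← hck, ← hb', eval_map', h0, map_zero]
  have hkh : ∀ t, (b' t).eval (ck t) * ck (t + 1) = (a' t).eval (ck t) := by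
    intro t
    apply hφ
    rw [map_mul, ← eval_map', ← eval_map', ha', hb', hck, hck, h]
  have hkpa : ∀ t, a' (t + p) = a' t := fun t => hpoly (by rw [ha', ha', hpa])
  have hkpb : ∀ t, b' (t + p) = b' t := fun t => hpoly (by rw [hb', hb', hpb])
  have hkpa' : ∀ t j, a' (t + p * j) = a' t := by
    intro t j
    induction j with
    | zero => simp
    | succ j ih => rw [show t + p * (j + 1) = t + p * j + p by ring, hkpa, ih]
  have hkpb' : ∀ t j, b' (t + p * j) = b' t := by
    intro t j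
    induction j with
    | zero => simp
    | succ j ih => rw [show t + p * (j + 1) = t + p * j + p by ring, hkpb, ih]
  have hkinj : Function.Injective fun m => ck (p * m) := by
    intro m m' hmm
    apply hinj
    have := congrArg φ hmm
    simpa only [hck] using this
  obtain ⟨m, hm, w, hw, hwm⟩ := exists_return S₀ (fun m => ck (p * m)) hkinj (by
    intro w l s j h0
    have key : ∀ i, Tendsto (fun n => w (ck (i + p * (n + s)) - ck i)) l (𝓝 0) := by
      intro i
      induction i with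
      | zero => simpa only [zero_add, mul_zero] using h0
      | succ i ih =>
        refine tendsto_step w l (a' i) (b' i) (fun n => ck (i + p * (n + s)))
          (fun n => ck (i + 1 + p * (n + s))) (ck i) (ck (i + 1)) ?_ ?_ (hkh i) (hkb0 i) ih
        · intro n
          have h1 := hkh (i + p * (n + s))
          rw [hkpa', hkpb'] at h1
          rw [show i + 1 + p * (n + s) = i + p * (n + s) + 1 by ring]
          exact h1
        · intro n
          have h1 := hkb0 (i + p * (n + s))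
          rwa [hkpb'] at h1
    have h1 := key (p * j)
    refine h1.congr fun n => ?_
    rw [show p * j + p * (n + s) = p * (n + s + j) by ring])
  have hTw : ∀ z : k, φ z ∈ T → w z ≤ 1 ∧ (z ≠ 0 → w z = 1) := by
    intro z hz
    refine ⟨?_, hS₀ w hw z hz⟩
    by_cases h0 : z = 0
    · rw [h0, map_zero]; exact zero_le_one
    · exact (hS₀ w hw z hz h0).le
  have hint : ∀ (q : K[X]) (q' : k[X]), q'.map φ = q → (∀ n, q.coeff n ∈ T) → Int w q' := by
    intro q q' hq hqT n
    refine (hTw _ ?_).1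
    rw [← coeff_map, hq]
    exact hqT n
  have hkuv : ∀ t, u' t * a' t + v' t * b' t = 1 := by
    intro t
    apply hpoly
    rw [Polynomial.map_add, Polynomial.map_mul, Polynomial.map_mul, ha', hb', hu', hv', huv,
      Polynomial.map_one]
  have hkdeg : ∀ t, (b' t).natDegree < (a' t).natDegree := by
    intro t
    rw [← natDegree_map_eq_of_injective hφ, ← natDegree_map_eq_of_injective hφ (a' t), ha', hb']
    exact hdeg t
  have hklc : ∀ t, w (a' t).leadingCoeff = 1 := by
    intro t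
    refine (hTw _ ?_).2 ?_
    · rw [Polynomial.leadingCoeff, ← coeff_map, ha']
      exact Ta t _
    · rw [Ne, leadingCoeff_eq_zero]
      intro h0
      have := hkdeg t
      rw [h0, natDegree_zero] at this
      omega
  have horb := integral_orbit (w := w) a' b' u' v' ck (p * m) (Nat.mul_pos hp hm)
    (fun t => hkpa' t m) (fun t => hkpb' t m) (fun t => hint _ _ (ha' t) (Ta t))
    (fun t => hint _ _ (hb' t) (Tb t)) (fun t => hint _ _ (hu' t) (Tu t))
    (fun t => hint _ _ (hv' t) (Tv t)) hkuv hklc hkdeg hkh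
    (hTw _ (by rw [hck]; exact Tc)).1 (by simpa only [mul_zero] using hwm)
  have hιz : ∀ (z : k) (hz : w z ≤ 1), (φ.comp (Ow w).subtype) ⟨z, (mem_Ow w z).mpr hz⟩ = φ z :=
    fun z hz => rfl
  refine ⟨Ow w, inferInstance, inferInstance, inferInstance, inferInstance,
    φ.comp (Ow w).subtype, m, hφ.comp Subtype.val_injective, finite_quot w, ?_, hm, ?_, ?_, ?_, ?_⟩
  · intro z hz
    obtain ⟨z', rfl⟩ := hTk z hz
    obtain ⟨h1, h2⟩ := hTw z' hz
    refine ⟨⟨z', (mem_Ow w z').mpr h1⟩, rfl, fun h0 => isUnit_Ow w _ (h2 ?_)⟩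
    rintro rfl
    exact h0 (map_zero φ)
  · intro t
    exact ⟨⟨ck t, (mem_Ow w _).mpr (horb t).1⟩, hck t⟩
  · intro t
    refine ⟨⟨(b' t).eval (ck t), (mem_Ow w _).mpr (horb t).2.1.le⟩, ?_, isUnit_Ow w _ (horb t).2.1⟩
    rw [hιz _ (horb t).2.1.le, ← eval_map', hb', hck]
  · intro t
    refine ⟨⟨ck (t + p * m) - ck t, (mem_Ow w _).mpr (horb t).2.2.le⟩, ?_,
      (mem_max w _).mpr (horb t).2.2⟩
    rw [hιz _ (horb t).2.2.le, map_sub, hck, hck]
  · intro E
    have hco' : IsCoprime a₀' b₀' := by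
      rw [← ha₀, ← hb₀] at hco
      exact (isCoprime_map φ).mp hco
    have hd' : 2 ≤ max a₀'.natDegree b₀'.natDegree := by
      rw [← ha₀, ← hb₀, natDegree_map_eq_of_injective hφ, natDegree_map_eq_of_injective hφ] at hd
      exact hd
    obtain ⟨B, hB⟩ := exists_escape a₀' b₀' hco' hd'
    obtain ⟨ξ₀, hξ₀⟩ := hTk _ Tξ
    obtain ⟨δ, hδ, hδ0, hδB⟩ := escape_near w ξ₀ B E
    refine ⟨δ, hδ, hδ0, fun x hx0 hbx hsx => ?_⟩
    have hb1 : ∀ t, b₀.eval ((φ.comp (Ow w).subtype) (x t)) = φ (b₀'.eval (x t : k)) := by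
      intro t
      rw [← eval_map', hb₀]
      rfl
    have ha1 : ∀ t, a₀.eval ((φ.comp (Ow w).subtype) (x t)) = φ (a₀'.eval (x t : k)) := by
      intro t
      rw [← eval_map', ha₀]
      rfl
    have hxi := hB (fun t => (x t : k))
      (by
        intro t h0
        apply hbx t
        rw [hb1, h0, map_zero])
      (by
        intro t
        apply hφ
        have h1 := hsx t
        rw [hb1, ha1] at h1
        rw [map_mul]
        exact h1)
      (by
        have h1 : (x 0 : k) = ξ₀ + (δ : k) := by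
          apply hφ
          rw [map_add, hξ₀]
          exact hx0
        rw [h1]
        exact hδB)
    exact Set.infinite_range_of_injective fun t t' h => hxi (congrArg Subtype.val h)

end Pool.Agent.MP_b6294e_wc
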