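import Pool.Agent.Lib.MP_b6294e_wc.Dom
import Pool.Agent.Lib.MP_b6294e_wc.Arith

/-!
# Passing between places of number fields and valuation rings of the algebraic closure
-/

set_option linter.style.haveILetI false

namespace Pool.Agent.MP_b6294e_wc

open NumberField NumberField.FinitePlace Polynomial IsDedekindDomain

universe u

theorem val_contra {K : Type*} [Field K] (V : ValuationSubring K) {z z' : K} (hz : z ∈ V)
    (hz' : z' ∈ V.nonunits) (h : z * z' = 1) : False := by
  rw [ValuationSubring.mem_nonunits_iff] at hz'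
  have h1 := (V.valuation_le_one_iff z).mpr hz
  have h2 : V.valuation (z * z') = 1 := by rw [h, map_one]
  rw [map_mul] at h2
  have h3 : V.valuation z * V.valuation z' < 1 :=
    (mul_le_of_le_one_left' h1).trans_lt hz'
  exact h3.ne h2

/-- A valuation ring of the big field above a finite place, and the residual Frobenius. -/
theorem above {k : Type*} [Field k] [NumberField k] {K : Type*} [Field K] (w : FinitePlace k)
    (φ : k →+* K) :
    ∃ (V : ValuationSubring K) (r d : ℕ), r.Prime ∧ 0 < d ∧ (r : K) ∈ V.nonunits ∧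
      (∀ z, w z ≤ 1 ↔ φ z ∈ V) ∧ (∀ z, w z < 1 ↔ φ z ∈ V.nonunits) ∧
      (∀ z, w z ≤ 1 → φ z ^ (r ^ d) - φ z ∈ V.nonunits) := by
  classical
  obtain ⟨V, hV1, hV2⟩ := exists_dominating w φ
  have hV1' : ∀ z, w z ≤ 1 ↔ φ z ∈ V := by
    refine fun z => ⟨hV1 z, fun h => ?_⟩
    by_contra hcon
    push Not at hcon
    have hz : z ≠ 0 := by
      rintro rfl
      rw [map_zero] at hcon
      linarith
    have h1 : w z⁻¹ < 1 := by
      rw [map_inv₀]
      exact inv_lt_one_of_one_lt₀ hcon
    refine val_contra V h (hV2 _ h1) ?_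
    rw [← map_mul, mul_inv_cancel₀ hz, map_one]
  have hV2' : ∀ z, w z < 1 ↔ φ z ∈ V.nonunits := by
    refine fun z => ⟨hV2 z, fun h => ?_⟩
    by_contra hcon
    push Not at hcon
    have hz : z ≠ 0 := by
      rintro rfl
      rw [map_zero] at hcon
      linarith
    have h1 : w z⁻¹ ≤ 1 := by
      rw [map_inv₀]
      exact inv_le_one_of_one_le₀ hcon
    refine val_contra V (hV1 _ h1) h ?_
    rw [← map_mul, inv_mul_cancel₀ hz, map_one]
  haveI := finite_residue w
  haveI : Finite (IsLocalRing.ResidueField (Ow w)) := finite_residue w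
  haveI : Fintype (IsLocalRing.ResidueField (Ow w)) := Fintype.ofFinite _
  obtain ⟨r, hr⟩ := CharP.exists (IsLocalRing.ResidueField (Ow w))
  obtain ⟨d, hrp, hcard⟩ := FiniteField.card (IsLocalRing.ResidueField (Ow w)) r
  have hnat : ∀ m : ℕ, w (m : k) ≤ 1 := by
    intro m
    have := (mem_Ow w (m : k)).mp (natCast_mem (Ow w) m)
    exact this
  refine ⟨V, r, d, hrp, d.pos, ?_, hV1', hV2', ?_⟩
  · have h1 : IsLocalRing.residue (Ow w) (r : Ow w) = 0 := by
      rw [map_natCast]
      exact CharP.cast_eq_zero _ r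
    rw [IsLocalRing.residue_eq_zero_iff, mem_max] at h1
    have h2 := (hV2' _).mp h1
    simpa using h2
  · intro z hz
    have h1 : IsLocalRing.residue (Ow w) (⟨z, (mem_Ow w z).mpr hz⟩ ^ (r ^ (d : ℕ)) -
        ⟨z, (mem_Ow w z).mpr hz⟩) = 0 := by
      rw [map_sub, map_pow, ← hcard, FiniteField.pow_card, sub_self]
    rw [IsLocalRing.residue_eq_zero_iff, mem_max] at h1
    have h2 := (hV2' _).mp h1
    rw [← map_pow, ← map_sub]
    exact h2

/-- The discrete valuation ring of a number field generated by a finite set, below a valuation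
ring of the algebraic closure. -/
theorem ring_in (K : Type u) [Field K] [CharZero K] (halg : Algebra.IsAlgebraic ℚ K)
    (V : ValuationSubring K) (r : ℕ) (hr : r.Prime) (hrV : (r : K) ∈ V.nonunits) (T : Set K)
    (hT : T.Finite) :
    ∃ (A : Type u) (_ : CommRing A) (_ : IsDomain A) (_ : IsDiscreteValuationRing A)
      (_ : CharZero A) (ι : A →+* K), Function.Injective ι ∧
      (∀ s, Finite (A ⧸ IsLocalRing.maximalIdeal A ^ s)) ∧ (∀ z, ι z ∈ V) ∧
      (∀ z, z ∈ IsLocalRing.maximalIdeal A ↔ ι z ∈ V.nonunits) ∧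
      (∀ z ∈ IntermediateField.adjoin ℚ T, z ∈ V → ∃ z', ι z' = z) := by
  classical
  let k : IntermediateField ℚ K := IntermediateField.adjoin ℚ T
  haveI hfd : FiniteDimensional ℚ k := by
    haveI := hT.to_subtype
    exact IntermediateField.finiteDimensional_adjoin fun x _ => (halg.isAlgebraic x).isIntegral
  haveI : NumberField k := { to_charZero := inferInstance, to_finiteDimensional := hfd }
  let φ : k →+* K := algebraMap k K
  have hφ : Function.Injective φ := (algebraMap k K).injective
  have hV : V.comap φ ≠ ⊤ := by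
    intro h
    have h1 : ((r : k)⁻¹) ∈ V.comap φ := by
      rw [h]
      exact ValuationSubring.mem_top _
    rw [ValuationSubring.mem_comap, map_inv₀, map_natCast] at h1
    refine val_contra V h1 hrV (inv_mul_cancel₀ ?_)
    exact_mod_cast hr.ne_zero
  obtain ⟨w, hw⟩ := place_of_valuationSubring (V.comap φ) hV
  have hw1 : ∀ z : k, w z ≤ 1 ↔ φ z ∈ V := fun z => by
    rw [hw, ValuationSubring.mem_comap]
  have hw2 : ∀ z : k, w z < 1 ↔ φ z ∈ V.nonunits := by
    intro z
    by_cases hz : z = 0
    · rw [hz, map_zero, map_zero, ValuationSubring.mem_nonunits_iff, map_zero]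
      exact ⟨fun _ => zero_lt_one, fun _ => zero_lt_one⟩
    have h1 := hw1 z⁻¹
    rw [map_inv₀, map_inv₀, ← V.valuation_le_one_iff, map_inv₀] at h1
    rw [ValuationSubring.mem_nonunits_iff, ← not_le, ← not_le, not_iff_not]
    have h3 : 0 < w z := lt_of_le_of_ne (apply_nonneg w z) ((_root_.map_ne_zero w).mpr hz).symm
    have h4 : 0 < V.valuation (φ z) := by
      rw [Valuation.pos_iff, _root_.map_ne_zero]
      exact hz
    rw [← inv_le_one₀ h3, ← inv_le_one₀ h4]
    exact h1
  refine ⟨Ow w, inferInstance, inferInstance, inferInstance, inferInstance,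
    φ.comp (Ow w).subtype, hφ.comp Subtype.val_injective, finite_quot w, ?_, ?_, ?_⟩
  · intro z
    exact (hw1 _).mp ((mem_Ow w _).mp z.2)
  · intro z
    rw [mem_max]
    exact hw2 _
  · intro z hz hzV
    exact ⟨⟨⟨z, hz⟩, (mem_Ow w _).mpr ((hw1 ⟨z, hz⟩).mpr hzV)⟩, rfl⟩

end Pool.Agent.MP_b6294e_wc
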