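import Pool.Agent.Lib.MP_b6294e_wc.Good

/-!
# Assembly in a discrete valuation ring
-/

set_option linter.style.haveILetI false

namespace Pool.Agent.MP_b6294e_wc

open Polynomial Pool.Agent.MP_b6294e

section Lift

variable {A K : Type*} [CommRing A] [CommRing K]

theorem lift_poly (ι : A →+* K) (q : K[X]) (h : ∀ n, ∃ z, ι z = q.coeff n) :
    ∃ q' : A[X], q'.map ι = q := by
  rw [← mem_lifts, lifts_iff_coeff_lifts]
  exact h

theorem lift_poly₂ (ι : A →+* K) (q : K[X][X]) (h : ∀ j n, ∃ z, ι z = (q.coeff j).coeff n) :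
    ∃ q' : A[X][X], q'.map (mapRingHom ι) = q := by
  rw [← mem_lifts, lifts_iff_coeff_lifts]
  intro j
  obtain ⟨r, hr⟩ := lift_poly ι (q.coeff j) (h j)
  exact ⟨r, hr⟩

theorem eval_map' (ι : A →+* K) (q : A[X]) (z : A) : (q.map ι).eval (ι z) = ι (q.eval z) := by
  rw [eval_map]
  exact eval₂_at_apply ι z

theorem evalEval_map' (ι : A →+* K) (q : A[X][X]) (x z : A) :
    (q.map (mapRingHom ι)).evalEval (ι x) (ι z) = ι (q.evalEval x z) :=
  map_mapRingHom_evalEval ι q x z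

/-- The element lifts to the ring, and to a unit if it is not zero. -/
def Lf (ι : A →+* K) (z : K) : Prop := ∃ z' : A, ι z' = z ∧ (z ≠ 0 → IsUnit z')

end Lift

/-- The orbit of a point of the fibre over a sequence of base points (division by zero gives
zero). -/
noncomputable def orb {K : Type*} [Field K] (a b : K[X][X]) (ξ : ℕ → K) (ρ : K) : ℕ → K
  | 0 => ρ
  | s + 1 => a.evalEval (ξ s) (orb a b ξ ρ s) / b.evalEval (ξ s) (orb a b ξ ρ s)

variable {A : Type*} [CommRing A] [IsDomain A] [IsDiscreteValuationRing A] [CharZero A]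
  {K : Type*} [Field K]

theorem assemble (hfin : ∀ s, Finite (A ⧸ IsLocalRing.maximalIdeal A ^ s))
    (ι : A →+* K) (hι : Function.Injective ι)
    (a₀ b₀ h : K[X]) (a₁ b₁ G' : K[X][X]) (hh : h ≠ 0) (ξ c : ℕ → K) (n : ℕ) (hn : 0 < n)
    (hξ : ∀ t, ξ (t + n) = ξ t)
    (hb0 : ∀ t, b₀.eval (ξ t) ≠ 0) (h0 : ∀ t, b₀.eval (ξ t) * ξ (t + 1) = a₀.eval (ξ t))
    (hw0 : ∀ t, (wr a₀ b₀).eval (ξ t) ≠ 0)
    (h1 : ∀ t, b₁.evalEval (ξ t) (c t) * c (t + 1) = a₁.evalEval (ξ t) (c t))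
    (hcrit : (wr a₁ b₁).evalEval (ξ 0) (c 0) = 0)
    (hcn0 : c n ≠ c 0)
    (R : ℕ → Multiset K) (l : ℕ → K) (hl : ∀ i, l i ≠ 0)
    (hR : ∀ i (y : K), (wr a₁ b₁ * G').evalEval (ξ i) y = l i * ((R i).map fun ρ => y - ρ).prod)
    (Ta0 : ∀ n, Lf ι (a₀.coeff n)) (Tb0 : ∀ n, Lf ι (b₀.coeff n)) (Th : ∀ n, Lf ι (h.coeff n))
    (Ta1 : ∀ j n, Lf ι ((a₁.coeff j).coeff n)) (Tb1 : ∀ j n, Lf ι ((b₁.coeff j).coeff n))
    (TG : ∀ j n, Lf ι ((G'.coeff j).coeff n)) (Tξ : ∀ t, Lf ι (ξ t))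
    (Tb : ∀ t, Lf ι (b₀.eval (ξ t))) (Tw : ∀ t, Lf ι ((wr a₀ b₀).eval (ξ t)))
    (Tl : ∀ t, Lf ι (l t)) (TR : ∀ t, ∀ ρ ∈ R t, Lf ι ρ)
    (TZ : ∀ t, ∀ ρ ∈ R t, (Set.range (orb a₁ b₁ (fun s => ξ (t + s)) ρ)).Finite →
      ∀ s, Lf ι (orb a₁ b₁ (fun s => ξ (t + s)) ρ s - c 0))
    (hc : ∀ t, ∃ z : A, ι z = c t)
    (hbc : ∀ t, ∃ z : A, ι z = b₁.evalEval (ξ t) (c t) ∧ IsUnit z)
    (hcn : ∀ t, ∃ z : A, ι z = c (t + n) - c t ∧ z ∈ IsLocalRing.maximalIdeal A)
    (hesc : ∀ E : ℕ, ∃ δ ∈ IsLocalRing.maximalIdeal A ^ E, δ ≠ 0 ∧ ∀ x : ℕ → A,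
      ι (x 0) = ξ 0 + ι δ → (∀ t, b₀.eval (ι (x t)) ≠ 0) →
      (∀ t, b₀.eval (ι (x t)) * ι (x (t + 1)) = a₀.eval (ι (x t))) → (Set.range x).Infinite) :
    ∃ x y : ℕ → K, (∀ t, b₀.eval (x t) ≠ 0) ∧ (∀ t, b₀.eval (x t) * x (t + 1) = a₀.eval (x t)) ∧
      (∀ t, b₁.evalEval (x t) (y t) ≠ 0) ∧
      (∀ t, b₁.evalEval (x t) (y t) * y (t + 1) = a₁.evalEval (x t) (y t)) ∧
      (∀ t, (C h * G').evalEval (x t) (y t) ≠ 0) ∧
      ∀ P : K[X][X], (∀ t, P.evalEval (x t) (y t) = 0) → P = 0 := by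
  classical
  have hnf : ∀ s, IsLocalRing.maximalIdeal A ^ s ≠ ⊥ := by
    intro s hs
    obtain ⟨ϖ, hϖ⟩ := IsDiscreteValuationRing.exists_irreducible A
    have h2 : ϖ ^ s ∈ IsLocalRing.maximalIdeal A ^ s := by
      refine Ideal.pow_mem_pow ?_ s
      rw [IsLocalRing.mem_maximalIdeal]
      exact hϖ.not_isUnit
    rw [hs, Ideal.mem_bot] at h2
    exact hϖ.ne_zero (eq_zero_of_pow_eq_zero h2)
  have hex : ∀ z, Lf ι z → ∃ z', ι z' = z := fun z ⟨z', hz', _⟩ => ⟨z', hz'⟩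
  have hun : ∀ (z : A), Lf ι (ι z) → ι z ≠ 0 → IsUnit z := by
    rintro z ⟨z', hz', hu⟩ h0
    rw [← hι hz']
    exact hu h0
  obtain ⟨a₀', ha₀⟩ := lift_poly ι a₀ fun n => hex _ (Ta0 n)
  obtain ⟨b₀', hb₀⟩ := lift_poly ι b₀ fun n => hex _ (Tb0 n)
  obtain ⟨h', hh'⟩ := lift_poly ι h fun n => hex _ (Th n)
  obtain ⟨a₁', ha₁⟩ := lift_poly₂ ι a₁ fun j n => hex _ (Ta1 j n)
  obtain ⟨b₁', hb₁⟩ := lift_poly₂ ι b₁ fun j n => hex _ (Tb1 j n)
  obtain ⟨G'', hG''⟩ := lift_poly₂ ι G' fun j n => hex _ (TG j n)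
  choose ξ' hξ' using fun t => hex _ (Tξ t)
  choose c' hc' using hc
  choose l' hl' using fun t => hex _ (Tl t)
  obtain ⟨L, hL⟩ : ∃ L : K → A, ∀ z, (∃ z', ι z' = z) → ι (L z) = z := by
    refine ⟨fun z => if h : ∃ z', ι z' = z then h.choose else 0, fun z hz => ?_⟩
    dsimp only
    rw [dif_pos hz]
    exact hz.choose_spec
  have hW : (wr a₁' b₁').map (mapRingHom ι) = wr a₁ b₁ := by
    rw [map_wr, ha₁, hb₁]
  have hW0 : (wr a₀' b₀').map ι = wr a₀ b₀ := by
    rw [map_wr, ha₀, hb₀]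
  have hh0 : h' ≠ 0 := by
    rintro rfl
    rw [Polynomial.map_zero] at hh'
    exact hh hh'.symm
  have eb0 : ∀ z : A, b₀.eval (ι z) = ι (b₀'.eval z) := fun z => by rw [← hb₀, eval_map']
  have ea0 : ∀ z : A, a₀.eval (ι z) = ι (a₀'.eval z) := fun z => by rw [← ha₀, eval_map']
  have eb1 : ∀ x z : A, b₁.evalEval (ι x) (ι z) = ι (b₁'.evalEval x z) := fun x z => by
    rw [← hb₁, evalEval_map']
  have ea1 : ∀ x z : A, a₁.evalEval (ι x) (ι z) = ι (a₁'.evalEval x z) := fun x z => by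
    rw [← ha₁, evalEval_map']
  have ew1 : ∀ x z : A, (wr a₁ b₁).evalEval (ι x) (ι z) = ι ((wr a₁' b₁').evalEval x z) :=
    fun x z => by rw [← hW, evalEval_map']
  have hξn : ∀ t, ξ' (t + n) = ξ' t := fun t => hι (by rw [hξ', hξ', hξ])
  have hbu0 : ∀ t, IsUnit (b₀'.eval (ξ' t)) := by
    intro t
    have e1 := eb0 (ξ' t)
    rw [hξ'] at e1
    exact hun _ (e1 ▸ Tb t) (e1 ▸ hb0 t)
  have hst0 : ∀ t, b₀'.eval (ξ' t) * ξ' (t + 1) = a₀'.eval (ξ' t) := by
    intro t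
    apply hι
    rw [map_mul, ← eb0, ← ea0, hξ', hξ', h0]
  have hwu0 : ∀ t, IsUnit ((wr a₀' b₀').eval (ξ' t)) := by
    intro t
    have e1 : (wr a₀ b₀).eval (ξ t) = ι ((wr a₀' b₀').eval (ξ' t)) := by
      rw [← hW0, ← hξ', eval_map']
    exact hun _ (e1 ▸ Tw t) (e1 ▸ hw0 t)
  have hbu1 : ∀ t, IsUnit (b₁'.evalEval (ξ' t) (c' t)) := by
    intro t
    obtain ⟨z, hz, hzu⟩ := hbc t
    have e1 : z = b₁'.evalEval (ξ' t) (c' t) := hι (by rw [hz, ← eb1, hξ', hc'])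
    rwa [← e1]
  have hst1 : ∀ t, b₁'.evalEval (ξ' t) (c' t) * c' (t + 1) = a₁'.evalEval (ξ' t) (c' t) := by
    intro t
    apply hι
    rw [map_mul, ← eb1, ← ea1, hξ', hc', hc', h1]
  have hcn' : ∀ t, c' (t + n) - c' t ∈ IsLocalRing.maximalIdeal A := by
    intro t
    obtain ⟨z, hz, hzm⟩ := hcn t
    have e1 : z = c' (t + n) - c' t := hι (by rw [hz, map_sub, hc', hc'])
    rwa [← e1]
  have hξq : ∀ t q, ξ' (t + q * n) = ξ' t := by
    intro t q
    induction q with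
    | zero => simp
    | succ q ih => rw [show t + (q + 1) * n = t + q * n + n by ring, hξn, ih]
  have hξj : ∀ j, ξ' (j * n) = ξ' 0 := by
    intro j
    induction j with
    | zero => rw [zero_mul]
    | succ j ih => rw [show (j + 1) * n = j * n + n by ring, hξn, ih]
  have hcj : ∀ j, c' (j * n) - c' 0 ∈ IsLocalRing.maximalIdeal A := by
    intro j
    induction j with
    | zero => rw [zero_mul, sub_self]; exact Ideal.zero_mem _
    | succ j ih =>
      have h1 := Ideal.add_mem _ (hcn' (j * n)) ih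
      rwa [sub_add_sub_cancel, show j * n + n = (j + 1) * n by ring] at h1
  have hcrit' : ∀ j, (wr a₁' b₁').evalEval (ξ' (j * n)) (c' (j * n)) ∈
      IsLocalRing.maximalIdeal A := by
    intro j
    have e1 := congr_evalEval (IsLocalRing.maximalIdeal A) (wr a₁' b₁')
      (show ξ' (j * n) - ξ' 0 ∈ IsLocalRing.maximalIdeal A by
        rw [hξj, sub_self]; exact Ideal.zero_mem _) (hcj j)
    have e2 : (wr a₁' b₁').evalEval (ξ' 0) (c' 0) = 0 := by
      apply hι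
      rw [← ew1, hξ', hc', hcrit, map_zero]
    rwa [e2, sub_zero] at e1
  -- nondegeneracy
  have hRL : ∀ i, ∀ ρ ∈ R i, ι (L ρ) = ρ := fun i ρ hρ => hL ρ (hex _ (TR i ρ hρ))
  obtain ⟨e, T, hnd⟩ := nd a₁' b₁' (wr a₁' b₁' * G'') ξ' c' n hn hξn hbu1 hst1 hcn' hcrit'
    (fun i => (R i).map L) l' (fun i h => hl i (by rw [← hl', h, map_zero]))
    (by
      intro i y
      apply hι
      have e1 : ι ((wr a₁' b₁' * G'').evalEval (ξ' i) y) =
          (wr a₁ b₁ * G').evalEval (ξ i) (ι y) := by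
        rw [← evalEval_map', Polynomial.map_mul, hW, hG'', hξ']
      rw [e1, hR, map_mul, hl', map_multiset_prod, Multiset.map_map, Multiset.map_map]
      congr 2
      refine Multiset.map_congr rfl fun ρ hρ => ?_
      simp only [Function.comp_apply, map_sub]
      rw [hRL i ρ hρ])
    (by
      intro i ρ' hρ' z hz0 hzu hzs hzn s hs hcon
      obtain ⟨ρ, hρ, rfl⟩ := Multiset.mem_map.mp hρ'
      have e0 : ∀ s, orb a₁ b₁ (fun s => ξ (i + s)) ρ s = ι (z s) := by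
        intro s
        induction s with
        | zero => rw [hz0, hRL i ρ hρ]; rfl
        | succ s ih =>
          change a₁.evalEval (ξ (i + s)) (orb a₁ b₁ (fun s => ξ (i + s)) ρ s) /
            b₁.evalEval (ξ (i + s)) (orb a₁ b₁ (fun s => ξ (i + s)) ρ s) = _
          rw [ih, ← hξ', eb1, ea1, ← hzs s, map_mul, mul_div_cancel_left₀]
          intro h0
          have h2 := hzu s
          rw [(map_eq_zero_iff ι hι).mp h0] at h2
          exact not_isUnit_zero h2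
      have e1 : ∀ s, z (s + n) = z s := by
        intro s
        induction s with
        | zero => rw [zero_add, hzn, hz0]
        | succ s ih =>
          have h2 := hzs (s + n)
          rw [ih, show i + (s + n) = i + s + n by ring, hξn, ← hzs s] at h2
          rw [show s + 1 + n = s + n + 1 by ring]
          exact (hzu s).mul_left_cancel h2
      have e2 : (Set.range (orb a₁ b₁ (fun s => ξ (i + s)) ρ)).Finite := by
        have e3 : ∀ s, z s = z (s % n) := by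
          intro s
          have e4 : ∀ j, z (s % n + j * n) = z (s % n) := by
            intro j
            induction j with
            | zero => simp
            | succ j ih => rw [show s % n + (j + 1) * n = s % n + j * n + n by ring, e1, ih]
          rw [← e4 (s / n), mul_comm, Nat.mod_add_div]
        refine ((Finset.range n).finite_toSet.image fun s => ι (z s)).subset ?_
        rintro _ ⟨s, rfl⟩
        refine ⟨s % n, Finset.mem_coe.mpr (Finset.mem_range.mpr (Nat.mod_lt _ hn)), ?_⟩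
        dsimp only
        rw [e0, ← e3]
      have e3 := TZ i ρ hρ e2 s
      rw [e0, ← hc', ← map_sub] at e3
      have e4 : ι (z s - c' 0) ≠ 0 := by
        rw [Ne, map_eq_zero_iff ι hι, sub_eq_zero]
        intro e5
        obtain ⟨q, hq⟩ := Nat.dvd_of_mod_eq_zero hs
        have e6 : ∀ j, z (s + j) = c' j := by
          intro j
          induction j with
          | zero => exact e5
          | succ j ih =>
            have e7 := hzs (s + j)
            have e8 : ξ' (i + (s + j)) = ξ' j := by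
              rw [show i + (s + j) = j + q * n by rw [← add_assoc, hq]; ring, hξq]
            rw [ih, e8, ← hst1 j] at e7
            exact (hbu1 j).mul_left_cancel e7
        have e7 := e6 n
        rw [e1, e5] at e7
        apply hcn0
        rw [← hc', ← hc', e7]
      exact (IsLocalRing.mem_maximalIdeal _).mp hcon (hun _ e3 e4))
  obtain ⟨x, y, e', hg⟩ := good_of_reference a₀' b₀' a₁' b₁' G'' h' hh0 ξ' c' n hn hξn hbu0 hst0
    hwu0 hbu1 hst1 hcrit' e T hnd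
    (by
      intro E
      obtain ⟨δ, hδ, hδ0, hesc'⟩ := hesc E
      refine ⟨δ, hδ, hδ0, fun x hx0 hbx hsx => hesc' x ?_ ?_ ?_⟩
      · rw [hx0, map_add, hξ']
      · intro t
        rw [eb0, Ne, map_eq_zero_iff ι hι]
        exact (hbx t).ne_zero
      · intro t
        rw [eb0, ea0, ← map_mul, hsx])
  obtain ⟨Z, hZb, hZs, hZH, hZd⟩ := dense_of_good hfin hnf ι hι hg
  have hune : ∀ z : A, IsUnit z → ι z ≠ 0 := fun z hz => by
    rw [Ne, map_eq_zero_iff ι hι]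
    exact hz.ne_zero
  refine ⟨fun t => ι (x t), fun t => ι (Z t), ?_, ?_, ?_, ?_, ?_, hZd⟩
  · intro t
    rw [eb0]
    exact hune _ (hg.hb0 t)
  · intro t
    rw [eb0, ea0, ← map_mul, hg.h0]
  · intro t
    rw [eb1]
    exact hune _ (hZb t)
  · intro t
    rw [eb1, ea1, ← map_mul, hZs]
  · intro t
    have e1 : (C h * G').evalEval (ι (x t)) (ι (Z t)) = ι ((C h' * G'').evalEval (x t) (Z t)) := by
      rw [← evalEval_map', Polynomial.map_mul, hG'', Polynomial.map_C, coe_mapRingHom, hh']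
    rw [e1, Ne, map_eq_zero_iff ι hι]
    exact hZH t

end Pool.Agent.MP_b6294e_wc
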