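import Mathlib

/-!
# Homogenization and composition of rational functions
-/

set_option linter.style.haveILetI false

namespace Pool.Agent.MP_b6294e_wc

open Polynomial

section Hom

variable {S S' : Type*} [CommRing S] [CommRing S']

/-- The homogenization of degree `D` of a polynomial, at two polynomials. -/
noncomputable def hom (D : ℕ) (q α β : S[X]) : S[X] :=
  ∑ j ∈ Finset.range (D + 1), C (q.coeff j) * α ^ j * β ^ (D - j)

theorem hom_eval (D : ℕ) (q α β : S[X]) (hq : q.natDegree ≤ D) (y z : S)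
    (h : α.eval y = z * β.eval y) : (hom D q α β).eval y = β.eval y ^ D * q.eval z := by
  unfold hom
  rw [eval_finsetSum, eval_eq_sum_range' (n := D + 1) (Nat.lt_succ_iff.mpr hq), Finset.mul_sum]
  refine Finset.sum_congr rfl fun j hj => ?_
  have hj' := Nat.lt_succ_iff.mp (Finset.mem_range.mp hj)
  rw [eval_mul, eval_mul, eval_C, eval_pow, eval_pow, h, mul_pow]
  have h2 : β.eval y ^ D = β.eval y ^ j * β.eval y ^ (D - j) := by
    rw [← pow_add, Nat.add_sub_cancel' hj']
  rw [h2]
  ring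

theorem hom_map (φ : S →+* S') (D : ℕ) (q α β : S[X]) :
    (hom D q α β).map φ = hom D (q.map φ) (α.map φ) (β.map φ) := by
  unfold hom
  rw [Polynomial.map_sum]
  refine Finset.sum_congr rfl fun j _ => ?_
  rw [Polynomial.map_mul, Polynomial.map_mul, Polynomial.map_pow, Polynomial.map_pow, map_C,
    coeff_map]

theorem hom_natDegree (D E : ℕ) (q α β : S[X]) (hα : α.natDegree ≤ E) (hβ : β.natDegree ≤ E) :
    (hom D q α β).natDegree ≤ D * E := by
  unfold hom
  refine natDegree_sum_le_of_forall_le _ _ fun j hj => ?_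
  have hj' := Nat.lt_succ_iff.mp (Finset.mem_range.mp hj)
  refine natDegree_mul_le.trans ?_
  have h1 : (C (q.coeff j) * α ^ j).natDegree ≤ j * E :=
    (natDegree_C_mul_le _ _).trans (natDegree_pow_le.trans (Nat.mul_le_mul_left j hα))
  have h2 : (β ^ (D - j)).natDegree ≤ (D - j) * E :=
    natDegree_pow_le.trans (Nat.mul_le_mul_left _ hβ)
  refine (add_le_add h1 h2).trans (le_of_eq ?_)
  rw [← add_mul, Nat.add_sub_cancel' hj']

theorem hom_sub (D : ℕ) (c : S) (p q α β : S[X]) :
    hom D (p - C c * q) α β = hom D p α β - C c * hom D q α β := by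
  unfold hom
  rw [Finset.mul_sum, ← Finset.sum_sub_distrib]
  refine Finset.sum_congr rfl fun j _ => ?_
  rw [coeff_sub, coeff_C_mul, map_sub, map_mul]
  ring

theorem hom_X_one (D : ℕ) (q : S[X]) (hq : q.natDegree ≤ D) : hom D q X 1 = q := by
  unfold hom
  rw [q.as_sum_range' (D + 1) (Nat.lt_succ_iff.mpr hq)]
  refine Finset.sum_congr rfl fun j hj => ?_
  rw [← q.as_sum_range' (D + 1) (Nat.lt_succ_iff.mpr hq), one_pow, mul_one,
    C_mul_X_pow_eq_monomial]

/-- The composition of the rational functions `p 0 / q 0`, ..., `p (s - 1) / q (s - 1)`. -/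
noncomputable def comp (D : ℕ) (p q : ℕ → S[X]) : ℕ → S[X] × S[X]
  | 0 => (X, 1)
  | s + 1 => (hom D (p s) (comp D p q s).1 (comp D p q s).2,
      hom D (q s) (comp D p q s).1 (comp D p q s).2)

theorem comp_map (φ : S →+* S') (D : ℕ) (p q : ℕ → S[X]) (s : ℕ) :
    ((comp D p q s).1.map φ = (comp D (fun t => (p t).map φ) (fun t => (q t).map φ) s).1) ∧
    ((comp D p q s).2.map φ = (comp D (fun t => (p t).map φ) (fun t => (q t).map φ) s).2) := by
  induction s with
  | zero => simp [comp]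
  | succ s ih =>
    simp only [comp]
    rw [hom_map, hom_map, ih.1, ih.2]
    exact ⟨rfl, rfl⟩

theorem comp_natDegree (D : ℕ) (p q : ℕ → S[X]) (s : ℕ) :
    (comp D p q s).1.natDegree ≤ D ^ s ∧ (comp D p q s).2.natDegree ≤ D ^ s := by
  induction s with
  | zero => simp [comp, natDegree_X_le]
  | succ s ih =>
    simp only [comp]
    rw [pow_succ']
    exact ⟨hom_natDegree _ _ _ _ _ ih.1 ih.2, hom_natDegree _ _ _ _ _ ih.1 ih.2⟩

theorem comp_eval (D : ℕ) (p q : ℕ → S[X]) (hp : ∀ t, (p t).natDegree ≤ D)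
    (hq : ∀ t, (q t).natDegree ≤ D) (y : ℕ → S)
    (h : ∀ t, (q t).eval (y t) * y (t + 1) = (p t).eval (y t)) (s : ℕ) :
    (comp D p q s).1.eval (y 0) = y s * (comp D p q s).2.eval (y 0) ∧
    (comp D p q (s + 1)).2.eval (y 0) =
      (comp D p q s).2.eval (y 0) ^ D * (q s).eval (y s) := by
  have h2 : ∀ s, (comp D p q s).1.eval (y 0) = y s * (comp D p q s).2.eval (y 0) →
      (comp D p q (s + 1)).2.eval (y 0) =
        (comp D p q s).2.eval (y 0) ^ D * (q s).eval (y s) := fun s hs =>
    hom_eval D _ _ _ (hq s) _ _ hs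
  have h1 : ∀ s, (comp D p q s).1.eval (y 0) = y s * (comp D p q s).2.eval (y 0) := by
    intro s
    induction s with
    | zero => simp [comp]
    | succ s ih =>
      rw [h2 s ih]
      have h3 : (comp D p q (s + 1)).1.eval (y 0) =
          (comp D p q s).2.eval (y 0) ^ D * (p s).eval (y s) :=
        hom_eval D _ _ _ (hp s) _ _ ih
      rw [h3, ← h s]
      ring
  exact ⟨h1 s, h2 s (h1 s)⟩

end Hom

section AlgClosed

variable {F : Type*} [Field F] [IsAlgClosed F]

/-- A homogenized polynomial does not vanish at a nonconstant rational function. -/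
theorem hom_ne_zero (D : ℕ) (w α β : F[X]) (hw : w ≠ 0) (hD : w.natDegree ≤ D) (hβ : β ≠ 0)
    (hc : ∀ c, α ≠ C c * β) : hom D w α β ≠ 0 := by
  intro h0
  -- evaluate in the field of rational functions
  let L := FractionRing F[X]
  let ι : F[X] →+* L := algebraMap F[X] L
  have hι : Function.Injective ι := IsFractionRing.injective F[X] L
  have hβ' : ι β ≠ 0 := by rwa [Ne, map_eq_zero_iff ι hι]
  have h1 : ι (hom D w α β) = ι β ^ D * (w.map (ι.comp C)).eval (ι α / ι β) := by
    unfold hom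
    rw [map_sum, eval_eq_sum_range' (n := D + 1)
      (Nat.lt_succ_iff.mpr (natDegree_map_le.trans hD)), Finset.mul_sum]
    refine Finset.sum_congr rfl fun j hj => ?_
    have hj' := Nat.lt_succ_iff.mp (Finset.mem_range.mp hj)
    have h2 : ι β ^ D = ι β ^ j * ι β ^ (D - j) := by
      rw [← pow_add, Nat.add_sub_cancel' hj']
    rw [coeff_map, map_mul, map_mul, map_pow, map_pow, h2, div_pow]
    have h3 : ι β ^ j ≠ 0 := pow_ne_zero _ hβ'
    have h4 : ι β ^ j * (ι α ^ j / ι β ^ j) = ι α ^ j := by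
      rw [← mul_div_assoc, mul_comm, mul_div_assoc, div_self h3, mul_one]
    rw [RingHom.comp_apply]
    linear_combination (-(ι (C (w.coeff j)) * ι β ^ (D - j))) * h4
  rw [h0, map_zero] at h1
  have h2 : (w.map (ι.comp C)).eval (ι α / ι β) = 0 := by
    rcases mul_eq_zero.mp h1.symm with h3 | h3
    · exact absurd h3 (pow_ne_zero _ hβ')
    · exact h3
  rw [(IsAlgClosed.splits w).eq_prod_roots] at h2
  simp only [Polynomial.map_mul, Polynomial.map_C, eval_mul, eval_C, Polynomial.map_multiset_prod,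
    Multiset.map_map, Function.comp_def, Polynomial.map_sub, Polynomial.map_X] at h2
  rcases mul_eq_zero.mp h2 with h3 | h3
  · rw [RingHom.comp_apply, map_eq_zero_iff ι hι, C_eq_zero] at h3
    exact hw (leadingCoeff_eq_zero.mp h3)
  · rw [eval_multiset_prod, Multiset.prod_eq_zero_iff, Multiset.mem_map] at h3
    obtain ⟨p, hp, hp0⟩ := h3
    obtain ⟨r, hr, rfl⟩ := Multiset.mem_map.mp hp
    rw [eval_sub, eval_X, eval_C, sub_eq_zero, div_eq_iff hβ', RingHom.comp_apply, ← map_mul]
      at hp0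
    exact hc r (hι hp0)

theorem comp_ne (D : ℕ) (p q : ℕ → F[X]) (hp : ∀ t, (p t).natDegree ≤ D)
    (hq : ∀ t, (q t).natDegree ≤ D) (hq0 : ∀ t, q t ≠ 0) (hc : ∀ t c, p t ≠ C c * q t) (s : ℕ) :
    (comp D p q s).2 ≠ 0 ∧ ∀ c, (comp D p q s).1 ≠ C c * (comp D p q s).2 := by
  induction s with
  | zero =>
    refine ⟨by simp [comp], fun c h => ?_⟩
    simp only [comp, mul_one] at h
    exact X_ne_C c h
  | succ s ih =>
    refine ⟨hom_ne_zero D _ _ _ (hq0 s) (hq s) ih.1 ih.2, fun c h => ?_⟩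
    simp only [comp] at h
    rw [← sub_eq_zero, ← hom_sub] at h
    refine hom_ne_zero D _ _ _ ?_ ?_ ih.1 ih.2 h
    · exact sub_ne_zero.mpr (hc s c)
    · exact (natDegree_sub_le _ _).trans (max_le (hp s) ((natDegree_C_mul_le _ _).trans (hq s)))

/-- A root of `α = Y ^ Q β` outside the zeros of a given polynomial, for a large power `Q`. -/
theorem frob_root (r : ℕ) [Fact r.Prime] [CharP F r] (α β Λ : F[X]) (hβ : β ≠ 0)
    (hc : ∀ c, α ≠ C c * β) (hΛ : Λ ≠ 0) (d : ℕ) (hd : 0 < d) :
    ∃ (j : ℕ) (y : F), 0 < j ∧ α.eval y = y ^ (r ^ (d * j)) * β.eval y ∧ Λ.eval y ≠ 0 := by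
  classical
  by_contra hno
  push Not at hno
  set M := max α.natDegree β.natDegree with hM
  set N := Λ.roots.toFinset.card with hN
  set j := N * M + M + 1 with hj
  set Q := r ^ (d * j) with hQ
  have hr : 2 ≤ r := (Fact.out : r.Prime).two_le
  have hQj : j < Q := by
    have h1 : j < 2 ^ j := Nat.lt_two_pow_self
    have h2 : 2 ^ j ≤ r ^ j := Nat.pow_le_pow_left hr j
    have h3 : r ^ j ≤ r ^ (d * j) :=
      Nat.pow_le_pow_right (by omega) (Nat.le_mul_of_pos_left j hd)
    omega
  set G := α - X ^ Q * β with hG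
  have hαQ : α.natDegree < Q := by
    have : α.natDegree ≤ M := le_max_left _ _
    omega
  have hdeg : (X ^ Q * β).natDegree = Q + β.natDegree := by
    rw [natDegree_mul (pow_ne_zero _ X_ne_zero) hβ, natDegree_X_pow]
  have hGdeg : G.natDegree = Q + β.natDegree := by
    rw [hG, natDegree_sub, natDegree_sub_eq_left_of_natDegree_lt (by omega), hdeg]
  have hG0 : G ≠ 0 := by
    rintro h
    rw [h, natDegree_zero] at hGdeg
    omega
  have hroots : ∀ y, G.eval y = 0 → Λ.eval y = 0 := by
    intro y hy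
    refine hno j y (by omega) ?_
    rw [hG, eval_sub, eval_mul, eval_pow, eval_X, sub_eq_zero] at hy
    exact hy
  have hcard : G.roots.card = Q + β.natDegree := by
    rw [← hGdeg]
    exact splits_iff_card_roots.mp (IsAlgClosed.splits G)
  have hsub : G.roots.toFinset ⊆ Λ.roots.toFinset := by
    intro y hy
    rw [Multiset.mem_toFinset, mem_roots'] at hy ⊢
    exact ⟨hΛ, hroots y hy.2⟩
  obtain ⟨z, hz, hzm⟩ : ∃ z ∈ G.roots.toFinset, M < G.roots.count z := by
    by_contra hcon
    push Not at hcon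
    have h1 : G.roots.card ≤ G.roots.toFinset.card * M := by
      rw [← Multiset.toFinset_sum_count_eq]
      exact Finset.sum_le_card_nsmul _ _ _ hcon
    have h2 : G.roots.toFinset.card * M ≤ N * M :=
      Nat.mul_le_mul_right _ (Finset.card_le_card hsub)
    omega
  rw [count_roots] at hzm
  have h1 : (X - C z) ^ (M + 1) ∣ G :=
    (pow_dvd_pow _ hzm).trans (pow_rootMultiplicity_dvd G z)
  have h2 : (X - C z) ^ (M + 1) ∣ X ^ Q - C (z ^ Q) := by
    have h3 : (X - C z) ^ Q = X ^ Q - C (z ^ Q) := by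
      rw [hQ, sub_pow_char_pow, C_pow]
    rw [← h3]
    exact pow_dvd_pow _ (by omega)
  have h3 : (X - C z) ^ (M + 1) ∣ α - C (z ^ Q) * β := by
    have h4 : α - C (z ^ Q) * β = G + (X ^ Q - C (z ^ Q)) * β := by
      rw [hG]; ring
    rw [h4]
    exact dvd_add h1 (h2.mul_right β)
  have h4 : α - C (z ^ Q) * β ≠ 0 := sub_ne_zero.mpr (hc _)
  have h5 := natDegree_le_of_dvd h3 h4
  rw [natDegree_pow, natDegree_X_sub_C, mul_one] at h5
  have h6 : (α - C (z ^ Q) * β).natDegree ≤ M :=
    (natDegree_sub_le _ _).trans (max_le (le_max_left _ _)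
      ((natDegree_C_mul_le _ _).trans (le_max_right _ _)))
  omega

end AlgClosed

end Pool.Agent.MP_b6294e_wc
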