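import Pool.Agent.Lib.MP_b6294e_wc.Quasi
import Pool.Agent.Lib.MP_b6294e_wc.HomComp

/-!
# Dense orbits over a convergent base orbit
-/

set_option linter.style.haveILetI false

namespace Pool.Agent.MP_b6294e_wc

open Polynomial Pool.Agent.MP_b6294e

section Quasi

variable {A : Type*} [CommRing A] [IsDomain A] [IsDiscreteValuationRing A]

/-- The conclusion of `lip` for given `S`, `T`. -/
def Lip (a b : A[X][X]) (x Y : ℕ → A) (e S T : ℕ) : Prop :=
  (∀ t, T ≤ t → Y (t + S) - Y t ∈ IsLocalRing.maximalIdeal A ^ e) ∧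
    ∀ t, T ≤ t → ∀ z z' : ℕ → A, Orb a b (fun i => x (t + i)) z →
      Orb a b (fun i => x (t + i)) z' →
      z 0 - Y t ∈ IsLocalRing.maximalIdeal A ^ e → z' 0 - Y t ∈ IsLocalRing.maximalIdeal A ^ e →
      ∃ ε ∈ IsLocalRing.maximalIdeal A ^ e, z S - z' S = (z 0 - z' 0) * (1 + ε)

/-- An asymptotically periodic orbit has asymptotic period `S`. -/
theorem quasi {a b : A[X][X]} {x Y y : ℕ → A} {e S T n : ℕ} (he : e ≠ 0)
    (hnS : n ∣ S)
    (hxn : ∀ s : ℕ, ∃ T, ∀ t, T ≤ t → x (t + n) - x t ∈ IsLocalRing.maximalIdeal A ^ s)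
    (hprime : ∀ q : ℕ, q.Prime → (q : A) ∉ IsLocalRing.maximalIdeal A ^ e)
    (hY : Orb a b x Y) (hy : Orb a b x y)
    (hyY : ∀ t, y t - Y t ∈ IsLocalRing.maximalIdeal A ^ e) (hL : Lip a b x Y e S T)
    (M : ℕ) (hM0 : 0 < M)
    (hM : ∀ s : ℕ, ∃ T, ∀ t, T ≤ t → y (t + M) - y t ∈ IsLocalRing.maximalIdeal A ^ s) :
    ∀ s : ℕ, ∃ T, ∀ t, T ≤ t → y (t + S) - y t ∈ IsLocalRing.maximalIdeal A ^ s := by
  classical
  obtain ⟨hL1, hL2⟩ := hL
  -- the base over multiples of `S`
  have hxS : ∀ s : ℕ, ∃ T, ∀ t, T ≤ t → ∀ l, x (t + l * S) - x t ∈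
      IsLocalRing.maximalIdeal A ^ s := by
    intro s
    obtain ⟨T', hT'⟩ := hxn s
    obtain ⟨g, hg⟩ := hnS
    have h1 : ∀ t, T' ≤ t → ∀ j, x (t + n * j) - x t ∈ IsLocalRing.maximalIdeal A ^ s := by
      intro t ht j
      induction j with
      | zero => simp
      | succ j ih =>
        have h2 := hT' (t + n * j) (by omega)
        have h3 := Ideal.add_mem _ h2 ih
        rwa [sub_add_sub_cancel, show t + n * j + n = t + n * (j + 1) by ring] at h3
    refine ⟨T', fun t ht l => ?_⟩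
    have h2 := h1 t ht (g * l)
    rwa [show t + n * (g * l) = t + l * S by rw [hg]; ring] at h2
  have hYl : ∀ l t, T ≤ t → Y (t + l * S) - Y t ∈ IsLocalRing.maximalIdeal A ^ e := by
    intro l t ht
    induction l with
    | zero => simp
    | succ l ih =>
      have h1 := hL1 (t + l * S) (by omega)
      have h2 := Ideal.add_mem _ h1 ih
      rwa [sub_add_sub_cancel, show t + l * S + S = t + (l + 1) * S by ring] at h2
  have hyl : ∀ l t, T ≤ t → y (t + l * S) - Y t ∈ IsLocalRing.maximalIdeal A ^ e := by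
    intro l t ht
    have h1 := Ideal.add_mem _ (hyY (t + l * S)) (hYl l t ht)
    rwa [sub_add_sub_cancel] at h1
  -- the shifted differences
  have hstep : ∀ l s : ℕ, ∃ T', ∀ t, T' ≤ t →
      (∃ ε ∈ IsLocalRing.maximalIdeal A ^ e,
        (y (t + S + l * S) - y (t + S)) - (y (t + l * S) - y t) * (1 + ε) ∈
          IsLocalRing.maximalIdeal A ^ s) ∧
      (y (t + l * S) - y t ∈ IsLocalRing.maximalIdeal A ^ s →
        y (t + 1 + l * S) - y (t + 1) ∈ IsLocalRing.maximalIdeal A ^ s) := by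
    intro l s
    obtain ⟨T', hT'⟩ := hxS s
    refine ⟨max T T', fun t ht => ⟨?_, ?_⟩⟩
    · have hTt : T ≤ t := (le_max_left _ _).trans ht
      have hYt := hY.shift t
      obtain ⟨z, hz0, hz, hzY⟩ := orb_exists hYt e he (y (t + l * S)) (by
        rw [add_zero]
        exact hyl l t hTt)
      obtain ⟨ε, hε, h1⟩ := hL2 t hTt z (fun i => y (t + i)) hz (hy.shift t)
        (by rw [hz0]; exact hyl l t hTt) (by rw [add_zero]; exact hyY t)
      have h2 := fwd (hy.shift (t + l * S)) hz (IsLocalRing.maximalIdeal A ^ s)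
        (by
          intro i
          have h3 := hT' (t + i) (((le_max_right _ _).trans ht).trans (Nat.le_add_right _ _)) l
          rwa [show t + i + l * S = t + l * S + i by ring] at h3)
        (by rw [hz0, add_zero, sub_self]; exact Ideal.zero_mem _) S
      refine ⟨ε, hε, ?_⟩
      rw [hz0, add_zero] at h1
      have h3 : (y (t + S + l * S) - y (t + S)) - (y (t + l * S) - y t) * (1 + ε) =
          y (t + l * S + S) - z S := by
        rw [← h1, show t + S + l * S = t + l * S + S by ring]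
        ring
      rw [h3]
      exact h2
    · intro h
      have h1 := fwd (hy.shift (t + l * S)) (hy.shift t) (IsLocalRing.maximalIdeal A ^ s)
        (by
          intro i
          have h3 := hT' (t + i) (((le_max_right _ _).trans ht).trans (Nat.le_add_right _ _)) l
          rwa [show t + i + l * S = t + l * S + i by ring] at h3)
        (by rw [add_zero, add_zero]; exact h) 1
      rwa [show t + 1 + l * S = t + l * S + 1 by ring]
  -- iterate
  have hiter : ∀ l s j : ℕ, ∃ T', ∀ t, T' ≤ t → ∃ ε ∈ IsLocalRing.maximalIdeal A ^ e,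
      (y (t + j * S + l * S) - y (t + j * S)) - (y (t + l * S) - y t) * (1 + ε) ∈
        IsLocalRing.maximalIdeal A ^ s := by
    intro l s j
    induction j with
    | zero => exact ⟨0, fun t _ => ⟨0, Ideal.zero_mem _, by simp⟩⟩
    | succ j ih =>
      obtain ⟨T₁, h1⟩ := ih
      obtain ⟨T₂, h2⟩ := hstep l s
      refine ⟨max T₁ T₂, fun t ht => ?_⟩
      obtain ⟨ε₁, hε₁, h3⟩ := h1 t ((le_max_left _ _).trans ht)
      obtain ⟨⟨ε₂, hε₂, h4⟩, -⟩ := h2 (t + j * S)
        (((le_max_right _ _).trans ht).trans (Nat.le_add_right _ _))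
      refine ⟨ε₁ + ε₂ + ε₁ * ε₂, Ideal.add_mem _ (Ideal.add_mem _ hε₁ hε₂)
        (Ideal.mul_mem_left _ _ hε₂), ?_⟩
      have h5 := Ideal.add_mem _ h4 (Ideal.mul_mem_right (1 + ε₂) _ h3)
      have h6 : (y (t + j * S + S + l * S) - y (t + j * S + S) -
          (y (t + j * S + l * S) - y (t + j * S)) * (1 + ε₂)) +
          (y (t + j * S + l * S) - y (t + j * S) - (y (t + l * S) - y t) * (1 + ε₁)) * (1 + ε₂) =
          (y (t + (j + 1) * S + l * S) - y (t + (j + 1) * S)) -
            (y (t + l * S) - y t) * (1 + (ε₁ + ε₂ + ε₁ * ε₂)) := by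
        rw [show t + (j + 1) * S = t + j * S + S by ring]
        ring
      rwa [h6] at h5
  have hmul : ∀ l s u : ℕ, ∃ T', ∀ t, T' ≤ t → ∃ ε ∈ IsLocalRing.maximalIdeal A ^ e,
      (y (t + u * l * S) - y t) - (y (t + l * S) - y t) * ((u : A) + ε) ∈
        IsLocalRing.maximalIdeal A ^ s := by
    intro l s u
    induction u with
    | zero => exact ⟨0, fun t _ => ⟨0, Ideal.zero_mem _, by simp⟩⟩
    | succ u ih =>
      obtain ⟨T₁, h1⟩ := ih
      obtain ⟨T₂, h2⟩ := hiter l s (u * l)
      refine ⟨max T₁ T₂, fun t ht => ?_⟩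
      obtain ⟨ε₁, hε₁, h3⟩ := h1 t ((le_max_left _ _).trans ht)
      obtain ⟨ε₂, hε₂, h4⟩ := h2 t ((le_max_right _ _).trans ht)
      refine ⟨ε₁ + ε₂, Ideal.add_mem _ hε₁ hε₂, ?_⟩
      have h5 := Ideal.add_mem _ h3 h4
      have h6 : (y (t + u * l * S) - y t - (y (t + l * S) - y t) * (↑u + ε₁)) +
          (y (t + u * l * S + l * S) - y (t + u * l * S) - (y (t + l * S) - y t) * (1 + ε₂)) =
          (y (t + (u + 1) * l * S) - y t) -
            (y (t + l * S) - y t) * (((u + 1 : ℕ) : A) + (ε₁ + ε₂)) := by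
        rw [show t + (u + 1) * l * S = t + u * l * S + l * S by ring]
        push_cast
        ring
      rwa [h6] at h5
  -- assume that `S` is not an asymptotic period
  by_contra hno
  push Not at hno
  obtain ⟨s₀, hs₀⟩ := hno
  have hbase : ∃ s T', ∀ t, T' ≤ t → y (t + 1 * S) - y t ∉ IsLocalRing.maximalIdeal A ^ s := by
    obtain ⟨T', hT'⟩ := hstep 1 s₀
    refine ⟨s₀, T', fun t ht hcon => ?_⟩
    obtain ⟨t', ht', hcon'⟩ := hs₀ t
    apply hcon'
    obtain ⟨i, rfl⟩ := Nat.exists_eq_add_of_le ht'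
    clear hcon' ht'
    have h1 : ∀ i, y (t + i + 1 * S) - y (t + i) ∈ IsLocalRing.maximalIdeal A ^ s₀ := by
      intro i
      induction i with
      | zero => exact hcon
      | succ i ih =>
        have h2 := (hT' (t + i) (by omega)).2 ih
        exact h2
    have h2 := h1 i
    rwa [one_mul] at h2
  have hind : ∀ M : ℕ, 0 < M → ∃ s T', ∀ t, T' ≤ t →
      y (t + M * S) - y t ∉ IsLocalRing.maximalIdeal A ^ s := by
    intro M
    induction M using Nat.strong_induction_on with
    | _ M ih =>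
      intro hM0
      rcases Nat.lt_or_ge 1 M with h1 | h1
      · have hq := Nat.minFac_prime (n := M) (by omega)
        set q := M.minFac with hqdef
        obtain ⟨l, hl⟩ := Nat.minFac_dvd M
        rw [← hqdef] at hl
        have hl0 : 0 < l := by
          rcases Nat.eq_zero_or_pos l with h2 | h2
          · rw [h2, mul_zero] at hl
            omega
          · exact h2
        have hlM : l < M := by
          rw [hl]
          have := hq.two_le
          nlinarith
        obtain ⟨s, T₁, h2⟩ := ih l hlM hl0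
        obtain ⟨T₂, h3⟩ := hmul l (s + e) q
        refine ⟨s + e, max T₁ T₂, fun t ht hcon => ?_⟩
        obtain ⟨ε, hε, h4⟩ := h3 t ((le_max_right _ _).trans ht)
        rw [← hl] at h4
        have h5 := Ideal.sub_mem _ hcon h4
        rw [sub_sub_cancel] at h5
        have h6 : (q : A) + ε ∉ IsLocalRing.maximalIdeal A ^ e := by
          intro h7
          have h8 := Ideal.sub_mem _ h7 hε
          rw [add_sub_cancel_right] at h8
          exact hprime q hq h8
        exact notMem_mul (h2 t ((le_max_left _ _).trans ht)) h6 h5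
      · rw [show M = 1 by omega]
        exact hbase
  obtain ⟨s, T₁, h1⟩ := hind M hM0
  obtain ⟨T₂, h2⟩ := hM s
  apply h1 (max T₁ T₂) (le_max_left _ _)
  have h3 : ∀ j, y (max T₁ T₂ + M * j) - y (max T₁ T₂) ∈ IsLocalRing.maximalIdeal A ^ s := by
    intro j
    induction j with
    | zero => simp
    | succ j ih =>
      have h4 := h2 (max T₁ T₂ + M * j) ((le_max_right _ _).trans (Nat.le_add_right _ _))
      have h5 := Ideal.add_mem _ h4 ih
      rwa [sub_add_sub_cancel, show max T₁ T₂ + M * j + M = max T₁ T₂ + M * (j + 1) by ring]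
        at h5
  exact h3 S

theorem exists_level [CharZero A] :
    ∃ e : ℕ, e ≠ 0 ∧ ∀ q : ℕ, q.Prime → (q : A) ∉ IsLocalRing.maximalIdeal A ^ e := by
  by_cases h : ∃ p : ℕ, p.Prime ∧ (p : A) ∈ IsLocalRing.maximalIdeal A
  · obtain ⟨p, hp, hpm⟩ := h
    obtain ⟨r, hr⟩ := exists_notMem (A := A) (a := (p : A)) (by exact_mod_cast hp.ne_zero)
    refine ⟨r + 1, Nat.succ_ne_zero r, fun q hq hqm => ?_⟩
    by_cases hqp : q = p
    · subst hqp
      exact hr (Ideal.pow_le_pow_right (Nat.le_succ r) hqm)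
    · have h1 := Ideal.pow_le_self (Nat.succ_ne_zero r) hqm
      have h2 : IsCoprime (p : ℤ) (q : ℤ) := by
        rw [Nat.isCoprime_iff_coprime]
        exact (Nat.coprime_primes hp hq).mpr (Ne.symm hqp)
      obtain ⟨u, v, huv⟩ := h2
      have h3 : (1 : A) ∈ IsLocalRing.maximalIdeal A := by
        have h4 : (1 : A) = u * p + v * q := by exact_mod_cast huv.symm
        rw [h4]
        exact Ideal.add_mem _ (Ideal.mul_mem_left _ _ hpm) (Ideal.mul_mem_left _ _ h1)
      exact (IsLocalRing.mem_maximalIdeal _).mp h3 isUnit_one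
  · push Not at h
    exact ⟨1, one_ne_zero, fun q hq hqm => h q hq (by rwa [pow_one] at hqm)⟩

end Quasi

section Dense

variable {A : Type*} [CommRing A] [IsDomain A] [IsDiscreteValuationRing A] [CharZero A]
  {K : Type*} [Field K]

/-- Over a convergent base orbit, some fibre orbit near a given noncritical one is dense. -/
theorem dense_of_attracting (hfin : ∀ s, Finite (A ⧸ IsLocalRing.maximalIdeal A ^ s))
    (ι : A →+* K) (hι : Function.Injective ι) (a b : A[X][X]) (D : ℕ)
    (hDa : a.natDegree ≤ D) (hDb : b.natDegree ≤ D) (x Y : ℕ → A) (hx : Function.Injective x)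
    (n : ℕ) (hn : 0 < n)
    (hxn : ∀ s : ℕ, ∃ T, ∀ t, T ≤ t → x (t + n) - x t ∈ IsLocalRing.maximalIdeal A ^ s)
    (hY : Orb a b x Y) (hW : ∀ t, IsUnit ((wr a b).evalEval (x t) (Y t)))
    (hNI : ∀ S, 0 < S → n ∣ S → ∃ s, ∀ T, ∃ t, T ≤ t ∧ ∃ i,
      ((comp D (fun i => a.map (evalRingHom (x (t + i)))) (fun i => b.map (evalRingHom (x (t + i))))
        S).1 - X * (comp D (fun i => a.map (evalRingHom (x (t + i))))
          (fun i => b.map (evalRingHom (x (t + i)))) S).2).coeff i ∉
        IsLocalRing.maximalIdeal A ^ s) :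
    ∃ z : ℕ → A, Orb a b x z ∧ (∀ t, z t - Y t ∈ IsLocalRing.maximalIdeal A) ∧
      ∀ P : K[X][X], (∀ t, P.evalEval (ι (x t)) (ι (z t)) = 0) → P = 0 := by
  classical
  obtain ⟨e, he, hprime⟩ := exists_level (A := A)
  obtain ⟨S, T, hS, hnS, hL1, hL2⟩ := lip hfin e n hn hxn hY hW
  by_contra hno
  push Not at hno
  obtain ⟨ϖ, hϖ⟩ := IsDiscreteValuationRing.exists_irreducible A
  have hϖm : ϖ ∈ IsLocalRing.maximalIdeal A := by
    rw [IsLocalRing.mem_maximalIdeal]
    exact hϖ.not_isUnit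
  have hstart : ∀ j : ℕ, (Y 0 + ϖ ^ e * j) - Y 0 ∈ IsLocalRing.maximalIdeal A ^ e := by
    intro j
    rw [add_sub_cancel_left]
    exact Ideal.mul_mem_right _ _ (Ideal.pow_mem_pow hϖm e)
  choose z hz0 hz hzY using fun j : ℕ => orb_exists hY e he _ (hstart j)
  have hper : ∀ j, ∀ s : ℕ, ∃ T, ∀ t, T ≤ t →
      z j (t + S) - z j t ∈ IsLocalRing.maximalIdeal A ^ s := by
    intro j
    obtain ⟨P, hP, hP0⟩ := hno (z j) (hz j) fun t => Ideal.pow_le_self he (hzY j t)
    obtain ⟨Q, hQ0, hQ⟩ := descend ι hι P hP0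
    obtain ⟨M, hM0, hM⟩ := cluster x (z j) hx n hn hxn (hz j) Q hQ0
      fun t => hQ _ _ (hP t)
    exact quasi he hnS hxn hprime hY (hz j) (hzY j) ⟨hL1, hL2⟩ M hM0 hM
  set Δ := D ^ S + 1 with hΔ
  -- the differences do not become small
  have hsep : ∃ s₁, ∀ i ≤ Δ, ∀ j ≤ Δ, i ≠ j → ∀ t, z i t - z j t ∉
      IsLocalRing.maximalIdeal A ^ s₁ := by
    have h1 : ∀ i j : ℕ, ∃ s, i ≠ j → ∀ t, z i t - z j t ∉ IsLocalRing.maximalIdeal A ^ s := by
      intro i j
      by_cases hij : i = j
      · exact ⟨0, fun h => absurd hij h⟩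
      · have h2 : z i 0 - z j 0 ≠ 0 := by
          rw [hz0, hz0, add_sub_add_left_eq_sub, ← mul_sub]
          refine mul_ne_zero (pow_ne_zero _ hϖ.ne_zero) ?_
          rw [sub_ne_zero]
          exact_mod_cast hij
        obtain ⟨s, hs⟩ := exists_notMem h2
        refine ⟨s, fun _ t => ?_⟩
        induction t with
        | zero => exact hs
        | succ t ih =>
          obtain ⟨u, hu, hθ⟩ := step_diff e (hz i) (hz j) hY (hzY i) (hzY j) t
          have huu : IsUnit u := by
            refine isUnit_of_congr he ((hW t).mul ((hY.1 t).ringInverse.pow 2)) ?_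
            exact Ideal.Quotient.eq.mp hθ
          rw [hu]
          intro hcon
          exact ih ((Ideal.mul_unit_mem_iff_mem _ huu).mp hcon)
    choose s hs using h1
    refine ⟨∑ i ∈ Finset.range (Δ + 1), ∑ j ∈ Finset.range (Δ + 1), s i j,
      fun i hi j hj hij t => notMem_mono ?_ (hs i j hij t)⟩
    refine le_trans ?_ (Finset.single_le_sum (f := fun i => ∑ j ∈ Finset.range (Δ + 1), s i j)
      (fun _ _ => Nat.zero_le _) (Finset.mem_range.mpr (Nat.lt_succ_iff.mpr hi)))
    exact Finset.single_le_sum (f := fun j => s i j) (fun _ _ => Nat.zero_le _)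
      (Finset.mem_range.mpr (Nat.lt_succ_iff.mpr hj))
  obtain ⟨s₁, hs₁⟩ := hsep
  obtain ⟨s₂, hs₂⟩ := hNI S hS hnS
  choose T' hT' using fun j => hper j (s₂ + s₁ * Δ)
  obtain ⟨t, ht, i, hi⟩ := hs₂ (∑ j ∈ Finset.range (Δ + 1), T' j)
  apply hi
  set p := fun i => a.map (evalRingHom (x (t + i))) with hp
  set q := fun i => b.map (evalRingHom (x (t + i))) with hq
  have hpD : ∀ i, (p i).natDegree ≤ D := fun i => natDegree_map_le.trans hDa
  have hqD : ∀ i, (q i).natDegree ≤ D := fun i => natDegree_map_le.trans hDb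
  have hdeg : ((comp D p q S).1 - X * (comp D p q S).2).natDegree ≤ Δ := by
    obtain ⟨h1, h2⟩ := comp_natDegree D p q S
    refine (natDegree_sub_le _ _).trans (max_le (h1.trans (Nat.le_succ _)) ?_)
    refine natDegree_mul_le.trans ?_
    have h3 : (X : A[X]).natDegree ≤ 1 := natDegree_X_le
    omega
  have h1 := vdm Δ ((comp D p q S).1 - X * (comp D p q S).2) (fun j => z j t) s₁ s₂ hdeg
    (fun i hi j hj hij => hs₁ i hi j hj hij t)
    (by
      intro j hj
      have h2 : ∀ i, (q i).eval (z j (t + i)) * z j (t + (i + 1)) = (p i).eval (z j (t + i)) := by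
        intro i
        rw [hp, hq]
        simp only [map_evalRingHom_eval]
        exact (hz j).2 (t + i)
      have h3 := (comp_eval D p q hpD hqD (fun i => z j (t + i)) h2 S).1
      rw [add_zero] at h3
      rw [Polynomial.eval_sub, eval_mul, eval_X, h3, ← sub_mul]
      refine Ideal.mul_mem_right _ _ (hT' j t (le_trans ?_ ht))
      exact Finset.single_le_sum (f := T') (fun _ _ => Nat.zero_le _)
        (Finset.mem_range.mpr (Nat.lt_succ_iff.mpr hj)))
  exact h1 i

end Dense

end Pool.Agent.MP_b6294e_wc
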