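import Pool.Agent.Lib.MP_b6294e_wc.ND

/-!
# Orbits on a curve over a convergent base orbit are asymptotically periodic
-/

set_option linter.style.haveILetI false

namespace Pool.Agent.MP_b6294e_wc

open Polynomial Pool.Agent.MP_b6294e

section Orb

variable {A : Type*} [CommRing A]

/-- A fibre orbit over a sequence of base points, with invertible denominators. -/
def Orb (a b : A[X][X]) (x z : ℕ → A) : Prop :=
  (∀ t, IsUnit (b.evalEval (x t) (z t))) ∧
    ∀ t, b.evalEval (x t) (z t) * z (t + 1) = a.evalEval (x t) (z t)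

theorem Orb.shift {a b : A[X][X]} {x z : ℕ → A} (h : Orb a b x z) (t : ℕ) :
    Orb a b (fun i => x (t + i)) (fun i => z (t + i)) :=
  ⟨fun i => h.1 (t + i), fun i => h.2 (t + i)⟩

/-- Congruent starting points over congruent base sequences have congruent orbits. -/
theorem fwd {a b : A[X][X]} {x x' z z' : ℕ → A} (h : Orb a b x z) (h' : Orb a b x' z')
    (I : Ideal A) (hx : ∀ t, x t - x' t ∈ I) (h0 : z 0 - z' 0 ∈ I) : ∀ t, z t - z' t ∈ I := by
  intro t
  induction t with
  | zero => exact h0
  | succ t ih =>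
    have e1 := congr_evalEval I a (hx t) ih
    have e2 := congr_evalEval I b (hx t) ih
    have e3 : b.evalEval (x t) (z t) * (z (t + 1) - z' (t + 1)) ∈ I := by
      have e4 : b.evalEval (x t) (z t) * (z (t + 1) - z' (t + 1)) =
          (a.evalEval (x t) (z t) - a.evalEval (x' t) (z' t)) -
          (b.evalEval (x t) (z t) - b.evalEval (x' t) (z' t)) * z' (t + 1) := by
        linear_combination h.2 t - h'.2 t
      rw [e4]
      exact Ideal.sub_mem _ e1 (Ideal.mul_mem_right _ _ e2)
    exact (Ideal.unit_mul_mem_iff_mem _ (h.1 t)).mp e3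

theorem orb_exists [IsLocalRing A] {a b : A[X][X]} {x Y : ℕ → A} (h : Orb a b x Y) (e : ℕ)
    (he : e ≠ 0) (y : A) (hy : y - Y 0 ∈ IsLocalRing.maximalIdeal A ^ e) :
    ∃ Z, Z 0 = y ∧ Orb a b x Z ∧ ∀ t, Z t - Y t ∈ IsLocalRing.maximalIdeal A ^ e := by
  obtain ⟨Z, hZ0, hZs⟩ : ∃ Z : ℕ → A, Z 0 = y ∧
      ∀ t, Z (t + 1) = a.evalEval (x t) (Z t) * Ring.inverse (b.evalEval (x t) (Z t)) :=
    ⟨fun t => Nat.rec y (fun t z => a.evalEval (x t) z * Ring.inverse (b.evalEval (x t) z)) t,
      rfl, fun t => rfl⟩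
  obtain ⟨h1, h2, h3⟩ := shadow a b x Y y e he h.1 h.2 hy Z hZ0 hZs
  exact ⟨Z, hZ0, ⟨h1, h2⟩, h3⟩

end Orb

section Vdm

variable {A : Type*} [CommRing A] [IsDomain A] [IsDiscreteValuationRing A]

/-- A polynomial that is small at many points that are far from each other is small. -/
theorem vdm (D : ℕ) : ∀ (q : A[X]) (z : ℕ → A) (s N : ℕ), q.natDegree ≤ D →
    (∀ i ≤ D, ∀ j ≤ D, i ≠ j → z i - z j ∉ IsLocalRing.maximalIdeal A ^ s) →
    (∀ j ≤ D, q.eval (z j) ∈ IsLocalRing.maximalIdeal A ^ (N + s * D)) →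
    ∀ i, q.coeff i ∈ IsLocalRing.maximalIdeal A ^ N := by
  induction D with
  | zero =>
    intro q z s N hq _ h i
    have h1 := h 0 le_rfl
    rw [mul_zero, add_zero, eq_C_of_natDegree_le_zero hq, eval_C] at h1
    rcases Nat.eq_zero_or_pos i with rfl | hi
    · exact h1
    · rw [coeff_eq_zero_of_natDegree_lt (by omega)]
      exact Ideal.zero_mem _
  | succ D ih =>
    intro q z s N hq hz h
    set r := z (D + 1) with hr
    set q₁ := q /ₘ (X - C r) with hq₁
    have hdec : q = C (q.eval r) + (X - C r) * q₁ := by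
      have h1 := modByMonic_add_div q (X - C r)
      rw [modByMonic_X_sub_C_eq_C_eval] at h1
      exact h1.symm
    have hnd : q₁.natDegree ≤ D := by
      rw [hq₁, natDegree_divByMonic _ (monic_X_sub_C r), natDegree_X_sub_C]
      omega
    have h1 : ∀ i, q₁.coeff i ∈ IsLocalRing.maximalIdeal A ^ N := by
      refine ih q₁ z s N hnd (fun i hi j hj hij => hz i (by omega) j (by omega) hij) ?_
      intro j hj
      by_contra hcon
      have h2 := notMem_mul hcon (hz j (by omega) (D + 1) le_rfl (by omega))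
      apply h2
      have h3 : q₁.eval (z j) * (z j - z (D + 1)) = q.eval (z j) - q.eval r := by
        have h4 := congrArg (fun p => p.eval (z j)) hdec
        simp only [eval_add, eval_C, eval_mul, Polynomial.eval_sub, eval_X] at h4
        rw [h4, hr]
        ring
      rw [h3, show N + s * D + s = N + s * (D + 1) by ring]
      exact Ideal.sub_mem _ (h j (by omega)) (h (D + 1) le_rfl)
    have h2 : q ∈ Ideal.map C (IsLocalRing.maximalIdeal A ^ N) := by
      rw [hdec]
      refine Ideal.add_mem _ ?_ (Ideal.mul_mem_left _ _ (Ideal.mem_map_C_iff.mpr h1))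
      refine Ideal.mem_map_of_mem C ?_
      exact Ideal.pow_le_pow_right (Nat.le_add_right _ _) (h (D + 1) le_rfl)
    exact Ideal.mem_map_C_iff.mp h2

end Vdm

section Prim

variable {A : Type*} [CommRing A] [IsDomain A]

theorem clear₁ (L : Type*) [Field L] [Algebra A L] [IsFractionRing A L] (p : L[X]) :
    ∃ (d : A) (q : A[X]), d ≠ 0 ∧ q.map (algebraMap A L) = C (algebraMap A L d) * p := by
  obtain ⟨b, hb0, hb⟩ := IsLocalization.integerNormalization_spec (nonZeroDivisors A) p
  refine ⟨b, IsLocalization.integerNormalization (nonZeroDivisors A) p,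
    nonZeroDivisors.ne_zero hb0, ?_⟩
  rw [hb]
  ext n
  rw [coeff_C_mul, coeff_smul, Algebra.smul_def]

theorem clear_fam (L : Type*) [Field L] [Algebra A L] [IsFractionRing A L] {N : ℕ}
    (p : Fin N → L[X]) :
    ∃ (d : A) (q : Fin N → A[X]), d ≠ 0 ∧
      ∀ i, (q i).map (algebraMap A L) = C (algebraMap A L d) * p i := by
  classical
  choose d q hd hq using fun i => clear₁ (A := A) L (p i)
  refine ⟨∏ i, d i, fun i => C (∏ j ∈ Finset.univ.erase i, d j) * q i,
    Finset.prod_ne_zero_iff.mpr fun i _ => hd i, fun i => ?_⟩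
  rw [Polynomial.map_mul, map_C, hq, ← mul_assoc, ← C_mul, ← map_mul,
    Finset.prod_erase_mul _ _ (Finset.mem_univ i)]

variable [IsDiscreteValuationRing A]

/-- Remove the factor that depends only on the base coordinate: the coefficients of the new curve
are not simultaneously small. -/
theorem primitive (P : A[X][X]) (hP : P ≠ 0) (x y : ℕ → A) (hx : Function.Injective x)
    (h : ∀ t, P.evalEval (x t) (y t) = 0) :
    ∃ (P' : A[X][X]) (r T : ℕ), P'.natDegree ≤ P.natDegree ∧
      (∀ z : A, ∃ j, (P'.coeff j).eval z ∉ IsLocalRing.maximalIdeal A ^ r) ∧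
      ∀ t, T ≤ t → P'.evalEval (x t) (y t) = 0 := by
  classical
  let L := FractionRing A
  let φ : A →+* L := algebraMap A L
  have hφ : Function.Injective φ := IsFractionRing.injective A L
  set N := P.natDegree + 1 with hN
  let PL : Fin N → L[X] := fun j => (P.coeff j).map φ
  let J : Ideal L[X] := Ideal.span (Set.range PL)
  obtain ⟨h₀, hh₀⟩ : ∃ h₀, J = Ideal.span {h₀} := ⟨_, (Submodule.IsPrincipal.span_singleton_generator J).symm⟩
  have hdvd : ∀ j, ∃ p, PL j = h₀ * p := by
    intro j
    have h1 : PL j ∈ J := Ideal.subset_span ⟨j, rfl⟩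
    rw [hh₀, Ideal.mem_span_singleton] at h1
    exact h1
  choose p hp using hdvd
  have hh0 : h₀ ≠ 0 := by
    rintro rfl
    apply hP
    have h1 : P.leadingCoeff = 0 := by
      apply Polynomial.map_injective φ hφ
      have h2 := hp ⟨P.natDegree, Nat.lt_succ_self _⟩
      rw [zero_mul] at h2
      rw [Polynomial.map_zero]
      exact h2
    exact leadingCoeff_eq_zero.mp h1
  obtain ⟨u, hu⟩ : ∃ u : Fin N → L[X], ∑ j, u j * PL j = h₀ := by
    have h1 : h₀ ∈ J := by rw [hh₀]; exact Ideal.mem_span_singleton_self _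
    exact Ideal.mem_span_range_iff_exists_fun.mp h1
  have hup : ∑ j, u j * p j = 1 := by
    apply mul_left_cancel₀ hh0
    rw [mul_one, Finset.mul_sum]
    refine Eq.trans ?_ hu
    refine Finset.sum_congr rfl fun j _ => ?_
    rw [hp]
    ring
  obtain ⟨d, q, hd, hq⟩ := clear_fam (A := A) L p
  obtain ⟨e, v, he, hv⟩ := clear_fam (A := A) L u
  obtain ⟨r, hr⟩ := exists_notMem (mul_ne_zero he hd)
  have hsum : ∑ j, v j * q j = C (e * d) := by
    apply Polynomial.map_injective φ hφ
    rw [Polynomial.map_sum, map_C]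
    have h1 : ∀ j, (v j * q j).map φ = C (φ (e * d)) * (u j * p j) := by
      intro j
      rw [Polynomial.map_mul, hq, hv, map_mul, map_mul]
      ring
    rw [Finset.sum_congr rfl fun j _ => h1 j, ← Finset.mul_sum, hup, mul_one]
  have hfin : {z : A | (h₀.eval (φ z)) = 0}.Finite := by
    refine ((h₀.roots.toFinset.finite_toSet).preimage (f := φ) hφ.injOn).subset ?_
    intro z hz
    rw [Set.mem_preimage, Finset.mem_coe, Multiset.mem_toFinset, mem_roots']
    exact ⟨hh0, hz⟩
  obtain ⟨T, hT⟩ : ∃ T, ∀ t, T ≤ t → h₀.eval (φ (x t)) ≠ 0 := by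
    have h1 : (x ⁻¹' {z : A | (h₀.eval (φ z)) = 0}).Finite := hfin.preimage hx.injOn
    obtain ⟨T, hT⟩ := h1.bddAbove
    refine ⟨T + 1, fun t ht h2 => ?_⟩
    have h3 : t ≤ T := hT h2
    omega
  set P' : A[X][X] := ∑ j : Fin N, C (q j) * X ^ (j : ℕ) with hP'
  have hcoeff : ∀ j : Fin N, P'.coeff j = q j := by
    intro j
    rw [hP', finsetSum_coeff, Finset.sum_eq_single j]
    · simp
    · intro i _ hij
      rw [coeff_C_mul, coeff_X_pow, if_neg (fun h => hij (Fin.ext h.symm)), mul_zero]
    · exact fun h => absurd (Finset.mem_univ _) h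
  refine ⟨P', r, T, ?_, ?_, ?_⟩
  · refine natDegree_sum_le_of_forall_le _ _ fun j _ => ?_
    exact (natDegree_C_mul_X_pow_le _ _).trans (Nat.lt_succ_iff.mp j.2)
  · intro z
    by_contra hcon
    push Not at hcon
    apply hr
    have h1 := congrArg (fun p => p.eval z) hsum
    simp only [eval_finsetSum, eval_mul, eval_C] at h1
    rw [← h1]
    refine Ideal.sum_mem _ fun j _ => Ideal.mul_mem_left _ _ ?_
    rw [← hcoeff]
    exact hcon j
  · intro t ht
    apply hφ
    rw [map_zero]
    have h1 : φ (P'.evalEval (x t) (y t)) =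
        ∑ j : Fin N, φ d * (p j).eval (φ (x t)) * φ (y t) ^ (j : ℕ) := by
      rw [hP', evalEval_finsetSum, map_sum]
      refine Finset.sum_congr rfl fun j _ => ?_
      have h2 : φ ((q j).eval (x t)) = φ d * (p j).eval (φ (x t)) := by
        have h3 := congrArg (fun f => f.eval (φ (x t))) (hq j)
        simp only [eval_mul, eval_C] at h3
        rw [← h3, eval_map]
        exact (eval₂_at_apply φ (x t)).symm
      rw [evalEval_mul, evalEval_pow, evalEval_C, evalEval_X, map_mul, map_pow, h2]
    have h2 : h₀.eval (φ (x t)) * ∑ j : Fin N, (p j).eval (φ (x t)) * φ (y t) ^ (j : ℕ) = 0 := by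
      have h3 := congrArg φ (h t)
      rw [map_zero, evalEval, eval_eq_sum_range (p := P), eval_finsetSum, map_sum,
        Finset.sum_range] at h3
      rw [← h3, Finset.mul_sum]
      refine Finset.sum_congr rfl fun j _ => ?_
      have h4 := congrArg (fun f => f.eval (φ (x t))) (hp j)
      simp only [eval_mul] at h4
      rw [← C_pow, eval_mul, eval_C, map_mul, map_pow]
      have h5 : (PL j).eval (φ (x t)) = φ ((P.coeff j).eval (x t)) := by
        change ((P.coeff j).map φ).eval (φ (x t)) = _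
        rw [eval_map]
        exact eval₂_at_apply φ (x t)
      rw [← h5, h4]
      ring
    rw [h1]
    have h3 := (mul_eq_zero.mp h2).resolve_left (hT t ht)
    have h4 : ∑ j : Fin N, φ d * (p j).eval (φ (x t)) * φ (y t) ^ (j : ℕ) =
        φ d * ∑ j : Fin N, (p j).eval (φ (x t)) * φ (y t) ^ (j : ℕ) := by
      rw [Finset.mul_sum]
      exact Finset.sum_congr rfl fun j _ => by ring
    rw [h4, h3, mul_zero]

end Prim

section Cluster

variable {A : Type*} [CommRing A] [IsDomain A] [IsDiscreteValuationRing A]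

/-- An orbit on a curve over a convergent base orbit is asymptotically periodic. -/
theorem cluster {a b : A[X][X]} (x y : ℕ → A) (hx : Function.Injective x) (n : ℕ) (hn : 0 < n)
    (hxn : ∀ s : ℕ, ∃ T, ∀ t, T ≤ t → x (t + n) - x t ∈ IsLocalRing.maximalIdeal A ^ s)
    (hy : Orb a b x y) (P : A[X][X]) (hP : P ≠ 0) (h : ∀ t, P.evalEval (x t) (y t) = 0) :
    ∃ M, 0 < M ∧ ∀ s : ℕ, ∃ T, ∀ t, T ≤ t → y (t + M) - y t ∈ IsLocalRing.maximalIdeal A ^ s := by
  classical
  obtain ⟨P', r, T₀, -, hr, hT₀⟩ := primitive P hP x y hx h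
  set D := P'.natDegree with hD
  refine ⟨n * D.factorial, Nat.mul_pos hn (Nat.factorial_pos D), fun s => ?_⟩
  set σ := r + s * D with hσ
  obtain ⟨T₁, hT₁⟩ := hxn σ
  obtain ⟨T₂, hT₂⟩ := hxn s
  set t₀ := max T₀ (max T₁ T₂) with ht₀
  have hxσ : ∀ t, t₀ ≤ t → ∀ j, x (t + n * j) - x t ∈ IsLocalRing.maximalIdeal A ^ σ := by
    intro t ht j
    induction j with
    | zero => simp
    | succ j ih =>
      have h1 := hT₁ (t + n * j) (by
        have : T₁ ≤ t₀ := (le_max_left _ _).trans (le_max_right _ _)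
        omega)
      have h2 := Ideal.add_mem _ h1 ih
      rwa [sub_add_sub_cancel, show t + n * j + n = t + n * (j + 1) by ring] at h2
  have hxs : ∀ t, t₀ ≤ t → ∀ j, x (t + n * j) - x t ∈ IsLocalRing.maximalIdeal A ^ s := by
    intro t ht j
    induction j with
    | zero => simp
    | succ j ih =>
      have h1 := hT₂ (t + n * j) (by
        have : T₂ ≤ t₀ := (le_max_right _ _).trans (le_max_right _ _)
        omega)
      have h2 := Ideal.add_mem _ h1 ih
      rwa [sub_add_sub_cancel, show t + n * j + n = t + n * (j + 1) by ring] at h2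
  obtain ⟨i, hi, j, hj, hij, hclose⟩ : ∃ i ≤ D, ∃ j ≤ D, i < j ∧
      y (t₀ + n * j) - y (t₀ + n * i) ∈ IsLocalRing.maximalIdeal A ^ s := by
    by_contra hno
    push Not at hno
    have h1 := vdm D (P'.map (evalRingHom (x t₀))) (fun j => y (t₀ + n * j)) s r
      natDegree_map_le
      (by
        intro i hi j hj hij hcon
        rcases Nat.lt_or_gt_of_ne hij with hlt | hlt
        · apply hno i hi j hj hlt
          rw [← neg_sub]
          exact (Ideal.neg_mem_iff _).mpr hcon
        · exact hno j hj i hi hlt hcon)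
      (by
        intro j _
        rw [map_evalRingHom_eval]
        have h2 := congr_evalEval (IsLocalRing.maximalIdeal A ^ σ) P'
          (hxσ t₀ le_rfl j) (show y (t₀ + n * j) - y (t₀ + n * j) ∈
            IsLocalRing.maximalIdeal A ^ σ by rw [sub_self]; exact Ideal.zero_mem _)
        rw [hT₀ (t₀ + n * j) ((le_max_left _ _).trans (Nat.le_add_right _ _)), zero_sub] at h2
        exact (Ideal.neg_mem_iff _).mp h2)
    obtain ⟨j, hj⟩ := hr (x t₀)
    apply hj
    have h2 := h1 j
    rwa [coeff_map] at h2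
  -- propagate
  obtain ⟨l, hl⟩ := Nat.exists_eq_add_of_lt hij
  have hper : ∀ t, t₀ + n * i ≤ t →
      y (t + n * (l + 1)) - y t ∈ IsLocalRing.maximalIdeal A ^ s := by
    intro t ht
    obtain ⟨τ, rfl⟩ := Nat.exists_eq_add_of_le ht
    have h1 := fwd (hy.shift (t₀ + n * i + n * (l + 1))) (hy.shift (t₀ + n * i))
      (IsLocalRing.maximalIdeal A ^ s)
      (by
        intro τ
        have h2 := hxs (t₀ + n * i + τ) (by omega) (l + 1)
        rwa [show t₀ + n * i + τ + n * (l + 1) = t₀ + n * i + n * (l + 1) + τ by ring] at h2)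
      (by
        rw [add_zero, add_zero, show t₀ + n * i + n * (l + 1) = t₀ + n * j by rw [hl]; ring]
        exact hclose) τ
    rwa [show t₀ + n * i + n * (l + 1) + τ = t₀ + n * i + τ + n * (l + 1) by ring] at h1
  have hper2 : ∀ m t, t₀ + n * i ≤ t →
      y (t + n * (l + 1) * m) - y t ∈ IsLocalRing.maximalIdeal A ^ s := by
    intro m t ht
    induction m with
    | zero => simp
    | succ m ih =>
      have h1 := hper (t + n * (l + 1) * m) (by omega)
      have h2 := Ideal.add_mem _ h1 ih
      rwa [sub_add_sub_cancel, show t + n * (l + 1) * m + n * (l + 1) =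
        t + n * (l + 1) * (m + 1) by ring] at h2
  obtain ⟨m, hm⟩ : l + 1 ∣ D.factorial := Nat.dvd_factorial (Nat.succ_pos l) (by omega)
  refine ⟨t₀ + n * i, fun t ht => ?_⟩
  rw [hm, ← mul_assoc]
  exact hper2 m t ht

end Cluster

end Pool.Agent.MP_b6294e_wc
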