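import Pool.Agent.Lib.MP_b6294e_wc.Proj

/-!
# Change of the base coordinate by a fractional linear map
-/

set_option linter.style.haveILetI false

namespace Pool.Agent.MP_b6294e_wc

open Polynomial Pool.Agent.MP_b6294e

universe u

section HomX

variable {K : Type u} [Field K]

theorem hom_zero' (m : ℕ) (α β : K[X]) : hom m 0 α β = 0 := by
  unfold hom
  refine Finset.sum_eq_zero fun j _ => ?_
  rw [coeff_zero, C_0, zero_mul, zero_mul]

theorem form_zero' (m : ℕ) (P : K × K) : form m 0 P = 0 := by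
  unfold form
  refine Finset.sum_eq_zero fun j _ => ?_
  rw [coeff_zero, zero_mul, zero_mul]

/-- Homogenization of the coefficients. -/
noncomputable def homX (m : ℕ) (α β : K[X]) (a : K[X][X]) : K[X][X] :=
  ∑ j ∈ Finset.range (a.natDegree + 1), monomial j (hom m (a.coeff j) α β)

/-- The polynomial `a` over the point `(P.1 : P.2)` of the base. -/
noncomputable def fibre (m : ℕ) (a : K[X][X]) (P : K × K) : K[X] :=
  ∑ j ∈ Finset.range (a.natDegree + 1), monomial j (form m (a.coeff j) P)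

theorem homX_coeff (m : ℕ) (α β : K[X]) (a : K[X][X]) (j : ℕ) :
    (homX m α β a).coeff j = hom m (a.coeff j) α β := by
  unfold homX
  rw [finsetSum_coeff]
  simp only [coeff_monomial]
  rw [Finset.sum_ite_eq']
  split_ifs with h
  · rfl
  · rw [Finset.mem_range, Nat.lt_succ_iff, not_le] at h
    rw [coeff_eq_zero_of_natDegree_lt h, hom_zero']

theorem fibre_coeff (m : ℕ) (a : K[X][X]) (P : K × K) (j : ℕ) :
    (fibre m a P).coeff j = form m (a.coeff j) P := by
  unfold fibre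
  rw [finsetSum_coeff]
  simp only [coeff_monomial]
  rw [Finset.sum_ite_eq']
  split_ifs with h
  · rfl
  · rw [Finset.mem_range, Nat.lt_succ_iff, not_le] at h
    rw [coeff_eq_zero_of_natDegree_lt h, form_zero']

theorem homX_map (m : ℕ) (α β : K[X]) (a : K[X][X]) (x : K) :
    (homX m α β a).map (evalRingHom x) = fibre m a (α.eval x, β.eval x) := by
  ext j
  rw [coeff_map, homX_coeff, fibre_coeff, coe_evalRingHom, hom_eval_form]

theorem fibre_smul (m : ℕ) (a : K[X][X]) (s : K) (P : K × K) :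
    fibre m a (s * P.1, s * P.2) = C (s ^ m) * fibre m a P := by
  ext j
  rw [fibre_coeff, coeff_C_mul, fibre_coeff, form_smul]

theorem fibre_eq (m : ℕ) (a : K[X][X]) (ha : ∀ j, (a.coeff j).natDegree ≤ m) (x s : K) :
    fibre m a (s * x, s) = C (s ^ m) * a.map (evalRingHom x) := by
  ext j
  rw [fibre_coeff, coeff_C_mul, coeff_map, coe_evalRingHom, form_eq _ _ (ha j)]

variable [IsAlgClosed K]

theorem homX_coeff_eq_zero (m : ℕ) (α β : K[X]) (hβ : β ≠ 0) (hc : ∀ c, α ≠ C c * β)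
    (a : K[X][X]) (ha : ∀ j, (a.coeff j).natDegree ≤ m) (j : ℕ) :
    (homX m α β a).coeff j = 0 ↔ a.coeff j = 0 := by
  rw [homX_coeff]
  constructor
  · intro h
    by_contra hne
    exact hom_ne_zero m _ α β hne (ha j) hβ hc h
  · intro h
    rw [h, hom_zero']

theorem homX_ne_zero (m : ℕ) (α β : K[X]) (hβ : β ≠ 0) (hc : ∀ c, α ≠ C c * β)
    (a : K[X][X]) (ha : ∀ j, (a.coeff j).natDegree ≤ m) (h0 : a ≠ 0) : homX m α β a ≠ 0 := by
  intro h
  apply h0
  ext1 j
  rw [coeff_zero]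
  have := (homX_coeff_eq_zero m α β hβ hc a ha j).mp (by rw [h, coeff_zero])
  exact this

theorem homX_natDegree (m : ℕ) (α β : K[X]) (hβ : β ≠ 0) (hc : ∀ c, α ≠ C c * β)
    (a : K[X][X]) (ha : ∀ j, (a.coeff j).natDegree ≤ m) :
    (homX m α β a).natDegree = a.natDegree := by
  apply le_antisymm
  · refine natDegree_le_iff_coeff_eq_zero.mpr fun j hj => ?_
    rw [homX_coeff_eq_zero m α β hβ hc a ha]
    exact coeff_eq_zero_of_natDegree_lt hj
  · refine natDegree_le_iff_coeff_eq_zero.mpr fun j hj => ?_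
    rw [← homX_coeff_eq_zero m α β hβ hc a ha]
    exact coeff_eq_zero_of_natDegree_lt hj

theorem homX_coprime (m : ℕ) (α β : K[X]) (hβ : β ≠ 0) (hc : ∀ c, α ≠ C c * β)
    (a b : K[X][X]) (ha : ∀ j, (a.coeff j).natDegree ≤ m) (hb : ∀ j, (b.coeff j).natDegree ≤ m)
    (hco : IsCoprime (a.map (algebraMap K[X] (RatFunc K))) (b.map (algebraMap K[X] (RatFunc K)))) :
    IsCoprime ((homX m α β a).map (algebraMap K[X] (RatFunc K)))
      ((homX m α β b).map (algebraMap K[X] (RatFunc K))) := by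
  set i := algebraMap K[X] (RatFunc K) with hi
  have hβ' : i β ≠ 0 := RatFunc.algebraMap_ne_zero hβ
  let σ : K[X] →+* RatFunc K := (aeval (i α / i β) : K[X] →ₐ[K] RatFunc K)
  have hσ : ∀ q : K[X], σ q = aeval (i α / i β) q := fun q => rfl
  have hσi : Function.Injective σ := by
    rw [injective_iff_map_eq_zero]
    intro q hq
    by_contra hne
    have h1 := hom_algebraMap q.natDegree q α β le_rfl hβ
    rw [← hi, ← hσ, hq, mul_zero] at h1
    exact RatFunc.algebraMap_ne_zero (hom_ne_zero _ _ α β hne le_rfl hβ hc) h1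
  let τ : RatFunc K →+* RatFunc K := IsFractionRing.lift hσi
  have hτ : τ.comp i = σ := RingHom.ext fun q => IsFractionRing.lift_algebraMap hσi q
  have key : ∀ u : K[X][X], (∀ j, (u.coeff j).natDegree ≤ m) →
      (homX m α β u).map i = C (i β ^ m) * (u.map i).map τ := by
    intro u hu
    ext1 j
    rw [coeff_map, homX_coeff, coeff_C_mul, coeff_map, coeff_map, hom_algebraMap m _ α β (hu j) hβ,
      ← hi, ← hσ, ← hτ, RingHom.comp_apply]
  rw [key a ha, key b hb]
  have hunit : IsUnit (C (i β ^ m) : (RatFunc K)[X]) := by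
    rw [isUnit_C]
    exact (pow_ne_zero m hβ').isUnit
  exact (isCoprime_mul_unit_left hunit _ _).mpr (hco.map (mapRingHom τ))

end HomX

section Transport

variable {K : Type u} [Field K]

/-- The skew product has dense orbits outside every curve. -/
def HasDense (a₀ b₀ : K[X]) (a₁ b₁ : K[X][X]) : Prop :=
  ∀ G : K[X][X], G ≠ 0 →
    ∃ x y : ℕ → K, (∀ t, b₀.eval (x t) ≠ 0) ∧ (∀ t, b₀.eval (x t) * x (t + 1) = a₀.eval (x t)) ∧
      (∀ t, b₁.evalEval (x t) (y t) ≠ 0) ∧
      (∀ t, b₁.evalEval (x t) (y t) * y (t + 1) = a₁.evalEval (x t) (y t)) ∧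
      (∀ t, G.evalEval (x t) (y t) ≠ 0) ∧
      ∀ P : K[X][X], (∀ t, P.evalEval (x t) (y t) = 0) → P = 0

/-- The base map in the new coordinate: numerator. -/
noncomputable def cA (e : ℕ) (a b : K[X]) (α β γ δ : K) : K[X] :=
  C δ * hom e a (C α * X + C β) (C γ * X + C δ) - C β * hom e b (C α * X + C β) (C γ * X + C δ)

/-- The base map in the new coordinate: denominator. -/
noncomputable def cB (e : ℕ) (a b : K[X]) (α β γ δ : K) : K[X] :=
  C α * hom e b (C α * X + C β) (C γ * X + C δ) - C γ * hom e a (C α * X + C β) (C γ * X + C δ)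

theorem cA_eval (e : ℕ) (a b : K[X]) (α β γ δ x : K) : (cA e a b α β γ δ).eval x =
    δ * form e a (α * x + β, γ * x + δ) - β * form e b (α * x + β, γ * x + δ) := by
  unfold cA
  rw [Polynomial.eval_sub, eval_mul, eval_mul, eval_C, eval_C, hom_eval_form, hom_eval_form]
  simp only [eval_add, eval_mul, eval_C, eval_X]

theorem cB_eval (e : ℕ) (a b : K[X]) (α β γ δ x : K) : (cB e a b α β γ δ).eval x =
    α * form e b (α * x + β, γ * x + δ) - γ * form e a (α * x + β, γ * x + δ) := by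
  unfold cB
  rw [Polynomial.eval_sub, eval_mul, eval_mul, eval_C, eval_C, hom_eval_form, hom_eval_form]
  simp only [eval_add, eval_mul, eval_C, eval_X]

theorem lin_ne {α β γ δ : K} (hΔ : α * δ - β * γ ≠ 0) : (C γ * X + C δ : K[X]) ≠ 0 := by
  intro h
  have h1 := congrArg (fun p => p.coeff 0) h
  have h2 := congrArg (fun p => p.coeff 1) h
  simp at h1 h2
  exact hΔ (by rw [h1, h2]; ring)

theorem lin_ne' {α β γ δ : K} (hΔ : α * δ - β * γ ≠ 0) (c : K) :
    (C α * X + C β : K[X]) ≠ C c * (C γ * X + C δ) := by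
  intro h
  have h1 := congrArg (fun p => p.coeff 0) h
  have h2 := congrArg (fun p => p.coeff 1) h
  simp at h1 h2
  exact hΔ (by rw [h1, h2]; ring)

theorem transport [IsAlgClosed K] (a₀ b₀ : K[X]) (a₁ b₁ : K[X][X]) (e m : ℕ)
    (hea : a₀.natDegree ≤ e) (heb : b₀.natDegree ≤ e)
    (hma : ∀ j, (a₁.coeff j).natDegree ≤ m) (hmb : ∀ j, (b₁.coeff j).natDegree ≤ m)
    (α β γ δ : K) (hΔ : α * δ - β * γ ≠ 0)
    (h : HasDense (cA e a₀ b₀ α β γ δ) (cB e a₀ b₀ α β γ δ)
      (homX m (C α * X + C β) (C γ * X + C δ) a₁) (homX m (C α * X + C β) (C γ * X + C δ) b₁)) :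
    HasDense a₀ b₀ a₁ b₁ := by
  classical
  have hl := lin_ne hΔ
  have hl' := lin_ne' hΔ
  set ℓ₁ : K[X] := C α * X + C β with hℓ₁
  set ℓ₂ : K[X] := C γ * X + C δ with hℓ₂
  have hev1 : ∀ x, ℓ₁.eval x = α * x + β := fun x => by rw [hℓ₁]; simp
  have hev2 : ∀ x, ℓ₂.eval x = γ * x + δ := fun x => by rw [hℓ₂]; simp
  have hdegX : ∀ P : K[X][X], ∃ N, ∀ j, (P.coeff j).natDegree ≤ N := by
    intro P
    refine ⟨∑ j ∈ Finset.range (P.natDegree + 1), (P.coeff j).natDegree, fun j => ?_⟩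
    by_cases hj : j < P.natDegree + 1
    · exact Finset.single_le_sum (f := fun j => (P.coeff j).natDegree)
        (fun _ _ => Nat.zero_le _) (Finset.mem_range.mpr hj)
    · rw [coeff_eq_zero_of_natDegree_lt (by omega), natDegree_zero]
      exact Nat.zero_le _
  intro G hG
  obtain ⟨N, hN⟩ := hdegX G
  obtain ⟨x, y, h1, h2, h3, h4, h5, h6⟩ := h (C ℓ₂ * homX N ℓ₁ ℓ₂ G)
    (mul_ne_zero (by rwa [Ne, C_eq_zero]) (homX_ne_zero N ℓ₁ ℓ₂ hl hl' G hN hG))
  have hL : ∀ t, γ * x t + δ ≠ 0 := by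
    intro t h0
    apply h5 t
    rw [evalEval_mul, evalEval_C, hev2, h0, zero_mul]
  set z : ℕ → K := fun t => (α * x t + β) / (γ * x t + δ) with hz
  have hz1 : ∀ t, α * x t + β = (γ * x t + δ) * z t := fun t => by
    rw [hz, mul_div_cancel₀ _ (hL t)]
  have hX : ∀ (M : ℕ) (P : K[X][X]), (∀ j, (P.coeff j).natDegree ≤ M) → ∀ t,
      (homX M ℓ₁ ℓ₂ P).evalEval (x t) (y t) = (γ * x t + δ) ^ M * P.evalEval (z t) (y t) := by
    intro M P hP t
    rw [evalEval_eq, homX_map, hev1, hev2, hz1, fibre_eq _ _ hP, eval_mul, eval_C, ← evalEval_eq]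
  have hform : ∀ (q : K[X]), q.natDegree ≤ e → ∀ t,
      form e q (α * x t + β, γ * x t + δ) = (γ * x t + δ) ^ e * q.eval (z t) := by
    intro q hq t
    rw [hz1, form_eq _ _ hq]
  have e1 : ∀ t, (γ * x (t + 1) + δ) * (cB e a₀ b₀ α β γ δ).eval (x t) =
      (α * δ - β * γ) * ((γ * x t + δ) ^ e * b₀.eval (z t)) := by
    intro t
    have h7 := h2 t
    rw [cA_eval, cB_eval, hform _ hea, hform _ heb] at h7
    rw [cB_eval, hform _ hea, hform _ heb]
    linear_combination γ * h7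
  have e2 : ∀ t, (α * x (t + 1) + β) * (cB e a₀ b₀ α β γ δ).eval (x t) =
      (α * δ - β * γ) * ((γ * x t + δ) ^ e * a₀.eval (z t)) := by
    intro t
    have h7 := h2 t
    rw [cA_eval, cB_eval, hform _ hea, hform _ heb] at h7
    rw [cB_eval, hform _ hea, hform _ heb]
    linear_combination α * h7
  have hb0 : ∀ t, b₀.eval (z t) ≠ 0 := by
    intro t h0
    have h7 := e1 t
    rw [h0, mul_zero, mul_zero] at h7
    exact mul_ne_zero (hL (t + 1)) (h1 t) h7
  refine ⟨z, y, hb0, fun t => ?_, fun t => ?_, fun t => ?_, fun t => ?_, fun P hP => ?_⟩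
  · have h7 : (α * δ - β * γ) * (γ * x t + δ) ^ e * (b₀.eval (z t) * z (t + 1) - a₀.eval (z t)) =
        0 := by
      have h8 := e2 t
      rw [hz1 (t + 1)] at h8
      linear_combination h8 - z (t + 1) * e1 t
    exact sub_eq_zero.mp ((mul_eq_zero.mp h7).resolve_left
      (mul_ne_zero hΔ (pow_ne_zero _ (hL t))))
  · have h7 := h3 t
    rw [hX m _ hmb] at h7
    exact right_ne_zero_of_mul h7
  · have h7 := h4 t
    rw [hX m _ hmb, hX m _ hma, mul_assoc] at h7
    exact mul_left_cancel₀ (pow_ne_zero _ (hL t)) h7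
  · have h7 := h5 t
    rw [evalEval_mul, hX N _ hN] at h7
    exact right_ne_zero_of_mul (right_ne_zero_of_mul h7)
  · obtain ⟨M, hM⟩ := hdegX P
    by_contra hP0
    refine homX_ne_zero M ℓ₁ ℓ₂ hl hl' P hM hP0 (h6 _ fun t => ?_)
    rw [hX M _ hM, hP, mul_zero]

end Transport

end Pool.Agent.MP_b6294e_wc
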