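import Pool.Agent.Lib.MP_b6294e_wc.Place

/-!
# Valuation rings of the algebraic closure and of number fields
-/

set_option linter.style.haveILetI false

namespace Pool.Agent.MP_b6294e_wc

open NumberField NumberField.FinitePlace Polynomial IsDedekindDomain

universe u

section

variable {k : Type*} [Field k] [NumberField k] {K : Type*} [Field K]

/-- A valuation ring of the big field above a finite place. -/
theorem exists_dominating (w : FinitePlace k) (φ : k →+* K) :
    ∃ V : ValuationSubring K, (∀ z : k, w z ≤ 1 → φ z ∈ V) ∧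
      ∀ z : k, w z < 1 → φ z ∈ V.nonunits := by
  have hφ : Function.Injective φ := φ.injective
  let e := (Ow w).equivMapOfInjective φ hφ
  let I : Ideal ((Ow w).map φ) :=
    (IsLocalRing.maximalIdeal (Ow w)).comap (e.symm : (Ow w).map φ →+* Ow w)
  have hI : I ≠ ⊤ := Ideal.comap_ne_top _ (IsLocalRing.maximalIdeal.isMaximal (Ow w)).ne_top
  obtain ⟨V, hV1, hV2⟩ := Ideal.image_subset_nonunits_valuationSubring I hI
  refine ⟨V, fun z hz => ?_, fun z hz => ?_⟩
  · exact hV1 (Subring.mem_map.mpr ⟨z, (mem_Ow w z).mpr hz, rfl⟩)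
  · apply hV2
    refine ⟨e ⟨z, (mem_Ow w z).mpr hz.le⟩, ?_, rfl⟩
    change e.symm (e ⟨z, (mem_Ow w z).mpr hz.le⟩) ∈ IsLocalRing.maximalIdeal (Ow w)
    rw [RingEquiv.symm_apply_apply, mem_max]
    exact hz

/-- A nontrivial valuation ring of a number field is the one of a finite place. -/
theorem place_of_valuationSubring (V : ValuationSubring k) (hV : V ≠ ⊤) :
    ∃ w : FinitePlace k, ∀ z : k, w z ≤ 1 ↔ z ∈ V := by
  have hint : ∀ r : 𝓞 k, (algebraMap (𝓞 k) k r) ∈ V := by
    intro r
    have h1 : IsIntegral V (algebraMap (𝓞 k) k r) :=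
      (RingOfIntegers.isIntegral_coe r).tower_top
    obtain ⟨y, hy⟩ := IsIntegrallyClosed.isIntegral_iff.mp h1
    rw [← hy]
    exact y.2
  let f : 𝓞 k →+* V :=
    { toFun := fun r => ⟨algebraMap (𝓞 k) k r, hint r⟩
      map_one' := Subtype.ext (map_one _)
      map_mul' := fun a b => Subtype.ext (map_mul _ a b)
      map_zero' := Subtype.ext (map_zero _)
      map_add' := fun a b => Subtype.ext (map_add _ a b) }
  have hf : ∀ r, ((f r : V) : k) = algebraMap (𝓞 k) k r := fun r => rfl
  let P : Ideal (𝓞 k) := (IsLocalRing.maximalIdeal V).comap f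
  have hPp : P.IsPrime := Ideal.comap_isPrime f _
  have hPb : P ≠ ⊥ := by
    intro hP
    apply hV
    rw [eq_top_iff]
    intro z _
    by_contra hz
    obtain ⟨a, b, hb, rfl⟩ := IsFractionRing.div_surjective (A := 𝓞 k) z
    have hb0 : algebraMap (𝓞 k) k b ≠ 0 := by
      rw [Ne, map_eq_zero_iff _ (IsFractionRing.injective (𝓞 k) k)]
      exact nonZeroDivisors.ne_zero hb
    have h1 : f b ∈ IsLocalRing.maximalIdeal V := by
      rw [IsLocalRing.mem_maximalIdeal]
      intro hu
      obtain ⟨u, hu'⟩ := hu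
      apply hz
      have h2 : (((u⁻¹ : Vˣ) : V) : k) * algebraMap (𝓞 k) k b = 1 := by
        rw [← hf, ← hu']
        exact_mod_cast congrArg (Subtype.val (p := (· ∈ V))) (Units.inv_mul u)
      have h3 : algebraMap (𝓞 k) k a / algebraMap (𝓞 k) k b =
          algebraMap (𝓞 k) k a * (((u⁻¹ : Vˣ) : V) : k) := by
        rw [div_eq_iff hb0, mul_assoc, h2, mul_one]
      rw [h3]
      exact V.mul_mem _ _ (hint a) (SetLike.coe_mem _)
    have h2 : b ∈ P := h1
    rw [hP, Ideal.mem_bot] at h2
    exact nonZeroDivisors.ne_zero hb h2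
  let v : HeightOneSpectrum (𝓞 k) := ⟨P, hPp, hPb⟩
  have hle : HeightOneSpectrum.valuationSubringAtPrime k v ≤ V := by
    intro z hz
    rw [HeightOneSpectrum.valuationSubringAtPrime_eq_valuationSubring] at hz
    obtain ⟨m, d, hd⟩ := v.exists_primeCompl_mul_eq_of_integer z hz
    have hdu : IsUnit (f d) := by
      by_contra hcon
      exact d.2 ((IsLocalRing.mem_maximalIdeal _).mpr hcon)
    obtain ⟨u, hu'⟩ := hdu
    have h2 : algebraMap (𝓞 k) k d * (((u⁻¹ : Vˣ) : V) : k) = 1 := by
      rw [← hf, ← hu']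
      exact_mod_cast congrArg (Subtype.val (p := (· ∈ V))) (Units.mul_inv u)
    have h3 : z = algebraMap (𝓞 k) k m * (((u⁻¹ : Vˣ) : V) : k) := by
      rw [← hd, mul_assoc, h2, mul_one]
    rw [h3]
    exact V.mul_mem _ _ (hint m) (SetLike.coe_mem _)
  have heq := ValuationSubring.eq_of_le_of_ne_top _ hle hV
  refine ⟨FinitePlace.mk v, fun z => ?_⟩
  rw [← val_le_one, FinitePlace.maximalIdeal_mk, ← heq,
    HeightOneSpectrum.valuationSubringAtPrime_eq_valuationSubring]
  rfl

end

section Residue

variable {K : Type*} [Field K]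

instance residue_algClosed [IsAlgClosed K] (V : ValuationSubring K) :
    IsAlgClosed (IsLocalRing.ResidueField V) := by
  refine IsAlgClosed.of_exists_root _ fun p hp hirr => ?_
  have hsurj : Function.Surjective (IsLocalRing.residue V) := Ideal.Quotient.mk_surjective
  obtain ⟨q, hq, hqd, hqm⟩ := lifts_and_natDegree_eq_and_monic
    (mem_lifts_of_surjective hsurj p) hp
  have hdeg : (q.map (algebraMap V K)).degree ≠ 0 := by
    rw [degree_map_eq_of_injective (IsFractionRing.injective V K)]
    intro h0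
    have h1 : q.natDegree = 0 := natDegree_eq_of_degree_eq_some h0
    rw [hqd] at h1
    have h2 := hirr.natDegree_pos
    omega
  obtain ⟨z, hz⟩ := IsAlgClosed.exists_root _ hdeg
  have hzint : IsIntegral V z := ⟨q, hqm, by rw [← eval_map]; exact hz⟩
  obtain ⟨z', hz'⟩ := IsIntegrallyClosed.isIntegral_iff.mp hzint
  refine ⟨IsLocalRing.residue V z', ?_⟩
  have h3 : q.eval z' = 0 := by
    apply IsFractionRing.injective V K
    rw [map_zero, ← eval₂_at_apply, hz', ← eval_map]
    exact hz
  rw [← hq, eval_map, eval₂_at_apply, h3, map_zero]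

end Residue

end Pool.Agent.MP_b6294e_wc
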