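import Pool.Agent.Lib.MP_b6294e_wc.ND

/-!
# From a returning critical orbit to an orbit with infinite base orbit
-/

set_option linter.style.haveILetI false

namespace Pool.Agent.MP_b6294e_wc

open Polynomial Pool.Agent.MP_b6294e

variable {A : Type*} [CommRing A] [IsDomain A] [IsDiscreteValuationRing A]

/-- A nonzero polynomial in one variable along an orbit near a periodic orbit. -/
theorem low_base (h : A[X]) (hh : h ≠ 0) (ξ : A) :
    ∃ m E, ∀ (x : A) (e E₁ : ℕ), E ≤ e → x - ξ ∈ IsLocalRing.maximalIdeal A ^ e →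
      x - ξ ∉ IsLocalRing.maximalIdeal A ^ E₁ →
      h.eval x ∉ IsLocalRing.maximalIdeal A ^ (E₁ * m + 1 + E) := by
  obtain ⟨q, hq, hnd⟩ := exists_eq_pow_rootMultiplicity_mul_and_not_dvd h hh ξ
  generalize rootMultiplicity ξ h = μ at hq
  have hq0 : q.eval ξ ≠ 0 := fun h0 => hnd (dvd_iff_isRoot.mpr h0)
  obtain ⟨E, hE⟩ := exists_notMem hq0
  refine ⟨μ, E, fun x e E₁ he hx hx1 => ?_⟩
  have h1 : q.eval x ∉ IsLocalRing.maximalIdeal A ^ E := by
    intro h2
    have h3 := congr_eval (IsLocalRing.maximalIdeal A ^ E) q (Ideal.pow_le_pow_right he hx)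
    have h4 := Ideal.sub_mem _ h2 h3
    rw [sub_sub_cancel] at h4
    exact hE h4
  rw [hq, eval_mul, eval_pow, eval_sub, eval_X, eval_C]
  exact notMem_mul (notMem_pow hx1 _) h1

theorem good_of_reference (a₀ b₀ : A[X]) (a₁ b₁ H' : A[X][X]) (h : A[X]) (hh : h ≠ 0)
    (ξ c : ℕ → A) (n : ℕ) (hn : 0 < n) (hξ : ∀ t, ξ (t + n) = ξ t)
    (hb0 : ∀ t, IsUnit (b₀.eval (ξ t))) (h0 : ∀ t, b₀.eval (ξ t) * ξ (t + 1) = a₀.eval (ξ t))
    (hw0 : ∀ t, IsUnit ((wr a₀ b₀).eval (ξ t)))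
    (hb1 : ∀ t, IsUnit (b₁.evalEval (ξ t) (c t)))
    (h1 : ∀ t, b₁.evalEval (ξ t) (c t) * c (t + 1) = a₁.evalEval (ξ t) (c t))
    (hcrit : ∀ j, (wr a₁ b₁).evalEval (ξ (j * n)) (c (j * n)) ∈ IsLocalRing.maximalIdeal A)
    (e T : ℕ)
    (hnd : ∀ t, T ≤ t → (wr a₁ b₁ * H').evalEval (ξ t) (c t) ∉ IsLocalRing.maximalIdeal A ^ e)
    (hesc : ∀ E : ℕ, ∃ δ ∈ IsLocalRing.maximalIdeal A ^ E, δ ≠ 0 ∧ ∀ x : ℕ → A,
      x 0 = ξ 0 + δ → (∀ t, IsUnit (b₀.eval (x t))) →
      (∀ t, b₀.eval (x t) * x (t + 1) = a₀.eval (x t)) → (Set.range x).Infinite) :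
    ∃ (x y : ℕ → A) (e' : ℕ), GoodOrbit a₀ b₀ a₁ b₁ (C h * H') x y n e' := by
  have hξ' : ∀ t j, ξ (t + j * n) = ξ t := by
    intro t j
    induction j with
    | zero => simp
    | succ j ih => rw [show t + (j + 1) * n = (t + j * n) + n by ring, hξ, ih]
  have hξm : ∀ t, ξ t = ξ (t % n) := by
    intro t
    have h1 := hξ' (t % n) (t / n)
    rw [← h1]
    congr 1
    have h2 := Nat.mod_add_div t n
    rw [mul_comm] at h2
    omega
  choose m E hmE using fun t => low_base h hh (ξ t)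
  obtain ⟨M, hM⟩ : ∃ M, ∀ i < n, m i ≤ M :=
    ⟨∑ i ∈ Finset.range n, m i, fun i hi =>
      Finset.single_le_sum (f := m) (fun _ _ => Nat.zero_le _) (Finset.mem_range.mpr hi)⟩
  obtain ⟨N, hN⟩ : ∃ N, ∀ i < n, E i ≤ N :=
    ⟨∑ i ∈ Finset.range n, E i, fun i hi =>
      Finset.single_le_sum (f := E) (fun _ _ => Nat.zero_le _) (Finset.mem_range.mpr hi)⟩
  -- the level
  set L := N + e + 1 with hL
  have hL0 : L ≠ 0 := by omega
  obtain ⟨δ, hδ, hδ0, hesc'⟩ := hesc L
  obtain ⟨E₁, hE₁⟩ := exists_notMem hδ0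
  obtain ⟨x, hx0, hxs⟩ : ∃ x : ℕ → A, x 0 = ξ 0 + δ ∧
      ∀ t, x (t + 1) = a₀.eval (x t) * Ring.inverse (b₀.eval (x t)) :=
    ⟨fun t => Nat.rec (ξ 0 + δ) (fun t z => a₀.eval z * Ring.inverse (b₀.eval z)) t, rfl,
      fun t => rfl⟩
  have hbu : ∀ t, x t - ξ t ∈ IsLocalRing.maximalIdeal A ^ L → IsUnit (b₀.eval (x t)) :=
    fun t h => isUnit_of_congr hL0 (hb0 t) (congr_eval _ b₀ h)
  have hst : ∀ t, IsUnit (b₀.eval (x t)) → b₀.eval (x t) * x (t + 1) = a₀.eval (x t) := by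
    intro t h
    rw [hxs, mul_left_comm, Ring.mul_inverse_cancel _ h, mul_one]
  have hxξ : ∀ t, x t - ξ t ∈ IsLocalRing.maximalIdeal A ^ L ∧
      x t - ξ t ∉ IsLocalRing.maximalIdeal A ^ E₁ := by
    intro t
    induction t with
    | zero =>
      rw [hx0, add_sub_cancel_left]
      exact ⟨hδ, hE₁⟩
    | succ t ih =>
      obtain ⟨d, hd⟩ := pair a₀ b₀ (x t) (ξ t) _ _ (hst t (hbu t ih.1)) (h0 t)
      refine ⟨mem_of_unit_mul (hbu t ih.1) (hb0 t) hd (Ideal.mul_mem_right _ _ ih.1), ?_⟩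
      intro hcon
      apply ih.2
      have hu : IsUnit ((wr a₀ b₀).eval (ξ t) + d * (x t - ξ t)) := by
        refine isUnit_of_congr hL0 (hw0 t) ?_
        rw [add_sub_cancel_left]
        exact Ideal.mul_mem_left _ _ ih.1
      have h2 : (x t - ξ t) * ((wr a₀ b₀).eval (ξ t) + d * (x t - ξ t)) ∈
          IsLocalRing.maximalIdeal A ^ E₁ := by
        rw [← hd]
        exact Ideal.mul_mem_left _ _ hcon
      exact (Ideal.mul_unit_mem_iff_mem _ hu).mp h2
  have hbx := fun t => hbu t (hxξ t).1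
  have hsx := fun t => hst t (hbx t)
  -- the reference fibre orbit, shifted
  set s := T * n with hs
  have hsT : ∀ t, T ≤ s + t := by
    intro t
    have := Nat.le_mul_of_pos_right T hn
    omega
  have hξs : ∀ t, ξ (s + t) = ξ t := fun t => by
    rw [hs, add_comm, hξ']
  obtain ⟨y, hy0, hys⟩ : ∃ y : ℕ → A, y 0 = c s ∧
      ∀ t, y (t + 1) = a₁.evalEval (x t) (y t) * Ring.inverse (b₁.evalEval (x t) (y t)) :=
    ⟨fun t => Nat.rec (c s) (fun t z => a₁.evalEval (x t) z *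
      Ring.inverse (b₁.evalEval (x t) z)) t, rfl, fun t => rfl⟩
  have hbyu : ∀ t, y t - c (s + t) ∈ IsLocalRing.maximalIdeal A ^ L →
      IsUnit (b₁.evalEval (x t) (y t)) := by
    intro t h
    refine isUnit_of_congr hL0 (hb1 (s + t)) ?_
    rw [hξs]
    exact congr_evalEval _ b₁ (hxξ t).1 h
  have hsty : ∀ t, IsUnit (b₁.evalEval (x t) (y t)) →
      b₁.evalEval (x t) (y t) * y (t + 1) = a₁.evalEval (x t) (y t) := by
    intro t h
    rw [hys, mul_left_comm, Ring.mul_inverse_cancel _ h, mul_one]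
  have hyc : ∀ t, y t - c (s + t) ∈ IsLocalRing.maximalIdeal A ^ L := by
    intro t
    induction t with
    | zero => rw [hy0, add_zero, sub_self]; exact Ideal.zero_mem _
    | succ t ih =>
      have hu := hbyu t ih
      have e1 := congr_evalEval (IsLocalRing.maximalIdeal A ^ L) a₁ (hxξ t).1 ih
      have e2 := congr_evalEval (IsLocalRing.maximalIdeal A ^ L) b₁ (hxξ t).1 ih
      have e3 := h1 (s + t)
      rw [hξs] at e3
      have e4 : b₁.evalEval (x t) (y t) * (y (t + 1) - c (s + (t + 1))) ∈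
          IsLocalRing.maximalIdeal A ^ L := by
        have e5 : b₁.evalEval (x t) (y t) * (y (t + 1) - c (s + (t + 1))) =
            (a₁.evalEval (x t) (y t) - a₁.evalEval (ξ t) (c (s + t))) -
            (b₁.evalEval (x t) (y t) - b₁.evalEval (ξ t) (c (s + t))) * c (s + t + 1) := by
          rw [← add_assoc]
          linear_combination hsty t hu - e3
        rw [e5]
        exact Ideal.sub_mem _ e1 (Ideal.mul_mem_right _ _ e2)
      exact (Ideal.unit_mul_mem_iff_mem _ hu).mp e4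
  refine ⟨x, y, E₁ * M + 1 + N + e, ?_⟩
  refine
    { hb0 := hbx
      h0 := hsx
      hw0 := fun t => isUnit_of_congr hL0 (hw0 t) (congr_eval _ _ (hxξ t).1)
      hb1 := fun t => hbyu t (hyc t)
      h1 := fun t => hsty t (hbyu t (hyc t))
      hn := hn
      hper := ?_
      hcrit := ?_
      hH := ?_
      hinf := hesc' x hx0 hbx hsx }
  · intro t
    have e1 := Ideal.pow_le_self hL0 (hxξ (t + n)).1
    have e2 := Ideal.pow_le_self hL0 (hxξ t).1
    have e3 := Ideal.sub_mem _ e1 e2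
    rw [hξ] at e3
    rwa [sub_sub_sub_cancel_right] at e3
  · intro j
    have e1 := congr_evalEval (IsLocalRing.maximalIdeal A ^ L) (wr a₁ b₁) (hxξ (j * n)).1
      (hyc (j * n))
    have e2 := hcrit (T + j)
    have e3 : ξ ((T + j) * n) = ξ (j * n) := by
      rw [add_mul, add_comm, hξ']
    rw [e3, show (T + j) * n = s + j * n by rw [hs]; ring] at e2
    have e4 := Ideal.add_mem _ (Ideal.pow_le_self hL0 e1) e2
    rwa [sub_add_cancel] at e4
  · intro t
    have e1 : h.eval (x t) ∉ IsLocalRing.maximalIdeal A ^ (E₁ * M + 1 + N) := by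
      have hi : t % n < n := Nat.mod_lt _ hn
      have e2 := hmE (t % n) (x t) L E₁ (by have := hN _ hi; omega)
        (by rw [← hξm]; exact (hxξ t).1) (by rw [← hξm]; exact (hxξ t).2)
      refine notMem_mono ?_ e2
      have e3 := Nat.mul_le_mul_left E₁ (hM _ hi)
      have e4 := hN _ hi
      omega
    have e2 : (wr a₁ b₁ * H').evalEval (x t) (y t) ∉ IsLocalRing.maximalIdeal A ^ e := by
      intro hcon
      have e3 := congr_evalEval (IsLocalRing.maximalIdeal A ^ L) (wr a₁ b₁ * H') (hxξ t).1 (hyc t)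
      have e4 := Ideal.sub_mem _ hcon (Ideal.pow_le_pow_right (by omega) e3)
      rw [sub_sub_cancel] at e4
      have e5 := hnd (s + t) (hsT t)
      rw [hξs] at e5
      exact e5 e4
    have e3 := notMem_mul e1 e2
    have e4 : (wr a₁ b₁ * (C h * H')).evalEval (x t) (y t) =
        h.eval (x t) * (wr a₁ b₁ * H').evalEval (x t) (y t) := by
      simp only [evalEval_mul, evalEval_C]
      ring
    rw [e4]
    exact e3

end Pool.Agent.MP_b6294e_wc
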