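import Pool.Agent.Lib.MP_b6294e_wc.TwoOrbit
import Pool.Agent.Lib.MP_b6294e.Rec

/-!
# A contracted pair of orbits over a recurrent base orbit
-/

set_option linter.style.haveILetI false

namespace Pool.Agent.MP_b6294e_wc

open Polynomial Pool.Agent.MP_b6294e

section Pair

variable {S : Type*} [CommRing S]

theorem map_wr {S' : Type*} [CommRing S'] (f : S →+* S') (a b : S[X]) :
    (wr a b).map f = wr (a.map f) (b.map f) := by
  unfold wr
  rw [Polynomial.map_sub, Polynomial.map_mul, Polynomial.map_mul, derivative_map, derivative_map]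

/-- The difference of the images of two points under a rational function. -/
theorem pair (a b : S[X]) (y y' z z' : S) (h : b.eval y * z = a.eval y)
    (h' : b.eval y' * z' = a.eval y') :
    ∃ c, b.eval y * b.eval y' * (z - z') = (y - y') * ((wr a b).eval y' + c * (y - y')) := by
  obtain ⟨c, hc⟩ := binomExpansion (a * C (b.eval y') - C (a.eval y') * b) y' (y - y')
  refine ⟨c, ?_⟩
  rw [add_sub_cancel] at hc
  simp only [eval_sub, eval_mul, eval_C, derivative_sub, derivative_mul, derivative_C, mul_zero,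
    zero_mul, add_zero, zero_add] at hc
  unfold wr
  rw [eval_sub, eval_mul, eval_mul]
  linear_combination hc + b.eval y' * h - b.eval y * h'

theorem evalEval_eq (p : S[X][X]) (x y : S) : p.evalEval x y = (p.map (evalRingHom x)).eval y :=
  (map_evalRingHom_eval _ _ _).symm

/-- The difference of the images of two points in the same fibre. -/
theorem pair₂ (a b : S[X][X]) (x y y' z z' : S) (h : b.evalEval x y * z = a.evalEval x y)
    (h' : b.evalEval x y' * z' = a.evalEval x y') :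
    ∃ c, b.evalEval x y * b.evalEval x y' * (z - z') =
      (y - y') * ((wr a b).evalEval x y' + c * (y - y')) := by
  rw [evalEval_eq, evalEval_eq a] at h h'
  obtain ⟨c, hc⟩ := pair _ _ y y' z z' h h'
  refine ⟨c, ?_⟩
  rw [evalEval_eq b, evalEval_eq b, evalEval_eq (wr a b), map_wr]
  exact hc

/-- Values at congruent points are congruent. -/
theorem congr_eval (I : Ideal S) (p : S[X]) {y y' : S} (h : y - y' ∈ I) :
    p.eval y - p.eval y' ∈ I := by
  obtain ⟨c, hc⟩ := sub_dvd_eval_sub y y' p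
  rw [hc]
  exact I.mul_mem_right _ h

theorem congr_evalEval (I : Ideal S) (p : S[X][X]) {x x' y y' : S} (hx : x - x' ∈ I)
    (hy : y - y' ∈ I) : p.evalEval x y - p.evalEval x' y' ∈ I := by
  have h1 : p.evalEval x y - p.evalEval x y' ∈ I := by
    rw [evalEval_eq, evalEval_eq]
    exact congr_eval I _ hy
  have h2 : p.evalEval x y' - p.evalEval x' y' ∈ I := by
    unfold evalEval
    obtain ⟨c, hc⟩ := sub_dvd_eval_sub (C y') (C y') p
    exact congr_eval I _ hx
  have := I.add_mem h1 h2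
  rwa [sub_add_sub_cancel] at this

end Pair

section Local

variable {A : Type*} [CommRing A] [IsDomain A] [IsLocalRing A]

/-- An orbit in a local ring with a periodic reduction that passes through a critical point of the
fibre map modulo the maximal ideal, and along which a polynomial is bounded from below. -/
structure GoodOrbit (a₀ b₀ : A[X]) (a₁ b₁ H : A[X][X]) (X Y : ℕ → A) (n e : ℕ) : Prop where
  hb0 : ∀ t, IsUnit (b₀.eval (X t))
  h0 : ∀ t, b₀.eval (X t) * X (t + 1) = a₀.eval (X t)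
  hw0 : ∀ t, IsUnit ((wr a₀ b₀).eval (X t))
  hb1 : ∀ t, IsUnit (b₁.evalEval (X t) (Y t))
  h1 : ∀ t, b₁.evalEval (X t) (Y t) * Y (t + 1) = a₁.evalEval (X t) (Y t)
  hn : 0 < n
  hper : ∀ t, X (t + n) - X t ∈ IsLocalRing.maximalIdeal A
  hcrit : ∀ t, (wr a₁ b₁).evalEval (X (t * n)) (Y (t * n)) ∈ IsLocalRing.maximalIdeal A
  hH : ∀ t, (wr a₁ b₁ * H).evalEval (X t) (Y t) ∉ IsLocalRing.maximalIdeal A ^ e
  hinf : (Set.range X).Infinite

omit [IsDomain A] in
theorem isUnit_of_congr {e : ℕ} (he : e ≠ 0) {u u' : A} (hu : IsUnit u)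
    (h : u' - u ∈ IsLocalRing.maximalIdeal A ^ e) : IsUnit u' := by
  by_contra hcon
  have h1 : u' ∈ IsLocalRing.maximalIdeal A := (IsLocalRing.mem_maximalIdeal _).mpr hcon
  have h2 : u ∈ IsLocalRing.maximalIdeal A := by
    have h3 := (IsLocalRing.maximalIdeal A).sub_mem h1 (Ideal.pow_le_self he h)
    rwa [sub_sub_cancel] at h3
  exact (IsLocalRing.mem_maximalIdeal _).mp h2 hu

omit [IsDomain A] [IsLocalRing A] in
theorem mem_of_unit_mul {I : Ideal A} {u u' z w : A} (hu : IsUnit u) (hu' : IsUnit u')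
    (h : u * u' * z = w) (hw : w ∈ I) : z ∈ I := by
  rw [← h] at hw
  exact (Ideal.unit_mul_mem_iff_mem I (hu.mul hu')).mp hw

omit [IsDomain A] in
/-- The base orbit is recurrent. -/
theorem GoodOrbit.recurrent (hfin : ∀ s, Finite (A ⧸ IsLocalRing.maximalIdeal A ^ s))
    {a₀ b₀ : A[X]} {a₁ b₁ H : A[X][X]} {x Y : ℕ → A} {n e : ℕ}
    (g : GoodOrbit a₀ b₀ a₁ b₁ H x Y n e) :
    ∀ m s T0 : ℕ, ∃ t, T0 ≤ t ∧ x t - x m ∈ IsLocalRing.maximalIdeal A ^ s := by
  intro m s T0
  let ρ : A →ₐ[A] IsLocalRing.ResidueField A := Algebra.ofId A _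
  have hmem : ∀ z, z ∈ IsLocalRing.maximalIdeal A ↔ ρ z = 0 := fun z =>
    (IsLocalRing.residue_eq_zero_iff z).symm
  have hEP : ∀ (i : ℕ) (p : A[X]) (z : ℕ → A) (y : A),
      EP z i (p.map (MvPolynomial.C : A →+* MvPolynomial (Fin i) A)) y = p.eval y := by
    intro i p z y
    unfold EP
    rw [Polynomial.map_map]
    have h1 : ((E (R := A) z i : MvPolynomial (Fin i) A →+* A).comp MvPolynomial.C) =
        RingHom.id A := by
      ext z
      simp [E]
    rw [h1, Polynomial.map_id]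
  obtain ⟨t, ht, h⟩ := recurrence (R := A) ρ hmem hfin
    (fun i => a₀.map (MvPolynomial.C : A →+* MvPolynomial (Fin i) A))
    (fun i => b₀.map (MvPolynomial.C : A →+* MvPolynomial (Fin i) A)) 1 (fun t _ => x t)
    (by
      intro t i _
      rw [hEP, hEP]
      exact g.h0 t)
    (by
      intro t i _
      rw [← map_wr, hEP]
      intro h
      rw [← hmem] at h
      exact (IsLocalRing.mem_maximalIdeal _).mp h (g.hw0 t))
    n g.hn
    (by
      intro t i _
      have h := (hmem _).mp (g.hper t)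
      rwa [map_sub, sub_eq_zero] at h)
    m s T0
  exact ⟨t, ht, h 0 Nat.one_pos⟩

variable [IsNoetherianRing A] [CharZero A] {K : Type*} [Field K]

theorem dense_of_good (hfin : ∀ s, Finite (A ⧸ IsLocalRing.maximalIdeal A ^ s))
    (hnf : ∀ s, IsLocalRing.maximalIdeal A ^ s ≠ ⊥)
    (ι : A →+* K) (hι : Function.Injective ι)
    {a₀ b₀ : A[X]} {a₁ b₁ H : A[X][X]} {x Y : ℕ → A} {n e : ℕ}
    (g : GoodOrbit a₀ b₀ a₁ b₁ H x Y n e) :
    ∃ Z : ℕ → A, (∀ t, IsUnit (b₁.evalEval (x t) (Z t))) ∧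
      (∀ t, b₁.evalEval (x t) (Z t) * Z (t + 1) = a₁.evalEval (x t) (Z t)) ∧
      (∀ t, H.evalEval (x t) (Z t) ≠ 0) ∧
      (∀ P : K[X][X], (∀ t, P.evalEval (ι (x t)) (ι (Z t)) = 0) → P = 0) := by
  classical
  have he : e ≠ 0 := by
    rintro rfl
    exact g.hH 0 (by rw [pow_zero, Ideal.one_eq_top]; exact Submodule.mem_top)
  obtain ⟨η, hη, hη0⟩ := Submodule.exists_mem_ne_zero_of_ne_bot (hnf e)
  obtain ⟨Z, hZ0, hZs⟩ : ∃ Z : ℕ → A, Z 0 = Y 0 + η ∧
      ∀ t, Z (t + 1) = a₁.evalEval (x t) (Z t) * Ring.inverse (b₁.evalEval (x t) (Z t)) :=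
    ⟨fun t => Nat.rec (Y 0 + η)
      (fun t z => a₁.evalEval (x t) z * Ring.inverse (b₁.evalEval (x t) z)) t, rfl, fun t => rfl⟩
  have hzero : ∀ t, x t - x t ∈ IsLocalRing.maximalIdeal A ^ e := fun t => by
    rw [sub_self]; exact Ideal.zero_mem _
  have hbu : ∀ t, Z t - Y t ∈ IsLocalRing.maximalIdeal A ^ e →
      IsUnit (b₁.evalEval (x t) (Z t)) := fun t h =>
    isUnit_of_congr he (g.hb1 t) (congr_evalEval _ b₁ (hzero t) h)
  have hst : ∀ t, IsUnit (b₁.evalEval (x t) (Z t)) →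
      b₁.evalEval (x t) (Z t) * Z (t + 1) = a₁.evalEval (x t) (Z t) := by
    intro t h
    rw [hZs, mul_left_comm, Ring.mul_inverse_cancel _ h, mul_one]
  have hclose : ∀ t, Z t - Y t ∈ IsLocalRing.maximalIdeal A ^ e := by
    intro t
    induction t with
    | zero => rw [hZ0, add_sub_cancel_left]; exact hη
    | succ t ih =>
      obtain ⟨c, hc⟩ := pair₂ a₁ b₁ (x t) (Z t) (Y t) _ _ (hst t (hbu t ih)) (g.h1 t)
      exact mem_of_unit_mul (hbu t ih) (g.hb1 t) hc (Ideal.mul_mem_right _ _ ih)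
  have hbZ := fun t => hbu t (hclose t)
  have hsZ := fun t => hst t (hbZ t)
  have hWH : ∀ (p : A[X][X]) (t : ℕ), p.evalEval (x t) (Z t) - p.evalEval (x t) (Y t) ∈
      IsLocalRing.maximalIdeal A ^ e := fun p t => congr_evalEval _ p (hzero t) (hclose t)
  have hW : ∀ t, (wr a₁ b₁).evalEval (x t) (Y t) ∉ IsLocalRing.maximalIdeal A ^ e := by
    intro t h
    apply g.hH t
    rw [evalEval_mul]
    exact Ideal.mul_mem_right _ _ h
  have hHY : ∀ t, H.evalEval (x t) (Y t) ∉ IsLocalRing.maximalIdeal A ^ e := by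
    intro t h
    apply g.hH t
    rw [evalEval_mul]
    exact Ideal.mul_mem_left _ _ h
  have hHY0 : ∀ t, H.evalEval (x t) (Y t) ≠ 0 := fun t h =>
    hHY t (by rw [h]; exact Ideal.zero_mem _)
  have hHZ0 : ∀ t, H.evalEval (x t) (Z t) ≠ 0 := by
    intro t h
    have h1 := hWH H t
    rw [h, zero_sub] at h1
    exact hHY t ((Ideal.neg_mem_iff _).mp h1)
  -- the differences
  have hD0 : ∀ t, Z t - Y t ≠ 0 := by
    intro t
    induction t with
    | zero => rw [hZ0, add_sub_cancel_left]; exact hη0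
    | succ t ih =>
      obtain ⟨c, hc⟩ := pair₂ a₁ b₁ (x t) (Z t) (Y t) _ _ (hsZ t) (g.h1 t)
      intro h
      rw [h, mul_zero] at hc
      rcases mul_eq_zero.mp hc.symm with h1 | h1
      · exact ih h1
      · apply hW t
        rw [eq_neg_of_add_eq_zero_left h1]
        exact (Ideal.neg_mem_iff _).mpr (Ideal.mul_mem_left _ _ (hclose t))
  have hD1 : ∀ (I : Ideal A) (t : ℕ), Z t - Y t ∈ I → Z (t + 1) - Y (t + 1) ∈ I := by
    intro I t h
    obtain ⟨c, hc⟩ := pair₂ a₁ b₁ (x t) (Z t) (Y t) _ _ (hsZ t) (g.h1 t)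
    exact mem_of_unit_mul (hbZ t) (g.hb1 t) hc (Ideal.mul_mem_right _ _ h)
  have hDs : ∀ (I : Ideal A) (t s : ℕ), Z t - Y t ∈ I → Z (t + s) - Y (t + s) ∈ I := by
    intro I t s h
    induction s with
    | zero => exact h
    | succ s ih => exact hD1 I _ ih
  have hDn : ∀ j, Z (j * n) - Y (j * n) ∈ IsLocalRing.maximalIdeal A ^ j := by
    intro j
    induction j with
    | zero => rw [pow_zero, Ideal.one_eq_top]; exact Submodule.mem_top
    | succ j ih =>
      obtain ⟨c, hc⟩ := pair₂ a₁ b₁ (x (j * n)) (Z (j * n)) (Y (j * n)) _ _ (hsZ _) (g.h1 _)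
      have h1 : Z (j * n + 1) - Y (j * n + 1) ∈ IsLocalRing.maximalIdeal A ^ (j + 1) := by
        refine mem_of_unit_mul (hbZ _) (g.hb1 _) hc ?_
        rw [pow_succ]
        refine Ideal.mul_mem_mul ih ?_
        exact Ideal.add_mem _ (g.hcrit j)
          (Ideal.mul_mem_left _ _ (Ideal.pow_le_self he (hclose _)))
      have hn := g.hn
      obtain ⟨n', hn'⟩ : ∃ n', n = n' + 1 := ⟨n - 1, by omega⟩
      have h2 := hDs _ (j * n + 1) n' h1
      rw [show j * n + 1 + n' = (j + 1) * n by rw [hn']; ring] at h2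
      exact h2
  have hD : ∀ s : ℕ, ∃ T0, ∀ t, T0 ≤ t → Z t - Y t ∈ IsLocalRing.maximalIdeal A ^ s := by
    intro s
    refine ⟨s * n, fun t ht => ?_⟩
    obtain ⟨r, rfl⟩ := Nat.exists_eq_add_of_le ht
    exact hDs _ _ r (hDn s)
  rcases two_orbits ι hι x Z Y g.hinf (g.recurrent hfin) (fun t => sub_ne_zero.mp (hD0 t)) hD with
    h | h
  · exact ⟨Z, hbZ, hsZ, hHZ0, h⟩
  · exact ⟨Y, g.hb1, g.h1, hHY0, h⟩

end Local

end Pool.Agent.MP_b6294e_wc
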