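import Pool.Agent.Lib.MP_b6294e_wc.Wand

/-!
# The theorems for a wandering and for a periodic critical point of the base map
-/

set_option linter.style.haveILetI false

namespace Pool.Agent.MP_b6294e_wc

open Polynomial Pool.Agent.MP_b6294e

universe u

theorem wandering (K : Type u) [Field K] [CharZero K] [IsAlgClosed K]
    (halg : Algebra.IsAlgebraic ℚ K) (a₀ b₀ : K[X]) (a₁ b₁ : K[X][X])
    (hco : IsCoprime a₀ b₀) (hd : b₀.natDegree < a₀.natDegree)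
    (κ : ℕ → K) (hκ : Function.Injective κ) (hb0 : ∀ t, b₀.eval (κ t) ≠ 0)
    (h0 : ∀ t, b₀.eval (κ t) * κ (t + 1) = a₀.eval (κ t)) (hcr : (wr a₀ b₀).eval (κ 0) = 0)
    (hco1 : IsCoprime (a₁.map (algebraMap K[X] (RatFunc K)))
      (b₁.map (algebraMap K[X] (RatFunc K))))
    (hd1 : 2 ≤ max a₁.natDegree b₁.natDegree)
    (hNC : ∀ β, (wr a₁ b₁).map (evalRingHom β) = 0 → FiniteOrbit a₀ b₀ β)
    (G : K[X][X]) (hG : G ≠ 0) :
    ∃ x y : ℕ → K, (∀ t, b₀.eval (x t) ≠ 0) ∧ (∀ t, b₀.eval (x t) * x (t + 1) = a₀.eval (x t)) ∧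
      (∀ t, b₁.evalEval (x t) (y t) ≠ 0) ∧
      (∀ t, b₁.evalEval (x t) (y t) * y (t + 1) = a₁.evalEval (x t) (y t)) ∧
      (∀ t, G.evalEval (x t) (y t) ≠ 0) ∧
      ∀ P : K[X][X], (∀ t, P.evalEval (x t) (y t) = 0) → P = 0 := by
  classical
  -- no contracted fibre over the orbit of the critical point
  have hκF : ¬ FiniteOrbit a₀ b₀ (κ 0) := by
    rintro ⟨o, ho0, ho, hfin⟩
    have h1 : ∀ t, o t = κ t := by
      intro t
      induction t with
      | zero => exact ho0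
      | succ t ih =>
        have h2 := ho t (by rw [ih]; exact hb0 t)
        rw [ih, ← h0 t] at h2
        exact mul_left_cancel₀ (hb0 t) h2
    rcases hfin with ⟨t, ht⟩ | hf
    · rw [h1] at ht
      exact hb0 t ht
    · refine Set.infinite_range_of_injective hκ (hf.subset ?_)
      rintro _ ⟨t, rfl⟩
      exact ⟨t, h1 t⟩
  have hW : wr a₁ b₁ ≠ 0 := by
    intro hW
    exact hκF (hNC _ (by rw [hW, Polynomial.map_zero]))
  obtain ⟨q, W', hq, hWW, hW'⟩ := factor_all (wr a₁ b₁) hW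
  obtain ⟨h, G', hh, hGG, hG'⟩ := factor_all G hG
  obtain ⟨cW, hcW⟩ := bezout_coeff W' hW'
  obtain ⟨cG, hcG⟩ := bezout_coeff G' hG'
  have hroot : ∀ β, q.eval β = 0 → FiniteOrbit a₀ b₀ β := by
    intro β hβ
    apply hNC
    rw [hWW, Polynomial.map_mul, map_C, coe_evalRingHom, hβ, map_zero, zero_mul]
  have hroot' : ∀ β : K, ∃ o : ℕ → K, q.eval β = 0 → (o 0 = β ∧
      (∀ t, b₀.eval (o t) ≠ 0 → b₀.eval (o t) * o (t + 1) = a₀.eval (o t)) ∧
      ((∃ t, b₀.eval (o t) = 0) ∨ (Set.range o).Finite)) := by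
    intro β
    by_cases hβ : q.eval β = 0
    · obtain ⟨o, ho⟩ := hroot β hβ
      exact ⟨o, fun _ => ho⟩
    · exact ⟨0, fun h => absurd h hβ⟩
  choose o ho using hroot'
  obtain ⟨u₀, v₀, huv₀⟩ := hco
  obtain ⟨U, V₁, c, hc, hUV⟩ := coprime_clear a₁ b₁ hco1
  -- the leading coefficient
  obtain ⟨i₁, hi₁, hl⟩ : ∃ i₁, 2 ≤ i₁ ∧ (a₁.coeff i₁ ≠ 0 ∨ b₁.coeff i₁ ≠ 0) := by
    rcases le_max_iff.mp hd1 with h1 | h1
    · refine ⟨a₁.natDegree, h1, Or.inl ?_⟩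
      intro h2
      rw [coeff_natDegree, leadingCoeff_eq_zero] at h2
      rw [h2, natDegree_zero] at h1
      omega
    · refine ⟨b₁.natDegree, h1, Or.inr ?_⟩
      intro h2
      rw [coeff_natDegree, leadingCoeff_eq_zero] at h2
      rw [h2, natDegree_zero] at h1
      omega
  obtain ⟨t₁, ht₁⟩ : ∃ t₁, c.eval (κ t₁) ≠ 0 ∧
      ((a₁.coeff i₁).eval (κ t₁) ≠ 0 ∨ (b₁.coeff i₁).eval (κ t₁) ≠ 0) := by
    by_contra hcon
    push Not at hcon
    have key : ∀ l : K[X], l ≠ 0 → ∃ t, (c * l).eval (κ t) ≠ 0 := by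
      intro l hl0
      by_contra hcon2
      push Not at hcon2
      have h1 : (Set.range κ).Finite := by
        refine (Finset.finite_toSet (c * l).roots.toFinset).subset ?_
        rintro _ ⟨t, rfl⟩
        rw [Finset.mem_coe, Multiset.mem_toFinset, mem_roots (mul_ne_zero hc hl0)]
        exact hcon2 t
      exact Set.infinite_range_of_injective hκ h1
    rcases hl with hl | hl
    · obtain ⟨t, ht⟩ := key _ hl
      rw [eval_mul] at ht
      exact right_ne_zero_of_mul ht (hcon t (left_ne_zero_of_mul ht)).1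
    · obtain ⟨t, ht⟩ := key _ hl
      rw [eval_mul] at ht
      exact right_ne_zero_of_mul ht (hcon t (left_ne_zero_of_mul ht)).2
  obtain ⟨htc, htl⟩ := ht₁
  set u₁ : K[X] := C (c.eval (κ t₁))⁻¹ * U.map (evalRingHom (κ t₁)) with hu₁
  set v₁ : K[X] := C (c.eval (κ t₁))⁻¹ * V₁.map (evalRingHom (κ t₁)) with hv₁
  have huv₁ : u₁ * a₁.map (evalRingHom (κ t₁)) + v₁ * b₁.map (evalRingHom (κ t₁)) = 1 := by
    have h1 := congrArg (Polynomial.map (evalRingHom (κ t₁))) hUV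
    rw [Polynomial.map_add, Polynomial.map_mul, Polynomial.map_mul, map_C, coe_evalRingHom] at h1
    have h2 : (C (c.eval (κ t₁))⁻¹ * C (c.eval (κ t₁)) : K[X]) = 1 := by
      rw [← C_mul, inv_mul_cancel₀ htc, C_1]
    rw [hu₁, hv₁]
    linear_combination C (c.eval (κ t₁))⁻¹ * h1 + h2
  -- the finite set
  let S : Set K[X] := {a₀, b₀, u₀, v₀, q, u₁, v₁} ∪ Set.range a₁.coeff ∪ Set.range b₁.coeff ∪
    Set.range G'.coeff ∪ Set.range W'.coeff ∪ Set.range cW ∪ Set.range cG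
  have hcf : ∀ e : ℕ →₀ K[X], (Set.range e).Finite := fun e => by
    refine (((e.support.image e : Finset K[X]).finite_toSet).union
      (Set.finite_singleton 0)).subset ?_
    rintro _ ⟨i, rfl⟩
    by_cases hi : e i = 0
    · exact Or.inr hi
    · exact Or.inl (Finset.mem_coe.mpr (Finset.mem_image_of_mem _ (Finsupp.mem_support_iff.mpr hi)))
  have hS : S.Finite := by
    refine ((((((Set.toFinite _).union ?_).union ?_).union ?_).union ?_).union ?_).union ?_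
    · exact finite_range_coeff _
    · exact finite_range_coeff _
    · exact finite_range_coeff _
    · exact finite_range_coeff _
    · exact hcf _
    · exact hcf _
  let TZ : Set K := ⋃ β ∈ q.roots.toFinset, {z | (Set.range (o β)).Finite ∧ ∃ t, κ 0 - o β t = z}
  have hTZ : TZ.Finite := by
    refine Set.Finite.biUnion (Finset.finite_toSet _) fun β _ => ?_
    by_cases hf : (Set.range (o β)).Finite
    · refine (hf.image fun z => κ 0 - z).subset ?_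
      rintro _ ⟨_, t, rfl⟩
      exact ⟨_, ⟨t, rfl⟩, rfl⟩
    · have : {z | (Set.range (o β)).Finite ∧ ∃ t, κ 0 - o β t = z} = ∅ := by
        ext z
        simp [hf]
      rw [this]
      exact Set.finite_empty
  let T : Set K := {x : K | ∃ q ∈ S, ∃ n, q.coeff n = x} ∪ {κ 0, (a₁.coeff i₁).eval (κ t₁),
    (b₁.coeff i₁).eval (κ t₁)} ∪ (q.roots.toFinset : Set K) ∪ TZ
  have hT : T.Finite := by
    refine (((finite_coeff S hS).union (Set.toFinite _)).union (Finset.finite_toSet _)).union hTZ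
  have hST : ∀ q ∈ S, ∀ n, q.coeff n ∈ T := fun q hq n =>
    Or.inl (Or.inl (Or.inl ⟨q, hq, n, rfl⟩))
  have hS0 : ∀ p ∈ ({a₀, b₀, u₀, v₀, q, u₁, v₁} : Set K[X]), p ∈ S := fun p hp =>
    Or.inl (Or.inl (Or.inl (Or.inl (Or.inl (Or.inl hp)))))
  have hSa1 : ∀ j, a₁.coeff j ∈ S := fun j =>
    Or.inl (Or.inl (Or.inl (Or.inl (Or.inl (Or.inr ⟨j, rfl⟩)))))
  have hSb1 : ∀ j, b₁.coeff j ∈ S := fun j =>
    Or.inl (Or.inl (Or.inl (Or.inl (Or.inr ⟨j, rfl⟩))))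
  have hSG : ∀ j, G'.coeff j ∈ S := fun j => Or.inl (Or.inl (Or.inl (Or.inr ⟨j, rfl⟩)))
  have hSW : ∀ j, W'.coeff j ∈ S := fun j => Or.inl (Or.inl (Or.inr ⟨j, rfl⟩))
  have hScW : ∀ j, cW j ∈ S := fun j => Or.inl (Or.inr ⟨j, rfl⟩)
  have hScG : ∀ j, cG j ∈ S := fun j => Or.inr ⟨j, rfl⟩
  have hTκ : κ 0 ∈ T := Or.inl (Or.inl (Or.inr (by simp)))
  have hTa : (a₁.coeff i₁).eval (κ t₁) ∈ T := Or.inl (Or.inl (Or.inr (by simp)))
  have hTb : (b₁.coeff i₁).eval (κ t₁) ∈ T := Or.inl (Or.inl (Or.inr (by simp)))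
  have hTq : ∀ β ∈ q.roots, β ∈ T := fun β hβ =>
    Or.inl (Or.inr (Finset.mem_coe.mpr (Multiset.mem_toFinset.mpr hβ)))
  have hTo : ∀ β ∈ q.roots, (Set.range (o β)).Finite → ∀ t, κ 0 - o β t ∈ T := by
    intro β hβ hf t
    exact Or.inr (Set.mem_iUnion₂.mpr ⟨β, Multiset.mem_toFinset.mpr hβ, hf, t, rfl⟩)
  obtain ⟨V, r, d, n, hPl, hn, Vκ, Vb, hκn⟩ := place_wandering K halg T hT a₀ b₀ u₀ v₀ huv₀ hd
    (hST _ (hS0 _ (by simp))) (hST _ (hS0 _ (by simp))) (hST _ (hS0 _ (by simp)))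
    (hST _ (hS0 _ (by simp))) κ hκ hTκ hb0 h0
  have hSV : ∀ p ∈ S, ∀ i, p.coeff i ∈ V := fun p hp i => hPl.hT _ (hST p hp i)
  -- the contracted fibres are avoided
  have hqβ : ∀ β ∈ q.roots, ∀ t, V.valuation (κ t - β) = 1 := by
    intro β hβ t
    have hβ0 : q.eval β = 0 := (mem_roots hq).mp hβ
    obtain ⟨ho0, hos, hof⟩ := ho β hβ0
    have h1 := avoid V a₀ b₀ (hSV _ (hS0 _ (by simp))) (hSV _ (hS0 _ (by simp))) κ (o β) n hn hκ
      Vκ Vb h0 hκn hos hof (fun hf t ht => hPl.hT' _ (hTo β hβ hf t) ht) t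
    rw [ho0] at h1
    exact val_eq_one V (sub_mem (Vκ t) (hPl.hT _ (hTq β hβ))) h1
  have hqκ : ∀ t, V.valuation (q.eval (κ t)) = 1 := by
    intro t
    rw [(IsAlgClosed.splits q).eval_eq_prod_roots, map_mul]
    have h1 : V.valuation q.leadingCoeff = 1 := by
      have h2 : q.leadingCoeff ∈ T := hST q (hS0 _ (by simp)) _
      exact val_eq_one V (hPl.hT _ h2) (hPl.hT' _ h2 (leadingCoeff_ne_zero.mpr hq))
    rw [h1, one_mul, map_multiset_prod, Multiset.map_map]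
    refine Multiset.prod_eq_one fun z hz => ?_
    obtain ⟨β, hβ, rfl⟩ := Multiset.mem_map.mp hz
    exact hqβ β hβ t
  have hcoefV : ∀ (Q : K[X][X]), (∀ j, Q.coeff j ∈ S) → ∀ t i,
      (Q.map (evalRingHom (κ t))).coeff i ∈ V := by
    intro Q hQ t i
    rw [coeff_map, coe_evalRingHom]
    exact eval_mem' V _ (hSV _ (hQ i)) (Vκ t)
  have hΛ : ∀ t, ∃ i, ((wr a₁ b₁ * G').map (evalRingHom (κ t))).coeff i ∉ V.nonunits := by
    intro t
    obtain ⟨i, hi⟩ := gauss V _ _ (hcoefV W' hSW t) (hcoefV G' hSG t)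
      (some_coeff V W' cW hcW (fun i => hSV _ (hScW i)) (κ t) (Vκ t))
      (some_coeff V G' cG hcG (fun i => hSV _ (hScG i)) (κ t) (Vκ t))
    refine ⟨i, ?_⟩
    rw [hWW, Polynomial.map_mul, Polynomial.map_mul, map_C, coe_evalRingHom, mul_assoc,
      coeff_C_mul, ValuationSubring.mem_nonunits_iff, map_mul, hqκ, one_mul,
      ← ValuationSubring.mem_nonunits_iff]
    exact hi
  exact common K halg V r d T hT hPl a₀ b₀ h a₁ b₁ G G' hh hGG (hST _ (hS0 _ (by simp)))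
    (hST _ (hS0 _ (by simp))) (fun i => hST _ (hSa1 i)) (fun i => hST _ (hSb1 i))
    (fun i => hST _ (hSG i)) n hn κ κ hTκ h0 Vκ Vb hκn hcr hb0 h0 hκ
    (fun t => by rw [sub_self]; exact zero_mem_nonunits V) hΛ
    (Or.inl ⟨t₁, u₁, v₁, i₁, hSV _ (hS0 _ (by simp)), hSV _ (hS0 _ (by simp)), huv₁, hi₁, by
      rcases htl with h1 | h1
      · left
        rw [coeff_map, coe_evalRingHom]
        exact hPl.hT' _ hTa h1
      · right
        rw [coeff_map, coe_evalRingHom]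
        exact hPl.hT' _ hTb h1⟩)

theorem periodic (K : Type u) [Field K] [CharZero K] [IsAlgClosed K]
    (halg : Algebra.IsAlgebraic ℚ K) (a₀ b₀ : K[X]) (a₁ b₁ : K[X][X])
    (hco : IsCoprime a₀ b₀) (hd : 2 ≤ max a₀.natDegree b₀.natDegree)
    (n : ℕ) (hn : 0 < n) (κ : ℕ → K) (hκ : ∀ t, κ (t + n) = κ t) (hb0 : ∀ t, b₀.eval (κ t) ≠ 0)
    (h0 : ∀ t, b₀.eval (κ t) * κ (t + 1) = a₀.eval (κ t)) (hcr : (wr a₀ b₀).eval (κ 0) = 0)
    (hNC : ∀ t, (wr a₁ b₁).map (evalRingHom (κ t)) ≠ 0)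
    (hid : ∀ S, 0 < S → n ∣ S →
      (comp (max a₁.natDegree b₁.natDegree) (fun i => a₁.map (evalRingHom (κ i)))
        (fun i => b₁.map (evalRingHom (κ i))) S).1 ≠
      X * (comp (max a₁.natDegree b₁.natDegree) (fun i => a₁.map (evalRingHom (κ i)))
        (fun i => b₁.map (evalRingHom (κ i))) S).2)
    (G : K[X][X]) (hG : G ≠ 0) :
    ∃ x y : ℕ → K, (∀ t, b₀.eval (x t) ≠ 0) ∧ (∀ t, b₀.eval (x t) * x (t + 1) = a₀.eval (x t)) ∧
      (∀ t, b₁.evalEval (x t) (y t) ≠ 0) ∧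
      (∀ t, b₁.evalEval (x t) (y t) * y (t + 1) = a₁.evalEval (x t) (y t)) ∧
      (∀ t, G.evalEval (x t) (y t) ≠ 0) ∧
      ∀ P : K[X][X], (∀ t, P.evalEval (x t) (y t) = 0) → P = 0 := by
  classical
  have hκf : (Set.range κ).Finite := finite_range_periodic κ n hn hκ
  obtain ⟨h, G', hh, hGG, hG'⟩ := factor_all G hG
  -- the finite set
  let S : Set K[X] := {a₀, b₀} ∪ Set.range a₁.coeff ∪ Set.range b₁.coeff ∪
    Set.range G'.coeff ∪ (fun x => (wr a₁ b₁ * G').map (evalRingHom x)) '' Set.range κ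
  have hS : S.Finite := by
    refine ((((Set.toFinite _).union ?_).union ?_).union ?_).union ?_
    · exact finite_range_coeff _
    · exact finite_range_coeff _
    · exact finite_range_coeff _
    · exact hκf.image _
  let T : Set K := {x : K | ∃ q ∈ S, ∃ n, q.coeff n = x} ∪ Set.range κ ∪
    (fun x => b₀.eval x) '' Set.range κ
  have hT : T.Finite := ((finite_coeff S hS).union hκf).union (hκf.image _)
  have hST : ∀ q ∈ S, ∀ n, q.coeff n ∈ T := fun q hq n => Or.inl (Or.inl ⟨q, hq, n, rfl⟩)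
  have hS0 : ∀ p ∈ ({a₀, b₀} : Set K[X]), p ∈ S := fun p hp =>
    Or.inl (Or.inl (Or.inl (Or.inl hp)))
  have hSa1 : ∀ j, a₁.coeff j ∈ S := fun j => Or.inl (Or.inl (Or.inl (Or.inr ⟨j, rfl⟩)))
  have hSb1 : ∀ j, b₁.coeff j ∈ S := fun j => Or.inl (Or.inl (Or.inr ⟨j, rfl⟩))
  have hSG : ∀ j, G'.coeff j ∈ S := fun j => Or.inl (Or.inr ⟨j, rfl⟩)
  have hSΛ : ∀ t, (wr a₁ b₁ * G').map (evalRingHom (κ t)) ∈ S := fun t =>
    Or.inr ⟨κ t, ⟨t, rfl⟩, rfl⟩
  have hTκ : ∀ t, κ t ∈ T := fun t => Or.inl (Or.inr ⟨t, rfl⟩)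
  have hTb : ∀ t, b₀.eval (κ t) ∈ T := fun t => Or.inr ⟨κ t, ⟨t, rfl⟩, rfl⟩
  obtain ⟨V, r, d, z, hPl, hzi, hzb, hzs, hzκ⟩ := place_periodic K halg T hT a₀ b₀ hco hd
    (hST _ (hS0 _ (by simp))) (hST _ (hS0 _ (by simp))) κ hTκ hTb hb0 h0
  have hSV : ∀ p ∈ S, ∀ i, p.coeff i ∈ V := fun p hp i => hPl.hT _ (hST p hp i)
  have hΛ : ∀ t, ∃ i, ((wr a₁ b₁ * G').map (evalRingHom (κ t))).coeff i ∉ V.nonunits := by
    intro t
    have h1 : (wr a₁ b₁ * G').map (evalRingHom (κ t)) ≠ 0 := by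
      rw [Polynomial.map_mul]
      exact mul_ne_zero (hNC t) (hG' _)
    obtain ⟨i, hi⟩ : ∃ i, ((wr a₁ b₁ * G').map (evalRingHom (κ t))).coeff i ≠ 0 := by
      by_contra hcon
      push Not at hcon
      exact h1 (Polynomial.ext fun i => by rw [hcon, coeff_zero])
    exact ⟨i, hPl.hT' _ (hST _ (hSΛ t) i) hi⟩
  exact common K halg V r d T hT hPl a₀ b₀ h a₁ b₁ G G' hh hGG (hST _ (hS0 _ (by simp)))
    (hST _ (hS0 _ (by simp))) (fun i => hST _ (hSa1 i)) (fun i => hST _ (hSb1 i))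
    (fun i => hST _ (hSG i)) n hn κ z (hTκ 0) h0 (fun t => hPl.hT _ (hTκ t))
    (fun t => hPl.hT' _ (hTb t) (hb0 t))
    (fun t => by rw [hκ, sub_self]; exact zero_mem_nonunits V) hcr hzb hzs hzi hzκ hΛ
    (Or.inr ⟨hκ, hTκ, hid⟩)

end Pool.Agent.MP_b6294e_wc
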