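import Pool.Agent.Lib.MP_b6294e_wc.ProjFacts

/-!
# The theorems in homogeneous coordinates
-/

set_option linter.style.haveILetI false

namespace Pool.Agent.MP_b6294e_wc

open Polynomial Pool.Agent.MP_b6294e

universe u

section Fin

variable {K : Type u} [Field K]

/-- The point has a finite orbit. -/
def Preper (a b : K[X]) (P : K × K) : Prop := ∃ i j, i < j ∧ Same (porb a b P i) (porb a b P j)

theorem form_pair_ne (a b : K[X]) (hco : IsCoprime a b) (P : K × K) (hP : P ≠ 0) :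
    ((form (max a.natDegree b.natDegree) a P, form (max a.natDegree b.natDegree) b P) : K × K) ≠
      0 := by
  intro h
  rcases form_ne a b hco _ hP with h1 | h1
  · exact h1 (congrArg Prod.fst h)
  · exact h1 (congrArg Prod.snd h)

theorem finiteOrbit_of (a b : K[X]) (hco : IsCoprime a b) {α β γ δ : K}
    (hΔ : α * δ - β * γ ≠ 0) (x : K) (h : Preper a b (α * x + β, γ * x + δ)) :
    FiniteOrbit (cA (max a.natDegree b.natDegree) a b α β γ δ)
      (cB (max a.natDegree b.natDegree) a b α β γ δ) x := by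
  set e := max a.natDegree b.natDegree with he
  let o : ℕ → K := fun t => Nat.rec x
    (fun _ z => (cA e a b α β γ δ).eval z / (cB e a b α β γ δ).eval z) t
  have hos : ∀ t, o (t + 1) = (cA e a b α β γ δ).eval (o t) / (cB e a b α β γ δ).eval (o t) :=
    fun t => rfl
  refine ⟨o, rfl, fun t ht => by rw [hos, mul_div_cancel₀ _ ht], ?_⟩
  by_cases hz : ∃ t, (cB e a b α β γ δ).eval (o t) = 0
  · exact Or.inl hz
  right
  push Not at hz
  have hst : ∀ t, Same (α * o t + β, γ * o t + δ) (porb a b (α * x + β, γ * x + δ) t) := by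
    intro t
    induction t with
    | zero => exact Same.refl _
    | succ t ih =>
      have h1 : Same (α * o (t + 1) + β, γ * o (t + 1) + δ)
          (form e a (α * o t + β, γ * o t + δ), form e b (α * o t + β, γ * o t + δ)) := by
        unfold Same
        dsimp only
        have h2 := cA_eval e a b α β γ δ (o t)
        have h3 := cB_eval e a b α β γ δ (o t)
        have h4 : o (t + 1) * (cB e a b α β γ δ).eval (o t) = (cA e a b α β γ δ).eval (o t) := by
          rw [hos, div_mul_cancel₀ _ (hz t)]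
        rw [h2, h3] at h4
        linear_combination h4
      exact h1.trans (pt_ne hΔ _) (form_pair_ne a b hco _ (pt_ne hΔ _))
        (porb_ne a b hco _ (pt_ne hΔ _) _)
        (Same.image (pt_ne hΔ _) (porb_ne a b hco _ (pt_ne hΔ _) _) ih)
  obtain ⟨i, j, hij, hS⟩ := h
  refine finite_range_of_eq o i j hij fun t => ?_
  induction t with
  | zero =>
    have h1 : Same (α * o i + β, γ * o i + δ) (α * o j + β, γ * o j + δ) :=
      ((hst i).trans (pt_ne hΔ _) (porb_ne a b hco _ (pt_ne hΔ _) _)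
        (porb_ne a b hco _ (pt_ne hΔ _) _) hS).trans (pt_ne hΔ _)
        (porb_ne a b hco _ (pt_ne hΔ _) _) (pt_ne hΔ _) (hst j).symm
    unfold Same at h1
    dsimp only at h1
    have h2 : (α * δ - β * γ) * (o i - o j) = 0 := by linear_combination h1
    exact sub_eq_zero.mp ((mul_eq_zero.mp h2).resolve_left hΔ)
  | succ t ih =>
    rw [← add_assoc, ← add_assoc, hos, hos, ih]

end Fin

section CompForm

variable {K : Type u} [Field K]

theorem hom_coeff_top' (D E : ℕ) (q α β : K[X]) (hα : α.natDegree ≤ E) (hβ : β.natDegree ≤ E) :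
    (hom D q α β).coeff (D * E) = form D q (α.coeff E, β.coeff E) := by
  unfold hom form
  rw [finsetSum_coeff]
  refine Finset.sum_congr rfl fun j hj => ?_
  have hj' := Nat.lt_succ_iff.mp (Finset.mem_range.mp hj)
  have hp : ∀ (u : K[X]) (i : ℕ), u.natDegree ≤ E → (u ^ i).natDegree ≤ i * E :=
    fun u i hu => natDegree_pow_le_of_le i hu
  have h1 : (C (q.coeff j) * α ^ j * β ^ (D - j) : K[X]).coeff (j * E + (D - j) * E) =
      q.coeff j * α.coeff E ^ j * β.coeff E ^ (D - j) := by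
    rw [coeff_mul_add_eq_of_natDegree_le ((natDegree_C_mul_le _ _).trans (hp α j hα))
      (hp β (D - j) hβ), coeff_C_mul, coeff_pow_of_natDegree_le hα, coeff_pow_of_natDegree_le hβ]
  rw [← add_mul, Nat.add_sub_cancel' hj'] at h1
  exact h1

theorem form_hom (D E : ℕ) (q α β : K[X]) (hα : α.natDegree ≤ E) (hβ : β.natDegree ≤ E)
    (Q : K × K) : form (D * E) (hom D q α β) Q = form D q (form E α Q, form E β Q) := by
  by_cases h0 : Q.2 = 0
  · have hQ : Q = (Q.1, 0) := Prod.ext rfl h0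
    rw [hQ, form_infinity, form_infinity, form_infinity, hom_coeff_top' D E q α β hα hβ]
    have h1 := form_smul D q (Q.1 ^ E) (α.coeff E, β.coeff E)
    dsimp only at h1
    rw [mul_comm (α.coeff E), mul_comm (β.coeff E), h1, ← pow_mul, mul_comm E D, mul_comm]
  · rw [form_eq' _ _ (hom_natDegree D E q α β hα hβ) _ h0, form_eq' _ _ hα _ h0,
      form_eq' _ _ hβ _ h0, hom_eval_form]
    have h1 := form_smul D q (Q.2 ^ E) (α.eval (Q.1 / Q.2), β.eval (Q.1 / Q.2))
    dsimp only at h1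
    rw [h1, ← pow_mul, mul_comm E D]

theorem comp_form (D : ℕ) (p q : ℕ → K[X]) (Q : ℕ → K × K)
    (hQ : ∀ t, Q (t + 1) = (form D (p t) (Q t), form D (q t) (Q t))) (s : ℕ) :
    form (D ^ s) (comp D p q s).1 (Q 0) = (Q s).1 ∧
      form (D ^ s) (comp D p q s).2 (Q 0) = (Q s).2 := by
  induction s with
  | zero =>
    constructor
    · simp only [comp, pow_zero]
      unfold form
      simp [coeff_X]
    · simp only [comp, pow_zero]
      unfold form
      simp [coeff_one]
  | succ s ih =>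
    have h1 := comp_natDegree D p q s
    simp only [comp]
    rw [pow_succ', form_hom _ _ _ _ _ h1.1 h1.2, form_hom _ _ _ _ _ h1.1 h1.2, ih.1, ih.2, hQ]
    exact ⟨rfl, rfl⟩

theorem comp_ne_of_infinite (D : ℕ) (p q : ℕ → K[X]) (Q : ℕ → K × K)
    (hQ : ∀ t, Q (t + 1) = (form D (p t) (Q t), form D (q t) (Q t))) (s : ℕ)
    (h : ¬ Same (Q 0) (Q s)) : (comp D p q s).1 ≠ X * (comp D p q s).2 := by
  intro h1
  apply h
  obtain ⟨h2, h3⟩ := comp_form D p q Q hQ s
  have h4 := comp_natDegree D p q s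
  unfold Same
  rw [← h2, ← h3]
  by_cases h0 : (Q 0).2 = 0
  · have hQ0 : Q 0 = ((Q 0).1, 0) := Prod.ext rfl h0
    have h5 : (comp D p q s).2.coeff (D ^ s) = 0 := by
      have h6 : (comp D p q s).1.coeff (D ^ s + 1) = (X * (comp D p q s).2).coeff (D ^ s + 1) := by
        rw [← h1]
      rw [coeff_X_mul, coeff_eq_zero_of_natDegree_lt (Nat.lt_succ_of_le h4.1)] at h6
      exact h6.symm
    rw [h0, mul_zero, hQ0, form_infinity, h5, zero_mul, mul_zero]
  · rw [form_eq' _ _ h4.1 _ h0, form_eq' _ _ h4.2 _ h0, h1, eval_mul, eval_X]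
    have h7 : (Q 0).1 / (Q 0).2 * (Q 0).2 = (Q 0).1 := div_mul_cancel₀ _ h0
    linear_combination (-(Q 0).2 ^ D ^ s * eval ((Q 0).1 / (Q 0).2) (comp D p q s).2) * h7

end CompForm

section Change

variable {K : Type u} [Field K]

theorem wr_map {S S' : Type*} [CommRing S] [CommRing S'] (φ : S →+* S') (a b : S[X]) :
    (wr a b).map φ = wr (a.map φ) (b.map φ) := by
  unfold wr
  rw [Polynomial.map_sub, Polynomial.map_mul, Polynomial.map_mul, derivative_map, derivative_map]

/-- The data of the base orbit in the new coordinate. -/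
theorem nu_step (a b : K[X]) {α β γ δ : K} (hΔ : α * δ - β * γ ≠ 0)
    (P : K × K) (hD : ∀ t, α * (porb a b P t).2 - γ * (porb a b P t).1 ≠ 0) (t : ℕ) :
    (cB (max a.natDegree b.natDegree) a b α β γ δ).eval (nu α β γ δ (porb a b P t)) ≠ 0 ∧
    (cB (max a.natDegree b.natDegree) a b α β γ δ).eval (nu α β γ δ (porb a b P t)) *
      nu α β γ δ (porb a b P (t + 1)) =
    (cA (max a.natDegree b.natDegree) a b α β γ δ).eval (nu α β γ δ (porb a b P t)) := by
  set e := max a.natDegree b.natDegree with he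
  have h1 := nu_pt (α := α) (β := β) (γ := γ) (δ := δ) (P := porb a b P t) (hD t)
  set s := (α * δ - β * γ) / (α * (porb a b P t).2 - γ * (porb a b P t).1) with hs
  have hs0 : s ≠ 0 := div_ne_zero hΔ (hD t)
  have h2 : porb a b P (t + 1) = (form e a (porb a b P t), form e b (porb a b P t)) := rfl
  have h3 : (cB e a b α β γ δ).eval (nu α β γ δ (porb a b P t)) =
      s ^ e * (α * (porb a b P (t + 1)).2 - γ * (porb a b P (t + 1)).1) := by
    rw [cB_eval, h1, form_smul, form_smul, h2]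
    ring
  have h4 : (cA e a b α β γ δ).eval (nu α β γ δ (porb a b P t)) =
      s ^ e * (δ * (porb a b P (t + 1)).1 - β * (porb a b P (t + 1)).2) := by
    rw [cA_eval, h1, form_smul, form_smul, h2]
    ring
  refine ⟨by rw [h3]; exact mul_ne_zero (pow_ne_zero _ hs0) (hD (t + 1)), ?_⟩
  rw [h3, h4]
  unfold nu
  rw [mul_assoc, mul_div_cancel₀ _ (hD (t + 1))]

theorem exists_fixed [IsAlgClosed K] (a b : K[X]) :
    ∃ P : K × K, P ≠ 0 ∧ Same (form (max a.natDegree b.natDegree) a P,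
      form (max a.natDegree b.natDegree) b P) P := by
  set e := max a.natDegree b.natDegree with hedef
  by_cases h0 : b.coeff e = 0
  · refine ⟨(1, 0), fun h => one_ne_zero (congrArg Prod.fst h), ?_⟩
    unfold Same
    rw [form_infinity, form_infinity, h0]
    simp
  · have h1 : (X * b - a : K[X]).coeff (e + 1) ≠ 0 := by
      rw [coeff_sub, coeff_X_mul, coeff_eq_zero_of_natDegree_lt
        (Nat.lt_succ_of_le (le_max_left a.natDegree b.natDegree)), sub_zero]
      exact h0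
    have h2 : (X * b - a : K[X]).degree ≠ 0 := by
      intro h
      apply h1
      refine coeff_eq_zero_of_degree_lt ?_
      rw [h]
      exact_mod_cast Nat.succ_pos e
    obtain ⟨r, hr⟩ := IsAlgClosed.exists_root _ h2
    refine ⟨(r, 1), fun h => one_ne_zero (congrArg Prod.snd h), ?_⟩
    have h3 : r * b.eval r - a.eval r = 0 := by
      have := hr
      rw [IsRoot.def, Polynomial.eval_sub, eval_mul, eval_X] at this
      exact this
    unfold Same
    have h4 := form_eq e a (le_max_left _ _) r 1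
    have h5 := form_eq e b (le_max_right _ _) r 1
    rw [one_mul, one_pow, one_mul] at h4 h5
    rw [h4, h5]
    linear_combination - h3

theorem exists_compl (P : K × K) (hP : P ≠ 0) : ∃ β δ : K, P.1 * δ - β * P.2 = 1 := by
  by_cases h : P.1 = 0
  · have h2 : P.2 ≠ 0 := fun h2 => hP (Prod.ext h h2)
    exact ⟨-(P.2)⁻¹, 0, by rw [mul_zero, neg_mul, inv_mul_cancel₀ h2]; ring⟩
  · exact ⟨0, (P.1)⁻¹, by rw [mul_inv_cancel₀ h, zero_mul, sub_zero]⟩

/-- The fibre map over the point `P` is constant or not defined. -/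
def Contracted (m : ℕ) (a b : K[X][X]) (P : K × K) : Prop :=
  wr (fibre m a P) (fibre m b P) = 0

theorem wandering_proj [CharZero K] [IsAlgClosed K] (halg : Algebra.IsAlgebraic ℚ K)
    (a₀ b₀ : K[X]) (a₁ b₁ : K[X][X]) (hco : IsCoprime a₀ b₀)
    (hd : 1 ≤ max a₀.natDegree b₀.natDegree) (m : ℕ)
    (hma : ∀ j, (a₁.coeff j).natDegree ≤ m) (hmb : ∀ j, (b₁.coeff j).natDegree ≤ m)
    (hco1 : IsCoprime (a₁.map (algebraMap K[X] (RatFunc K)))
      (b₁.map (algebraMap K[X] (RatFunc K))))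
    (hd1 : 2 ≤ max a₁.natDegree b₁.natDegree) (κ : K × K) (hκ : κ ≠ 0)
    (hcr : form (2 * max a₀.natDegree b₀.natDegree - 2) (wr a₀ b₀) κ = 0)
    (hκw : ¬ Preper a₀ b₀ κ)
    (hNC : ∀ β, β ≠ 0 → Contracted m a₁ b₁ β → Preper a₀ b₀ β) : HasDense a₀ b₀ a₁ b₁ := by
  classical
  set e := max a₀.natDegree b₀.natDegree with he
  obtain ⟨⟨α, γ⟩, hF, hfix⟩ := exists_fixed a₀ b₀
  obtain ⟨β, δ, hΔ1⟩ := exists_compl _ hF
  dsimp only at hΔ1
  have hΔ : α * δ - β * γ ≠ 0 := by rw [hΔ1]; exact one_ne_zero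
  have hne := porb_ne a₀ b₀ hco κ hκ
  have hD : ∀ t, α * (porb a₀ b₀ κ t).2 - γ * (porb a₀ b₀ κ t).1 ≠ 0 := by
    intro t h0
    apply hκw
    have h1 : Same (porb a₀ b₀ κ t) (α, γ) := by
      unfold Same
      dsimp only
      linear_combination - h0
    refine ⟨t, t + 1, Nat.lt_succ_self t, ?_⟩
    exact (h1.trans (hne t) hF (form_pair_ne a₀ b₀ hco _ hF) hfix.symm).trans (hne t)
      (form_pair_ne a₀ b₀ hco _ hF) (hne (t + 1)) (Same.image (hne t) hF h1).symm
  refine transport a₀ b₀ a₁ b₁ e m (le_max_left _ _) (le_max_right _ _) hma hmb α β γ δ hΔ ?_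
  have hl := lin_ne hΔ
  have hl' := lin_ne' hΔ
  refine fun G hG => wandering K halg _ _ _ _ (cAB_coprime a₀ b₀ hco hΔ)
    (cAB_lt a₀ b₀ hco hd hΔ hfix) (fun t => nu α β γ δ (porb a₀ b₀ κ t)) ?_
    (fun t => (nu_step a₀ b₀ hΔ κ hD t).1) (fun t => (nu_step a₀ b₀ hΔ κ hD t).2) ?_
    (homX_coprime m _ _ hl hl' a₁ b₁ hma hmb hco1) ?_ ?_ G hG
  · intro i j hij
    by_contra hne'
    apply hκw
    have h1 := (nu_eq_iff hΔ (hD i) (hD j)).mp hij
    rcases lt_or_gt_of_ne hne' with h2 | h2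
    · exact ⟨i, j, h2, h1⟩
    · exact ⟨j, i, h2, h1.symm⟩
  · have h1 := nu_pt (α := α) (β := β) (γ := γ) (δ := δ) (P := κ) (hD 0)
    rw [cAB_wr a₀ b₀ hd hΔ]
    change _ * form _ _ (α * nu α β γ δ κ + β, γ * nu α β γ δ κ + δ) = 0
    rw [h1, form_smul, hcr, mul_zero, mul_zero]
  · rw [homX_natDegree m _ _ hl hl' a₁ hma, homX_natDegree m _ _ hl hl' b₁ hmb]
    exact hd1
  · intro x hx
    rw [wr_map, homX_map, homX_map] at hx
    simp only [eval_add, eval_mul, eval_C, eval_X] at hx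
    exact finiteOrbit_of a₀ b₀ hco hΔ x (hNC _ (pt_ne hΔ x) hx)

/-- The orbit of `Q` in the fibres over the orbit of `P`. -/
noncomputable def forb (a₀ b₀ : K[X]) (m : ℕ) (a₁ b₁ : K[X][X]) (P Q : K × K) : ℕ → K × K
  | 0 => Q
  | t + 1 => (form (max a₁.natDegree b₁.natDegree) (fibre m a₁ (porb a₀ b₀ P t))
        (forb a₀ b₀ m a₁ b₁ P Q t),
      form (max a₁.natDegree b₁.natDegree) (fibre m b₁ (porb a₀ b₀ P t))
        (forb a₀ b₀ m a₁ b₁ P Q t))

theorem form_C_mul (e : ℕ) (c : K) (q : K[X]) (P : K × K) :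
    form e (C c * q) P = c * form e q P := by
  unfold form
  rw [Finset.mul_sum]
  refine Finset.sum_congr rfl fun i _ => ?_
  rw [coeff_C_mul]
  ring

theorem wr_C_mul (c : K) (a b : K[X]) : wr (C c * a) (C c * b) = C (c ^ 2) * wr a b := by
  unfold wr
  rw [derivative_C_mul, derivative_C_mul, C_pow]
  ring

theorem periodic_proj [CharZero K] [IsAlgClosed K] (halg : Algebra.IsAlgebraic ℚ K)
    (a₀ b₀ : K[X]) (a₁ b₁ : K[X][X]) (hco : IsCoprime a₀ b₀)
    (hd : 2 ≤ max a₀.natDegree b₀.natDegree) (m : ℕ)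
    (hma : ∀ j, (a₁.coeff j).natDegree ≤ m) (hmb : ∀ j, (b₁.coeff j).natDegree ≤ m)
    (κ : K × K) (hκ : κ ≠ 0)
    (hcr : form (2 * max a₀.natDegree b₀.natDegree - 2) (wr a₀ b₀) κ = 0)
    (n : ℕ) (hn : 0 < n) (hper : Same κ (porb a₀ b₀ κ n))
    (hNC : ∀ t, ¬ Contracted m a₁ b₁ (porb a₀ b₀ κ t))
    (hid : ∀ S, 0 < S → n ∣ S → ∃ Q, ¬ Same Q (forb a₀ b₀ m a₁ b₁ κ Q S)) :
    HasDense a₀ b₀ a₁ b₁ := by
  classical
  have hd' : 1 ≤ max a₀.natDegree b₀.natDegree := le_trans (by norm_num) hd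
  have hne := porb_ne a₀ b₀ hco κ hκ
  have hperS : ∀ t, Same (porb a₀ b₀ κ (t + n)) (porb a₀ b₀ κ t) := by
    intro t
    have h1 := porb_same_add a₀ b₀ hco κ hκ n 0 hper.symm t
    rwa [zero_add, add_comm n t] at h1
  -- the choice of the coordinate
  have hfin : (Set.range fun t => (porb a₀ b₀ κ t).1 / (porb a₀ b₀ κ t).2).Finite := by
    refine finite_range_of_eq _ 0 n hn fun t => ?_
    obtain ⟨s, hs, h1⟩ := (hperS t).exists_smul (hne _) (hne _)
    rw [zero_add, add_comm n t, h1]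
    exact (mul_div_mul_left _ _ hs).symm
  obtain ⟨α, -, hα⟩ := Set.infinite_univ.exists_notMem_finite hfin
  obtain ⟨β, γ, δ, hβ, hγ, hδ⟩ : ∃ β γ δ : K, β = -1 ∧ γ = 1 ∧ δ = 0 := ⟨_, _, _, rfl, rfl, rfl⟩
  have hΔ : α * δ - β * γ ≠ 0 := by
    rw [hβ, hγ, hδ]
    simp
  have hD : ∀ t, α * (porb a₀ b₀ κ t).2 - γ * (porb a₀ b₀ κ t).1 ≠ 0 := by
    intro t h0
    rw [hγ, one_mul] at h0
    by_cases h2 : (porb a₀ b₀ κ t).2 = 0
    · rw [h2, mul_zero, zero_sub, neg_eq_zero] at h0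
      exact hne t (Prod.ext h0 h2)
    · apply hα
      refine ⟨t, ?_⟩
      dsimp only
      rw [div_eq_iff h2]
      linear_combination - h0
  refine transport a₀ b₀ a₁ b₁ _ m (le_max_left _ _) (le_max_right _ _) hma hmb α β γ δ hΔ ?_
  have hl := lin_ne hΔ
  have hl' := lin_ne' hΔ
  have hfib : ∀ (u : K[X][X]) (t : ℕ), (homX m (C α * X + C β) (C γ * X + C δ) u).map
      (evalRingHom (nu α β γ δ (porb a₀ b₀ κ t))) =
      C (((α * δ - β * γ) / (α * (porb a₀ b₀ κ t).2 - γ * (porb a₀ b₀ κ t).1)) ^ m) *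
        fibre m u (porb a₀ b₀ κ t) := by
    intro u t
    rw [homX_map]
    simp only [eval_add, eval_mul, eval_C, eval_X]
    rw [nu_pt (hD t), fibre_smul]
  refine fun G hG => periodic K halg _ _ _ _ (cAB_coprime a₀ b₀ hco hΔ)
    ?_ n hn (fun t => nu α β γ δ (porb a₀ b₀ κ t)) (fun t => ?_)
    (fun t => (nu_step a₀ b₀ hΔ κ hD t).1) (fun t => (nu_step a₀ b₀ hΔ κ hD t).2) ?_
    (fun t => ?_) (fun S hS hnS => ?_) G hG
  · rw [cAB_max a₀ b₀ hco hΔ]
    exact hd
  · exact (nu_eq_iff hΔ (hD _) (hD _)).mpr (hperS t)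
  · have h1 := nu_pt (α := α) (β := β) (γ := γ) (δ := δ) (P := κ) (hD 0)
    rw [cAB_wr a₀ b₀ hd' hΔ]
    change _ * form _ _ (α * nu α β γ δ κ + β, γ * nu α β γ δ κ + δ) = 0
    rw [h1, form_smul, hcr, mul_zero, mul_zero]
  · rw [wr_map, hfib, hfib, wr_C_mul]
    exact mul_ne_zero (by
      rw [Ne, C_eq_zero]
      exact pow_ne_zero _ (pow_ne_zero _ (div_ne_zero hΔ (hD t)))) (hNC t)
  · rw [homX_natDegree m _ _ hl hl' a₁ hma, homX_natDegree m _ _ hl hl' b₁ hmb]
    obtain ⟨Q, hQ⟩ := hid S hS hnS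
    -- the orbit in the new coordinate
    let Q' : ℕ → K × K := fun t => Nat.rec Q (fun t z =>
      (form (max a₁.natDegree b₁.natDegree) ((homX m (C α * X + C β) (C γ * X + C δ) a₁).map
        (evalRingHom (nu α β γ δ (porb a₀ b₀ κ t)))) z,
      form (max a₁.natDegree b₁.natDegree) ((homX m (C α * X + C β) (C γ * X + C δ) b₁).map
        (evalRingHom (nu α β γ δ (porb a₀ b₀ κ t)))) z)) t
    have hQ' : ∀ t, ∃ c, c ≠ 0 ∧ Q' t = (c * (forb a₀ b₀ m a₁ b₁ κ Q t).1,
        c * (forb a₀ b₀ m a₁ b₁ κ Q t).2) := by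
      intro t
      induction t with
      | zero => exact ⟨1, one_ne_zero, by simp [Q', forb]⟩
      | succ t ih =>
        obtain ⟨c, hc, h1⟩ := ih
        set s := ((α * δ - β * γ) / (α * (porb a₀ b₀ κ t).2 - γ * (porb a₀ b₀ κ t).1)) ^ m
          with hs
        have hs0 : s ≠ 0 := pow_ne_zero _ (div_ne_zero hΔ (hD t))
        refine ⟨s * c ^ (max a₁.natDegree b₁.natDegree), mul_ne_zero hs0 (pow_ne_zero _ hc), ?_⟩
        have h2 : Q' (t + 1) = (form (max a₁.natDegree b₁.natDegree)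
            ((homX m (C α * X + C β) (C γ * X + C δ) a₁).map
            (evalRingHom (nu α β γ δ (porb a₀ b₀ κ t)))) (Q' t),
          form (max a₁.natDegree b₁.natDegree)
            ((homX m (C α * X + C β) (C γ * X + C δ) b₁).map
            (evalRingHom (nu α β γ δ (porb a₀ b₀ κ t)))) (Q' t)) := rfl
        rw [h2, hfib, hfib, form_C_mul, form_C_mul, h1, form_smul, form_smul]
        simp only [forb]
        ext
        · dsimp only
          ring
        · dsimp only
          ring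
    refine comp_ne_of_infinite _ _ _ Q' (fun t => rfl) S ?_
    intro hcon
    apply hQ
    obtain ⟨c, hc, h1⟩ := hQ' S
    rw [h1] at hcon
    have h2 : Same (1 * Q.1, 1 * Q.2) (c * (forb a₀ b₀ m a₁ b₁ κ Q S).1,
        c * (forb a₀ b₀ m a₁ b₁ κ Q S).2) := by
      rw [one_mul, one_mul]
      exact hcon
    exact same_of_smul one_ne_zero hc h2

end Change

end Pool.Agent.MP_b6294e_wc
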