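import Pool.Agent.Lib.MP_b6294e_wc.Local

/-!
# A critical orbit that returns near its starting point stays away from a curve
-/

set_option linter.style.haveILetI false

namespace Pool.Agent.MP_b6294e_wc

open Polynomial Pool.Agent.MP_b6294e

section DVR

variable {A : Type*} [CommRing A] [IsDomain A] [IsDiscreteValuationRing A]

theorem notMem_mul {a b : A} {r s : ℕ} (ha : a ∉ IsLocalRing.maximalIdeal A ^ r)
    (hb : b ∉ IsLocalRing.maximalIdeal A ^ s) : a * b ∉ IsLocalRing.maximalIdeal A ^ (r + s) := by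
  obtain ⟨ϖ, hϖ⟩ := IsDiscreteValuationRing.exists_irreducible A
  have hm : ∀ (j : ℕ) (z : A), z ∈ IsLocalRing.maximalIdeal A ^ j ↔ ϖ ^ j ∣ z := by
    intro j z
    rw [hϖ.maximalIdeal_eq, Ideal.span_singleton_pow, Ideal.mem_span_singleton]
  have ha0 : a ≠ 0 := fun h => ha (h ▸ Ideal.zero_mem _)
  have hb0 : b ≠ 0 := fun h => hb (h ▸ Ideal.zero_mem _)
  obtain ⟨i, u, rfl⟩ := IsDiscreteValuationRing.eq_unit_mul_pow_irreducible ha0 hϖ
  obtain ⟨j, v, rfl⟩ := IsDiscreteValuationRing.eq_unit_mul_pow_irreducible hb0 hϖ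
  rw [hm] at ha hb ⊢
  intro h
  have hi : i < r := by
    by_contra hcon
    exact ha (Dvd.dvd.mul_left (pow_dvd_pow ϖ (not_lt.mp hcon)) _)
  have hj : j < s := by
    by_contra hcon
    exact hb (Dvd.dvd.mul_left (pow_dvd_pow ϖ (not_lt.mp hcon)) _)
  have h1 : (u : A) * ϖ ^ i * (v * ϖ ^ j) = (u * v : Aˣ) * ϖ ^ (i + j) := by
    rw [Units.val_mul, pow_add]
    ring
  rw [h1, Units.dvd_mul_left] at h
  have h2 := (pow_dvd_pow_iff hϖ.ne_zero hϖ.not_isUnit).mp h
  omega

theorem notMem_pow {a : A} {r : ℕ} (ha : a ∉ IsLocalRing.maximalIdeal A ^ r) (j : ℕ) :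
    a ^ j ∉ IsLocalRing.maximalIdeal A ^ (r * j + 1) := by
  induction j with
  | zero =>
    rw [pow_zero, mul_zero, zero_add, pow_one]
    exact fun h => (IsLocalRing.mem_maximalIdeal _).mp h isUnit_one
  | succ j ih =>
    have h1 := notMem_mul ih ha
    rw [← pow_succ] at h1
    rwa [show r * (j + 1) + 1 = r * j + 1 + r by ring]

theorem exists_notMem {a : A} (ha : a ≠ 0) : ∃ r, a ∉ IsLocalRing.maximalIdeal A ^ r := by
  by_contra hcon
  push Not at hcon
  apply ha
  have h3 : a ∈ ⨅ s : ℕ, IsLocalRing.maximalIdeal A ^ s := by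
    rw [Submodule.mem_iInf]
    exact hcon
  rwa [Ideal.iInf_pow_eq_bot_of_isLocalRing _ (IsLocalRing.maximalIdeal.isMaximal A).ne_top,
    Ideal.mem_bot] at h3

theorem notMem_mono {a : A} {r s : ℕ} (h : r ≤ s) (ha : a ∉ IsLocalRing.maximalIdeal A ^ r) :
    a ∉ IsLocalRing.maximalIdeal A ^ s := fun h1 => ha (Ideal.pow_le_pow_right h h1)

end DVR

section Contract

variable {A : Type*} [CommRing A] [IsLocalRing A]

/-- Two orbits over the same base orbit approach each other. -/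
theorem contract (a b : A[X][X]) (x Z Y : ℕ → A) (n : ℕ) (hn : 0 < n)
    (hbZ : ∀ t, IsUnit (b.evalEval (x t) (Z t)))
    (hsZ : ∀ t, b.evalEval (x t) (Z t) * Z (t + 1) = a.evalEval (x t) (Z t))
    (hbY : ∀ t, IsUnit (b.evalEval (x t) (Y t)))
    (hsY : ∀ t, b.evalEval (x t) (Y t) * Y (t + 1) = a.evalEval (x t) (Y t))
    (hcrit : ∀ j, (wr a b).evalEval (x (j * n)) (Y (j * n)) ∈ IsLocalRing.maximalIdeal A)
    (hclose : Z 0 - Y 0 ∈ IsLocalRing.maximalIdeal A) :
    ∀ j t, j * n ≤ t → Z t - Y t ∈ IsLocalRing.maximalIdeal A ^ j := by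
  have hD1 : ∀ (I : Ideal A) (t : ℕ), Z t - Y t ∈ I → Z (t + 1) - Y (t + 1) ∈ I := by
    intro I t h
    obtain ⟨c, hc⟩ := pair₂ a b (x t) (Z t) (Y t) _ _ (hsZ t) (hsY t)
    exact mem_of_unit_mul (hbZ t) (hbY t) hc (Ideal.mul_mem_right _ _ h)
  have hDs : ∀ (I : Ideal A) (t s : ℕ), Z t - Y t ∈ I → Z (t + s) - Y (t + s) ∈ I := by
    intro I t s h
    induction s with
    | zero => exact h
    | succ s ih => exact hD1 I _ ih
  have hm : ∀ t, Z t - Y t ∈ IsLocalRing.maximalIdeal A := fun t => by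
    have := hDs _ 0 t hclose
    rwa [zero_add] at this
  have hDn : ∀ j, Z (j * n) - Y (j * n) ∈ IsLocalRing.maximalIdeal A ^ j := by
    intro j
    induction j with
    | zero => rw [pow_zero, Ideal.one_eq_top]; exact Submodule.mem_top
    | succ j ih =>
      obtain ⟨c, hc⟩ := pair₂ a b (x (j * n)) (Z (j * n)) (Y (j * n)) _ _ (hsZ _) (hsY _)
      have h1 : Z (j * n + 1) - Y (j * n + 1) ∈ IsLocalRing.maximalIdeal A ^ (j + 1) := by
        refine mem_of_unit_mul (hbZ _) (hbY _) hc ?_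
        rw [pow_succ]
        exact Ideal.mul_mem_mul ih (Ideal.add_mem _ (hcrit j) (Ideal.mul_mem_left _ _ (hm _)))
      obtain ⟨n', hn'⟩ : ∃ n', n = n' + 1 := ⟨n - 1, by omega⟩
      have h2 := hDs _ (j * n + 1) n' h1
      rw [show j * n + 1 + n' = (j + 1) * n by rw [hn']; ring] at h2
      exact h2
  intro j t ht
  obtain ⟨r, rfl⟩ := Nat.exists_eq_add_of_le ht
  exact hDs _ _ r (hDn j)

/-- An orbit that starts near another orbit stays near it. -/
theorem shadow (a b : A[X][X]) (x Y : ℕ → A) (y : A) (e : ℕ) (he : e ≠ 0)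
    (hbY : ∀ t, IsUnit (b.evalEval (x t) (Y t)))
    (hsY : ∀ t, b.evalEval (x t) (Y t) * Y (t + 1) = a.evalEval (x t) (Y t))
    (hy : y - Y 0 ∈ IsLocalRing.maximalIdeal A ^ e) (Z : ℕ → A) (hZ0 : Z 0 = y)
    (hZs : ∀ t, Z (t + 1) = a.evalEval (x t) (Z t) * Ring.inverse (b.evalEval (x t) (Z t))) :
    (∀ t, IsUnit (b.evalEval (x t) (Z t))) ∧
    (∀ t, b.evalEval (x t) (Z t) * Z (t + 1) = a.evalEval (x t) (Z t)) ∧
    ∀ t, Z t - Y t ∈ IsLocalRing.maximalIdeal A ^ e := by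
  have hzero : ∀ t, x t - x t ∈ IsLocalRing.maximalIdeal A ^ e := fun t => by
    rw [sub_self]; exact Ideal.zero_mem _
  have hbu : ∀ t, Z t - Y t ∈ IsLocalRing.maximalIdeal A ^ e →
      IsUnit (b.evalEval (x t) (Z t)) := fun t h =>
    isUnit_of_congr he (hbY t) (congr_evalEval _ b (hzero t) h)
  have hst : ∀ t, IsUnit (b.evalEval (x t) (Z t)) →
      b.evalEval (x t) (Z t) * Z (t + 1) = a.evalEval (x t) (Z t) := by
    intro t h
    rw [hZs, mul_left_comm, Ring.mul_inverse_cancel _ h, mul_one]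
  have hclose : ∀ t, Z t - Y t ∈ IsLocalRing.maximalIdeal A ^ e := by
    intro t
    induction t with
    | zero => rw [hZ0]; exact hy
    | succ t ih =>
      obtain ⟨c, hc⟩ := pair₂ a b (x t) (Z t) (Y t) _ _ (hst t (hbu t ih)) (hsY t)
      exact mem_of_unit_mul (hbu t ih) (hbY t) hc (Ideal.mul_mem_right _ _ ih)
  exact ⟨fun t => hbu t (hclose t), fun t => hst t (hbu t (hclose t)), hclose⟩

end Contract

section ND

variable {A : Type*} [CommRing A] [IsDomain A] [IsDiscreteValuationRing A]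

/-- The critical orbit stays away from the curve `Q = 0`. -/
theorem nd (a b Q : A[X][X]) (ξ c : ℕ → A) (n : ℕ) (hn : 0 < n) (hξ : ∀ t, ξ (t + n) = ξ t)
    (hb : ∀ t, IsUnit (b.evalEval (ξ t) (c t)))
    (hs : ∀ t, b.evalEval (ξ t) (c t) * c (t + 1) = a.evalEval (ξ t) (c t))
    (hcn : ∀ t, c (t + n) - c t ∈ IsLocalRing.maximalIdeal A)
    (hcrit : ∀ j, (wr a b).evalEval (ξ (j * n)) (c (j * n)) ∈ IsLocalRing.maximalIdeal A)
    (R : ℕ → Multiset A) (l : ℕ → A) (hl : ∀ i, l i ≠ 0)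
    (hR : ∀ i (y : A), Q.evalEval (ξ i) y = l i * ((R i).map fun ρ => y - ρ).prod)
    (hZ : ∀ i, ∀ ρ ∈ R i, ∀ z : ℕ → A, z 0 = ρ →
      (∀ s, IsUnit (b.evalEval (ξ (i + s)) (z s))) →
      (∀ s, b.evalEval (ξ (i + s)) (z s) * z (s + 1) = a.evalEval (ξ (i + s)) (z s)) →
      z n = ρ → ∀ s, (i + s) % n = 0 → z s - c 0 ∉ IsLocalRing.maximalIdeal A) :
    ∃ e T, ∀ t, T ≤ t → Q.evalEval (ξ t) (c t) ∉ IsLocalRing.maximalIdeal A ^ e := by
  classical
  have hξ' : ∀ t j, ξ (t + j * n) = ξ t := by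
    intro t j
    induction j with
    | zero => simp
    | succ j ih => rw [show t + (j + 1) * n = (t + j * n) + n by ring, hξ, ih]
  have hξm : ∀ t s, ξ (t + s) = ξ (t % n + s) := by
    intro t s
    have h1 := hξ' (t % n + s) (t / n)
    rw [← h1]
    congr 1
    have h2 := Nat.mod_add_div t n
    rw [mul_comm] at h2
    omega
  have hc0 : ∀ j, c (j * n) - c 0 ∈ IsLocalRing.maximalIdeal A := by
    intro j
    induction j with
    | zero => rw [zero_mul, sub_self]; exact Ideal.zero_mem _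
    | succ j ih =>
      have h1 := Ideal.add_mem _ (hcn (j * n)) ih
      rwa [sub_add_sub_cancel, show j * n + n = (j + 1) * n by ring] at h1
  have hcon : ∀ j t, j * n ≤ t → c (t + n) - c t ∈ IsLocalRing.maximalIdeal A ^ j := by
    refine contract a b ξ (fun t => c (t + n)) c n hn ?_ ?_ hb hs hcrit (hcn 0)
    · intro t
      rw [← hξ t]
      exact hb (t + n)
    · intro t
      have h1 := hs (t + n)
      rw [hξ t, show t + n + 1 = t + 1 + n by ring] at h1
      exact h1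
  have claim : ∀ i, i < n → ∀ ρ ∈ R i, ∃ e T, ∀ t, T ≤ t → t % n = i →
      c t - ρ ∉ IsLocalRing.maximalIdeal A ^ e := by
    intro i hi ρ hρ
    by_contra hno
    push Not at hno
    obtain ⟨z, hz0, hzs⟩ : ∃ z : ℕ → A, z 0 = ρ ∧ ∀ s, z (s + 1) =
        a.evalEval (ξ (i + s)) (z s) * Ring.inverse (b.evalEval (ξ (i + s)) (z s)) :=
      ⟨fun t => Nat.rec ρ (fun s z => a.evalEval (ξ (i + s)) z *
        Ring.inverse (b.evalEval (ξ (i + s)) z)) t, rfl, fun t => rfl⟩
    have hsh : ∀ e, e ≠ 0 → ∀ t, t % n = i → c t - ρ ∈ IsLocalRing.maximalIdeal A ^ e →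
        (∀ s, IsUnit (b.evalEval (ξ (i + s)) (z s))) ∧
        (∀ s, b.evalEval (ξ (i + s)) (z s) * z (s + 1) = a.evalEval (ξ (i + s)) (z s)) ∧
        ∀ s, z s - c (t + s) ∈ IsLocalRing.maximalIdeal A ^ e := by
      intro e he t ht hct
      refine shadow a b (fun s => ξ (i + s)) (fun s => c (t + s)) ρ e he ?_ ?_ ?_ z hz0 hzs
      · intro s
        rw [← ht, ← hξm]
        exact hb (t + s)
      · intro s
        rw [← ht, ← hξm]
        exact hs (t + s)
      · rw [← neg_sub]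
        exact (Ideal.neg_mem_iff _).mpr hct
    obtain ⟨t₁, -, ht₁, hct₁⟩ := hno 1 0
    obtain ⟨h1, h2, h3⟩ := hsh 1 one_ne_zero t₁ ht₁ hct₁
    have hzn : z n = ρ := by
      by_contra hne
      obtain ⟨r, hr⟩ := exists_notMem (sub_ne_zero.mpr hne)
      obtain ⟨t, ht, hti, hct⟩ := hno (r + 1) ((r + 1) * n)
      obtain ⟨-, -, h6⟩ := hsh (r + 1) (Nat.succ_ne_zero r) t hti hct
      apply notMem_mono (Nat.le_succ r) hr
      have h7 := Ideal.add_mem _ (Ideal.add_mem _ (h6 n) (hcon (r + 1) t ht)) hct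
      rwa [sub_add_sub_cancel, sub_add_sub_cancel] at h7
    set s := n - i with hsdef
    have hs0 : (i + s) % n = 0 := by
      rw [hsdef, Nat.add_sub_cancel' hi.le, Nat.mod_self]
    apply hZ i ρ hρ z hz0 h1 h2 hzn s hs0
    have h8 : (t₁ + s) % n = 0 := by
      rw [Nat.add_mod, ht₁, ← Nat.add_mod_mod] at *
      simpa using hs0
    obtain ⟨q, hq⟩ := Nat.dvd_of_mod_eq_zero h8
    have h9 := h3 s
    rw [pow_one, hq, mul_comm] at h9
    have h10 := Ideal.add_mem _ h9 (hc0 q)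
    rwa [sub_add_sub_cancel] at h10
  -- assemble
  have claim2 : ∀ i, i < n → ∃ e T, ∀ t, T ≤ t → t % n = i →
      Q.evalEval (ξ t) (c t) ∉ IsLocalRing.maximalIdeal A ^ e := by
    intro i hi
    have h1 : ∀ S : Multiset A, (∀ ρ ∈ S, ρ ∈ R i) → ∃ e T, ∀ t, T ≤ t → t % n = i →
        (S.map fun ρ => c t - ρ).prod ∉ IsLocalRing.maximalIdeal A ^ e := by
      intro S
      induction S using Multiset.induction_on with
      | empty =>
        intro _
        refine ⟨1, 0, fun t _ _ => ?_⟩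
        rw [Multiset.map_zero, Multiset.prod_zero, pow_one]
        exact fun h => (IsLocalRing.mem_maximalIdeal _).mp h isUnit_one
      | cons ρ S ih =>
        intro hS
        obtain ⟨e, T, h⟩ := ih fun ρ hρ => hS ρ (Multiset.mem_cons_of_mem hρ)
        obtain ⟨e', T', h'⟩ := claim i hi ρ (hS ρ (Multiset.mem_cons_self _ _))
        refine ⟨e' + e, max T T', fun t ht hti => ?_⟩
        rw [Multiset.map_cons, Multiset.prod_cons]
        exact notMem_mul (h' t (le_trans (le_max_right _ _) ht) hti)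
          (h t (le_trans (le_max_left _ _) ht) hti)
    obtain ⟨e, T, h⟩ := h1 (R i) fun _ h => h
    obtain ⟨r, hr⟩ := exists_notMem (hl i)
    refine ⟨r + e, T, fun t ht hti => ?_⟩
    have h2 := hξm t 0
    rw [add_zero, hti, add_zero] at h2
    rw [h2, hR]
    exact notMem_mul hr (h t ht hti)
  choose! e T h using claim2
  refine ⟨∑ i ∈ Finset.range n, e i, ∑ i ∈ Finset.range n, T i, fun t ht => ?_⟩
  have hi : t % n ∈ Finset.range n := Finset.mem_range.mpr (Nat.mod_lt _ hn)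
  refine notMem_mono ?_ (h (t % n) (Finset.mem_range.mp hi) t (le_trans ?_ ht) rfl)
  · exact Finset.single_le_sum (f := e) (fun _ _ => Nat.zero_le _) hi
  · exact Finset.single_le_sum (f := T) (fun _ _ => Nat.zero_le _) hi

end ND

end Pool.Agent.MP_b6294e_wc
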