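import Pool.Agent.Lib.MP_b6294e_wc.HomComp

/-!
# A composition that starts with a rational function of degree at least 2 is not the identity
-/

set_option linter.style.haveILetI false

namespace Pool.Agent.MP_b6294e_wc

open Polynomial

section NonId

variable {F : Type*} [Field F]

theorem aeval_mem_field (E : IntermediateField F (RatFunc F)) (w : F[X]) (φ : RatFunc F)
    (h : φ ∈ E) : aeval φ w ∈ E := by
  have h1 : aeval φ w = ((aeval (⟨φ, h⟩ : E) w : E) : RatFunc F) := by
    rw [← IntermediateField.coe_val, ← aeval_algHom_apply]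
    rfl
  rw [h1]
  exact SetLike.coe_mem _

theorem hom_algebraMap (D : ℕ) (w α β : F[X]) (hD : w.natDegree ≤ D) (hβ : β ≠ 0) :
    algebraMap F[X] (RatFunc F) (hom D w α β) = algebraMap F[X] (RatFunc F) β ^ D *
      aeval (algebraMap F[X] (RatFunc F) α / algebraMap F[X] (RatFunc F) β) w := by
  have hβ' : algebraMap F[X] (RatFunc F) β ≠ 0 := RatFunc.algebraMap_ne_zero hβ
  unfold hom
  rw [map_sum, aeval_eq_sum_range' (n := D + 1) (Nat.lt_succ_iff.mpr hD), Finset.mul_sum]
  refine Finset.sum_congr rfl fun j hj => ?_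
  have hj' := Nat.lt_succ_iff.mp (Finset.mem_range.mp hj)
  set β' := algebraMap F[X] (RatFunc F) β with hβ'def
  set α' := algebraMap F[X] (RatFunc F) α with hα'def
  have h2 : β' ^ D = β' ^ j * β' ^ (D - j) := by
    rw [← pow_add, Nat.add_sub_cancel' hj']
  have h3 : β' ^ j ≠ 0 := pow_ne_zero _ hβ'
  have h4 : β' ^ j * (α' ^ j / β' ^ j) = α' ^ j := by
    rw [← mul_div_assoc, mul_comm, mul_div_assoc, div_self h3, mul_one]
  have h5 : algebraMap F[X] (RatFunc F) (C (w.coeff j)) = algebraMap F (RatFunc F) (w.coeff j) := by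
    rw [IsScalarTower.algebraMap_apply F F[X] (RatFunc F), Polynomial.algebraMap_eq]
  rw [map_mul, map_mul, map_pow, map_pow, h5, Algebra.smul_def, div_pow, h2]
  linear_combination (-(algebraMap F (RatFunc F) (w.coeff j) * β' ^ (D - j))) * h4

theorem max_natDegree_le_one (p q : F[X]) (hq : q ≠ 0) (hco : IsCoprime p q)
    (h : (RatFunc.X : RatFunc F) ∈
      IntermediateField.adjoin F {algebraMap F[X] (RatFunc F) p / algebraMap F[X] (RatFunc F) q}) :
    max p.natDegree q.natDegree = 1 := by
  set f : RatFunc F := algebraMap F[X] (RatFunc F) p / algebraMap F[X] (RatFunc F) q with hf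
  have hq' : algebraMap F[X] (RatFunc F) q ≠ 0 := RatFunc.algebraMap_ne_zero hq
  have htop : IntermediateField.adjoin F {f} = ⊤ := by
    rw [eq_top_iff, ← RatFunc.adjoin_X, IntermediateField.adjoin_le_iff]
    intro z hz
    rw [Set.mem_singleton_iff] at hz
    rw [hz]
    exact h
  have h1 := RatFunc.finrank_eq_max_natDegree f
  rw [htop, IntermediateField.finrank_top] at h1
  have hd' : algebraMap F[X] (RatFunc F) f.denom ≠ 0 := RatFunc.algebraMap_ne_zero f.denom_ne_zero
  have h2 : p * f.denom = f.num * q := by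
    apply RatFunc.algebraMap_injective F
    have h3 := RatFunc.num_div_denom f
    have h4 : algebraMap F[X] (RatFunc F) f.num = f * algebraMap F[X] (RatFunc F) f.denom := by
      rw [div_eq_iff hd'] at h3
      exact h3
    have h5 : algebraMap F[X] (RatFunc F) p = f * algebraMap F[X] (RatFunc F) q := by
      rw [hf, div_mul_cancel₀ _ hq']
    rw [map_mul, map_mul, h4, h5]
    ring
  have hcof := RatFunc.isCoprime_num_denom f
  have ha1 : p ∣ f.num := hco.dvd_of_dvd_mul_right ⟨_, h2.symm⟩
  have ha2 : f.num ∣ p := hcof.dvd_of_dvd_mul_right ⟨_, h2⟩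
  have hb1 : q ∣ f.denom := hco.symm.dvd_of_dvd_mul_left ⟨f.num, by rw [h2]; ring⟩
  have hb2 : f.denom ∣ q := hcof.symm.dvd_of_dvd_mul_left ⟨p, by rw [← h2]; ring⟩
  have e1 : p.natDegree = f.num.natDegree :=
    natDegree_eq_of_degree_eq (degree_eq_degree_of_associated (associated_of_dvd_dvd ha1 ha2))
  have e2 : q.natDegree = f.denom.natDegree :=
    natDegree_eq_of_degree_eq (degree_eq_degree_of_associated (associated_of_dvd_dvd hb1 hb2))
  rw [e1, e2, ← h1]

variable [IsAlgClosed F]

theorem nonid (D : ℕ) (p q : ℕ → F[X]) (hp : ∀ t, (p t).natDegree ≤ D)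
    (hq : ∀ t, (q t).natDegree ≤ D) (hq0 : ∀ t, q t ≠ 0) (hc : ∀ t c, p t ≠ C c * q t)
    (hco : IsCoprime (p 0) (q 0)) (hdeg : 2 ≤ max (p 0).natDegree (q 0).natDegree) (S : ℕ)
    (hS : 0 < S) : (comp D p q S).1 ≠ X * (comp D p q S).2 := by
  intro hcon
  set f : RatFunc F := algebraMap F[X] (RatFunc F) (p 0) / algebraMap F[X] (RatFunc F) (q 0)
    with hf
  have hne := fun s => (comp_ne D p q hp hq hq0 hc s).1
  have hmem : ∀ s, algebraMap F[X] (RatFunc F) (comp D p q (s + 1)).1 /
      algebraMap F[X] (RatFunc F) (comp D p q (s + 1)).2 ∈ IntermediateField.adjoin F {f} := by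
    intro s
    induction s with
    | zero =>
      have h1 : comp D p q (0 + 1) = (p 0, q 0) := by
        simp only [comp, zero_add]
        rw [hom_X_one D _ (hp 0), hom_X_one D _ (hq 0)]
      rw [h1]
      exact IntermediateField.mem_adjoin_simple_self F f
    | succ s ih =>
      have hβ := hne (s + 1)
      have hβ' : algebraMap F[X] (RatFunc F) (comp D p q (s + 1)).2 ^ D ≠ 0 :=
        pow_ne_zero _ (RatFunc.algebraMap_ne_zero hβ)
      have h1 : algebraMap F[X] (RatFunc F) (comp D p q (s + 1 + 1)).1 /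
          algebraMap F[X] (RatFunc F) (comp D p q (s + 1 + 1)).2 =
          aeval (algebraMap F[X] (RatFunc F) (comp D p q (s + 1)).1 /
            algebraMap F[X] (RatFunc F) (comp D p q (s + 1)).2) (p (s + 1)) /
          aeval (algebraMap F[X] (RatFunc F) (comp D p q (s + 1)).1 /
            algebraMap F[X] (RatFunc F) (comp D p q (s + 1)).2) (q (s + 1)) := by
        have h2 : comp D p q (s + 1 + 1) =
            (hom D (p (s + 1)) (comp D p q (s + 1)).1 (comp D p q (s + 1)).2,
              hom D (q (s + 1)) (comp D p q (s + 1)).1 (comp D p q (s + 1)).2) := rfl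
        rw [h2]
        dsimp only
        rw [hom_algebraMap D _ _ _ (hp _) hβ, hom_algebraMap D _ _ _ (hq _) hβ,
          mul_div_mul_left _ _ hβ']
      rw [h1]
      exact div_mem (aeval_mem_field _ _ _ ih) (aeval_mem_field _ _ _ ih)
  obtain ⟨s, rfl⟩ : ∃ s, S = s + 1 := ⟨S - 1, by omega⟩
  have h1 := hmem s
  rw [hcon, map_mul, mul_div_assoc, div_self (RatFunc.algebraMap_ne_zero (hne _)), mul_one,
    RatFunc.algebraMap_X] at h1
  have h2 := max_natDegree_le_one (p 0) (q 0) (hq0 0) hco h1
  omega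

end NonId

end Pool.Agent.MP_b6294e_wc
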