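import Pool.Agent.Lib.MP_b6294e_wc.Attr
import Pool.Agent.Lib.MP_b6294e_wc.NonId
import Pool.Agent.Lib.MP_b6294e_wc.Assemble

/-!
# Dense orbits over an attracted base orbit, from a residual orbit
-/

set_option linter.style.haveILetI false

namespace Pool.Agent.MP_b6294e_wc

open Polynomial Pool.Agent.MP_b6294e

theorem evalEval_map_C {A : Type*} [CommRing A] (q : A[X]) (x y : A) :
    (q.map C).evalEval x y = q.eval y := by
  unfold evalEval
  rw [eval_map, eval₂_at_apply, eval_C]

section Attracted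

variable {A : Type*} [CommRing A] [IsDomain A] [IsDiscreteValuationRing A]

/-- A base orbit that returns to its starting point modulo the maximal ideal, through a critical
point, converges to a cycle. -/
theorem attracted (a₀ b₀ : A[X]) (n : ℕ) (hn : 0 < n) (X : ℕ → A)
    (hXb : ∀ t, IsUnit (b₀.eval (X t))) (hX : ∀ t, b₀.eval (X t) * X (t + 1) = a₀.eval (X t))
    (hXn : X n - X 0 ∈ IsLocalRing.maximalIdeal A)
    (hcr : ∀ j, (wr a₀ b₀).eval (X (j * n)) ∈ IsLocalRing.maximalIdeal A) :
    ∀ s : ℕ, ∃ T, ∀ t, T ≤ t → X (t + n) - X t ∈ IsLocalRing.maximalIdeal A ^ s := by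
  intro s
  refine ⟨s * n, fun t ht => ?_⟩
  have hmap : wr (a₀.map C) (b₀.map C) = ((wr a₀ b₀).map C : A[X][X]) := (map_wr _ _ _).symm
  refine contract (a₀.map C) (b₀.map C) (fun _ => 0) (fun t => X (t + n)) X n hn
    (fun t => by rw [evalEval_map_C]; exact hXb _)
    (fun t => by
      rw [evalEval_map_C, evalEval_map_C, show t + 1 + n = t + n + 1 by ring]
      exact hX _)
    (fun t => by rw [evalEval_map_C]; exact hXb _)
    (fun t => by rw [evalEval_map_C, evalEval_map_C]; exact hX _)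
    (fun j => by rw [hmap, evalEval_map_C]; exact hcr j)
    (by simpa only [zero_add] using hXn) s t ht

end Attracted

section Limit

variable {A : Type*} [CommRing A] [IsDomain A] [IsDiscreteValuationRing A]

/-- Over a base orbit that converges to a cycle, the compositions of the fibre maps are not close
to the identity if they are not the identity over the cycle. -/
theorem notId_of_limit (a₀ b₀ : A[X]) (a₁ b₁ : A[X][X]) (D n : ℕ) (hn : 0 < n) (X Ξ : ℕ → A)
    (hXb : ∀ t, IsUnit (b₀.eval (X t))) (hX : ∀ t, b₀.eval (X t) * X (t + 1) = a₀.eval (X t))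
    (hΞb : ∀ t, IsUnit (b₀.eval (Ξ t))) (hΞ : ∀ t, b₀.eval (Ξ t) * Ξ (t + 1) = a₀.eval (Ξ t))
    (hΞn : ∀ t, Ξ (t + n) = Ξ t) (hcr : (wr a₀ b₀).eval (Ξ 0) = 0)
    (h0 : X 0 - Ξ 0 ∈ IsLocalRing.maximalIdeal A)
    (hid : ∀ S, 0 < S → n ∣ S → (comp D (fun i => a₁.map (evalRingHom (Ξ i)))
      (fun i => b₁.map (evalRingHom (Ξ i))) S).1 ≠ Polynomial.X *
        (comp D (fun i => a₁.map (evalRingHom (Ξ i))) (fun i => b₁.map (evalRingHom (Ξ i))) S).2) :
    ∀ S, 0 < S → n ∣ S → ∃ s, ∀ T, ∃ t, T ≤ t ∧ ∃ i,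
      ((comp D (fun i => a₁.map (evalRingHom (X (t + i))))
        (fun i => b₁.map (evalRingHom (X (t + i)))) S).1 - Polynomial.X *
        (comp D (fun i => a₁.map (evalRingHom (X (t + i))))
          (fun i => b₁.map (evalRingHom (X (t + i)))) S).2).coeff i ∉
        IsLocalRing.maximalIdeal A ^ s := by
  intro S hS hnS
  have h1 := hid S hS hnS
  rw [← sub_ne_zero] at h1
  obtain ⟨i, hi⟩ : ∃ i, ((comp D (fun i => a₁.map (evalRingHom (Ξ i)))
      (fun i => b₁.map (evalRingHom (Ξ i))) S).1 - Polynomial.X *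
        (comp D (fun i => a₁.map (evalRingHom (Ξ i)))
          (fun i => b₁.map (evalRingHom (Ξ i))) S).2).coeff i ≠ 0 := by
    by_contra hcon
    push Not at hcon
    exact h1 (Polynomial.ext fun i => by rw [hcon, coeff_zero])
  obtain ⟨s, hs⟩ := exists_notMem hi
  have hΞj : ∀ j t, Ξ (n * j + t) = Ξ t := by
    intro j t
    induction j with
    | zero => simp
    | succ j ih => rw [show n * (j + 1) + t = n * j + t + n by ring, hΞn, ih]
  have hmap : wr (a₀.map C) (b₀.map C) = ((wr a₀ b₀).map C : A[X][X]) := (map_wr _ _ _).symm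
  have hconv : ∀ t, s * n ≤ t → X t - Ξ t ∈ IsLocalRing.maximalIdeal A ^ s := by
    intro t ht
    refine contract (a₀.map C) (b₀.map C) (fun _ => 0) X Ξ n hn
      (fun t => by rw [evalEval_map_C]; exact hXb _)
      (fun t => by rw [evalEval_map_C, evalEval_map_C]; exact hX _)
      (fun t => by rw [evalEval_map_C]; exact hΞb _)
      (fun t => by rw [evalEval_map_C, evalEval_map_C]; exact hΞ _)
      (fun j => by
        rw [hmap, evalEval_map_C, show j * n = n * j + 0 by ring, hΞj, hcr]
        exact Ideal.zero_mem _)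
      h0 s t ht
  refine ⟨s, fun T => ⟨n * (T + s), ?_, i, fun hcon => hs ?_⟩⟩
  · have := Nat.mul_le_mul_right (T + s) hn
    omega
  · have hle : s * n ≤ n * (T + s) := by
      rw [mul_comm]
      exact Nat.mul_le_mul_left _ (Nat.le_add_left _ _)
    let ρ : A →+* A ⧸ IsLocalRing.maximalIdeal A ^ s := Ideal.Quotient.mk _
    have hcomm : ∀ (u : A[X][X]) (x : A), (u.map (evalRingHom x)).map ρ =
        (u.map (mapRingHom ρ)).map (evalRingHom (ρ x)) := by
      intro u x
      ext i
      rw [coeff_map, coeff_map, coeff_map, coeff_map, coe_evalRingHom, coe_evalRingHom,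
        coe_mapRingHom, eval_map']
    have hρ : ∀ i', ρ (X (n * (T + s) + i')) = ρ (Ξ i') := by
      intro i'
      rw [← hΞj (T + s) i']
      exact Ideal.Quotient.eq.mpr (hconv _ (by omega))
    have e2 : ∀ u : A[X][X], (fun i' => (u.map (evalRingHom (X (n * (T + s) + i')))).map ρ) =
        fun i' => (u.map (evalRingHom (Ξ i'))).map ρ := by
      intro u
      funext i'
      rw [hcomm, hcomm, hρ]
    have e1 : ((comp D (fun i => a₁.map (evalRingHom (X (n * (T + s) + i))))
        (fun i => b₁.map (evalRingHom (X (n * (T + s) + i)))) S).1 - Polynomial.X *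
        (comp D (fun i => a₁.map (evalRingHom (X (n * (T + s) + i))))
          (fun i => b₁.map (evalRingHom (X (n * (T + s) + i)))) S).2).map ρ =
        ((comp D (fun i => a₁.map (evalRingHom (Ξ i))) (fun i => b₁.map (evalRingHom (Ξ i))) S).1 -
        Polynomial.X * (comp D (fun i => a₁.map (evalRingHom (Ξ i)))
          (fun i => b₁.map (evalRingHom (Ξ i))) S).2).map ρ := by
      rw [Polynomial.map_sub, Polynomial.map_sub, Polynomial.map_mul, Polynomial.map_mul,
        Polynomial.map_X, (comp_map ρ D _ _ S).1, (comp_map ρ D _ _ S).2, (comp_map ρ D _ _ S).1,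
        (comp_map ρ D _ _ S).2, e2, e2]
    have e3 := congrArg (fun p => p.coeff i) e1
    simp only [coeff_map] at e3
    rw [Ideal.Quotient.eq_zero_iff_mem.mpr hcon] at e3
    exact Ideal.Quotient.eq_zero_iff_mem.mp e3.symm

end Limit

section PartB

variable {A : Type*} [CommRing A] [IsDomain A] [IsDiscreteValuationRing A] [CharZero A]
  {K : Type*} [Field K] {F : Type*} [Field F] [IsAlgClosed F]

omit [CharZero A] in
/-- Over a base orbit with a periodic reduction, the compositions of the fibre maps are not the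
identity modulo the maximal ideal if one of them has degree at least 2. -/
theorem notId_of_residue (ρ : A →+* F) (hρ : ∀ z, z ∈ IsLocalRing.maximalIdeal A ↔ ρ z = 0)
    (a₁ b₁ : A[X][X]) (n : ℕ) (hn : 0 < n) (X : ℕ → A) (hper : ∀ t, ρ (X (t + n)) = ρ (X t))
    (p q : ℕ → F[X])
    (hp : ∀ t, p t = (a₁.map (mapRingHom ρ)).map (evalRingHom (ρ (X t))))
    (hq : ∀ t, q t = (b₁.map (mapRingHom ρ)).map (evalRingHom (ρ (X t))))
    (hwr0 : ∀ t, wr (p t) (q t) ≠ 0)
    (t₁ : ℕ) (hco : IsCoprime (p t₁) (q t₁)) (hdeg : 2 ≤ max (p t₁).natDegree (q t₁).natDegree) :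
    ∀ S, 0 < S → n ∣ S → ∃ s, ∀ T, ∃ t, T ≤ t ∧ ∃ i,
      ((comp (max a₁.natDegree b₁.natDegree) (fun i => a₁.map (evalRingHom (X (t + i))))
        (fun i => b₁.map (evalRingHom (X (t + i)))) S).1 - Polynomial.X *
        (comp (max a₁.natDegree b₁.natDegree) (fun i => a₁.map (evalRingHom (X (t + i))))
          (fun i => b₁.map (evalRingHom (X (t + i)))) S).2).coeff i ∉
        IsLocalRing.maximalIdeal A ^ s := by
  have hq0 : ∀ t, q t ≠ 0 := by
    intro t h
    apply hwr0 t
    rw [h]
    simp [wr]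
  have hc : ∀ t c, p t ≠ C c * q t := by
    intro t c h
    apply hwr0 t
    rw [h]
    unfold wr
    rw [derivative_C_mul]
    ring
  set D := max a₁.natDegree b₁.natDegree with hD
  have hpn : ∀ t, p (t + n) = p t := fun t => by rw [hp, hp, hper]
  have hqn : ∀ t, q (t + n) = q t := fun t => by rw [hq, hq, hper]
  have hpn' : ∀ t j, p (t + n * j) = p t := by
    intro t j
    induction j with
    | zero => simp
    | succ j ih => rw [show t + n * (j + 1) = t + n * j + n by ring, hpn, ih]
  have hqn' : ∀ t j, q (t + n * j) = q t := by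
    intro t j
    induction j with
    | zero => simp
    | succ j ih => rw [show t + n * (j + 1) = t + n * j + n by ring, hqn, ih]
  have hpD : ∀ t, (p t).natDegree ≤ D := fun t => by
    rw [hp]
    exact natDegree_map_le.trans (natDegree_map_le.trans (le_max_left _ _))
  have hqD : ∀ t, (q t).natDegree ≤ D := fun t => by
    rw [hq]
    exact natDegree_map_le.trans (natDegree_map_le.trans (le_max_right _ _))
  have hcomm : ∀ (u : A[X][X]) (x : A), (u.map (evalRingHom x)).map ρ =
      (u.map (mapRingHom ρ)).map (evalRingHom (ρ x)) := by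
    intro u x
    ext i
    rw [coeff_map, coeff_map, coeff_map, coeff_map, coe_evalRingHom, coe_evalRingHom,
      coe_mapRingHom, eval_map']
  intro S hS hnS
  refine ⟨1, fun T => ⟨t₁ + n * T, ?_, ?_⟩⟩
  · have := Nat.mul_le_mul_right T hn
    omega
  · by_contra hcon
    push Not at hcon
    set t := t₁ + n * T with ht
    have e1 : ((comp D (fun i => a₁.map (evalRingHom (X (t + i))))
        (fun i => b₁.map (evalRingHom (X (t + i)))) S).1 - Polynomial.X *
        (comp D (fun i => a₁.map (evalRingHom (X (t + i))))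
          (fun i => b₁.map (evalRingHom (X (t + i)))) S).2).map ρ = 0 := by
      ext i
      rw [coeff_map, coeff_zero]
      have := hcon i
      rw [pow_one] at this
      exact (hρ _).mp this
    rw [Polynomial.map_sub, Polynomial.map_mul, Polynomial.map_X,
      (comp_map ρ D _ _ S).1, (comp_map ρ D _ _ S).2] at e1
    have e2 : (fun i => (a₁.map (evalRingHom (X (t + i)))).map ρ) = fun i => p (t + i) := by
      funext i
      rw [hcomm, hp]
    have e3 : (fun i => (b₁.map (evalRingHom (X (t + i)))).map ρ) = fun i => q (t + i) := by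
      funext i
      rw [hcomm, hq]
    rw [e2, e3, sub_eq_zero] at e1
    refine nonid D (fun i => p (t + i)) (fun i => q (t + i)) (fun i => hpD _)
      (fun i => hqD _) (fun i => hq0 _) (fun i c => hc _ c) ?_ ?_ S hS e1
    · rw [add_zero, ht, hpn', hqn']
      exact hco
    · rw [add_zero, ht, hpn', hqn']
      exact hdeg

omit [IsAlgClosed F] in
theorem partB (hfin : ∀ s, Finite (A ⧸ IsLocalRing.maximalIdeal A ^ s))
    (ι : A →+* K) (hι : Function.Injective ι) (ρ : A →+* F)
    (hρ : ∀ z, z ∈ IsLocalRing.maximalIdeal A ↔ ρ z = 0)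
    (a₀ b₀ : A[X]) (a₁ b₁ G : A[X][X]) (n : ℕ) (hn : 0 < n) (X : ℕ → A)
    (hXb : ∀ t, IsUnit (b₀.eval (X t))) (hX : ∀ t, b₀.eval (X t) * X (t + 1) = a₀.eval (X t))
    (hXi : Function.Injective X) (hXn : X n - X 0 ∈ IsLocalRing.maximalIdeal A)
    (hcr : ∀ j, (wr a₀ b₀).eval (X (j * n)) ∈ IsLocalRing.maximalIdeal A)
    (Y₀ : A) (yb : ℕ → F) (h0 : ρ Y₀ = yb 0) (p q : ℕ → F[X])
    (hp : ∀ t, p t = (a₁.map (mapRingHom ρ)).map (evalRingHom (ρ (X t))))
    (hq : ∀ t, q t = (b₁.map (mapRingHom ρ)).map (evalRingHom (ρ (X t))))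
    (hs : ∀ t, (q t).eval (yb t) * yb (t + 1) = (p t).eval (yb t))
    (hqy : ∀ t, (q t).eval (yb t) ≠ 0)
    (hΛ : ∀ t, (wr (p t) (q t) *
      (G.map (mapRingHom ρ)).map (evalRingHom (ρ (X t)))).eval (yb t) ≠ 0)
    (hNI : ∀ S, 0 < S → n ∣ S → ∃ s, ∀ T, ∃ t, T ≤ t ∧ ∃ i,
      ((comp (max a₁.natDegree b₁.natDegree) (fun i => a₁.map (evalRingHom (X (t + i))))
        (fun i => b₁.map (evalRingHom (X (t + i)))) S).1 - Polynomial.X *
        (comp (max a₁.natDegree b₁.natDegree) (fun i => a₁.map (evalRingHom (X (t + i))))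
          (fun i => b₁.map (evalRingHom (X (t + i)))) S).2).coeff i ∉
        IsLocalRing.maximalIdeal A ^ s) :
    ∃ z : ℕ → A, Orb a₁ b₁ X z ∧ (∀ t, IsUnit (G.evalEval (X t) (z t))) ∧
      ∀ P : K[X][X], (∀ t, P.evalEval (ι (X t)) (ι (z t)) = 0) → P = 0 := by
  classical
  have hunit : ∀ z, ρ z ≠ 0 → IsUnit z := by
    intro z hz
    by_contra hcon
    exact hz ((hρ z).mp ((IsLocalRing.mem_maximalIdeal z).mpr hcon))
  have hunit' : ∀ z, IsUnit z → ρ z ≠ 0 := fun z hz => (hz.map ρ).ne_zero
  have hconv := attracted a₀ b₀ n hn X hXb hX hXn hcr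
  -- periodicity of the reduction of the base orbit
  have hper : ∀ t, ρ (X (t + n)) = ρ (X t) := by
    intro t
    induction t with
    | zero =>
      rw [zero_add, ← sub_eq_zero, ← map_sub]
      exact (hρ _).mp hXn
    | succ t ih =>
      have e1 := congrArg ρ (hX (t + n))
      have e2 := congrArg ρ (hX t)
      rw [map_mul, ← eval_map', ← eval_map', ih] at e1
      rw [map_mul, ← eval_map', ← eval_map'] at e2
      have e3 : (b₀.map ρ).eval (ρ (X t)) ≠ 0 := by
        rw [eval_map']
        exact hunit' _ (hXb t)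
      rw [show t + 1 + n = t + n + 1 by ring]
      exact mul_left_cancel₀ e3 (e1.trans e2.symm)
  have hevp : ∀ t y, (p t).eval (ρ y) = ρ (a₁.evalEval (X t) y) := by
    intro t y
    rw [hp, ← evalEval_eq, evalEval_map']
  have hevq : ∀ t y, (q t).eval (ρ y) = ρ (b₁.evalEval (X t) y) := by
    intro t y
    rw [hq, ← evalEval_eq, evalEval_map']
  have hwr : ∀ t, wr (p t) (q t) =
      ((wr a₁ b₁).map (mapRingHom ρ)).map (evalRingHom (ρ (X t))) := by
    intro t
    rw [hp, hq, map_wr, map_wr]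
  -- the lifted orbit
  obtain ⟨Y, hY0, hYs⟩ : ∃ Y : ℕ → A, Y 0 = Y₀ ∧
      ∀ t, Y (t + 1) = a₁.evalEval (X t) (Y t) * Ring.inverse (b₁.evalEval (X t) (Y t)) :=
    ⟨fun t => Nat.rec Y₀ (fun t z => a₁.evalEval (X t) z * Ring.inverse (b₁.evalEval (X t) z)) t,
      rfl, fun t => rfl⟩
  have hYb : ∀ t, ρ (Y t) = yb t := by
    intro t
    induction t with
    | zero => rw [hY0, h0]
    | succ t ih =>
      have e1 : IsUnit (b₁.evalEval (X t) (Y t)) := by
        apply hunit
        rw [← hevq, ih]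
        exact hqy t
      have e2 : b₁.evalEval (X t) (Y t) * Y (t + 1) = a₁.evalEval (X t) (Y t) := by
        rw [hYs, mul_left_comm, Ring.mul_inverse_cancel _ e1, mul_one]
      have e3 := congrArg ρ e2
      rw [map_mul, ← hevq, ← hevp, ih, ← hs] at e3
      exact mul_left_cancel₀ (hqy t) e3
  have hYu : ∀ t, IsUnit (b₁.evalEval (X t) (Y t)) := by
    intro t
    apply hunit
    rw [← hevq, hYb]
    exact hqy t
  have hY : Orb a₁ b₁ X Y := by
    refine ⟨hYu, fun t => ?_⟩
    rw [hYs, mul_left_comm, Ring.mul_inverse_cancel _ (hYu t), mul_one]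
  have hW : ∀ t, IsUnit ((wr a₁ b₁).evalEval (X t) (Y t)) := by
    intro t
    apply hunit
    rw [← evalEval_map', evalEval_eq, ← hwr, hYb]
    have := hΛ t
    rw [eval_mul] at this
    exact left_ne_zero_of_mul this
  have hG : ∀ t, ρ (G.evalEval (X t) (Y t)) ≠ 0 := by
    intro t
    rw [← evalEval_map', evalEval_eq, hYb]
    have := hΛ t
    rw [eval_mul] at this
    exact right_ne_zero_of_mul this
  obtain ⟨z, hz, hzY, hzP⟩ := dense_of_attracting hfin ι hι a₁ b₁ _ (le_max_left _ _)
    (le_max_right _ _) X Y hXi n hn hconv hY hW hNI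
  refine ⟨z, hz, fun t => ?_, hzP⟩
  refine isUnit_of_congr one_ne_zero (hunit _ (hG t)) ?_
  rw [pow_one]
  refine congr_evalEval _ G ?_ (hzY t)
  rw [sub_self]
  exact Ideal.zero_mem _

end PartB

end Pool.Agent.MP_b6294e_wc
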