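import Pool.Agent.Lib.MP_b6294e_ht.Bez
import Pool.Agent.Lib.MP_b6294e_ht.Ht

/-!
# The valuation ring of a finite place of a number field, and escape of orbits in the base
-/

set_option linter.style.haveILetI false

namespace Pool.Agent.MP_b6294e_wc

open NumberField NumberField.FinitePlace Height Polynomial IsDedekindDomain

variable {k : Type*} [Field k] [NumberField k]

/-- The valuation ring of a finite place. -/
noncomputable abbrev Ow (w : FinitePlace k) : Subring k :=
  ((w.maximalIdeal).valuation k).integer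

theorem val_le_one (w : FinitePlace k) (x : k) :
    (w.maximalIdeal).valuation k x ≤ 1 ↔ w x ≤ 1 := by
  rw [← norm_embedding_eq w x, FinitePlace.norm_embedding', ← NNReal.coe_one, NNReal.coe_le_coe,
    WithZeroMulInt.toNNReal_le_one_iff (HeightOneSpectrum.one_lt_absNorm_nnreal _)]

theorem val_lt_one (w : FinitePlace k) (x : k) :
    (w.maximalIdeal).valuation k x < 1 ↔ w x < 1 := by
  rw [← norm_embedding_eq w x, FinitePlace.norm_embedding', ← NNReal.coe_one, NNReal.coe_lt_coe,
    WithZeroMulInt.toNNReal_lt_one_iff (HeightOneSpectrum.one_lt_absNorm_nnreal _)]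

theorem mem_Ow (w : FinitePlace k) (x : k) : x ∈ Ow w ↔ w x ≤ 1 := by
  rw [← val_le_one]
  rfl

theorem mem_max (w : FinitePlace k) (x : Ow w) :
    x ∈ IsLocalRing.maximalIdeal (Ow w) ↔ w (x : k) < 1 := by
  rw [← val_lt_one, IsLocalRing.mem_maximalIdeal, mem_nonunits_iff,
    (Valuation.integer.integers ((w.maximalIdeal).valuation k)).isUnit_iff_valuation_eq_one]
  have h1 : (w.maximalIdeal).valuation k (x : k) ≤ 1 := x.2
  exact ⟨fun h => lt_of_le_of_ne h1 h, fun h => h.ne⟩

theorem finite_residue (w : FinitePlace k) :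
    Finite (Ow w ⧸ IsLocalRing.maximalIdeal (Ow w)) := by
  haveI : Finite (𝓞 k ⧸ (w.maximalIdeal).asIdeal) :=
    (w.maximalIdeal).asIdeal.finiteQuotientOfFreeOfNeBot (w.maximalIdeal).ne_bot
  have hint : ∀ r : 𝓞 k, (algebraMap (𝓞 k) k r) ∈ Ow w := fun r =>
    (w.maximalIdeal).valuation_le_one r
  let φ : 𝓞 k → Ow w ⧸ IsLocalRing.maximalIdeal (Ow w) := fun r =>
    Ideal.Quotient.mk _ ⟨algebraMap (𝓞 k) k r, hint r⟩
  have hφ : ∀ r r' : 𝓞 k, Ideal.Quotient.mk (w.maximalIdeal).asIdeal r =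
      Ideal.Quotient.mk (w.maximalIdeal).asIdeal r' → φ r = φ r' := by
    intro r r' h
    rw [Ideal.Quotient.eq] at h
    refine Ideal.Quotient.eq.mpr ?_
    rw [mem_max, ← val_lt_one]
    have h1 := ((w.maximalIdeal).valuation_lt_one_iff_mem (K := k) (r - r')).mpr h
    exact h1
  let ψ : (𝓞 k ⧸ (w.maximalIdeal).asIdeal) → Ow w ⧸ IsLocalRing.maximalIdeal (Ow w) :=
    Quotient.lift φ (fun r r' h => hφ r r' (Quotient.sound h))
  refine Finite.of_surjective ψ ?_
  intro y
  obtain ⟨⟨x, hx⟩, rfl⟩ := Ideal.Quotient.mk_surjective y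
  obtain ⟨r, hr⟩ := (w.maximalIdeal).exists_valuation_sub_lt_of_integer (K := k) hx 1
  refine ⟨Ideal.Quotient.mk _ r, ?_⟩
  change φ r = _
  refine Ideal.Quotient.eq.mpr ?_
  rw [mem_max, ← val_lt_one]
  simpa using hr

theorem finite_quot (w : FinitePlace k) (s : ℕ) :
    Finite (Ow w ⧸ IsLocalRing.maximalIdeal (Ow w) ^ s) := by
  haveI := finite_residue w
  exact Ideal.finite_quotient_pow (IsNoetherian.noetherian _) s

/-- For a finite set of numbers, all but finitely many places make the nonzero ones units. -/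
theorem exists_places (T : Set k) (hT : T.Finite) :
    ∃ S₀ : Finset (FinitePlace k), ∀ v : FinitePlace k, v ∉ S₀ → ∀ x ∈ T, x ≠ 0 → v x = 1 := by
  classical
  have h1 : ({v : FinitePlace k | ∃ x ∈ T, x ≠ 0 ∧ v x ≠ 1}).Finite := by
    have h2 : {v : FinitePlace k | ∃ x ∈ T, x ≠ 0 ∧ v x ≠ 1} ⊆
        ⋃ x ∈ T, {v : FinitePlace k | x ≠ 0 ∧ v x ≠ 1} := by
      rintro v ⟨x, hx, h⟩
      exact Set.mem_iUnion₂.mpr ⟨x, hx, h⟩
    refine (hT.biUnion fun x _ => ?_).subset h2
    by_cases hx : x = 0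
    · simp [hx]
    · exact (FinitePlace.hasFiniteMulSupport hx).subset fun v hv => hv.2
  refine ⟨h1.toFinset, fun v hv x hx hx0 => ?_⟩
  by_contra hne
  exact hv (h1.mem_toFinset.mpr ⟨x, hx, hx0, hne⟩)

/-- Orbits of a rational function of degree at least 2 that start at a point of large height are
infinite. -/
theorem exists_escape (a b : k[X]) (hco : IsCoprime a b)
    (hd : 2 ≤ max a.natDegree b.natDegree) :
    ∃ B : ℝ, ∀ x : ℕ → k, (∀ t, b.eval (x t) ≠ 0) →
      (∀ t, b.eval (x t) * x (t + 1) = a.eval (x t)) → B < logHeight₁ (x 0) →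
      Function.Injective x := by
  obtain ⟨d, hd'⟩ : ∃ d, max a.natDegree b.natDegree = d + 1 :=
    ⟨_, (Nat.succ_pred_eq_of_pos (by omega)).symm⟩
  obtain ⟨u, v, hu, hv, huv⟩ := MP_b6294e_ht.bez a b d hco hd' 1 (by rw [natDegree_one]; omega)
  obtain ⟨u', v', hu', hv', huv'⟩ := MP_b6294e_ht.bez a b d hco hd' (X ^ (2 * d + 1))
    (by rw [natDegree_X_pow])
  let c : k →+* MvPolynomial (Fin 0) k := MvPolynomial.C
  obtain ⟨C, hC, hlow⟩ := MP_b6294e_ht.lower (R := k) (k := k) 0 d (a.map c) (b.map c) (u.map c)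
    (v.map c) (u'.map c) (v'.map c) 1
    (natDegree_map_le.trans hu) (natDegree_map_le.trans hv)
    (natDegree_map_le.trans hu') (natDegree_map_le.trans hv')
    (by rw [← Polynomial.map_mul, ← Polynomial.map_mul, ← Polynomial.map_add, huv,
      Polynomial.map_one, map_one])
    (by rw [← Polynomial.map_mul, ← Polynomial.map_mul, ← Polynomial.map_add, huv',
      Polynomial.map_pow, Polynomial.map_X, map_one, one_mul])
  have hEP : ∀ (p : k[X]) (x : ℕ → k) (y : k), MP_b6294e.EP x 0 (p.map c) y = p.eval y := by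
    intro p x y
    unfold MP_b6294e.EP
    rw [Polynomial.map_map]
    have h1 : ((MP_b6294e.E (R := k) x 0 : MvPolynomial (Fin 0) k →+* k).comp c) =
        RingHom.id k := by
      ext z
      simp [MP_b6294e.E, c]
    rw [h1, Polynomial.map_id]
  have hS : ∀ x : ℕ → k, MP_b6294e_ht.S x 0 = 1 := by
    intro x
    simp [MP_b6294e_ht.S]
  refine ⟨C, fun x hb hx h0 => ?_⟩
  have hdd : 1 ≤ d := by omega
  have hstep : ∀ t, 2 * logHeight₁ (x t) ≤ logHeight₁ (x (t + 1)) + C := by
    intro t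
    have h1 := hlow x (x t) (by rw [map_one]; exact one_ne_zero) (by rw [hEP]; exact hb t)
    rw [hEP, hEP, hS, mul_one, ← hx t, mul_div_cancel_left₀ _ (hb t)] at h1
    have h2 : 0 ≤ logHeight₁ (x t) := zero_le_logHeight₁ _
    have h3 : (1 : ℝ) ≤ d := by exact_mod_cast hdd
    nlinarith
  have hgt : ∀ t, C < logHeight₁ (x t) := by
    intro t
    induction t with
    | zero => exact h0
    | succ t ih => linarith [hstep t]
  have hmono : StrictMono fun t => logHeight₁ (x t) :=
    strictMono_nat_of_lt_succ fun t => by linarith [hstep t, hgt t]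
  intro t t' h
  exact hmono.injective (congrArg logHeight₁ h)

end Pool.Agent.MP_b6294e_wc
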