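import Pool.Agent.Lib.MP_b6294e_wc.Stage2
import Pool.Agent.Lib.MP_b6294e_wc.Final

/-!
# Algebraic preparations: contracted fibres, contents, coprime polynomials
-/

set_option linter.style.haveILetI false

namespace Pool.Agent.MP_b6294e_wc

open Polynomial Pool.Agent.MP_b6294e

universe u

section Poly

variable {K : Type u} [Field K]

/-- Split off the factor that depends only on the base coordinate. -/
theorem factor_all (G : K[X][X]) (hG : G ≠ 0) :
    ∃ (h : K[X]) (G' : K[X][X]), h ≠ 0 ∧ G = C h * G' ∧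
      ∀ x, G'.map (evalRingHom x) ≠ 0 := by
  classical
  obtain ⟨i, hi⟩ : ∃ i, G.coeff i ≠ 0 := by
    by_contra hcon
    push Not at hcon
    exact hG (Polynomial.ext fun i => by rw [hcon, coeff_zero])
  obtain ⟨h, G', hh, hGG, hG'⟩ := factor (G.coeff i).roots.toFinset G hG
  refine ⟨h, G', hh, hGG, fun x h0 => ?_⟩
  refine hG' x ?_ h0
  rw [Multiset.mem_toFinset, mem_roots hi, IsRoot.def]
  have h1 : G.map (evalRingHom x) = 0 := by
    rw [hGG, Polynomial.map_mul, h0, mul_zero]
  have h2 := congrArg (fun p => p.coeff i) h1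
  simpa only [coeff_map, coe_evalRingHom, coeff_zero] using h2

theorem bezout_coeff [IsAlgClosed K] (G : K[X][X]) (hG : ∀ x, G.map (evalRingHom x) ≠ 0) :
    ∃ c : ℕ →₀ K[X], (c.sum fun i a => a * G.coeff i) = 1 := by
  classical
  rw [← Finsupp.mem_ideal_span_range_iff_exists_finsupp, ← Ideal.eq_top_iff_one]
  by_contra hne
  obtain ⟨g, hg⟩ := (IsPrincipalIdealRing.principal (Ideal.span (Set.range G.coeff))).principal
  have hgu : ¬ IsUnit g := fun hu => hne (by
    rw [hg]
    exact Ideal.span_singleton_eq_top.mpr hu)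
  obtain ⟨x, hx⟩ : ∃ x, g.eval x = 0 := by
    by_cases hg0 : g = 0
    · exact ⟨0, by rw [hg0, eval_zero]⟩
    · have hd : g.degree ≠ 0 := by
        intro h0
        exact hgu (isUnit_iff_degree_eq_zero.mpr h0)
      exact IsAlgClosed.exists_root g hd
  apply hG x
  ext i
  rw [coeff_map, coeff_zero, coe_evalRingHom]
  have h1 : G.coeff i ∈ Ideal.span (Set.range G.coeff) := Ideal.subset_span ⟨i, rfl⟩
  rw [hg] at h1
  obtain ⟨a, ha⟩ := Ideal.mem_span_singleton.mp h1
  rw [ha, eval_mul, hx, zero_mul]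

theorem coprime_clear (a b : K[X][X])
    (h : IsCoprime (a.map (algebraMap K[X] (RatFunc K))) (b.map (algebraMap K[X] (RatFunc K)))) :
    ∃ (u v : K[X][X]) (c : K[X]), c ≠ 0 ∧ u * a + v * b = C c := by
  obtain ⟨u, v, huv⟩ := h
  obtain ⟨d, u', hd, hu'⟩ := clear₁ (A := K[X]) (RatFunc K) u
  obtain ⟨e, v', he, hv'⟩ := clear₁ (A := K[X]) (RatFunc K) v
  refine ⟨C e * u', C d * v', d * e, mul_ne_zero hd he, ?_⟩
  apply Polynomial.map_injective (algebraMap K[X] (RatFunc K)) (RatFunc.algebraMap_injective K)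
  rw [Polynomial.map_add, Polynomial.map_mul, Polynomial.map_mul, Polynomial.map_mul,
    Polynomial.map_mul, hu', hv', map_C, map_C, map_C, map_mul, C_mul]
  linear_combination C (algebraMap K[X] (RatFunc K) d) * C (algebraMap K[X] (RatFunc K) e) * huv

end Poly

section Val

variable {K : Type u} [Field K] (V : ValuationSubring K)

theorem one_notMem_nonunits : (1 : K) ∉ V.nonunits := by
  rw [ValuationSubring.mem_nonunits_iff, map_one]
  exact lt_irrefl _

theorem zero_mem_nonunits : (0 : K) ∈ V.nonunits := by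
  rw [ValuationSubring.mem_nonunits_iff, map_zero]
  exact zero_lt_one

theorem val_eq_one {z : K} (hz : z ∈ V) (hz' : z ∉ V.nonunits) : V.valuation z = 1 := by
  rw [ValuationSubring.mem_nonunits_iff, not_lt] at hz'
  exact le_antisymm ((V.valuation_le_one_iff z).mpr hz) hz'

theorem some_coeff (G : K[X][X]) (c : ℕ →₀ K[X]) (hc : (c.sum fun i a => a * G.coeff i) = 1)
    (Vc : ∀ i j, (c i).coeff j ∈ V) (z : K) (hz : z ∈ V) :
    ∃ i, (G.map (evalRingHom z)).coeff i ∉ V.nonunits := by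
  by_contra hcon
  push Not at hcon
  have h1 := congrArg (fun p => V.valuation (p.eval z)) hc
  simp only [Finsupp.sum, eval_finsetSum, eval_one, map_one, eval_mul] at h1
  refine absurd h1 (ne_of_lt ?_)
  refine V.valuation.map_sum_lt one_ne_zero fun i _ => ?_
  have h2 := hcon i
  rw [coeff_map, coe_evalRingHom, ValuationSubring.mem_nonunits_iff] at h2
  rw [map_mul]
  exact (mul_le_of_le_one_left' ((V.valuation_le_one_iff _).mpr
    (eval_mem' V (c i) (Vc i) hz))).trans_lt h2

theorem gauss (P Q : K[X]) (hP : ∀ i, P.coeff i ∈ V) (hQ : ∀ i, Q.coeff i ∈ V)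
    (hP' : ∃ i, P.coeff i ∉ V.nonunits) (hQ' : ∃ i, Q.coeff i ∉ V.nonunits) :
    ∃ i, (P * Q).coeff i ∉ V.nonunits := by
  let iV : V →+* K := V.subtype
  let ρ : V →+* IsLocalRing.ResidueField V := IsLocalRing.residue V
  have hρ : ∀ z : V, ρ z = 0 ↔ iV z ∈ V.nonunits := by
    intro z
    rw [ValuationSubring.mem_nonunits_iff]
    exact (IsLocalRing.residue_eq_zero_iff z).trans (V.valuation_lt_one_iff z)
  obtain ⟨P', hP1⟩ := lift_poly iV P fun i => ⟨⟨_, hP i⟩, rfl⟩
  obtain ⟨Q', hQ1⟩ := lift_poly iV Q fun i => ⟨⟨_, hQ i⟩, rfl⟩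
  have key : ∀ R : V[X], R.map ρ ≠ 0 ↔ ∃ i, (R.map iV).coeff i ∉ V.nonunits := by
    intro R
    rw [Ne, Polynomial.ext_iff]
    push Not
    refine exists_congr fun i => ?_
    rw [coeff_map, coeff_zero, Ne, hρ, coeff_map]
  rw [← hP1, ← hQ1, ← Polynomial.map_mul, ← key, Polynomial.map_mul]
  exact mul_ne_zero ((key P').mpr (by rw [hP1]; exact hP')) ((key Q').mpr (by rw [hQ1]; exact hQ'))

end Val

section Avoid

variable {K : Type u} [Field K]

/-- The forward orbit of `β` under `x ↦ a(x) / b(x)` on the projective line is finite; here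
infinity counts as a fixed point. -/
def FiniteOrbit (a b : K[X]) (β : K) : Prop :=
  ∃ o : ℕ → K, o 0 = β ∧ (∀ t, b.eval (o t) ≠ 0 → b.eval (o t) * o (t + 1) = a.eval (o t)) ∧
    ((∃ t, b.eval (o t) = 0) ∨ (Set.range o).Finite)

theorem avoid (V : ValuationSubring K) (a b : K[X]) (Va : ∀ i, a.coeff i ∈ V)
    (Vb : ∀ i, b.coeff i ∈ V) (κ o : ℕ → K) (n : ℕ) (hn : 0 < n) (hκ : Function.Injective κ)
    (hκV : ∀ t, κ t ∈ V) (hb : ∀ t, b.eval (κ t) ∉ V.nonunits)
    (h : ∀ t, b.eval (κ t) * κ (t + 1) = a.eval (κ t))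
    (hκn : ∀ t, κ (t + n) - κ t ∈ V.nonunits)
    (ho : ∀ t, b.eval (o t) ≠ 0 → b.eval (o t) * o (t + 1) = a.eval (o t))
    (hfin : (∃ t, b.eval (o t) = 0) ∨ (Set.range o).Finite)
    (hT : (Set.range o).Finite → ∀ t, κ 0 - o t ≠ 0 → κ 0 - o t ∉ V.nonunits) :
    ∀ t, κ t - o 0 ∉ V.nonunits := by
  intro t₀ hcon
  let iV : V →+* K := V.subtype
  have hiV : Function.Injective iV := Subtype.val_injective
  let ρ : V →+* IsLocalRing.ResidueField V := IsLocalRing.residue V
  have hρ : ∀ z : V, ρ z = 0 ↔ iV z ∈ V.nonunits := by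
    intro z
    rw [ValuationSubring.mem_nonunits_iff]
    exact (IsLocalRing.residue_eq_zero_iff z).trans (V.valuation_lt_one_iff z)
  have hunit : ∀ z : V, ρ z ≠ 0 → IsUnit z := by
    intro z hz
    by_contra hcon
    exact hz ((IsLocalRing.residue_eq_zero_iff z).mpr ((IsLocalRing.mem_maximalIdeal z).mpr hcon))
  obtain ⟨a', ha⟩ := lift_poly iV a fun i => ⟨⟨_, Va i⟩, rfl⟩
  obtain ⟨b', hb'⟩ := lift_poly iV b fun i => ⟨⟨_, Vb i⟩, rfl⟩
  let κ' : ℕ → V := fun t => ⟨κ t, hκV t⟩
  have hκ' : ∀ t, iV (κ' t) = κ t := fun t => rfl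
  have hκρ : ∀ t, ρ (b'.eval (κ' t)) ≠ 0 := by
    intro t h0
    rw [hρ, ← eval_map', hb'] at h0
    exact hb t h0
  have hκs : ∀ t, b'.eval (κ' t) * κ' (t + 1) = a'.eval (κ' t) := by
    intro t
    apply hiV
    rw [map_mul, ← eval_map', ← eval_map', ha, hb']
    exact h t
  have hb0 : ∀ t, b.eval (κ t) ≠ 0 := fun t h0 => hb t (by rw [h0]; exact zero_mem_nonunits V)
  have key : ∀ j, ∃ z : V, iV z = o j ∧ ρ z = ρ (κ' (t₀ + j)) := by
    intro j
    induction j with
    | zero =>
      have h1 : o 0 ∈ V := by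
        have h2 := sub_mem (hκV t₀) (V.nonunits_subset hcon)
        rwa [sub_sub_cancel] at h2
      refine ⟨⟨o 0, h1⟩, rfl, ?_⟩
      rw [eq_comm, ← sub_eq_zero, ← map_sub, hρ]
      exact hcon
    | succ j ih =>
      obtain ⟨z, hz, hzρ⟩ := ih
      have h1 : ρ (b'.eval z) = ρ (b'.eval (κ' (t₀ + j))) := by
        rw [← eval_map', hzρ, eval_map']
      have h2 : IsUnit (b'.eval z) := hunit _ (by rw [h1]; exact hκρ _)
      have h3 : b.eval (o j) ≠ 0 := by
        rw [← hz, ← hb', eval_map']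
        exact (h2.map iV).ne_zero
      have h4 : b'.eval z * (a'.eval z * Ring.inverse (b'.eval z)) = a'.eval z := by
        rw [mul_left_comm, Ring.mul_inverse_cancel _ h2, mul_one]
      refine ⟨a'.eval z * Ring.inverse (b'.eval z), ?_, ?_⟩
      · apply mul_left_cancel₀ h3
        rw [ho j h3]
        have h5 := congrArg iV h4
        rw [map_mul, ← eval_map', ← eval_map', ha, hb', hz] at h5
        exact h5
      · apply mul_left_cancel₀ (hκρ (t₀ + j))
        rw [← h1, ← map_mul, h4, h1, ← map_mul]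
        rw [show t₀ + (j + 1) = t₀ + j + 1 by ring, hκs, ← eval_map', ← eval_map', hzρ]
  have hbo : ∀ j, b.eval (o j) ≠ 0 := by
    intro j
    obtain ⟨z, hz, hzρ⟩ := key j
    have h1 : ρ (b'.eval z) = ρ (b'.eval (κ' (t₀ + j))) := by
      rw [← eval_map', hzρ, eval_map']
    have h2 : IsUnit (b'.eval z) := hunit _ (by rw [h1]; exact hκρ _)
    rw [← hz, ← hb', eval_map']
    exact (h2.map iV).ne_zero
  rcases hfin with ⟨t, ht⟩ | hf
  · exact hbo t ht
  · -- go to a multiple of the period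
    have hmul : ∀ m, ρ (κ' (m * n)) = ρ (κ' 0) := by
      intro m
      induction m with
      | zero => rw [zero_mul]
      | succ m ih =>
        rw [← ih, show (m + 1) * n = m * n + n by ring, ← sub_eq_zero, ← map_sub, hρ]
        exact hκn _
    obtain ⟨j, hj⟩ : ∃ j, t₀ + j = (t₀ + 1) * n := by
      have h1 : t₀ ≤ (t₀ + 1) * n := by nlinarith
      exact ⟨_, Nat.add_sub_cancel' h1⟩
    obtain ⟨z, hz, hzρ⟩ := key j
    rw [hj, hmul] at hzρ
    have h1 : κ 0 - o j ∈ V.nonunits := by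
      have h2 : ρ (κ' 0 - z) = 0 := by rw [map_sub, hzρ, sub_self]
      rw [hρ, map_sub, hz] at h2
      exact h2
    by_cases h2 : κ 0 - o j = 0
    · have h3 : ∀ i, κ i = o (j + i) := by
        intro i
        induction i with
        | zero => rw [add_zero]; exact sub_eq_zero.mp h2
        | succ i ih =>
          have h4 := ho (j + i) (hbo _)
          rw [← ih] at h4
          have h5 := h i
          exact mul_left_cancel₀ (hb0 i) (h5.trans h4.symm)
      have h4 : (Set.range κ).Finite := by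
        refine hf.subset ?_
        rintro _ ⟨i, rfl⟩
        exact ⟨j + i, (h3 i).symm⟩
      exact Set.infinite_range_of_injective hκ h4
    · exact hT hf j h2 h1

end Avoid

end Pool.Agent.MP_b6294e_wc
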