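import Pool.Agent.Lib.MP_b6294e_wc.Main2

/-!
# Forms in two variables and change of the base coordinate
-/

set_option linter.style.haveILetI false

namespace Pool.Agent.MP_b6294e_wc

open Polynomial Pool.Agent.MP_b6294e

universe u

section Form

variable {K : Type u} [Field K]

/-- Value at the point `(P.1 : P.2)` of the form of degree `e` with dehomogenization `q`. -/
noncomputable def form (e : ℕ) (q : K[X]) (P : K × K) : K :=
  ∑ i ∈ Finset.range (e + 1), q.coeff i * P.1 ^ i * P.2 ^ (e - i)

theorem form_smul (e : ℕ) (q : K[X]) (s : K) (P : K × K) :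
    form e q (s * P.1, s * P.2) = s ^ e * form e q P := by
  unfold form
  rw [Finset.mul_sum]
  refine Finset.sum_congr rfl fun i hi => ?_
  have hi' := Nat.lt_succ_iff.mp (Finset.mem_range.mp hi)
  rw [mul_pow, mul_pow]
  have h : s ^ e = s ^ i * s ^ (e - i) := by rw [← pow_add, Nat.add_sub_cancel' hi']
  rw [h]
  ring

theorem form_eq (e : ℕ) (q : K[X]) (hq : q.natDegree ≤ e) (x s : K) :
    form e q (s * x, s) = s ^ e * q.eval x := by
  have h := form_smul e q s (x, 1)
  rw [mul_one] at h
  rw [h]
  congr 1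
  unfold form
  rw [eval_eq_sum_range' (n := e + 1) (Nat.lt_succ_iff.mpr hq)]
  refine Finset.sum_congr rfl fun i _ => ?_
  rw [one_pow, mul_one]

theorem form_eq' (e : ℕ) (q : K[X]) (hq : q.natDegree ≤ e) (P : K × K) (hP : P.2 ≠ 0) :
    form e q P = P.2 ^ e * q.eval (P.1 / P.2) := by
  rw [← form_eq e q hq]
  congr 1
  ext
  · rw [mul_div_cancel₀ _ hP]
  · rfl

theorem form_infinity (e : ℕ) (q : K[X]) (s : K) : form e q (s, 0) = q.coeff e * s ^ e := by
  unfold form
  rw [Finset.sum_range_succ, Nat.sub_self, pow_zero, mul_one, add_eq_right]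
  refine Finset.sum_eq_zero fun i hi => ?_
  have hi' := Finset.mem_range.mp hi
  rw [zero_pow (by omega), mul_zero]

theorem hom_eval_form (e : ℕ) (q α β : K[X]) (x : K) :
    (hom e q α β).eval x = form e q (α.eval x, β.eval x) := by
  unfold hom form
  rw [eval_finsetSum]
  refine Finset.sum_congr rfl fun j _ => ?_
  rw [eval_mul, eval_mul, eval_C, eval_pow, eval_pow]

theorem form_ne (a b : K[X]) (hco : IsCoprime a b) (P : K × K) (hP : P ≠ 0) :
    form (max a.natDegree b.natDegree) a P ≠ 0 ∨ form (max a.natDegree b.natDegree) b P ≠ 0 := by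
  by_contra hcon
  push Not at hcon
  obtain ⟨h1, h2⟩ := hcon
  by_cases h0 : P.2 = 0
  · have hP1 : P.1 ≠ 0 := fun h => hP (Prod.ext h h0)
    have hP' : P = (P.1, 0) := Prod.ext rfl h0
    rw [hP', form_infinity] at h1 h2
    have h3 := (mul_eq_zero.mp h1).resolve_right (pow_ne_zero _ hP1)
    have h4 := (mul_eq_zero.mp h2).resolve_right (pow_ne_zero _ hP1)
    have h5 : a = 0 ∧ b = 0 := by
      rcases le_total a.natDegree b.natDegree with h | h
      · rw [max_eq_right h] at h3 h4
        have hb : b = 0 := leadingCoeff_eq_zero.mp h4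
        rw [hb, natDegree_zero] at h h3
        exact ⟨by
          rw [eq_C_of_natDegree_le_zero h, h3, C_0], hb⟩
      · rw [max_eq_left h] at h3 h4
        have ha : a = 0 := leadingCoeff_eq_zero.mp h3
        rw [ha, natDegree_zero] at h h4
        exact ⟨ha, by
          rw [eq_C_of_natDegree_le_zero h, h4, C_0]⟩
    rw [h5.1, h5.2] at hco
    exact not_isCoprime_zero_zero hco
  · rw [form_eq' _ _ (le_max_left _ _) _ h0] at h1
    rw [form_eq' _ _ (le_max_right _ _) _ h0] at h2
    have h3 := (mul_eq_zero.mp h1).resolve_left (pow_ne_zero _ h0)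
    have h4 := (mul_eq_zero.mp h2).resolve_left (pow_ne_zero _ h0)
    obtain ⟨u, v, huv⟩ := hco
    have h5 := congrArg (eval (P.1 / P.2)) huv
    rw [eval_add, eval_mul, eval_mul, h3, h4, mul_zero, mul_zero, add_zero, eval_one] at h5
    exact zero_ne_one h5

end Form

section Wr

variable {K : Type u} [Field K]

theorem wr_natDegree (a b : K[X]) (e : ℕ) (he : 1 ≤ e) (ha : a.natDegree ≤ e)
    (hb : b.natDegree ≤ e) : (wr a b).natDegree ≤ 2 * e - 2 := by
  have ha' : (derivative a).natDegree ≤ e - 1 := by
    have := natDegree_derivative_le a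
    omega
  have hb' : (derivative b).natDegree ≤ e - 1 := by
    have := natDegree_derivative_le b
    omega
  have h1 : (wr a b).natDegree ≤ (e - 1) + e := by
    unfold wr
    refine (natDegree_sub_le _ _).trans (max_le ?_ ?_)
    · exact natDegree_mul_le.trans (add_le_add ha' hb)
    · refine natDegree_mul_le.trans ?_
      rw [add_comm (e - 1) e]
      exact add_le_add ha hb'
  have h2 : (wr a b).coeff ((e - 1) + e) = 0 := by
    unfold wr
    rw [coeff_sub, coeff_mul_add_eq_of_natDegree_le ha' hb, add_comm (e - 1) e,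
      coeff_mul_add_eq_of_natDegree_le ha hb', coeff_derivative, coeff_derivative]
    have h3 : e - 1 + 1 = e := by omega
    rw [h3]
    ring
  by_contra hcon
  push Not at hcon
  have h3 : (wr a b).natDegree = (e - 1) + e := by omega
  rw [← h3, coeff_natDegree, leadingCoeff_eq_zero] at h2
  rw [h2, natDegree_zero] at hcon
  omega

/-- The derivative of a homogenized polynomial at two linear polynomials. -/
theorem derivative_hom (e : ℕ) (he : 1 ≤ e) (q : K[X]) (hq : q.natDegree ≤ e) (α β γ δ x u : K)
    (hu : α * x + β = u * (γ * x + δ)) :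
    (derivative (hom e q (C α * X + C β) (C γ * X + C δ))).eval x =
      (γ * x + δ) ^ (e - 1) * (e * γ * q.eval u + (α - γ * u) * (derivative q).eval u) := by
  have h1 : (derivative q).eval u =
      ∑ j ∈ Finset.range (e + 1), q.coeff j * j * u ^ (j - 1) := by
    rw [derivative_eval, sum_over_range' _ (fun n => by rw [zero_mul, zero_mul]) (e + 1)
      (Nat.lt_succ_iff.mpr hq)]
  unfold hom
  rw [derivative_sum, eval_finsetSum, h1, eval_eq_sum_range' (n := e + 1) (Nat.lt_succ_iff.mpr hq),
    Finset.mul_sum, Finset.mul_sum, ← Finset.sum_add_distrib, Finset.mul_sum]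
  refine Finset.sum_congr rfl fun j hj => ?_
  have hj' := Nat.lt_succ_iff.mp (Finset.mem_range.mp hj)
  have d1 : derivative (C α * X + C β : K[X]) = C α := by simp
  have d2 : derivative (C γ * X + C δ : K[X]) = C γ := by simp
  rw [derivative_mul, derivative_mul, derivative_C, zero_mul, zero_add, derivative_pow,
    derivative_pow, d1, d2]
  simp only [eval_add, eval_mul, eval_C, eval_pow, eval_X]
  rw [hu]
  set L := γ * x + δ with hL
  rcases Nat.eq_zero_or_pos j with rfl | hj0
  · have e1 : e - 0 = e := Nat.sub_zero e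
    rw [e1]
    simp only [pow_zero, Nat.cast_zero, zero_mul, mul_zero, mul_one, zero_add, add_zero]
    ring
  · rcases Nat.lt_or_ge j e with h | h
    · have e1 : e - 1 = (j - 1) + (e - j) := by omega
      have e2 : e - 1 = j + (e - j - 1) := by omega
      have e3 : u ^ j = u * u ^ (j - 1) := by rw [← pow_succ']; congr 1; omega
      have e4 : L ^ (e - j) = L * L ^ (e - j - 1) := by rw [← pow_succ']; congr 1; omega
      have e5 : L ^ j = L * L ^ (j - 1) := by rw [← pow_succ']; congr 1; omega
      rw [e1, pow_add, Nat.cast_sub h.le, mul_pow, mul_pow, e3, e4, e5]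
      ring
    · have e1 : e = j := le_antisymm h hj'
      subst e1
      rw [Nat.sub_self]
      have e3 : u ^ e = u * u ^ (e - 1) := by rw [← pow_succ']; congr 1; omega
      simp only [Nat.cast_zero, zero_mul, mul_zero, pow_zero, mul_one, add_zero]
      rw [mul_pow, e3]
      ring

theorem wr_hom [Infinite K] (e : ℕ) (he : 1 ≤ e) (a b : K[X]) (ha : a.natDegree ≤ e)
    (hb : b.natDegree ≤ e) (α β γ δ : K) (hγδ : γ ≠ 0 ∨ δ ≠ 0) :
    wr (hom e a (C α * X + C β) (C γ * X + C δ)) (hom e b (C α * X + C β) (C γ * X + C δ)) =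
      C (α * δ - β * γ) * hom (2 * e - 2) (wr a b) (C α * X + C β) (C γ * X + C δ) := by
  classical
  refine Polynomial.eq_of_infinite_eval_eq _ _ ?_
  have h0 : (C γ * X + C δ : K[X]) ≠ 0 := by
    intro h
    have h1 := congrArg (fun p => p.coeff 0) h
    have h2 := congrArg (fun p => p.coeff 1) h
    simp at h1 h2
    rcases hγδ with h3 | h3
    · exact h3 h2
    · exact h3 h1
  have hinf : ({x : K | (C γ * X + C δ : K[X]).eval x = 0}ᶜ).Infinite := by
    refine Set.Finite.infinite_compl ?_
    refine ((C γ * X + C δ : K[X]).roots.toFinset.finite_toSet).subset ?_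
    intro x hx
    rw [Finset.mem_coe, Multiset.mem_toFinset, mem_roots h0]
    exact hx
  refine hinf.mono fun x hx => ?_
  have hx' : γ * x + δ ≠ 0 := by
    intro h
    apply hx
    simp only [Set.mem_ofPred_eq, eval_add, eval_mul, eval_C, eval_X]
    exact h
  set L := γ * x + δ with hL
  set u := (α * x + β) / L with hu
  have hu' : α * x + β = u * L := by rw [hu, div_mul_cancel₀ _ hx']
  have hℓ : ((C α * X + C β : K[X]).eval x, (C γ * X + C δ : K[X]).eval x) = (L * u, L) := by
    simp only [eval_add, eval_mul, eval_C, eval_X]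
    rw [hu', mul_comm]
  have hΔ : (α - γ * u) * L = α * δ - β * γ := by
    rw [sub_mul, mul_assoc, ← hu', hL]
    ring
  rw [Set.mem_ofPred_eq, eval_mul, eval_C, hom_eval_form, hℓ,
    form_eq _ _ (wr_natDegree a b e he ha hb)]
  unfold wr
  rw [Polynomial.eval_sub, eval_mul, eval_mul, derivative_hom e he a ha α β γ δ x u hu',
    derivative_hom e he b hb α β γ δ x u hu', hom_eval_form, hom_eval_form, hℓ,
    form_eq _ _ ha, form_eq _ _ hb, ← hL, Polynomial.eval_sub, eval_mul, eval_mul, ← hΔ]
  have e1 : L ^ (e - 1) * L ^ e = L * L ^ (2 * e - 2) := by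
    rw [← pow_add, ← pow_succ']
    congr 1
    omega
  linear_combination ((α - γ * u) * ((derivative a).eval u * b.eval u -
    a.eval u * (derivative b).eval u)) * e1

end Wr

end Pool.Agent.MP_b6294e_wc
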