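import Pool.Agent.Lib.MP_b6294e_wc.Conj

/-!
# Orbits on the projective line and the change of the base coordinate
-/

set_option linter.style.haveILetI false

namespace Pool.Agent.MP_b6294e_wc

open Polynomial Pool.Agent.MP_b6294e

universe u

section Orbit

variable {K : Type u} [Field K]

/-- The orbit of a point of the projective line under `a / b`, in homogeneous coordinates. -/
noncomputable def porb (a b : K[X]) (P : K × K) : ℕ → K × K
  | 0 => P
  | t + 1 => (form (max a.natDegree b.natDegree) a (porb a b P t),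
      form (max a.natDegree b.natDegree) b (porb a b P t))

/-- Homogeneous coordinates of the same point. -/
def Same (P Q : K × K) : Prop := P.1 * Q.2 = Q.1 * P.2

theorem porb_ne (a b : K[X]) (hco : IsCoprime a b) (P : K × K) (hP : P ≠ 0) (t : ℕ) :
    porb a b P t ≠ 0 := by
  induction t with
  | zero => exact hP
  | succ t ih =>
    intro h
    rcases form_ne a b hco _ ih with h1 | h1
    · exact h1 (congrArg Prod.fst h)
    · exact h1 (congrArg Prod.snd h)

theorem Same.refl (P : K × K) : Same P P := rfl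

theorem Same.symm {P Q : K × K} (h : Same P Q) : Same Q P := Eq.symm h

theorem Same.exists_smul {P Q : K × K} (hP : P ≠ 0) (hQ : Q ≠ 0) (h : Same P Q) :
    ∃ s, s ≠ 0 ∧ P = (s * Q.1, s * Q.2) := by
  unfold Same at h
  by_cases h2 : Q.2 = 0
  · have h1 : Q.1 ≠ 0 := fun h1 => hQ (Prod.ext h1 h2)
    rw [h2, mul_zero] at h
    have h3 : P.2 = 0 := (mul_eq_zero.mp h.symm).resolve_left h1
    have h4 : P.1 ≠ 0 := fun h4 => hP (Prod.ext h4 h3)
    refine ⟨P.1 / Q.1, div_ne_zero h4 h1, Prod.ext ?_ ?_⟩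
    · change P.1 = P.1 / Q.1 * Q.1
      rw [div_mul_cancel₀ _ h1]
    · change P.2 = P.1 / Q.1 * Q.2
      rw [h2, h3, mul_zero]
  · have h3 : P.2 ≠ 0 := by
      intro h3
      rw [h3, mul_zero] at h
      exact hP (Prod.ext ((mul_eq_zero.mp h).resolve_right h2) h3)
    refine ⟨P.2 / Q.2, div_ne_zero h3 h2, Prod.ext ?_ ?_⟩
    · change P.1 = P.2 / Q.2 * Q.1
      rw [div_mul_eq_mul_div, eq_div_iff h2, h]
      ring
    · change P.2 = P.2 / Q.2 * Q.2
      rw [div_mul_cancel₀ _ h2]

theorem same_of_smul {P Q : K × K} {s r : K} (hs : s ≠ 0) (hr : r ≠ 0)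
    (h : Same (s * P.1, s * P.2) (r * Q.1, r * Q.2)) : Same P Q := by
  unfold Same at h ⊢
  dsimp only at h
  have h1 : (s * r) * (P.1 * Q.2 - Q.1 * P.2) = 0 := by linear_combination h
  exact sub_eq_zero.mp ((mul_eq_zero.mp h1).resolve_left (mul_ne_zero hs hr))

theorem same_smul (P : K × K) (s : K) : Same (s * P.1, s * P.2) P := by
  unfold Same
  dsimp only
  ring

theorem Same.trans {P Q R : K × K} (hP : P ≠ 0) (hQ : Q ≠ 0) (hR : R ≠ 0) (h : Same P Q)
    (h' : Same Q R) : Same P R := by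
  obtain ⟨s, hs, rfl⟩ := h.exists_smul hP hQ
  obtain ⟨r, hr, rfl⟩ := h'.exists_smul hQ hR
  unfold Same
  dsimp only
  ring

theorem Same.image {a b : K[X]} {P Q : K × K} (hP : P ≠ 0) (hQ : Q ≠ 0) (h : Same P Q) :
    Same (form (max a.natDegree b.natDegree) a P, form (max a.natDegree b.natDegree) b P)
      (form (max a.natDegree b.natDegree) a Q, form (max a.natDegree b.natDegree) b Q) := by
  obtain ⟨s, hs, rfl⟩ := h.exists_smul hP hQ
  unfold Same
  dsimp only
  rw [form_smul, form_smul]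
  ring

theorem porb_same_add (a b : K[X]) (hco : IsCoprime a b) (P : K × K) (hP : P ≠ 0) (i j : ℕ)
    (h : Same (porb a b P i) (porb a b P j)) (t : ℕ) :
    Same (porb a b P (i + t)) (porb a b P (j + t)) := by
  induction t with
  | zero => exact h
  | succ t ih =>
    exact Same.image (porb_ne a b hco P hP _) (porb_ne a b hco P hP _) ih

theorem finite_range_of_eq {α : Type*} (o : ℕ → α) (i j : ℕ) (hij : i < j)
    (h : ∀ t, o (i + t) = o (j + t)) : (Set.range o).Finite := by
  have key : ∀ t, ∃ s < j, o s = o t := by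
    intro t
    induction t using Nat.strong_induction_on with
    | _ t ih =>
      rcases Nat.lt_or_ge t j with h1 | h1
      · exact ⟨t, h1, rfl⟩
      · obtain ⟨r, rfl⟩ := Nat.exists_eq_add_of_le h1
        obtain ⟨s, hs, hs'⟩ := ih (i + r) (by omega)
        exact ⟨s, hs, by rw [hs', h]⟩
  refine ((Finset.range j).finite_toSet.image o).subset ?_
  rintro _ ⟨t, rfl⟩
  obtain ⟨s, hs, hs'⟩ := key t
  exact ⟨s, Finset.mem_coe.mpr (Finset.mem_range.mpr hs), hs'⟩

end Orbit

section Facts

variable {K : Type u} [Field K]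

theorem hom_coeff_top (e : ℕ) (q : K[X]) (α β γ δ : K) :
    (hom e q (C α * X + C β) (C γ * X + C δ)).coeff e = form e q (α, γ) := by
  unfold hom form
  rw [finsetSum_coeff]
  refine Finset.sum_congr rfl fun j hj => ?_
  have hj' := Nat.lt_succ_iff.mp (Finset.mem_range.mp hj)
  have hd : ∀ u v : K, (C u * X + C v : K[X]).natDegree ≤ 1 := fun u v => natDegree_linear_le
  have hc : ∀ (u v : K) (i : ℕ), ((C u * X + C v : K[X]) ^ i).coeff i = u ^ i := by
    intro u v i
    have h1 := coeff_pow_of_natDegree_le (m := i) (hd u v)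
    rw [mul_one] at h1
    rw [h1]
    congr 1
    simp
  have hp : ∀ (u v : K) (i : ℕ), ((C u * X + C v : K[X]) ^ i).natDegree ≤ i := by
    intro u v i
    have h1 := natDegree_pow_le_of_le i (hd u v)
    rwa [mul_one] at h1
  have h1 : (C (q.coeff j) * (C α * X + C β) ^ j * (C γ * X + C δ) ^ (e - j) : K[X]).coeff
      (j + (e - j)) = q.coeff j * α ^ j * γ ^ (e - j) := by
    rw [coeff_mul_add_eq_of_natDegree_le ((natDegree_C_mul_le _ _).trans (hp α β j))
      (hp γ δ (e - j)), coeff_C_mul, hc, hc]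
  rw [Nat.add_sub_cancel' hj'] at h1
  exact h1

theorem hom_natDegree_lin (e : ℕ) (q : K[X]) (α β γ δ : K) :
    (hom e q (C α * X + C β) (C γ * X + C δ)).natDegree ≤ e := by
  have h := hom_natDegree e 1 q (C α * X + C β) (C γ * X + C δ) natDegree_linear_le
    natDegree_linear_le
  rwa [mul_one] at h

theorem cA_natDegree (e : ℕ) (a b : K[X]) (α β γ δ : K) : (cA e a b α β γ δ).natDegree ≤ e :=
  (natDegree_sub_le _ _).trans (max_le
    ((natDegree_C_mul_le _ _).trans (hom_natDegree_lin _ _ _ _ _ _))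
    ((natDegree_C_mul_le _ _).trans (hom_natDegree_lin _ _ _ _ _ _)))

theorem cB_natDegree (e : ℕ) (a b : K[X]) (α β γ δ : K) : (cB e a b α β γ δ).natDegree ≤ e :=
  (natDegree_sub_le _ _).trans (max_le
    ((natDegree_C_mul_le _ _).trans (hom_natDegree_lin _ _ _ _ _ _))
    ((natDegree_C_mul_le _ _).trans (hom_natDegree_lin _ _ _ _ _ _)))

theorem cA_coeff (e : ℕ) (a b : K[X]) (α β γ δ : K) : (cA e a b α β γ δ).coeff e =
    δ * form e a (α, γ) - β * form e b (α, γ) := by
  unfold cA
  rw [coeff_sub, coeff_C_mul, coeff_C_mul, hom_coeff_top, hom_coeff_top]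

theorem cB_coeff (e : ℕ) (a b : K[X]) (α β γ δ : K) : (cB e a b α β γ δ).coeff e =
    α * form e b (α, γ) - γ * form e a (α, γ) := by
  unfold cB
  rw [coeff_sub, coeff_C_mul, coeff_C_mul, hom_coeff_top, hom_coeff_top]

theorem pt_ne {α β γ δ : K} (hΔ : α * δ - β * γ ≠ 0) (x : K) :
    ((α * x + β, γ * x + δ) : K × K) ≠ 0 := by
  intro h
  have h1 : α * x + β = 0 := congrArg Prod.fst h
  have h2 : γ * x + δ = 0 := congrArg Prod.snd h
  apply hΔ
  linear_combination α * h2 - γ * h1

theorem pt_ne' {α β γ δ : K} (hΔ : α * δ - β * γ ≠ 0) : ((α, γ) : K × K) ≠ 0 := by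
  intro h
  have h1 : α = 0 := congrArg Prod.fst h
  have h2 : γ = 0 := congrArg Prod.snd h
  apply hΔ
  rw [h1, h2]
  ring

theorem cAB_coprime [IsAlgClosed K] (a b : K[X]) (hco : IsCoprime a b) {α β γ δ : K}
    (hΔ : α * δ - β * γ ≠ 0) :
    IsCoprime (cA (max a.natDegree b.natDegree) a b α β γ δ)
      (cB (max a.natDegree b.natDegree) a b α β γ δ) := by
  refine (isCoprime_iff_aeval_ne_zero_of_isAlgClosed (k := K) K _ _).mpr fun x => ?_
  by_contra hcon
  push Not at hcon
  obtain ⟨h1, h2⟩ := hcon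
  rw [coe_aeval_eq_eval] at h1 h2
  rw [cA_eval] at h1
  rw [cB_eval] at h2
  set A := form (max a.natDegree b.natDegree) a (α * x + β, γ * x + δ) with hA
  set B := form (max a.natDegree b.natDegree) b (α * x + β, γ * x + δ) with hB
  have h3 : (α * δ - β * γ) * A = 0 := by linear_combination α * h1 + β * h2
  have h4 : (α * δ - β * γ) * B = 0 := by linear_combination γ * h1 + δ * h2
  rcases form_ne a b hco _ (pt_ne hΔ x) with h5 | h5
  · exact h5 ((mul_eq_zero.mp h3).resolve_left hΔ)
  · exact h5 ((mul_eq_zero.mp h4).resolve_left hΔ)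

theorem cAB_max (a b : K[X]) (hco : IsCoprime a b) {α β γ δ : K}
    (hΔ : α * δ - β * γ ≠ 0) :
    max (cA (max a.natDegree b.natDegree) a b α β γ δ).natDegree
      (cB (max a.natDegree b.natDegree) a b α β γ δ).natDegree = max a.natDegree b.natDegree := by
  set e := max a.natDegree b.natDegree with he
  apply le_antisymm (max_le (cA_natDegree _ _ _ _ _ _ _) (cB_natDegree _ _ _ _ _ _ _))
  have h1 : (cA e a b α β γ δ).coeff e ≠ 0 ∨ (cB e a b α β γ δ).coeff e ≠ 0 := by
    by_contra hcon
    push Not at hcon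
    obtain ⟨h1, h2⟩ := hcon
    rw [cA_coeff] at h1
    rw [cB_coeff] at h2
    have h3 : (α * δ - β * γ) * form e a (α, γ) = 0 := by linear_combination α * h1 + β * h2
    have h4 : (α * δ - β * γ) * form e b (α, γ) = 0 := by linear_combination γ * h1 + δ * h2
    rcases form_ne a b hco _ (pt_ne' hΔ) with h5 | h5
    · exact h5 ((mul_eq_zero.mp h3).resolve_left hΔ)
    · exact h5 ((mul_eq_zero.mp h4).resolve_left hΔ)
  rcases h1 with h1 | h1
  · exact (le_natDegree_of_ne_zero h1).trans (le_max_left _ _)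
  · exact (le_natDegree_of_ne_zero h1).trans (le_max_right _ _)

theorem cAB_lt (a b : K[X]) (hco : IsCoprime a b) (he : 1 ≤ max a.natDegree b.natDegree)
    {α β γ δ : K} (hΔ : α * δ - β * γ ≠ 0)
    (hfix : Same (form (max a.natDegree b.natDegree) a (α, γ),
      form (max a.natDegree b.natDegree) b (α, γ)) (α, γ)) :
    (cB (max a.natDegree b.natDegree) a b α β γ δ).natDegree <
      (cA (max a.natDegree b.natDegree) a b α β γ δ).natDegree := by
  set e := max a.natDegree b.natDegree with hedef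
  have h1 : (cB e a b α β γ δ).coeff e = 0 := by
    rw [cB_coeff]
    unfold Same at hfix
    dsimp only at hfix
    linear_combination - hfix
  have h2 : (cB e a b α β γ δ).natDegree < e := by
    refine lt_of_le_of_ne (cB_natDegree _ _ _ _ _ _ _) fun h => ?_
    have h5 : (cB e a b α β γ δ).leadingCoeff = 0 := by
      rw [leadingCoeff, h]
      exact h1
    rw [leadingCoeff_eq_zero] at h5
    rw [h5, natDegree_zero] at h
    omega
  have h3 := cAB_max a b hco hΔ
  rw [← hedef] at h3
  rcases max_choice (cA e a b α β γ δ).natDegree (cB e a b α β γ δ).natDegree with h4 | h4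
  · omega
  · omega

theorem cAB_wr [Infinite K] (a b : K[X]) (he : 1 ≤ max a.natDegree b.natDegree) {α β γ δ : K}
    (hΔ : α * δ - β * γ ≠ 0) (x : K) :
    (wr (cA (max a.natDegree b.natDegree) a b α β γ δ)
      (cB (max a.natDegree b.natDegree) a b α β γ δ)).eval x = (α * δ - β * γ) ^ 2 *
      form (2 * max a.natDegree b.natDegree - 2) (wr a b) (α * x + β, γ * x + δ) := by
  set e := max a.natDegree b.natDegree with hedef
  have hγδ : γ ≠ 0 ∨ δ ≠ 0 := by
    by_contra hcon
    push Not at hcon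
    apply hΔ
    rw [hcon.1, hcon.2]
    ring
  have h1 := wr_hom e he a b (le_max_left _ _) (le_max_right _ _) α β γ δ hγδ
  have h2 : wr (cA e a b α β γ δ) (cB e a b α β γ δ) = C (α * δ - β * γ) *
      wr (hom e a (C α * X + C β) (C γ * X + C δ)) (hom e b (C α * X + C β) (C γ * X + C δ)) := by
    unfold wr cA cB
    rw [derivative_sub, derivative_sub, derivative_C_mul, derivative_C_mul, derivative_C_mul,
      derivative_C_mul]
    rw [C_sub, C_mul, C_mul]
    ring
  rw [h2, h1, eval_mul, eval_mul, eval_C, hom_eval_form]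
  simp only [eval_add, eval_mul, eval_C, eval_X]
  ring

/-- The new coordinate of a point. -/
noncomputable def nu (α β γ δ : K) (P : K × K) : K := (δ * P.1 - β * P.2) / (α * P.2 - γ * P.1)

theorem nu_pt {α β γ δ : K} {P : K × K} (hD : α * P.2 - γ * P.1 ≠ 0) :
    ((α * nu α β γ δ P + β, γ * nu α β γ δ P + δ) : K × K) =
      ((α * δ - β * γ) / (α * P.2 - γ * P.1) * P.1,
        (α * δ - β * γ) / (α * P.2 - γ * P.1) * P.2) := by
  unfold nu
  set D := α * P.2 - γ * P.1 with hDdef
  ext
  · dsimp only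
    rw [div_mul_eq_mul_div, eq_div_iff hD, add_mul, mul_assoc, div_mul_cancel₀ _ hD, hDdef]
    ring
  · dsimp only
    rw [div_mul_eq_mul_div, eq_div_iff hD, add_mul, mul_assoc, div_mul_cancel₀ _ hD, hDdef]
    ring

theorem nu_eq_iff {α β γ δ : K} (hΔ : α * δ - β * γ ≠ 0) {P Q : K × K}
    (hP : α * P.2 - γ * P.1 ≠ 0) (hQ : α * Q.2 - γ * Q.1 ≠ 0) :
    nu α β γ δ P = nu α β γ δ Q ↔ Same P Q := by
  unfold nu Same
  rw [div_eq_div_iff hP hQ]
  constructor
  · intro h
    have h1 : (α * δ - β * γ) * (P.1 * Q.2 - Q.1 * P.2) = 0 := by linear_combination h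
    exact sub_eq_zero.mp ((mul_eq_zero.mp h1).resolve_left hΔ)
  · intro h
    linear_combination (α * δ - β * γ) * h

end Facts

end Pool.Agent.MP_b6294e_wc
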