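import Pool.Agent.Lib.MP_b6294e_wc.Cluster

/-!
# Quasi-periodicity of the fibre dynamics over a convergent base orbit
-/

set_option linter.style.haveILetI false

namespace Pool.Agent.MP_b6294e_wc

open Polynomial Pool.Agent.MP_b6294e

variable {A : Type*} [CommRing A] [IsLocalRing A]

/-- One step of the difference of two fibre orbits. -/
theorem step_diff {a b : A[X][X]} {x z z' Y : ℕ → A} (e : ℕ) (hz : Orb a b x z)
    (hz' : Orb a b x z') (hY : Orb a b x Y)
    (hzY : ∀ t, z t - Y t ∈ IsLocalRing.maximalIdeal A ^ e)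
    (hzY' : ∀ t, z' t - Y t ∈ IsLocalRing.maximalIdeal A ^ e) (t : ℕ) :
    ∃ u : A, z (t + 1) - z' (t + 1) = (z t - z' t) * u ∧
      Ideal.Quotient.mk (IsLocalRing.maximalIdeal A ^ e) u =
        Ideal.Quotient.mk (IsLocalRing.maximalIdeal A ^ e)
          ((wr a b).evalEval (x t) (Y t) * Ring.inverse (b.evalEval (x t) (Y t)) ^ 2) := by
  set I := IsLocalRing.maximalIdeal A ^ e with hI
  obtain ⟨c, hc⟩ := pair₂ a b (x t) (z t) (z' t) _ _ (hz.2 t) (hz'.2 t)
  have hx : x t - x t ∈ I := by rw [sub_self]; exact Ideal.zero_mem _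
  have hinv : ∀ w : A, IsUnit w → w - b.evalEval (x t) (Y t) ∈ I →
      Ideal.Quotient.mk I (Ring.inverse w) =
        Ideal.Quotient.mk I (Ring.inverse (b.evalEval (x t) (Y t))) := by
    intro w hw hwI
    have h1 : Ideal.Quotient.mk I w = Ideal.Quotient.mk I (b.evalEval (x t) (Y t)) :=
      Ideal.Quotient.eq.mpr hwI
    have h2 : Ideal.Quotient.mk I w * Ideal.Quotient.mk I (Ring.inverse w) = 1 := by
      rw [← map_mul, Ring.mul_inverse_cancel _ hw, map_one]
    have h3 : Ideal.Quotient.mk I (b.evalEval (x t) (Y t)) *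
        Ideal.Quotient.mk I (Ring.inverse (b.evalEval (x t) (Y t))) = 1 := by
      rw [← map_mul, Ring.mul_inverse_cancel _ (hY.1 t), map_one]
    calc Ideal.Quotient.mk I (Ring.inverse w)
        = Ideal.Quotient.mk I (Ring.inverse w) * (Ideal.Quotient.mk I (b.evalEval (x t) (Y t)) *
          Ideal.Quotient.mk I (Ring.inverse (b.evalEval (x t) (Y t)))) := by rw [h3, mul_one]
      _ = (Ideal.Quotient.mk I w * Ideal.Quotient.mk I (Ring.inverse w)) *
          Ideal.Quotient.mk I (Ring.inverse (b.evalEval (x t) (Y t))) := by rw [← h1]; ring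
      _ = _ := by rw [h2, one_mul]
  refine ⟨((wr a b).evalEval (x t) (z' t) + c * (z t - z' t)) *
    (Ring.inverse (b.evalEval (x t) (z t)) * Ring.inverse (b.evalEval (x t) (z' t))), ?_, ?_⟩
  · have h1 := Ring.mul_inverse_cancel _ (hz.1 t)
    have h2 := Ring.mul_inverse_cancel _ (hz'.1 t)
    have h3 : b.evalEval (x t) (z t) * b.evalEval (x t) (z' t) *
        (Ring.inverse (b.evalEval (x t) (z t)) * Ring.inverse (b.evalEval (x t) (z' t))) = 1 := by
      linear_combination h1 * (b.evalEval (x t) (z' t) *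
        Ring.inverse (b.evalEval (x t) (z' t))) + h2
    rw [← mul_assoc, ← hc]
    linear_combination (-(z (t + 1) - z' (t + 1))) * h3
  · have h4 : Ideal.Quotient.mk I (z t - z' t) = 0 := by
      rw [Ideal.Quotient.eq_zero_iff_mem]
      have := Ideal.sub_mem _ (hzY t) (hzY' t)
      rwa [sub_sub_sub_cancel_right] at this
    have h5 : Ideal.Quotient.mk I ((wr a b).evalEval (x t) (z' t)) =
        Ideal.Quotient.mk I ((wr a b).evalEval (x t) (Y t)) :=
      Ideal.Quotient.eq.mpr (congr_evalEval I _ hx (hzY' t))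
    rw [map_mul, map_add, map_mul, h4, mul_zero, add_zero, h5, map_mul,
      hinv _ (hz.1 t) (congr_evalEval I b hx (hzY t)),
      hinv _ (hz'.1 t) (congr_evalEval I b hx (hzY' t)), map_mul, map_pow, pow_two]

/-- After a suitable number of steps, differences of fibre orbits are multiplied by numbers
congruent to `1`. -/
theorem lip (hfin : ∀ s, Finite (A ⧸ IsLocalRing.maximalIdeal A ^ s)) {a b : A[X][X]}
    {x Y : ℕ → A} (e : ℕ) (n : ℕ) (hn : 0 < n)
    (hxn : ∀ s : ℕ, ∃ T, ∀ t, T ≤ t → x (t + n) - x t ∈ IsLocalRing.maximalIdeal A ^ s)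
    (hY : Orb a b x Y) (hW : ∀ t, IsUnit ((wr a b).evalEval (x t) (Y t))) :
    ∃ S T, 0 < S ∧ n ∣ S ∧ (∀ t, T ≤ t → Y (t + S) - Y t ∈ IsLocalRing.maximalIdeal A ^ e) ∧
      ∀ t, T ≤ t → ∀ z z' : ℕ → A, Orb a b (fun i => x (t + i)) z →
        Orb a b (fun i => x (t + i)) z' →
        z 0 - Y t ∈ IsLocalRing.maximalIdeal A ^ e → z' 0 - Y t ∈ IsLocalRing.maximalIdeal A ^ e →
        ∃ ε ∈ IsLocalRing.maximalIdeal A ^ e, z S - z' S = (z 0 - z' 0) * (1 + ε) := by
  classical
  set I := IsLocalRing.maximalIdeal A ^ e with hI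
  haveI := hfin e
  let θ : ℕ → A ⧸ I := fun t => Ideal.Quotient.mk I
    ((wr a b).evalEval (x t) (Y t) * Ring.inverse (b.evalEval (x t) (Y t)) ^ 2)
  have hθu : ∀ t, IsUnit (θ t) := fun t =>
    ((hW t).mul (((hY.1 t).ringInverse).pow 2)).map (Ideal.Quotient.mk I)
  obtain ⟨T₀, hT₀⟩ := hxn e
  have hxe : ∀ t, T₀ ≤ t → ∀ j, x (t + n * j) - x t ∈ I := by
    intro t ht j
    induction j with
    | zero => simp
    | succ j ih =>
      have h1 := hT₀ (t + n * j) (by omega)
      have h2 := Ideal.add_mem _ h1 ih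
      rwa [sub_add_sub_cancel, show t + n * j + n = t + n * (j + 1) by ring] at h2
  obtain ⟨i, j, hij, heq⟩ := Finite.exists_ne_map_eq_of_infinite
    (fun j : ℕ => Ideal.Quotient.mk I (Y (T₀ + n * j)))
  wlog hlt : i < j generalizing i j
  · exact this j i hij.symm heq.symm (lt_of_le_of_ne (not_lt.mp hlt) hij.symm)
  obtain ⟨l, hl⟩ := Nat.exists_eq_add_of_lt hlt
  set N := n * (l + 1) with hN
  set T := T₀ + n * i with hT
  have hYN : ∀ t, T ≤ t → Y (t + N) - Y t ∈ I := by
    intro t ht
    obtain ⟨τ, rfl⟩ := Nat.exists_eq_add_of_le ht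
    have h1 := fwd (hY.shift (T + N)) (hY.shift T) I
      (by
        intro τ
        have h2 := hxe (T + τ) (by omega) (l + 1)
        rwa [show T + τ + n * (l + 1) = T + N + τ by rw [hN]; ring] at h2)
      (by
        rw [add_zero, add_zero, show T + N = T₀ + n * j by rw [hT, hN, hl]; ring]
        exact Ideal.Quotient.eq.mp heq.symm) τ
    rwa [show T + N + τ = T + τ + N by ring] at h1
  have hθN : ∀ t, T ≤ t → θ (t + N) = θ t := by
    intro t ht
    have hx1 := hxe t (by omega) (l + 1)
    rw [← hN] at hx1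
    have e1 : Ideal.Quotient.mk I ((wr a b).evalEval (x (t + N)) (Y (t + N))) =
        Ideal.Quotient.mk I ((wr a b).evalEval (x t) (Y t)) :=
      Ideal.Quotient.eq.mpr (congr_evalEval I _ hx1 (hYN t ht))
    have e2 : Ideal.Quotient.mk I (b.evalEval (x (t + N)) (Y (t + N))) =
        Ideal.Quotient.mk I (b.evalEval (x t) (Y t)) :=
      Ideal.Quotient.eq.mpr (congr_evalEval I _ hx1 (hYN t ht))
    have e3 : Ideal.Quotient.mk I (Ring.inverse (b.evalEval (x (t + N)) (Y (t + N)))) =
        Ideal.Quotient.mk I (Ring.inverse (b.evalEval (x t) (Y t))) := by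
      have h2 : Ideal.Quotient.mk I (b.evalEval (x (t + N)) (Y (t + N))) *
          Ideal.Quotient.mk I (Ring.inverse (b.evalEval (x (t + N)) (Y (t + N)))) = 1 := by
        rw [← map_mul, Ring.mul_inverse_cancel _ (hY.1 _), map_one]
      have h3 : Ideal.Quotient.mk I (b.evalEval (x t) (Y t)) *
          Ideal.Quotient.mk I (Ring.inverse (b.evalEval (x t) (Y t))) = 1 := by
        rw [← map_mul, Ring.mul_inverse_cancel _ (hY.1 _), map_one]
      rw [e2] at h2
      calc Ideal.Quotient.mk I (Ring.inverse (b.evalEval (x (t + N)) (Y (t + N))))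
          = Ideal.Quotient.mk I (Ring.inverse (b.evalEval (x (t + N)) (Y (t + N)))) *
            (Ideal.Quotient.mk I (b.evalEval (x t) (Y t)) *
              Ideal.Quotient.mk I (Ring.inverse (b.evalEval (x t) (Y t)))) := by
            rw [h3, mul_one]
        _ = (Ideal.Quotient.mk I (b.evalEval (x t) (Y t)) *
            Ideal.Quotient.mk I (Ring.inverse (b.evalEval (x (t + N)) (Y (t + N))))) *
              Ideal.Quotient.mk I (Ring.inverse (b.evalEval (x t) (Y t))) := by ring
        _ = _ := by rw [h2, one_mul]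
    change Ideal.Quotient.mk I _ = Ideal.Quotient.mk I _
    rw [map_mul, map_mul, map_pow, map_pow, e1, e3]
  have hYNj : ∀ j t, T ≤ t → Y (t + N * j) - Y t ∈ I := by
    intro j t ht
    induction j with
    | zero => simp
    | succ j ih =>
      have h1 := hYN (t + N * j) (by omega)
      have h2 := Ideal.add_mem _ h1 ih
      rwa [sub_add_sub_cancel, show t + N * j + N = t + N * (j + 1) by ring] at h2
  have hθNj : ∀ j t, T ≤ t → θ (t + N * j) = θ t := by
    intro j t ht
    induction j with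
    | zero => simp
    | succ j ih => rw [show t + N * (j + 1) = t + N * j + N by ring, hθN _ (by omega), ih]
  have hprod : ∀ r t, T ≤ t →
      ∏ i ∈ Finset.range (N * r), θ (t + i) = (∏ i ∈ Finset.range N, θ (t + i)) ^ r := by
    intro r t ht
    induction r with
    | zero => simp
    | succ r ih =>
      rw [show N * (r + 1) = N * r + N by ring, Finset.prod_range_add, ih, pow_succ]
      congr 1
      refine Finset.prod_congr rfl fun i _ => ?_
      rw [show t + (N * r + i) = (t + i) + N * r by ring, hθNj r (t + i) (by omega)]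
  haveI : Finite (A ⧸ I)ˣ := inferInstance
  set r := Nat.card (A ⧸ I)ˣ with hr
  have hr0 : 0 < r := Nat.card_pos
  have hN0 : 0 < N := Nat.mul_pos hn (Nat.succ_pos l)
  refine ⟨N * r, T, Nat.mul_pos hN0 hr0, ⟨(l + 1) * r, by rw [hN]; ring⟩,
    fun t ht => hYNj r t ht, ?_⟩
  intro t ht z z' hz hz' hz0 hz0'
  have hYs := hY.shift t
  have hself : ∀ i, x (t + i) - x (t + i) ∈ I := fun i => by
    rw [sub_self]; exact Ideal.zero_mem _
  have hzY := fwd hz hYs I hself (by rw [add_zero]; exact hz0)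
  have hzY' := fwd hz' hYs I hself (by rw [add_zero]; exact hz0')
  choose u hu hθ using fun i => step_diff e hz hz' hYs hzY hzY' i
  have h1 : ∀ s, z s - z' s = (z 0 - z' 0) * ∏ i ∈ Finset.range s, u i := by
    intro s
    induction s with
    | zero => simp
    | succ s ih => rw [hu, ih, Finset.prod_range_succ, mul_assoc]
  have h2 : Ideal.Quotient.mk I (∏ i ∈ Finset.range (N * r), u i) = 1 := by
    rw [map_prod]
    have h3 : ∀ i, Ideal.Quotient.mk I (u i) = θ (t + i) := fun i => hθ i
    rw [Finset.prod_congr rfl fun i _ => h3 i, hprod r t ht]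
    have h4 : IsUnit (∏ i ∈ Finset.range N, θ (t + i)) := by
      refine (Finset.range N).prod_induction _ IsUnit (fun _ _ => IsUnit.mul) isUnit_one
        fun i _ => hθu _
    obtain ⟨v, hv⟩ := h4
    rw [← hv, ← Units.val_pow_eq_pow_val, hr, pow_card_eq_one', Units.val_one]
  refine ⟨(∏ i ∈ Finset.range (N * r), u i) - 1, ?_, ?_⟩
  · rw [← Ideal.Quotient.eq_zero_iff_mem, map_sub, h2, map_one, sub_self]
  · rw [h1]
    ring

end Pool.Agent.MP_b6294e_wc
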