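import Pool.Agent.Lib.MP_b6294e_wc.HomComp

/-!
# Good orbits over a periodic base orbit over an algebraic closure of a finite field
-/

set_option linter.style.haveILetI false

namespace Pool.Agent.MP_b6294e_wc

open Polynomial

variable {F : Type*} [Field F] [IsAlgClosed F]

omit [IsAlgClosed F] in
theorem fixed_map (r : ℕ) [Fact r.Prime] [CharP F r] (d j : ℕ) (p : F[X])
    (h : ∀ i, p.coeff i ^ (r ^ d) = p.coeff i) (z : F) :
    p.eval (z ^ (r ^ (d * j))) = p.eval z ^ (r ^ (d * j)) := by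
  have h1 : p.map (iterateFrobenius F r (d * j)) = p := by
    ext i
    rw [coeff_map, iterateFrobenius_def]
    induction j with
    | zero => simp
    | succ j ih =>
      rw [show d * (j + 1) = d * j + d by ring, pow_add, pow_mul, ih, h]
  have h2 := eval₂_at_apply (iterateFrobenius F r (d * j)) z (p := p)
  rw [← eval_map, h1, iterateFrobenius_def, iterateFrobenius_def] at h2
  exact h2

theorem res_orbit (r : ℕ) [Fact r.Prime] [CharP F r] (d : ℕ) (hd : 0 < d) (D : ℕ)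
    (p q Λ : ℕ → F[X]) (hp : ∀ t, (p t).natDegree ≤ D) (hq : ∀ t, (q t).natDegree ≤ D)
    (hq0 : ∀ t, q t ≠ 0) (hc : ∀ t c, p t ≠ C c * q t) (hΛ : ∀ t, Λ t ≠ 0) (n : ℕ) (hn : 0 < n)
    (hpn : ∀ t, p (t + n) = p t) (hqn : ∀ t, q (t + n) = q t) (hΛn : ∀ t, Λ (t + n) = Λ t)
    (hpF : ∀ t i, (p t).coeff i ^ (r ^ d) = (p t).coeff i)
    (hqF : ∀ t i, (q t).coeff i ^ (r ^ d) = (q t).coeff i)
    (hΛF : ∀ t i, (Λ t).coeff i ^ (r ^ d) = (Λ t).coeff i) :
    ∃ y : ℕ → F, (∀ t, (q t).eval (y t) ≠ 0 ∧ (Λ t).eval (y t) ≠ 0) ∧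
      ∀ t, (q t).eval (y t) * y (t + 1) = (p t).eval (y t) := by
  classical
  obtain ⟨E, hE⟩ : ∃ E, ∀ i < n, (Λ i).natDegree ≤ E :=
    ⟨∑ i ∈ Finset.range n, (Λ i).natDegree, fun i hi =>
      Finset.single_le_sum (f := fun i => (Λ i).natDegree) (fun _ _ => Nat.zero_le _)
        (Finset.mem_range.mpr hi)⟩
  have hne := comp_ne D p q hp hq hq0 hc
  set ΛΛ : F[X] := ∏ i ∈ Finset.range n, ((comp D p q (i + 1)).2 *
    hom E (Λ i) (comp D p q i).1 (comp D p q i).2) with hΛΛ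
  have hΛΛ0 : ΛΛ ≠ 0 := by
    rw [hΛΛ, Finset.prod_ne_zero_iff]
    intro i hi
    exact mul_ne_zero (hne (i + 1)).1
      (hom_ne_zero E _ _ _ (hΛ i) (hE i (Finset.mem_range.mp hi)) (hne i).1 (hne i).2)
  obtain ⟨j, y₀, hj, hy₀, hy₀Λ⟩ := frob_root r (comp D p q n).1 (comp D p q n).2 ΛΛ (hne n).1
    (hne n).2 hΛΛ0 d hd
  set Q := r ^ (d * j) with hQ
  obtain ⟨y, hy0, hys⟩ : ∃ y : ℕ → F, y 0 = y₀ ∧
      ∀ t, y (t + 1) = (p t).eval (y t) / (q t).eval (y t) :=
    ⟨fun t => Nat.rec y₀ (fun t z => (p t).eval z / (q t).eval z) t, rfl, fun t => rfl⟩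
  have hfac : ∀ i < n, (comp D p q (i + 1)).2.eval y₀ ≠ 0 ∧
      (hom E (Λ i) (comp D p q i).1 (comp D p q i).2).eval y₀ ≠ 0 := by
    intro i hi
    rw [hΛΛ, eval_prod, Finset.prod_ne_zero_iff] at hy₀Λ
    have h1 := hy₀Λ i (Finset.mem_range.mpr hi)
    rw [eval_mul] at h1
    exact ⟨left_ne_zero_of_mul h1, right_ne_zero_of_mul h1⟩
  have hβ : ∀ i ≤ n, (comp D p q i).2.eval y₀ ≠ 0 := by
    intro i hi
    rcases Nat.eq_zero_or_pos i with rfl | h
    · simp [comp]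
    · obtain ⟨i', rfl⟩ : ∃ i', i = i' + 1 := ⟨i - 1, by omega⟩
      exact (hfac i' (by omega)).1
  have hpath : ∀ i ≤ n, (comp D p q i).1.eval y₀ = y i * (comp D p q i).2.eval y₀ ∧
      ∀ l < i, (q l).eval (y l) ≠ 0 := by
    intro i
    induction i with
    | zero => intro _; exact ⟨by simp [comp, hy0], fun l hl => absurd hl (Nat.not_lt_zero l)⟩
    | succ i ih =>
      intro hi
      obtain ⟨h1, h2⟩ := ih (by omega)
      have h3 : (comp D p q (i + 1)).2.eval y₀ = (comp D p q i).2.eval y₀ ^ D * (q i).eval (y i) :=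
        hom_eval D _ _ _ (hq i) _ _ h1
      have h4 : (comp D p q (i + 1)).1.eval y₀ = (comp D p q i).2.eval y₀ ^ D * (p i).eval (y i) :=
        hom_eval D _ _ _ (hp i) _ _ h1
      have h5 : (q i).eval (y i) ≠ 0 := by
        intro h6
        rw [h6, mul_zero] at h3
        exact hβ (i + 1) hi h3
      refine ⟨?_, ?_⟩
      · rw [h3, h4, hys i, mul_left_comm, div_mul_cancel₀ _ h5]
      · intro l hl
        rcases Nat.lt_or_ge l i with h6 | h6
        · exact h2 l h6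
        · rw [show l = i by omega]
          exact h5
  have hqlt : ∀ i < n, (q i).eval (y i) ≠ 0 := fun i hi => (hpath n le_rfl).2 i hi
  have hΛlt : ∀ i < n, (Λ i).eval (y i) ≠ 0 := by
    intro i hi h1
    apply (hfac i hi).2
    rw [hom_eval E _ _ _ (hE i hi) _ _ (hpath i hi.le).1, h1, mul_zero]
  have hyn : y n = y₀ ^ Q := by
    have h1 := (hpath n le_rfl).1
    rw [hy₀] at h1
    exact (mul_right_cancel₀ (hβ n le_rfl) h1).symm
  have hper : ∀ t, y (t + n) = y t ^ Q := by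
    intro t
    induction t with
    | zero => rw [zero_add, hyn, hy0]
    | succ t ih =>
      rw [show t + 1 + n = t + n + 1 by ring, hys, hpn, hqn, ih, fixed_map r d j _ (hpF t),
        fixed_map r d j _ (hqF t), ← div_pow, hys t]
  have hgood : ∀ t, (q t).eval (y t) ≠ 0 ∧ (Λ t).eval (y t) ≠ 0 := by
    intro t
    induction t using Nat.strong_induction_on with
    | _ t ih =>
      rcases Nat.lt_or_ge t n with h1 | h1
      · exact ⟨hqlt t h1, hΛlt t h1⟩
      · obtain ⟨t', rfl⟩ := Nat.exists_eq_add_of_le' h1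
        obtain ⟨h2, h3⟩ := ih t' (by omega)
        rw [hper, hqn, hΛn, fixed_map r d j _ (hqF t'), fixed_map r d j _ (hΛF t')]
        exact ⟨pow_ne_zero _ h2, pow_ne_zero _ h3⟩
  refine ⟨y, hgood, fun t => ?_⟩
  rw [hys, mul_div_cancel₀]
  exact (hgood t).1

end Pool.Agent.MP_b6294e_wc
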