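import Pool.Agent.Lib.MP_b6294e_wc.Above

/-!
# Places for a wandering and for a periodic critical orbit of the base map
-/

set_option linter.style.haveILetI false

namespace Pool.Agent.MP_b6294e_wc

open NumberField NumberField.FinitePlace Height Polynomial Filter Topology

universe u

/-- A valuation ring above a place of the number field generated by `T` where all nonzero elements
of `T` are units; the prime `r` is the residue characteristic. -/
structure Pl {K : Type u} [Field K] [CharZero K] (T : Set K) (V : ValuationSubring K)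
    (r d : ℕ) : Prop where
  hr : r.Prime
  hd : 0 < d
  hrV : (r : K) ∈ V.nonunits
  hT : ∀ z ∈ T, z ∈ V
  hT' : ∀ z ∈ T, z ≠ 0 → z ∉ V.nonunits
  hF : ∀ z ∈ IntermediateField.adjoin ℚ T, z ∈ V → z ^ (r ^ d) - z ∈ V.nonunits

theorem pl_of_place {K : Type u} [Field K] [CharZero K] (T : Set K)
    [NumberField (IntermediateField.adjoin ℚ T)]
    (w : FinitePlace (IntermediateField.adjoin ℚ T))
    (hw : ∀ x ∈ (algebraMap (IntermediateField.adjoin ℚ T) K) ⁻¹' T, x ≠ 0 → w x = 1) :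
    ∃ (V : ValuationSubring K) (r d : ℕ), Pl T V r d ∧
      (∀ z, w z ≤ 1 ↔ algebraMap (IntermediateField.adjoin ℚ T) K z ∈ V) ∧
      (∀ z, w z < 1 ↔ algebraMap (IntermediateField.adjoin ℚ T) K z ∈ V.nonunits) := by
  obtain ⟨V, r, d, hr, hd, hrV, hV1, hV2, hF⟩ := above w
    (algebraMap (IntermediateField.adjoin ℚ T) K)
  refine ⟨V, r, d, ⟨hr, hd, hrV, ?_, ?_, ?_⟩, hV1, hV2⟩
  · intro z hz
    by_cases h0 : z = 0
    · rw [h0]
      exact zero_mem V
    · have h1 := (hV1 ⟨z, IntermediateField.subset_adjoin ℚ T hz⟩).mp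
        (hw _ hz (fun h => h0 (congrArg Subtype.val h))).le
      exact h1
  · intro z hz h0 hcon
    have h1 := hw ⟨z, IntermediateField.subset_adjoin ℚ T hz⟩ hz
      (fun h => h0 (congrArg Subtype.val h))
    have h2 := (hV2 ⟨z, IntermediateField.subset_adjoin ℚ T hz⟩).mpr hcon
    rw [h1] at h2
    exact lt_irrefl _ h2
  · intro z hz hzV
    exact hF ⟨z, hz⟩ ((hV1 ⟨z, hz⟩).mpr hzV)

theorem place_wandering (K : Type u) [Field K] [CharZero K] (halg : Algebra.IsAlgebraic ℚ K)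
    (T : Set K) (hT : T.Finite) (a b u v : K[X]) (huv : u * a + v * b = 1)
    (hdeg : b.natDegree < a.natDegree) (Ta : ∀ n, a.coeff n ∈ T) (Tb : ∀ n, b.coeff n ∈ T)
    (Tu : ∀ n, u.coeff n ∈ T) (Tv : ∀ n, v.coeff n ∈ T) (κ : ℕ → K)
    (hκ : Function.Injective κ) (Tκ : κ 0 ∈ T) (hb0 : ∀ t, b.eval (κ t) ≠ 0)
    (h : ∀ t, b.eval (κ t) * κ (t + 1) = a.eval (κ t)) :
    ∃ (V : ValuationSubring K) (r d n : ℕ), Pl T V r d ∧ 0 < n ∧ (∀ t, κ t ∈ V) ∧
      (∀ t, b.eval (κ t) ∉ V.nonunits) ∧ ∀ t, κ (t + n) - κ t ∈ V.nonunits := by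
  classical
  let k : IntermediateField ℚ K := IntermediateField.adjoin ℚ T
  haveI hfd : FiniteDimensional ℚ k := by
    haveI := hT.to_subtype
    exact IntermediateField.finiteDimensional_adjoin fun x _ => (halg.isAlgebraic x).isIntegral
  haveI : NumberField k := { to_charZero := inferInstance, to_finiteDimensional := hfd }
  let φ : k →+* K := algebraMap k K
  have hφ : Function.Injective φ := (algebraMap k K).injective
  have hTk : ∀ z ∈ T, ∃ z' : k, φ z' = z := fun z hz =>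
    ⟨⟨z, IntermediateField.subset_adjoin ℚ T hz⟩, rfl⟩
  obtain ⟨S₀, hS₀⟩ := exists_places (φ ⁻¹' T) (hT.preimage hφ.injOn)
  obtain ⟨a', ha⟩ := lift_poly φ a fun n => hTk _ (Ta n)
  obtain ⟨b', hb⟩ := lift_poly φ b fun n => hTk _ (Tb n)
  obtain ⟨u', hu⟩ := lift_poly φ u fun n => hTk _ (Tu n)
  obtain ⟨v', hv⟩ := lift_poly φ v fun n => hTk _ (Tv n)
  have hck : ∀ t, ∃ z : k, φ z = κ t := by
    intro t
    induction t with
    | zero => exact hTk _ Tκ
    | succ t ih =>
      obtain ⟨z, hz⟩ := ih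
      refine ⟨a'.eval z / b'.eval z, ?_⟩
      rw [map_div₀, ← eval_map', ← eval_map', ha, hb, hz, ← h t, mul_div_cancel_left₀ _ (hb0 t)]
  choose ck hck using hck
  have hpoly : Function.Injective (Polynomial.map φ) := Polynomial.map_injective φ hφ
  have hkb0 : ∀ t, b'.eval (ck t) ≠ 0 := by
    intro t h0
    apply hb0 t
    rw [← hck, ← hb, eval_map', h0, map_zero]
  have hkh : ∀ t, b'.eval (ck t) * ck (t + 1) = a'.eval (ck t) := by
    intro t
    apply hφ
    rw [map_mul, ← eval_map', ← eval_map', ha, hb, hck, hck, h]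
  have hkinj : Function.Injective ck := by
    intro m m' hmm
    apply hκ
    rw [← hck, ← hck, hmm]
  obtain ⟨n, hn, w, hw, hwn⟩ := exists_return_rat S₀ a' b' ck hkb0 hkh hkinj
  have hTw : ∀ z : k, φ z ∈ T → w z ≤ 1 ∧ (z ≠ 0 → w z = 1) := by
    intro z hz
    refine ⟨?_, hS₀ w hw z hz⟩
    by_cases h0 : z = 0
    · rw [h0, map_zero]; exact zero_le_one
    · exact (hS₀ w hw z hz h0).le
  have hint : ∀ (q : K[X]) (q' : k[X]), q'.map φ = q → (∀ n, q.coeff n ∈ T) → Int w q' := by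
    intro q q' hq hqT n
    refine (hTw _ ?_).1
    rw [← coeff_map, hq]
    exact hqT n
  have hkuv : u' * a' + v' * b' = 1 := by
    apply hpoly
    rw [Polynomial.map_add, Polynomial.map_mul, Polynomial.map_mul, ha, hb, hu, hv, huv,
      Polynomial.map_one]
  have hkdeg : b'.natDegree < a'.natDegree := by
    rw [← natDegree_map_eq_of_injective hφ, ← natDegree_map_eq_of_injective hφ a', ha, hb]
    exact hdeg
  have hklc : w a'.leadingCoeff = 1 := by
    refine (hTw _ ?_).2 ?_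
    · rw [Polynomial.leadingCoeff, ← coeff_map, ha]
      exact Ta _
    · rw [Ne, leadingCoeff_eq_zero]
      intro h0
      rw [h0, natDegree_zero] at hkdeg
      omega
  have horb := integral_orbit (w := w) (fun _ => a') (fun _ => b') (fun _ => u') (fun _ => v') ck
    n hn (fun _ => rfl) (fun _ => rfl) (fun _ => hint _ _ ha Ta)
    (fun _ => hint _ _ hb Tb) (fun _ => hint _ _ hu Tu) (fun _ => hint _ _ hv Tv)
    (fun _ => hkuv) (fun _ => hklc) (fun _ => hkdeg) hkh
    (hTw _ (by rw [hck]; exact Tκ)).1 hwn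
  obtain ⟨V, r, d, hPl, hV1, hV2⟩ := pl_of_place T w (fun x hx => hS₀ w hw x hx)
  refine ⟨V, r, d, n, hPl, hn, ?_, ?_, ?_⟩
  · intro t
    rw [← hck]
    exact (hV1 _).mp (horb t).1
  · intro t
    rw [← hck, ← hb, eval_map']
    intro hcon
    have h1 := (hV2 _).mpr hcon
    have h2 := (horb t).2.1
    rw [h2] at h1
    exact lt_irrefl _ h1
  · intro t
    rw [← hck, ← hck, ← map_sub]
    exact (hV2 _).mp (horb t).2.2

theorem place_periodic (K : Type u) [Field K] [CharZero K] (halg : Algebra.IsAlgebraic ℚ K)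
    (T : Set K) (hT : T.Finite) (a b : K[X]) (hco : IsCoprime a b)
    (hd : 2 ≤ max a.natDegree b.natDegree) (Ta : ∀ n, a.coeff n ∈ T) (Tb : ∀ n, b.coeff n ∈ T)
    (κ : ℕ → K) (Tκ : ∀ t, κ t ∈ T) (Tbκ : ∀ t, b.eval (κ t) ∈ T) (hb0 : ∀ t, b.eval (κ t) ≠ 0)
    (h : ∀ t, b.eval (κ t) * κ (t + 1) = a.eval (κ t)) :
    ∃ (V : ValuationSubring K) (r d : ℕ) (x : ℕ → K), Pl T V r d ∧ Function.Injective x ∧
      (∀ t, b.eval (x t) ≠ 0) ∧ (∀ t, b.eval (x t) * x (t + 1) = a.eval (x t)) ∧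
      ∀ t, x t - κ t ∈ V.nonunits := by
  classical
  let k : IntermediateField ℚ K := IntermediateField.adjoin ℚ T
  haveI hfd : FiniteDimensional ℚ k := by
    haveI := hT.to_subtype
    exact IntermediateField.finiteDimensional_adjoin fun x _ => (halg.isAlgebraic x).isIntegral
  haveI : NumberField k := { to_charZero := inferInstance, to_finiteDimensional := hfd }
  let φ : k →+* K := algebraMap k K
  have hφ : Function.Injective φ := (algebraMap k K).injective
  have hTk : ∀ z ∈ T, ∃ z' : k, φ z' = z := fun z hz =>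
    ⟨⟨z, IntermediateField.subset_adjoin ℚ T hz⟩, rfl⟩
  obtain ⟨S₀, hS₀⟩ := exists_places (φ ⁻¹' T) (hT.preimage hφ.injOn)
  obtain ⟨a', ha⟩ := lift_poly φ a fun n => hTk _ (Ta n)
  obtain ⟨b', hb⟩ := lift_poly φ b fun n => hTk _ (Tb n)
  choose ck hck using fun t => hTk _ (Tκ t)
  have hkb0 : ∀ t, b'.eval (ck t) ≠ 0 := by
    intro t h0
    apply hb0 t
    rw [← hck, ← hb, eval_map', h0, map_zero]
  have hkh : ∀ t, b'.eval (ck t) * ck (t + 1) = a'.eval (ck t) := by
    intro t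
    apply hφ
    rw [map_mul, ← eval_map', ← eval_map', ha, hb, hck, hck, h]
  obtain ⟨n, hn, w, hw, -⟩ := exists_return S₀ (fun t : ℕ => (t : k)) Nat.cast_injective (by
    intro w l s j h0
    refine h0.congr fun m => ?_
    push_cast
    congr 1
    ring)
  have hTw : ∀ z : k, φ z ∈ T → w z ≤ 1 ∧ (z ≠ 0 → w z = 1) := by
    intro z hz
    refine ⟨?_, hS₀ w hw z hz⟩
    by_cases h0 : z = 0
    · rw [h0, map_zero]; exact zero_le_one
    · exact (hS₀ w hw z hz h0).le
  have hint : ∀ (q : K[X]) (q' : k[X]), q'.map φ = q → (∀ n, q.coeff n ∈ T) → Int w q' := by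
    intro q q' hq hqT n
    refine (hTw _ ?_).1
    rw [← coeff_map, hq]
    exact hqT n
  have hco' : IsCoprime a' b' := by
    rw [← ha, ← hb] at hco
    exact (isCoprime_map φ).mp hco
  have hd' : 2 ≤ max a'.natDegree b'.natDegree := by
    rw [← ha, ← hb, natDegree_map_eq_of_injective hφ, natDegree_map_eq_of_injective hφ] at hd
    exact hd
  obtain ⟨B, hB⟩ := exists_escape a' b' hco' hd'
  obtain ⟨δ, hδ, hδ0, hδB⟩ := escape_near w (ck 0) B 1
  obtain ⟨x, hx0, hxs⟩ : ∃ x : ℕ → k, x 0 = ck 0 + (δ : k) ∧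
      ∀ t, x (t + 1) = a'.eval (x t) / b'.eval (x t) :=
    ⟨fun t => Nat.rec (ck 0 + (δ : k)) (fun t z => a'.eval z / b'.eval z) t, rfl, fun t => rfl⟩
  have hck1 : ∀ t, w (ck t) ≤ 1 := fun t => (hTw _ (by rw [hck]; exact Tκ t)).1
  have hbk1 : ∀ t, w (b'.eval (ck t)) = 1 := by
    intro t
    refine (hTw _ ?_).2 (hkb0 t)
    rw [← eval_map', hb, hck]
    exact Tbκ t
  have key : ∀ t, w (x t - ck t) < 1 ∧ w (x t) ≤ 1 ∧ w (b'.eval (x t)) = 1 ∧
      b'.eval (x t) * x (t + 1) = a'.eval (x t) := by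
    have aux : ∀ t, w (x t - ck t) < 1 → w (x t) ≤ 1 ∧ w (b'.eval (x t)) = 1 ∧
      b'.eval (x t) * x (t + 1) = a'.eval (x t) := by
      intro t ht
      have e1 : w (x t) ≤ 1 := by
        have e2 := add_le_max (w := w) (x t - ck t) (ck t)
        rw [sub_add_cancel] at e2
        exact e2.trans (max_le ht.le (hck1 t))
      have e2 : w (b'.eval (x t)) = 1 := by
        refine le_antisymm ((hint _ _ hb Tb).eval_le e1) ?_
        by_contra hcon
        push Not at hcon
        have e3 := (hint _ _ hb Tb).lip e1 (hck1 t)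
        have e4 := sub_le_max (w := w) (b'.eval (x t)) (b'.eval (x t) - b'.eval (ck t))
        rw [sub_sub_cancel, hbk1] at e4
        exact absurd e4 (not_le.mpr (max_lt hcon (e3.trans_lt ht)))
      refine ⟨e1, e2, ?_⟩
      rw [hxs, mul_div_cancel₀]
      intro h0
      rw [h0, map_zero] at e2
      exact zero_ne_one e2
    intro t
    induction t with
    | zero =>
      have e1 : w (x 0 - ck 0) < 1 := by
        rw [hx0, add_sub_cancel_left]
        rw [pow_one] at hδ
        exact (mem_max w δ).mp hδ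
      exact ⟨e1, aux 0 e1⟩
    | succ t ih =>
      obtain ⟨i1, i2, i3, i4⟩ := ih
      have e1 : w (x (t + 1) - ck (t + 1)) < 1 :=
        (step_lip (hint _ _ ha Ta) (hint _ _ hb Tb) i2 (hck1 t) i3 (hck1 (t + 1)) i4
          (hkh t)).trans_lt i1
      exact ⟨e1, aux _ e1⟩
  have hxb : ∀ t, b'.eval (x t) ≠ 0 := by
    intro t h0
    have e2 := (key t).2.2.1
    rw [h0, map_zero] at e2
    exact zero_ne_one e2
  have hxi := hB x hxb (fun t => (key t).2.2.2) (by rw [hx0]; exact hδB)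
  obtain ⟨V, r, d, hPl, hV1, hV2⟩ := pl_of_place T w (fun x hx => hS₀ w hw x hx)
  refine ⟨V, r, d, fun t => φ (x t), hPl, hφ.comp hxi, ?_, ?_, ?_⟩
  · intro t
    dsimp only
    rw [← hb, eval_map']
    exact (_root_.map_ne_zero φ).mpr (hxb t)
  · intro t
    dsimp only
    rw [← hb, ← ha, eval_map', eval_map', ← map_mul, (key t).2.2.2]
  · intro t
    dsimp only
    rw [← hck, ← map_sub]
    exact (hV2 _).mp (key t).1

end Pool.Agent.MP_b6294e_wc
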