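import Pool.Agent.Lib.MP_b6294e_wc.Above
import Pool.Agent.Lib.MP_b6294e_wc.PartB
import Pool.Agent.Lib.MP_b6294e_wc.ResOrbit

/-!
# From a valuation ring of the algebraic closure to dense orbits
-/

set_option linter.style.haveILetI false

namespace Pool.Agent.MP_b6294e_wc

open Polynomial Pool.Agent.MP_b6294e

universe u

theorem eval_mem' {K S : Type*} [Field K] [SetLike S K] [SubringClass S K] (s : S) (q : K[X])
    (hq : ∀ i, q.coeff i ∈ s) {x : K} (hx : x ∈ s) : q.eval x ∈ s := by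
  rw [eval_eq_sum_range]
  exact sum_mem fun i _ => mul_mem (hq i) (pow_mem hx i)

theorem per_of_orbit {A F : Type*} [CommRing A] [Field F] (ρ : A →+* F) (a b : A[X]) (X : ℕ → A)
    (n : ℕ) (hX : ∀ t, b.eval (X t) * X (t + 1) = a.eval (X t)) (hXb : ∀ t, ρ (b.eval (X t)) ≠ 0)
    (hXn : ρ (X n) = ρ (X 0)) : ∀ t, ρ (X (t + n)) = ρ (X t) := by
  intro t
  induction t with
  | zero => rw [zero_add, hXn]
  | succ t ih =>
    have e1 := congrArg ρ (hX (t + n))
    have e2 := congrArg ρ (hX t)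
    rw [map_mul, ← eval_map', ← eval_map', ih] at e1
    rw [map_mul, ← eval_map', ← eval_map'] at e2
    have e3 : (b.map ρ).eval (ρ (X t)) ≠ 0 := by
      rw [eval_map']
      exact hXb t
    rw [show t + 1 + n = t + n + 1 by ring]
    exact mul_left_cancel₀ e3 (e1.trans e2.symm)

theorem orbit_mem {K S : Type*} [Field K] [SetLike S K] [SubfieldClass S K] (s : S) (a b : K[X])
    (ha : ∀ i, a.coeff i ∈ s) (hb : ∀ i, b.coeff i ∈ s) (x : ℕ → K) (h0 : x 0 ∈ s)
    (hx : ∀ t, b.eval (x t) * x (t + 1) = a.eval (x t)) (hbx : ∀ t, b.eval (x t) ≠ 0) :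
    ∀ t, x t ∈ s := by
  intro t
  induction t with
  | zero => exact h0
  | succ t ih =>
    rw [eq_div_of_mul_eq (hbx t) ((mul_comm _ _).trans (hx t))]
    exact div_mem (eval_mem' s a ha ih) (eval_mem' s b hb ih)

/-- The compositions of the fibre maps over `ξ` are not the identity: either one of the maps has
degree at least 2 modulo the place, or `ξ` is periodic and the compositions over multiples of the
period are not the identity. -/
def NotId {K : Type u} [Field K] (V : ValuationSubring K) (T : Set K) (a₁ b₁ : K[X][X]) (n : ℕ)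
    (ξ : ℕ → K) : Prop :=
  (∃ (t₁ : ℕ) (u v : K[X]) (i₁ : ℕ), (∀ i, u.coeff i ∈ V) ∧ (∀ i, v.coeff i ∈ V) ∧
    u * a₁.map (evalRingHom (ξ t₁)) + v * b₁.map (evalRingHom (ξ t₁)) = 1 ∧ 2 ≤ i₁ ∧
    ((a₁.map (evalRingHom (ξ t₁))).coeff i₁ ∉ V.nonunits ∨
      (b₁.map (evalRingHom (ξ t₁))).coeff i₁ ∉ V.nonunits)) ∨
  ((∀ t, ξ (t + n) = ξ t) ∧ (∀ t, ξ t ∈ T) ∧ ∀ S, 0 < S → n ∣ S →
    (comp (max a₁.natDegree b₁.natDegree) (fun i => a₁.map (evalRingHom (ξ i)))
      (fun i => b₁.map (evalRingHom (ξ i))) S).1 ≠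
    X * (comp (max a₁.natDegree b₁.natDegree) (fun i => a₁.map (evalRingHom (ξ i)))
      (fun i => b₁.map (evalRingHom (ξ i))) S).2)

theorem stage2 (K : Type u) [Field K] [CharZero K] [IsAlgClosed K]
    (halg : Algebra.IsAlgebraic ℚ K) (V : ValuationSubring K) (r d : ℕ) (hr : r.Prime)
    (hd : 0 < d) (hrV : (r : K) ∈ V.nonunits) (T : Set K) (hT : T.Finite) (hTV : ∀ z ∈ T, z ∈ V)
    (hF : ∀ z ∈ IntermediateField.adjoin ℚ T, z ∈ V → z ^ (r ^ d) - z ∈ V.nonunits)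
    (a₀ b₀ : K[X]) (a₁ b₁ G : K[X][X])
    (Ta₀ : ∀ i, a₀.coeff i ∈ T) (Tb₀ : ∀ i, b₀.coeff i ∈ T)
    (Ta₁ : ∀ i j, (a₁.coeff i).coeff j ∈ T) (Tb₁ : ∀ i j, (b₁.coeff i).coeff j ∈ T)
    (TG : ∀ i j, (G.coeff i).coeff j ∈ T)
    (n : ℕ) (hn : 0 < n) (ξ x : ℕ → K) (Tξ : ξ 0 ∈ T)
    (hξ : ∀ t, b₀.eval (ξ t) * ξ (t + 1) = a₀.eval (ξ t))
    (Vξ : ∀ t, ξ t ∈ V) (Vb : ∀ t, b₀.eval (ξ t) ∉ V.nonunits)
    (hξn : ξ n - ξ 0 ∈ V.nonunits) (hcr : (wr a₀ b₀).eval (ξ 0) = 0)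
    (hx : ∀ t, b₀.eval (x t) * x (t + 1) = a₀.eval (x t)) (hinj : Function.Injective x)
    (hxξ : ∀ t, x t - ξ t ∈ V.nonunits)
    (hΛ : ∀ t, ∃ i, ((wr a₁ b₁ * G).map (evalRingHom (ξ t))).coeff i ∉ V.nonunits)
    (hNI : NotId V T a₁ b₁ n ξ) :
    ∃ y : ℕ → K, (∀ t, b₁.evalEval (x t) (y t) ≠ 0) ∧
      (∀ t, b₁.evalEval (x t) (y t) * y (t + 1) = a₁.evalEval (x t) (y t)) ∧
      (∀ t, G.evalEval (x t) (y t) ≠ 0) ∧
      ∀ P : K[X][X], (∀ t, P.evalEval (x t) (y t) = 0) → P = 0 := by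
  classical
  have hTL : ∀ z ∈ T, z ∈ IntermediateField.adjoin ℚ T := fun z hz =>
    IntermediateField.subset_adjoin ℚ T hz
  have h0n : (0 : K) ∈ V.nonunits := by
    rw [ValuationSubring.mem_nonunits_iff, map_zero]
    exact zero_lt_one
  haveI : Fact r.Prime := ⟨hr⟩
  let iV : V →+* K := V.subtype
  have hiV : Function.Injective iV := Subtype.val_injective
  let F := IsLocalRing.ResidueField V
  let ρ : V →+* F := IsLocalRing.residue V
  have hρ : ∀ z : V, ρ z = 0 ↔ iV z ∈ V.nonunits := by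
    intro z
    rw [ValuationSubring.mem_nonunits_iff]
    exact (IsLocalRing.residue_eq_zero_iff z).trans (V.valuation_lt_one_iff z)
  haveI : CharP F r := by
    rw [CharP.charP_iff_prime_eq_zero hr]
    have h1 := (hρ (r : V)).mpr (by rw [map_natCast]; exact hrV)
    rwa [map_natCast] at h1
  have hLb : ∀ t, b₀.eval (ξ t) ≠ 0 := fun t h => Vb t (by rw [h]; exact h0n)
  -- lifts to the valuation ring
  obtain ⟨a₀', ha₀⟩ := lift_poly iV a₀ fun i => ⟨⟨_, hTV _ (Ta₀ i)⟩, rfl⟩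
  obtain ⟨b₀', hb₀⟩ := lift_poly iV b₀ fun i => ⟨⟨_, hTV _ (Tb₀ i)⟩, rfl⟩
  obtain ⟨a₁', ha₁⟩ := lift_poly₂ iV a₁ fun i j => ⟨⟨_, hTV _ (Ta₁ i j)⟩, rfl⟩
  obtain ⟨b₁', hb₁⟩ := lift_poly₂ iV b₁ fun i j => ⟨⟨_, hTV _ (Tb₁ i j)⟩, rfl⟩
  obtain ⟨G', hG⟩ := lift_poly₂ iV G fun i j => ⟨⟨_, hTV _ (TG i j)⟩, rfl⟩
  let ξ' : ℕ → V := fun t => ⟨ξ t, Vξ t⟩
  have hξ'' : ∀ t, iV (ξ' t) = ξ t := fun t => rfl
  let Ξ : ℕ → F := fun t => ρ (ξ' t)
  have hξ' : ∀ t, b₀'.eval (ξ' t) * ξ' (t + 1) = a₀'.eval (ξ' t) := by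
    intro t
    apply hiV
    rw [map_mul, ← eval_map', ← eval_map', ha₀, hb₀]
    exact hξ t
  have hb₀' : ∀ t, ρ (b₀'.eval (ξ' t)) ≠ 0 := by
    intro t h
    rw [hρ, ← eval_map', hb₀] at h
    exact Vb t h
  have hΞn : ∀ t, Ξ (t + n) = Ξ t := by
    refine per_of_orbit ρ a₀' b₀' ξ' n hξ' hb₀' ?_
    rw [← sub_eq_zero, ← map_sub, hρ, map_sub]
    exact hξn
  have hΞj : ∀ j, Ξ (j * n) = Ξ 0 := by
    intro j
    induction j with
    | zero => rw [zero_mul]
    | succ j ih => rw [show (j + 1) * n = j * n + n by ring, hΞn, ih]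
  let p : ℕ → F[X] := fun t => (a₁'.map (mapRingHom ρ)).map (evalRingHom (Ξ t))
  let q : ℕ → F[X] := fun t => (b₁'.map (mapRingHom ρ)).map (evalRingHom (Ξ t))
  let g : ℕ → F[X] := fun t => (G'.map (mapRingHom ρ)).map (evalRingHom (Ξ t))
  let Λ : ℕ → F[X] := fun t => wr (p t) (q t) * g t
  have hfix : ∀ z : V, iV z ∈ IntermediateField.adjoin ℚ T → ρ z ^ (r ^ d) = ρ z := by
    intro z hz
    rw [← sub_eq_zero, ← map_pow, ← map_sub, hρ, map_sub, map_pow]
    exact hF _ hz z.2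
  have hξL := orbit_mem (IntermediateField.adjoin ℚ T) a₀ b₀ (fun i => hTL _ (Ta₀ i))
    (fun i => hTL _ (Tb₀ i)) ξ (hTL _ Tξ) hξ hLb
  have hcoef : ∀ (Q : K[X][X]) (Q' : V[X][X]), Q'.map (mapRingHom iV) = Q →
      (∀ i j, (Q.coeff i).coeff j ∈ T) → ∀ t i,
      ((Q'.map (mapRingHom ρ)).map (evalRingHom (Ξ t))).coeff i ^ (r ^ d) =
        ((Q'.map (mapRingHom ρ)).map (evalRingHom (Ξ t))).coeff i := by
    intro Q Q' hQ hQT t i
    have e1 : ((Q'.map (mapRingHom ρ)).map (evalRingHom (Ξ t))).coeff i =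
        ρ ((Q'.coeff i).eval (ξ' t)) := by
      rw [coeff_map, coeff_map, coe_evalRingHom, coe_mapRingHom]
      exact eval_map' ρ _ _
    rw [e1]
    apply hfix
    have e2 : (Q'.coeff i).map iV = Q.coeff i := by
      rw [← hQ, coeff_map, coe_mapRingHom]
    rw [← eval_map', e2]
    exact eval_mem' _ _ (fun j => hTL _ (hQT i j)) (hξL t)
  have hΦ : ∀ w : F[X], (∀ i, w.coeff i ^ (r ^ d) = w.coeff i) ↔
      w.map (iterateFrobenius F r d) = w := by
    intro w
    rw [Polynomial.ext_iff]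
    simp only [coeff_map, iterateFrobenius_def]
  have hpF := hcoef a₁ a₁' ha₁ Ta₁
  have hqF := hcoef b₁ b₁' hb₁ Tb₁
  have hgF := hcoef G G' hG TG
  have hΛF : ∀ t i, (Λ t).coeff i ^ (r ^ d) = (Λ t).coeff i := by
    intro t
    rw [hΦ]
    have e1 := (hΦ (p t)).mp (hpF t)
    have e2 := (hΦ (q t)).mp (hqF t)
    have e3 := (hΦ (g t)).mp (hgF t)
    change (wr (p t) (q t) * g t).map _ = wr (p t) (q t) * g t
    rw [Polynomial.map_mul, map_wr, e1, e2, e3]
  have hcomm : ∀ (Q : V[X][X]) (z : V), (Q.map (evalRingHom z)).map ρ =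
      (Q.map (mapRingHom ρ)).map (evalRingHom (ρ z)) := by
    intro Q z
    ext i
    rw [coeff_map, coeff_map, coeff_map, coeff_map, coe_evalRingHom, coe_evalRingHom,
      coe_mapRingHom]
    exact (eval_map' ρ _ _).symm
  have hcommK : ∀ (Q : V[X][X]) (z : V), (Q.map (evalRingHom z)).map iV =
      (Q.map (mapRingHom iV)).map (evalRingHom (iV z)) := by
    intro Q z
    ext i
    rw [coeff_map, coeff_map, coeff_map, coeff_map, coe_evalRingHom, coe_evalRingHom,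
      coe_mapRingHom, eval_map']
  have hΛ0 : ∀ t, Λ t ≠ 0 := by
    intro t h
    obtain ⟨i, hi⟩ := hΛ t
    apply hi
    have e1 : ((wr a₁' b₁' * G').map (evalRingHom (ξ' t))).map ρ = 0 := by
      rw [hcomm, Polynomial.map_mul, Polynomial.map_mul, map_wr, map_wr]
      exact h
    have e2 : ((wr a₁' b₁' * G').map (evalRingHom (ξ' t))).map iV =
        (wr a₁ b₁ * G).map (evalRingHom (ξ t)) := by
      rw [hcommK, Polynomial.map_mul (mapRingHom iV), map_wr (mapRingHom iV), ha₁, hb₁, hG, hξ'']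
    rw [← e2, coeff_map, ← hρ, ← coeff_map, e1, coeff_zero]
  have hwr0 : ∀ t, wr (p t) (q t) ≠ 0 := fun t h => hΛ0 t (by
    change wr (p t) (q t) * g t = 0
    rw [h, zero_mul])
  have hq0 : ∀ t, q t ≠ 0 := by
    intro t h
    apply hwr0 t
    rw [h]
    simp [wr]
  have hc : ∀ t c, p t ≠ C c * q t := by
    intro t c h
    apply hwr0 t
    rw [h]
    unfold wr
    rw [derivative_C_mul]
    ring
  obtain ⟨yb, hyb, hys⟩ := res_orbit r d hd (max a₁'.natDegree b₁'.natDegree) p q Λ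
    (fun t => natDegree_map_le.trans (natDegree_map_le.trans (le_max_left _ _)))
    (fun t => natDegree_map_le.trans (natDegree_map_le.trans (le_max_right _ _)))
    hq0 hc hΛ0 n hn
    (fun t => by change Polynomial.map _ _ = Polynomial.map _ _; rw [hΞn])
    (fun t => by change Polynomial.map _ _ = Polynomial.map _ _; rw [hΞn])
    (fun t => by
      change wr (Polynomial.map _ _) (Polynomial.map _ _) * Polynomial.map _ _ =
        wr (Polynomial.map _ _) (Polynomial.map _ _) * Polynomial.map _ _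
      rw [hΞn])
    hpF hqF hΛF
  obtain ⟨y₀, hy₀⟩ : ∃ y₀ : V, ρ y₀ = yb 0 := IsLocalRing.residue_surjective (yb 0)
  -- the discrete valuation ring
  set T' : Set K := T ∪ {x 0, iV y₀} with hT'
  have hT'f : T'.Finite := hT.union (Set.toFinite _)
  have hT'L : ∀ z ∈ T', z ∈ IntermediateField.adjoin ℚ T' := fun z hz =>
    IntermediateField.subset_adjoin ℚ T' hz
  have hTT' : ∀ z ∈ T, z ∈ IntermediateField.adjoin ℚ T' := fun z hz => hT'L z (Or.inl hz)
  obtain ⟨A, _, _, _, _, ι, hι, hfin, hιV, hιm, hlift⟩ := ring_in K halg V r hr hrV T' hT'f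
  have hVx : ∀ t, x t ∈ V := by
    intro t
    have e1 : x t - ξ t ∈ V := V.nonunits_subset (hxξ t)
    have e2 := add_mem e1 (Vξ t)
    rwa [sub_add_cancel] at e2
  have hxn : ∀ t, b₀.eval (x t) ≠ 0 := by
    intro t h
    let x' : V := ⟨x t, hVx t⟩
    have e1 : ρ x' = ρ (ξ' t) := by
      rw [← sub_eq_zero, ← map_sub, hρ, map_sub]
      exact hxξ t
    apply hb₀' t
    rw [← eval_map', ← e1, eval_map', hρ, ← eval_map', hb₀]
    change b₀.eval (x t) ∈ V.nonunits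
    rw [h]
    exact h0n
  have hxL := orbit_mem (IntermediateField.adjoin ℚ T') a₀ b₀ (fun i => hTT' _ (Ta₀ i))
    (fun i => hTT' _ (Tb₀ i)) x (hT'L _ (Or.inr (Or.inl rfl))) hx hxn
  choose X hX using fun t => hlift _ (hxL t) (hVx t)
  obtain ⟨Y₀, hY₀⟩ := hlift _ (hT'L (iV y₀) (Or.inr (Or.inr rfl))) y₀.2
  obtain ⟨a₀'', ha₀''⟩ := lift_poly ι a₀ fun i => hlift _ (hTT' _ (Ta₀ i)) (hTV _ (Ta₀ i))
  obtain ⟨b₀'', hb₀''⟩ := lift_poly ι b₀ fun i => hlift _ (hTT' _ (Tb₀ i)) (hTV _ (Tb₀ i))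
  obtain ⟨a₁'', ha₁''⟩ := lift_poly₂ ι a₁ fun i j =>
    hlift _ (hTT' _ (Ta₁ i j)) (hTV _ (Ta₁ i j))
  obtain ⟨b₁'', hb₁''⟩ := lift_poly₂ ι b₁ fun i j =>
    hlift _ (hTT' _ (Tb₁ i j)) (hTV _ (Tb₁ i j))
  obtain ⟨G'', hG''⟩ := lift_poly₂ ι G fun i j => hlift _ (hTT' _ (TG i j)) (hTV _ (TG i j))
  let ιV : A →+* V := ι.codRestrict V hιV
  have hιVι : iV.comp ιV = ι := RingHom.ext fun z => rfl
  let ρA : A →+* F := ρ.comp ιV
  have hρA : ∀ z, z ∈ IsLocalRing.maximalIdeal A ↔ ρA z = 0 := by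
    intro z
    rw [hιm]
    exact (hρ (ιV z)).symm
  have hlow : ∀ (Q : K[X]) (Q' : V[X]) (Q'' : A[X]), Q'.map iV = Q → Q''.map ι = Q →
      Q''.map ρA = Q'.map ρ := by
    intro Q Q' Q'' h1 h2
    have e1 : Q''.map ιV = Q' := by
      apply Polynomial.map_injective iV hiV
      rw [Polynomial.map_map, hιVι, h1, h2]
    rw [← e1, Polynomial.map_map]
  have hlow₂ : ∀ (Q : K[X][X]) (Q' : V[X][X]) (Q'' : A[X][X]), Q'.map (mapRingHom iV) = Q →
      Q''.map (mapRingHom ι) = Q → Q''.map (mapRingHom ρA) = Q'.map (mapRingHom ρ) := by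
    intro Q Q' Q'' h1 h2
    ext1 i
    rw [coeff_map, coeff_map, coe_mapRingHom, coe_mapRingHom]
    refine hlow (Q.coeff i) _ _ ?_ ?_
    · rw [← h1, coeff_map, coe_mapRingHom]
    · rw [← h2, coeff_map, coe_mapRingHom]
  have hρX : ∀ t, ρA (X t) = Ξ t := by
    intro t
    change ρ (ιV (X t)) = ρ (ξ' t)
    rw [← sub_eq_zero, ← map_sub, hρ, map_sub]
    change ι (X t) - ξ t ∈ V.nonunits
    rw [hX]
    exact hxξ t
  have hunit : ∀ z, ρA z ≠ 0 → IsUnit z := by
    intro z hz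
    by_contra hcon
    exact hz ((hρA z).mp ((IsLocalRing.mem_maximalIdeal z).mpr hcon))
  have hXeq : ∀ t, b₀''.eval (X t) * X (t + 1) = a₀''.eval (X t) := by
    intro t
    apply hι
    rw [map_mul, ← eval_map', ← eval_map', ha₀'', hb₀'', hX, hX]
    exact hx t
  have hXi : Function.Injective X := fun i j hij => hinj (by rw [← hX, ← hX, hij])
  have hperX : ∀ t, ρA (X (t + n)) = ρA (X t) := fun t => by rw [hρX, hρX, hΞn]
  have hmaxA : max a₁''.natDegree b₁''.natDegree = max a₁.natDegree b₁.natDegree := by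
    have hι' : Function.Injective (mapRingHom ι) := Polynomial.map_injective ι hι
    rw [← ha₁'', ← hb₁'', natDegree_map_eq_of_injective hι', natDegree_map_eq_of_injective hι']
  have hbX : ∀ t, IsUnit (b₀''.eval (X t)) := fun t => hunit _ (by
    rw [← eval_map', hlow _ _ _ hb₀ hb₀'', hρX, eval_map']
    exact hb₀' t)
  have hNI' : ∀ S, 0 < S → n ∣ S → ∃ s, ∀ T, ∃ t, T ≤ t ∧ ∃ i,
      ((comp (max a₁''.natDegree b₁''.natDegree) (fun i => a₁''.map (evalRingHom (X (t + i))))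
        (fun i => b₁''.map (evalRingHom (X (t + i)))) S).1 - Polynomial.X *
        (comp (max a₁''.natDegree b₁''.natDegree) (fun i => a₁''.map (evalRingHom (X (t + i))))
          (fun i => b₁''.map (evalRingHom (X (t + i)))) S).2).coeff i ∉
        IsLocalRing.maximalIdeal A ^ s := by
    rcases hNI with ⟨t₁, u, v, i₁, Vu, Vv, huv, hi₁, hlc⟩ | ⟨hper, Tξt, hid⟩
    · obtain ⟨u', hu⟩ := lift_poly iV u fun i => ⟨⟨_, Vu i⟩, rfl⟩
      obtain ⟨v', hv⟩ := lift_poly iV v fun i => ⟨⟨_, Vv i⟩, rfl⟩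
      have hcoV : u' * a₁'.map (evalRingHom (ξ' t₁)) + v' * b₁'.map (evalRingHom (ξ' t₁)) = 1 := by
        apply Polynomial.map_injective iV hiV
        rw [Polynomial.map_add, Polynomial.map_mul, Polynomial.map_mul, hcommK, hcommK, ha₁, hb₁,
          hu, hv, Polynomial.map_one]
        exact huv
      have hcoF : IsCoprime (p t₁) (q t₁) := by
        refine ⟨u'.map ρ, v'.map ρ, ?_⟩
        have e1 := congrArg (Polynomial.map ρ) hcoV
        rw [Polynomial.map_add, Polynomial.map_mul, Polynomial.map_mul, hcomm, hcomm,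
          Polynomial.map_one] at e1
        exact e1
      have hlead : ∀ (Q : K[X][X]) (Q' : V[X][X]), Q'.map (mapRingHom iV) = Q →
          (Q.map (evalRingHom (ξ t₁))).coeff i₁ ∉ V.nonunits →
          2 ≤ ((Q'.map (mapRingHom ρ)).map (evalRingHom (Ξ t₁))).natDegree := by
        intro Q Q' h1 h2
        refine hi₁.trans (le_natDegree_of_ne_zero ?_)
        rw [← hcomm, coeff_map]
        intro h3
        apply h2
        rw [hρ, ← coeff_map, hcommK, h1] at h3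
        exact h3
      have hdegF : 2 ≤ max (p t₁).natDegree (q t₁).natDegree := by
        rcases hlc with h | h
        · exact (hlead _ _ ha₁ h).trans (le_max_left _ _)
        · exact (hlead _ _ hb₁ h).trans (le_max_right _ _)
      exact notId_of_residue ρA hρA a₁'' b₁'' n hn X hperX p q
        (fun t => by rw [hlow₂ _ _ _ ha₁ ha₁'', hρX]) (fun t => by rw [hlow₂ _ _ _ hb₁ hb₁'', hρX])
        hwr0 t₁ hcoF hdegF
    · choose Z hZ using fun t => hlift _ (hTT' _ (Tξt t)) (hTV _ (Tξt t))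
      have hZeq : ∀ t, b₀''.eval (Z t) * Z (t + 1) = a₀''.eval (Z t) := by
        intro t
        apply hι
        rw [map_mul, ← eval_map', ← eval_map', ha₀'', hb₀'', hZ, hZ]
        exact hξ t
      have hZρ : ∀ t, ρA (Z t) = Ξ t := by
        intro t
        change ρ (ιV (Z t)) = ρ (ξ' t)
        congr 1
        apply hiV
        exact hZ t
      have hcommι : ∀ (Q : A[X][X]) (z : A), (Q.map (evalRingHom z)).map ι =
          (Q.map (mapRingHom ι)).map (evalRingHom (ι z)) := by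
        intro Q z
        ext i
        rw [coeff_map, coeff_map, coeff_map, coeff_map, coe_evalRingHom, coe_evalRingHom,
          coe_mapRingHom, eval_map']
      refine notId_of_limit a₀'' b₀'' a₁'' b₁'' _ n hn X Z hbX hXeq
        (fun t => hunit _ (by
          rw [← eval_map', hlow _ _ _ hb₀ hb₀'', hZρ, eval_map']
          exact hb₀' t))
        hZeq (fun t => hι (by rw [hZ, hZ, hper])) ?_ ?_ ?_
      · apply hι
        rw [map_zero, ← eval_map', map_wr, ha₀'', hb₀'', hZ]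
        exact hcr
      · rw [hρA, map_sub, hρX, hZρ, sub_self]
      · intro S hS hnS hcon
        apply hid S hS hnS
        have e1 := congrArg (Polynomial.map ι) hcon
        rw [Polynomial.map_mul, Polynomial.map_X, (comp_map ι _ _ _ S).1,
          (comp_map ι _ _ _ S).2] at e1
        have e2 : (fun i => (a₁''.map (evalRingHom (Z i))).map ι) =
            fun i => a₁.map (evalRingHom (ξ i)) := by
          funext i
          rw [hcommι, ha₁'', hZ]
        have e3 : (fun i => (b₁''.map (evalRingHom (Z i))).map ι) =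
            fun i => b₁.map (evalRingHom (ξ i)) := by
          funext i
          rw [hcommι, hb₁'', hZ]
        rw [e2, e3, hmaxA] at e1
        exact e1
  obtain ⟨z, hz, hzG, hzP⟩ := partB (K := K) (F := F) hfin ι hι ρA hρA a₀'' b₀'' a₁'' b₁'' G'' n
    hn X hbX hXeq hXi
    ((hρA _).mpr (by
      have e1 := hΞn 0
      rw [zero_add] at e1
      rw [map_sub, hρX, hρX, e1, sub_self]))
    (fun j => (hρA _).mpr (by
      rw [← eval_map', map_wr, hlow _ _ _ hb₀ hb₀'', hlow _ _ _ ha₀ ha₀'', hρX, hΞj, ← map_wr,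
        eval_map', hρ, ← eval_map', map_wr, ha₀, hb₀]
      change (wr a₀ b₀).eval (ξ 0) ∈ V.nonunits
      rw [hcr]
      exact h0n))
    Y₀ yb (by
      rw [← hy₀]
      change ρ (ιV Y₀) = ρ y₀
      congr 1
      apply hiV
      exact hY₀)
    p q (fun t => by rw [hlow₂ _ _ _ ha₁ ha₁'', hρX]) (fun t => by rw [hlow₂ _ _ _ hb₁ hb₁'', hρX])
    hys (fun t => (hyb t).1)
    (fun t => by
      rw [hlow₂ _ _ _ hG hG'', hρX]
      exact (hyb t).2)
    hNI'
  refine ⟨fun t => ι (z t), ?_, ?_, ?_, ?_⟩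
  · intro t
    dsimp only
    rw [← hX, ← hb₁'', evalEval_map']
    exact ((hz.1 t).map ι).ne_zero
  · intro t
    dsimp only
    rw [← hX, ← hb₁'', ← ha₁'', evalEval_map', evalEval_map', ← map_mul, hz.2 t]
  · intro t
    dsimp only
    rw [← hX, ← hG'', evalEval_map']
    exact ((hzG t).map ι).ne_zero
  · intro P hP
    refine hzP P fun t => ?_
    rw [hX]
    exact hP t

end Pool.Agent.MP_b6294e_wc
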