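import Mathlib

/-!
# Two orbits over the same base orbit that approach each other in a local ring

If two sequences of points `(x_t, y_t)` and `(x_t, y'_t)` of a Noetherian local domain satisfy
`y_t ≠ y'_t` and `y_t - y'_t → 0`, and `x_t` is recurrent and takes infinitely many values, then
one of the two sequences is Zariski dense in the plane.
-/

set_option linter.style.haveILetI false

namespace Pool.Agent.MP_b6294e_wc

open Polynomial

section Descend

variable {A K : Type*} [CommRing A] [IsDomain A] [Field K]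

/-- A plane curve over `K` with many points over `A`: there is such a curve over `A`. -/
theorem descend (ι : A →+* K) (hι : Function.Injective ι) (P : K[X][X]) (hP : P ≠ 0) :
    ∃ Q : A[X][X], Q ≠ 0 ∧ ∀ x y : A, P.evalEval (ι x) (ι y) = 0 → Q.evalEval x y = 0 := by
  classical
  let L := FractionRing A
  letI : Algebra L K := (IsFractionRing.lift hι : L →+* K).toAlgebra
  have hLK : ∀ a : A, algebraMap L K (algebraMap A L a) = ι a := fun a =>
    IsFractionRing.lift_algebraMap hι a
  obtain ⟨j₀, hj₀⟩ : ∃ j, P.coeff j ≠ 0 := by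
    by_contra hcon
    push Not at hcon
    exact hP (Polynomial.ext fun j => by rw [hcon j, coeff_zero])
  obtain ⟨i₀, hi₀⟩ : ∃ i, (P.coeff j₀).coeff i ≠ 0 := by
    by_contra hcon
    push Not at hcon
    exact hj₀ (Polynomial.ext fun j => by rw [hcon j, coeff_zero])
  obtain ⟨φ, hφ⟩ : ∃ φ : K →ₗ[L] L, φ ((P.coeff j₀).coeff i₀) ≠ 0 := by
    by_contra hcon
    push Not at hcon
    exact hi₀ ((Module.forall_dual_apply_eq_zero_iff L _).mp hcon)
  set N := P.natDegree + 1 with hN
  set M := (Finset.range N).sup (fun j => (P.coeff j).natDegree) + 1 with hM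
  obtain ⟨D, hD⟩ := IsLocalization.exist_integer_multiples (nonZeroDivisors A)
    ((Finset.range N) ×ˢ (Finset.range M)) (fun s : ℕ × ℕ => φ ((P.coeff s.1).coeff s.2))
  have hD0 : algebraMap A L (D : A) ≠ 0 := by
    rw [Ne, map_eq_zero_iff _ (IsFractionRing.injective A L)]
    exact nonZeroDivisors.coe_ne_zero D
  have hq : ∀ s : ℕ × ℕ, ∃ q : A, s ∈ (Finset.range N) ×ˢ (Finset.range M) →
      algebraMap A L q = algebraMap A L (D : A) * φ ((P.coeff s.1).coeff s.2) := by
    intro s
    by_cases hs : s ∈ (Finset.range N) ×ˢ (Finset.range M)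
    · obtain ⟨r, hr⟩ := hD s hs
      exact ⟨r, fun _ => by rw [hr, Algebra.smul_def]⟩
    · exact ⟨0, fun h => absurd h hs⟩
  choose q hq using hq
  have hNj : j₀ ∈ Finset.range N := by
    rw [Finset.mem_range, hN, Nat.lt_succ_iff]
    exact le_natDegree_of_ne_zero hj₀
  have hMi : i₀ ∈ Finset.range M := by
    rw [Finset.mem_range, hM, Nat.lt_succ_iff]
    exact (le_natDegree_of_ne_zero hi₀).trans
      (Finset.le_sup (f := fun j => (P.coeff j).natDegree) hNj)
  refine ⟨∑ j ∈ Finset.range N, ∑ i ∈ Finset.range M, C (C (q (j, i)) * X ^ i) * X ^ j, ?_, ?_⟩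
  · intro h0
    have h1 := congrArg (fun p : A[X][X] => (p.coeff j₀).coeff i₀) h0
    simp only [finsetSum_coeff, coeff_C_mul, coeff_X_pow, mul_ite, mul_one, mul_zero,
      coeff_zero] at h1
    rw [Finset.sum_eq_single j₀, Finset.sum_eq_single i₀] at h1
    · simp only [if_true, coeff_C_mul, coeff_X_pow, mul_one] at h1
      have h2 := hq (j₀, i₀) (Finset.mem_product.mpr ⟨hNj, hMi⟩)
      rw [h1, map_zero] at h2
      rcases mul_eq_zero.mp h2.symm with h3 | h3
      · exact hD0 h3
      · exact hφ h3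
    · intro i _ hi
      simp only [if_true, coeff_C_mul, coeff_X_pow]
      rw [if_neg (Ne.symm hi), mul_zero]
    · exact fun h => absurd hMi h
    · intro j _ hj
      refine Finset.sum_eq_zero fun i _ => ?_
      rw [if_neg (Ne.symm hj), coeff_zero]
    · exact fun h => absurd hNj h
  · intro x y hxy
    apply IsFractionRing.injective A L
    rw [map_zero]
    have h1 : P.evalEval (ι x) (ι y) = ∑ j ∈ Finset.range N, ∑ i ∈ Finset.range M,
        (P.coeff j).coeff i * ι x ^ i * ι y ^ j := by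
      rw [evalEval, eval_eq_sum_range (p := P), eval_finsetSum]
      refine Finset.sum_congr rfl fun j hj => ?_
      rw [← C_pow, eval_mul, eval_C, eval_eq_sum_range' (n := M), Finset.sum_mul]
      rw [hM, Nat.lt_succ_iff]
      exact Finset.le_sup (f := fun j => (P.coeff j).natDegree) hj
    have h2 : ∀ a : A, ∀ c : K, φ (c * ι a) = φ c * algebraMap A L a := by
      intro a c
      rw [← hLK, mul_comm, ← Algebra.smul_def, map_smul, smul_eq_mul, mul_comm]
    have h3 : algebraMap A L (∑ j ∈ Finset.range N, ∑ i ∈ Finset.range M,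
        q (j, i) * x ^ i * y ^ j) = algebraMap A L D * φ (P.evalEval (ι x) (ι y)) := by
      rw [h1, map_sum, map_sum, Finset.mul_sum]
      refine Finset.sum_congr rfl fun j hj => ?_
      rw [map_sum, map_sum, Finset.mul_sum]
      refine Finset.sum_congr rfl fun i hi => ?_
      rw [map_mul, map_mul, hq (j, i) (Finset.mem_product.mpr ⟨hj, hi⟩), ← map_pow ι,
        ← map_pow ι, h2, h2]
      ring
    have h4 : (∑ j ∈ Finset.range N, ∑ i ∈ Finset.range M,
        C (C (q (j, i)) * X ^ i) * X ^ j : A[X][X]).evalEval x y =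
        ∑ j ∈ Finset.range N, ∑ i ∈ Finset.range M, q (j, i) * x ^ i * y ^ j := by
      rw [evalEval, eval_finsetSum, eval_finsetSum]
      refine Finset.sum_congr rfl fun j _ => ?_
      rw [eval_finsetSum, eval_finsetSum]
      refine Finset.sum_congr rfl fun i _ => ?_
      simp
    rw [h4, h3, hxy, map_zero, mul_zero]

end Descend

section Sep

variable {A : Type*} [CommRing A] [IsDomain A] [CharZero A]

omit [CharZero A] in
theorem clear (F : Type*) [Field F] [Algebra A[X] F] [IsFractionRing A[X] F] (p : F[X]) :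
    ∃ (d : A[X]) (q : A[X][X]), d ≠ 0 ∧
      q.map (algebraMap A[X] F) = C (algebraMap A[X] F d) * p := by
  obtain ⟨b, hb0, hb⟩ := IsLocalization.integerNormalization_spec (nonZeroDivisors A[X]) p
  refine ⟨b, IsLocalization.integerNormalization (nonZeroDivisors A[X]) p,
    nonZeroDivisors.ne_zero hb0, ?_⟩
  rw [hb]
  ext n
  rw [coeff_C_mul, coeff_smul, Algebra.smul_def]

/-- The squarefree part of a plane curve and its discriminant. -/
theorem sep (P : A[X][X]) (hP : P ≠ 0) :
    ∃ (Q U V : A[X][X]) (ω : A[X]), ω ≠ 0 ∧ U * Q + V * derivative Q = C ω ∧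
      ∀ x y : A, P.evalEval x y = 0 → Q.evalEval x y = 0 := by
  classical
  let F := FractionRing A[X]
  haveI : CharZero F := charZero_of_injective_algebraMap
    (R := A[X]) (IsFractionRing.injective A[X] F)
  have hinj : Function.Injective (Polynomial.map (algebraMap A[X] F)) :=
    Polynomial.map_injective _ (IsFractionRing.injective A[X] F)
  set P' := P.map (algebraMap A[X] F) with hP'
  have hP0 : P' ≠ 0 := (Polynomial.map_ne_zero_iff (IsFractionRing.injective A[X] F)).mpr hP
  obtain ⟨N, T, hT⟩ := UniqueFactorizationMonoid.exists_dvd_radical_self_pow hP0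
  set R := UniqueFactorizationMonoid.radical P' with hR
  have hsf : Squarefree R := UniqueFactorizationMonoid.squarefree_radical
  have hsep : R.Separable := PerfectField.separable_iff_squarefree.mpr hsf
  obtain ⟨u, v, huv⟩ := hsep
  obtain ⟨d₁, Q₀, hd₁, hQ₀⟩ := clear (A := A) F R
  obtain ⟨d₂, U₀, hd₂, hU₀⟩ := clear (A := A) F u
  obtain ⟨d₃, V₀, hd₃, hV₀⟩ := clear (A := A) F v
  obtain ⟨d₄, T₀, hd₄, hT₀⟩ := clear (A := A) F T
  have e1 : C d₃ * U₀ * Q₀ + C d₂ * V₀ * derivative Q₀ = C (d₁ * d₂ * d₃) := by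
    apply hinj
    rw [Polynomial.map_add, Polynomial.map_mul, Polynomial.map_mul, Polynomial.map_mul,
      Polynomial.map_mul, ← derivative_map, hQ₀, hU₀, hV₀]
    simp only [Polynomial.map_C, map_mul, Polynomial.map_mul, derivative_mul, derivative_C,
      zero_mul, zero_add]
    linear_combination (C ((algebraMap A[X] F) d₁) * C ((algebraMap A[X] F) d₂) *
      C ((algebraMap A[X] F) d₃)) * huv
  have e2 : P * T₀ * C (d₁ ^ N) = C d₄ * Q₀ ^ N := by
    apply hinj
    rw [Polynomial.map_mul, Polynomial.map_mul, Polynomial.map_mul, Polynomial.map_pow,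
      hQ₀, hT₀, ← hP', mul_pow, hT]
    simp only [Polynomial.map_C, map_pow, Polynomial.map_pow]
    ring
  refine ⟨C d₄ * Q₀, C d₃ * U₀, C d₂ * V₀, d₁ * d₂ * d₃ * d₄, ?_, ?_, ?_⟩
  · exact mul_ne_zero (mul_ne_zero (mul_ne_zero hd₁ hd₂) hd₃) hd₄
  · rw [derivative_mul, derivative_C, zero_mul, zero_add, map_mul C (d₁ * d₂ * d₃) d₄, ← e1]
    ring
  · intro x y hxy
    have h1 := congrArg (evalEval x y) e2
    rw [evalEval_mul, evalEval_mul, hxy, zero_mul, zero_mul, evalEval_mul, evalEval_pow,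
      evalEval_C] at h1
    rw [evalEval_mul, evalEval_C]
    rcases mul_eq_zero.mp h1.symm with h2 | h2
    · rw [h2, zero_mul]
    · rw [eq_zero_of_pow_eq_zero h2, mul_zero]

end Sep

section Two

variable {A K : Type*} [CommRing A] [IsDomain A] [CharZero A] [IsLocalRing A]
  [IsNoetherianRing A] [Field K]

/-- Two orbits over the same recurrent base orbit that approach each other: one is dense. -/
theorem two_orbits (ι : A →+* K) (hι : Function.Injective ι) (x y y' : ℕ → A)
    (hx : (Set.range x).Infinite)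
    (hrec : ∀ m s T0 : ℕ, ∃ t, T0 ≤ t ∧ x t - x m ∈ IsLocalRing.maximalIdeal A ^ s)
    (hD0 : ∀ t, y t ≠ y' t)
    (hD : ∀ s : ℕ, ∃ T0, ∀ t, T0 ≤ t → y t - y' t ∈ IsLocalRing.maximalIdeal A ^ s) :
    (∀ P : K[X][X], (∀ t, P.evalEval (ι (x t)) (ι (y t)) = 0) → P = 0) ∨
    (∀ P : K[X][X], (∀ t, P.evalEval (ι (x t)) (ι (y' t)) = 0) → P = 0) := by
  by_contra hcon
  push Not at hcon
  obtain ⟨⟨P₁, h₁, h₁0⟩, ⟨P₂, h₂, h₂0⟩⟩ := hcon
  obtain ⟨Q₁, hQ₁, hz⟩ := descend ι hι (P₁ * P₂) (mul_ne_zero h₁0 h₂0)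
  obtain ⟨Q, U, V, ω, hω, huv, hQ⟩ := sep Q₁ hQ₁
  have hy : ∀ t, Q.evalEval (x t) (y t) = 0 := fun t =>
    hQ _ _ (hz _ _ (by rw [evalEval_mul, h₁ t, zero_mul]))
  have hy' : ∀ t, Q.evalEval (x t) (y' t) = 0 := fun t =>
    hQ _ _ (hz _ _ (by rw [evalEval_mul, h₂ t, mul_zero]))
  have key : ∀ t, ∃ c, ω.eval (x t) = c * (y t - y' t) := by
    intro t
    obtain ⟨c, hc⟩ := binomExpansion (Q.map (evalRingHom (x t))) (y' t) (y t - y' t)
    have e : ∀ (p : A[X][X]) (z : A), (p.map (evalRingHom (x t))).eval z = p.evalEval (x t) z :=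
      fun p z => map_evalRingHom_eval _ _ _
    rw [add_sub_cancel, e, e, hy, hy', derivative_map, e, zero_add] at hc
    have h3 : (y t - y' t) * ((derivative Q).evalEval (x t) (y' t) + c * (y t - y' t)) = 0 := by
      rw [hc]; ring
    rcases mul_eq_zero.mp h3 with h4 | h4
    · exact absurd (sub_eq_zero.mp h4) (hD0 t)
    · have h5 := congrArg (evalEval (x t) (y' t)) huv
      rw [evalEval_add, evalEval_mul, evalEval_mul, hy', mul_zero, zero_add, evalEval_C] at h5
      refine ⟨- (V.evalEval (x t) (y' t) * c), ?_⟩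
      rw [← h5, eq_neg_of_add_eq_zero_left h4]
      ring
  have hzero : ∀ m, ω.eval (x m) = 0 := by
    intro m
    have h3 : ω.eval (x m) ∈ ⨅ s : ℕ, IsLocalRing.maximalIdeal A ^ s := by
      rw [Submodule.mem_iInf]
      intro s
      obtain ⟨T0, hT0⟩ := hD s
      obtain ⟨t, ht, hxt⟩ := hrec m s T0
      obtain ⟨c, hc⟩ := key t
      obtain ⟨d, hd⟩ := sub_dvd_eval_sub (x t) (x m) ω
      have h4 : ω.eval (x m) = c * (y t - y' t) - d * (x t - x m) := by
        rw [← hc]
        linear_combination - hd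
      rw [h4]
      exact Ideal.sub_mem _ (Ideal.mul_mem_left _ _ (hT0 t ht)) (Ideal.mul_mem_left _ _ hxt)
    rwa [Ideal.iInf_pow_eq_bot_of_isLocalRing _ (IsLocalRing.maximalIdeal.isMaximal A).ne_top,
      Ideal.mem_bot] at h3
  apply hω
  refine Polynomial.eq_zero_of_infinite_isRoot ω (hx.mono ?_)
  rintro _ ⟨m, rfl⟩
  exact hzero m

end Two

end Pool.Agent.MP_b6294e_wc
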