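import Pool.Agent.Lib.MP_b6294e_wc.Prep
import Pool.Agent.Lib.MP_b6294e_wc.Stage1

/-!
# Dense orbits over a base map with a wandering or periodic critical point
-/

set_option linter.style.haveILetI false

namespace Pool.Agent.MP_b6294e_wc

open Polynomial Pool.Agent.MP_b6294e

universe u

theorem nonunits_add {K : Type u} [Field K] (V : ValuationSubring K) {z z' : K}
    (h : z ∈ V.nonunits) (h' : z' ∈ V.nonunits) : z + z' ∈ V.nonunits := by
  rw [ValuationSubring.mem_nonunits_iff] at h h' ⊢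
  exact (V.valuation.map_add z z').trans_lt (max_lt h h')

theorem common (K : Type u) [Field K] [CharZero K] [IsAlgClosed K]
    (halg : Algebra.IsAlgebraic ℚ K) (V : ValuationSubring K) (r d : ℕ) (T : Set K)
    (hT : T.Finite) (hPl : Pl T V r d) (a₀ b₀ h : K[X]) (a₁ b₁ G G' : K[X][X]) (hh : h ≠ 0)
    (hGG : G = C h * G')
    (Ta₀ : ∀ i, a₀.coeff i ∈ T) (Tb₀ : ∀ i, b₀.coeff i ∈ T)
    (Ta₁ : ∀ i j, (a₁.coeff i).coeff j ∈ T) (Tb₁ : ∀ i j, (b₁.coeff i).coeff j ∈ T)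
    (TG : ∀ i j, (G'.coeff i).coeff j ∈ T)
    (n : ℕ) (hn : 0 < n) (κ z : ℕ → K) (Tκ : κ 0 ∈ T)
    (h0 : ∀ t, b₀.eval (κ t) * κ (t + 1) = a₀.eval (κ t))
    (Vκ : ∀ t, κ t ∈ V) (Vb : ∀ t, b₀.eval (κ t) ∉ V.nonunits)
    (hκn : ∀ t, κ (t + n) - κ t ∈ V.nonunits) (hcr : (wr a₀ b₀).eval (κ 0) = 0)
    (hzb : ∀ t, b₀.eval (z t) ≠ 0) (hz : ∀ t, b₀.eval (z t) * z (t + 1) = a₀.eval (z t))
    (hinj : Function.Injective z) (hzκ : ∀ t, z t - κ t ∈ V.nonunits)
    (hΛ : ∀ t, ∃ i, ((wr a₁ b₁ * G').map (evalRingHom (κ t))).coeff i ∉ V.nonunits)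
    (hNI : NotId V T a₁ b₁ n κ) :
    ∃ x y : ℕ → K, (∀ t, b₀.eval (x t) ≠ 0) ∧ (∀ t, b₀.eval (x t) * x (t + 1) = a₀.eval (x t)) ∧
      (∀ t, b₁.evalEval (x t) (y t) ≠ 0) ∧
      (∀ t, b₁.evalEval (x t) (y t) * y (t + 1) = a₁.evalEval (x t) (y t)) ∧
      (∀ t, G.evalEval (x t) (y t) ≠ 0) ∧
      ∀ P : K[X][X], (∀ t, P.evalEval (x t) (y t) = 0) → P = 0 := by
  classical
  -- avoid the roots of the factor `h`
  obtain ⟨j, hj⟩ : ∃ j, ∀ t, h.eval (z (t + n * j)) ≠ 0 := by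
    have h1 : {t : ℕ | h.eval (z t) = 0}.Finite := by
      have h2 : z '' {t : ℕ | h.eval (z t) = 0} ⊆ (h.roots.toFinset : Set K) := by
        rintro _ ⟨t, ht, rfl⟩
        rw [Finset.mem_coe, Multiset.mem_toFinset, mem_roots hh]
        exact ht
      exact Set.Finite.of_finite_image ((Finset.finite_toSet _).subset h2) hinj.injOn
    obtain ⟨B, hB⟩ := h1.bddAbove
    refine ⟨B + 1, fun t ht => ?_⟩
    have h3 := hB ht
    have h4 : B + 1 ≤ n * (B + 1) := Nat.le_mul_of_pos_left _ hn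
    omega
  have hκj' : ∀ j t, κ (t + n * j) - κ t ∈ V.nonunits := by
    intro j t
    induction j with
    | zero =>
      rw [mul_zero, add_zero, sub_self]
      exact zero_mem_nonunits V
    | succ j ih =>
      have h1 := nonunits_add V (hκn (t + n * j)) ih
      rwa [sub_add_sub_cancel, show t + n * j + n = t + n * (j + 1) by ring] at h1
  have hκj := hκj' j
  obtain ⟨y, hy1, hy2, hy3, hy4⟩ := stage2 K halg V r d hPl.hr hPl.hd hPl.hrV T hT hPl.hT hPl.hF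
    a₀ b₀ a₁ b₁ G' Ta₀ Tb₀ Ta₁ Tb₁ TG n hn κ (fun t => z (t + n * j)) Tκ h0 Vκ Vb
    (by
      have h1 := hκn 0
      rwa [zero_add] at h1)
    hcr
    (fun t => by
      rw [show t + 1 + n * j = t + n * j + 1 by ring]
      exact hz _)
    (fun i i' hii => by
      have := hinj hii
      omega)
    (fun t => by
      have h1 := nonunits_add V (hzκ (t + n * j)) (hκj t)
      rwa [sub_add_sub_cancel] at h1)
    hΛ hNI
  refine ⟨fun t => z (t + n * j), y, fun t => hzb _, fun t => ?_, hy1, hy2, fun t => ?_, hy4⟩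
  · dsimp only
    rw [show t + 1 + n * j = t + n * j + 1 by ring]
    exact hz _
  · rw [hGG, evalEval_mul]
    refine mul_ne_zero ?_ (hy3 t)
    rw [evalEval_C]
    exact hj t

end Pool.Agent.MP_b6294e_wc
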